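import Pool.Agent.Lib.MP_ccbbf6_gt.ML

/-!
# Level 7: the volumes of the sphere and of the real projective space
-/

set_option autoImplicit false

open MeasureTheory Set Metric Real
open scoped ENNReal

noncomputable section

namespace Pool.Agent.Lib.MP_ccbbf6_gt.L7

/-- the integral of the powers of the sine -/
theorem sin_pow_Gamma (n : ℕ) : (∫ t in (0 : ℝ)..π, Real.sin t ^ n) * Real.Gamma ((n : ℝ) / 2 + 1) =
    √π * Real.Gamma (((n : ℝ) + 1) / 2) := by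
  induction n using Nat.twoStepInduction with
  | zero =>
    simp only [pow_zero, intervalIntegral.integral_const, smul_eq_mul, mul_one, sub_zero, Nat.cast_zero, zero_div,
      zero_add, Real.Gamma_one]
    rw [Real.Gamma_one_half_eq, Real.mul_self_sqrt Real.pi_pos.le]
  | one =>
    simp only [pow_one, Nat.cast_one]
    rw [integral_sin, Real.cos_zero, Real.cos_pi, show ((1 : ℝ) / 2 + 1) = 1 / 2 + 1 by rfl,
      Real.Gamma_add_one (by norm_num), Real.Gamma_one_half_eq, show ((1 : ℝ) + 1) / 2 = 1 by norm_num,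
      Real.Gamma_one]
    ring
  | more n h1 _ =>
    rw [integral_sin_pow]
    have e1 : ((n + 2 : ℕ) : ℝ) / 2 + 1 = ((n : ℝ) / 2 + 1) + 1 := by
      push_cast
      ring
    have e2 : (((n + 2 : ℕ) : ℝ) + 1) / 2 = ((n : ℝ) + 1) / 2 + 1 := by
      push_cast
      ring
    have h3 : (0 : ℝ) < (n : ℝ) / 2 + 1 := by positivity
    have h4 : (0 : ℝ) < ((n : ℝ) + 1) / 2 := by positivity
    rw [e1, e2, Real.Gamma_add_one h3.ne', Real.Gamma_add_one h4.ne']
    have h5 : Real.sin π ^ (n + 1) = 0 := by rw [Real.sin_pi, zero_pow (by omega)]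
    have h6 : Real.sin 0 ^ (n + 1) = 0 := by rw [Real.sin_zero, zero_pow (by omega)]
    rw [h5, h6]
    have h7 : (n : ℝ) + 2 ≠ 0 := by positivity
    calc ((0 * Real.cos 0 - 0 * Real.cos π) / ((n : ℝ) + 2) +
          ((n : ℝ) + 1) / ((n : ℝ) + 2) * ∫ t in (0 : ℝ)..π, Real.sin t ^ n) *
          (((n : ℝ) / 2 + 1) * Real.Gamma ((n : ℝ) / 2 + 1)) =
        (((n : ℝ) + 1) / 2) * ((∫ t in (0 : ℝ)..π, Real.sin t ^ n) * Real.Gamma ((n : ℝ) / 2 + 1)) := by
          field_simp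
          ring
      _ = √π * (((n : ℝ) + 1) / 2 * Real.Gamma (((n : ℝ) + 1) / 2)) := by
          rw [h1]
          ring

/-- the normalisation of the volume of the sphere -/
theorem sphere_identity {n : ℕ} (hn : 0 < n) :
    ((n - 1).factorial : ℝ) * (n * (√π ^ n / Real.Gamma ((n : ℝ) / 2 + 1))) ^ 2 *
      (∫ t in (0 : ℝ)..π, Real.sin t ^ (n - 1)) = 2 * (2 * π) ^ n := by
  obtain ⟨k, rfl⟩ : ∃ k, n = k + 1 := ⟨n - 1, by omega⟩
  rw [Nat.add_sub_cancel]
  have h1 := sin_pow_Gamma k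
  have h2 := Real.Gamma_mul_Gamma_add_half (((k : ℝ) + 1) / 2)
  have e1 : (k : ℝ) / 2 + 1 = ((k : ℝ) + 1) / 2 + 1 / 2 := by ring
  have e2 : (((k + 1 : ℕ) : ℝ)) / 2 + 1 = ((k : ℝ) + 1) / 2 + 1 := by
    push_cast
    ring
  have h3 : (0 : ℝ) < ((k : ℝ) + 1) / 2 := by positivity
  rw [e1] at h1
  rw [e2, Real.Gamma_add_one h3.ne']
  have h4 : Real.Gamma (2 * (((k : ℝ) + 1) / 2)) = k.factorial := by
    rw [show 2 * (((k : ℝ) + 1) / 2) = (k : ℝ) + 1 by ring, Real.Gamma_nat_eq_factorial]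
  rw [h4] at h2
  have h5 : (2 : ℝ) ^ (1 - 2 * (((k : ℝ) + 1) / 2)) = ((2 : ℝ) ^ k)⁻¹ := by
    rw [show 1 - 2 * (((k : ℝ) + 1) / 2) = -(k : ℝ) by ring, Real.rpow_neg (by norm_num), Real.rpow_natCast]
  rw [h5] at h2
  have hG : 0 < Real.Gamma (((k : ℝ) + 1) / 2) := Real.Gamma_pos_of_pos h3
  have hH : 0 < Real.Gamma (((k : ℝ) + 1) / 2 + 1 / 2) := Real.Gamma_pos_of_pos (by positivity)
  have hs : 0 < √π := Real.sqrt_pos.2 Real.pi_pos
  have hss : √π * √π = π := Real.mul_self_sqrt Real.pi_pos.le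
  have hpow : √π ^ (k + 1) * √π ^ (k + 1) = π ^ (k + 1) := by rw [← mul_pow, hss]
  generalize hA : Real.Gamma (((k : ℝ) + 1) / 2) = G at *
  generalize hB : Real.Gamma (((k : ℝ) + 1) / 2 + 1 / 2) = H at *
  generalize hI : ∫ t in (0 : ℝ)..π, Real.sin t ^ k = I at *
  have h6 : I = √π * G / H := by
    rw [eq_div_iff hH.ne']
    exact h1
  have h7 : (k.factorial : ℝ) = G * H * 2 ^ k / √π := by
    rw [h2]
    field_simp
  have h8 : ((k + 1 : ℕ) : ℝ) = 2 * (((k : ℝ) + 1) / 2) := by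
    push_cast
    ring
  rw [h6, h7, h8]
  have h9 : (((k : ℝ) + 1) / 2) ≠ 0 := h3.ne'
  have h10 : (2 * (((k : ℝ) + 1) / 2) * (√π ^ (k + 1) / (((k : ℝ) + 1) / 2 * G))) = 2 * √π ^ (k + 1) / G := by
    field_simp
  rw [h10]
  calc G * H * 2 ^ k / √π * (2 * √π ^ (k + 1) / G) ^ 2 * (√π * G / H) =
      2 ^ k * 4 * (√π ^ (k + 1) * √π ^ (k + 1)) := by
        field_simp
        ring
    _ = 2 * (2 * π) ^ (k + 1) := by
        rw [hpow]
        ring

end Pool.Agent.Lib.MP_ccbbf6_gt.L7
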