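import Pool.Agent.Lib.MP_ccbbf6_gt.L5.VOLb
import Pool.Agent.Lib.MP_ccbbf6_gt.L7.VO1

/-!
# Level 7: from the bound of `∫ η (dη) ^ (n - 1)` to the model (`κ = n - 1` and `κ = 0`)
-/

set_option autoImplicit false
set_option maxSynthPendingDepth 3

open MeasureTheory Measure Set Filter Topology Metric Real Module
open scoped ContDiff RealInnerProductSpace ENNReal

noncomputable section

namespace Pool.Agent.Lib.MP_ccbbf6_gt.L7

open Geo L4 L4.FR L5

/-- the volume of the unit ball -/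
theorem ball_toReal {n : ℕ} (hn : 0 < n) : (volume (ball (0 : EuclideanSpace ℝ (Fin n)) 1)).toReal =
    √π ^ n / Real.Gamma ((n : ℝ) / 2 + 1) := by
  have : Nonempty (Fin n) := ⟨⟨0, hn⟩⟩
  rw [EuclideanSpace.volume_ball, ENNReal.ofReal_one, one_pow, one_mul, Fintype.card_fin, ENNReal.toReal_ofReal]
  exact div_nonneg (pow_nonneg (Real.sqrt_nonneg _) _) (Real.Gamma_pos_of_pos (by positivity)).le

theorem integral_sin_nonneg (n : ℕ) : 0 ≤ ∫ t in (0 : ℝ)..π, Real.sin t ^ n :=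
  intervalIntegral.integral_nonneg Real.pi_pos.le fun _ ht => pow_nonneg (Real.sin_nonneg_of_mem_Icc ht) _

/-- the volume of the round sphere -/
theorem modelVolume_sphere {n : ℕ} (hn : 0 < n) : Blaschke.modelVolume n (n - 1) =
    ENNReal.ofReal (n * (√π ^ n / Real.Gamma ((n : ℝ) / 2 + 1)) * ∫ t in (0 : ℝ)..π, Real.sin t ^ (n - 1)) := by
  unfold Blaschke.modelVolume
  have e : n - 1 - (n - 1) = 0 := Nat.sub_self _
  have h0 : (0 : ℝ) ≤ √π ^ n / Real.Gamma ((n : ℝ) / 2 + 1) :=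
    div_nonneg (pow_nonneg (Real.sqrt_nonneg _) _) (Real.Gamma_pos_of_pos (by positivity)).le
  have h2 : volume (ball (0 : EuclideanSpace ℝ (Fin n)) 1) ≠ ⊤ := measure_ball_lt_top.ne
  have h3 : ((n : ℕ) : ℝ≥0∞) = ENNReal.ofReal n := (ENNReal.ofReal_natCast n).symm
  rw [e, h3, ← ENNReal.ofReal_toReal h2, ball_toReal hn, ← ENNReal.ofReal_mul (by positivity),
    ← ENNReal.ofReal_mul (by positivity)]
  simp only [pow_zero, mul_one]

theorem integral_half (n : ℕ) : ∫ t in (0 : ℝ)..π, (2 * Real.sin (t / 2)) ^ n =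
    2 ^ n * ∫ t in (0 : ℝ)..π, Real.sin t ^ n := by
  have h1 : ∫ t in (0 : ℝ)..π, (2 * Real.sin (t / 2)) ^ n = 2 ^ n * ∫ t in (0 : ℝ)..π, Real.sin (t / 2) ^ n := by
    rw [← intervalIntegral.integral_const_mul]
    exact intervalIntegral.integral_congr fun t _ => mul_pow _ _ _
  have h2 : ∫ t in (0 : ℝ)..π, Real.sin (t / 2) ^ n = 2 * ∫ t in (0 : ℝ)..(π / 2), Real.sin t ^ n := by
    have h := intervalIntegral.integral_comp_div (fun t : ℝ => Real.sin t ^ n) (a := 0) (b := π) (c := 2) two_ne_zero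
    rw [h, zero_div, smul_eq_mul]
  have h3 : ∫ t in (π / 2)..π, Real.sin t ^ n = ∫ t in (0 : ℝ)..(π / 2), Real.sin t ^ n := by
    have h := intervalIntegral.integral_comp_sub_left (fun t : ℝ => Real.sin t ^ n) (a := 0) (b := π / 2) π
    rw [show π - π / 2 = π / 2 by ring, sub_zero] at h
    rw [← h]
    exact intervalIntegral.integral_congr fun t _ => by simp only [Real.sin_pi_sub]
  have hi : ∀ a b : ℝ, IntervalIntegrable (fun t : ℝ => Real.sin t ^ n) volume a b := fun a b =>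
    (Real.continuous_sin.pow n).intervalIntegrable a b
  have h4 := intervalIntegral.integral_add_adjacent_intervals (hi 0 (π / 2)) (hi (π / 2) π)
  rw [h1, h2, ← h4, h3]
  ring

/-- the volume of the real projective space -/
theorem modelVolume_proj {n : ℕ} (hn : 0 < n) : Blaschke.modelVolume n 0 =
    ENNReal.ofReal (2 ^ (n - 1) * (n * (√π ^ n / Real.Gamma ((n : ℝ) / 2 + 1)) *
      ∫ t in (0 : ℝ)..π, Real.sin t ^ (n - 1))) := by
  unfold Blaschke.modelVolume
  have h0 : (0 : ℝ) ≤ √π ^ n / Real.Gamma ((n : ℝ) / 2 + 1) :=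
    div_nonneg (pow_nonneg (Real.sqrt_nonneg _) _) (Real.Gamma_pos_of_pos (by positivity)).le
  have h2 : volume (ball (0 : EuclideanSpace ℝ (Fin n)) 1) ≠ ⊤ := measure_ball_lt_top.ne
  have h3 : ((n : ℕ) : ℝ≥0∞) = ENNReal.ofReal n := (ENNReal.ofReal_natCast n).symm
  have h4 : ∫ t in (0 : ℝ)..π, Real.sin t ^ 0 * (2 * Real.sin (t / 2)) ^ (n - 1 - 0) =
      2 ^ (n - 1) * ∫ t in (0 : ℝ)..π, Real.sin t ^ (n - 1) := by
    rw [← integral_half]
    refine intervalIntegral.integral_congr fun t _ => ?_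
    simp only [pow_zero, one_mul, Nat.sub_zero]
  rw [h4, h3, ← ENNReal.ofReal_toReal h2, ball_toReal hn, ← ENNReal.ofReal_mul (by positivity),
    ← ENNReal.ofReal_mul (by positivity)]
  congr 1
  ring

/-- the final arithmetic -/
theorem final_real {n : ℕ} (hn : 0 < n) {V c : ℝ}
    (h : ((n - 1).factorial : ℝ) * n * (√π ^ n / Real.Gamma ((n : ℝ) / 2 + 1)) * V / (2 * π) ^ n ≤ 2 * c) :
    V ≤ c * (n * (√π ^ n / Real.Gamma ((n : ℝ) / 2 + 1)) * ∫ t in (0 : ℝ)..π, Real.sin t ^ (n - 1)) := by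
  have hπ := Real.pi_pos
  have hid := sphere_identity hn
  have hG : 0 < Real.Gamma ((n : ℝ) / 2 + 1) := Real.Gamma_pos_of_pos (by positivity)
  have hB : 0 < √π ^ n / Real.Gamma ((n : ℝ) / 2 + 1) := div_pos (pow_pos (Real.sqrt_pos.2 hπ) _) hG
  generalize √π ^ n / Real.Gamma ((n : ℝ) / 2 + 1) = B at *
  generalize ∫ t in (0 : ℝ)..π, Real.sin t ^ (n - 1) = I at *
  have hn' : (0 : ℝ) < n := by exact_mod_cast hn
  have hf : (0 : ℝ) < (n - 1).factorial := by exact_mod_cast Nat.factorial_pos _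
  have hp : (0 : ℝ) < (2 * π) ^ n := by positivity
  rw [div_le_iff₀ hp] at h
  have h1 : ((n - 1).factorial : ℝ) * n * B * V ≤ ((n - 1).factorial : ℝ) * n * B * (c * (n * B * I)) := by
    calc ((n - 1).factorial : ℝ) * n * B * V ≤ 2 * c * (2 * π) ^ n := h
      _ = c * (2 * (2 * π) ^ n) := by ring
      _ = _ := by
        rw [← hid]
        ring
  exact le_of_mul_le_mul_left h1 (by positivity)

/-- the bound of the volume from the bound of `∫ η (dη) ^ (n - 1)` -/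
theorem vol_le {n : ℕ} (hn : 0 < n) {M : Type} [MetricSpace M] [CompactSpace M] [MeasurableSpace M]
    [BorelSpace M] {𝒜 : SDist n M} (hB : Bl M) {c : ℝ}
    (h : |TG hB (AL hB 𝒜 * dO _ (AL hB 𝒜) ^ (n - 1))| ≤ 2 * c) :
    (μHE[n] : Measure M) univ ≤ ENNReal.ofReal (c * (n * (√π ^ n / Real.Gamma ((n : ℝ) / 2 + 1)) *
      ∫ t in (0 : ℝ)..π, Real.sin t ^ (n - 1))) := by
  have hfin : (μHE[n] : Measure M) univ ≠ ⊤ := by
    have := finite_of_sdist 𝒜
    exact measure_ne_top _ _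
  rw [← ENNReal.ofReal_toReal hfin]
  refine ENNReal.ofReal_le_ofReal (final_real hn (le_trans (le_of_eq ?_) h))
  rw [abs_TG_AL hn hB, ball_toReal hn]
  ring

/-- **`κ = n - 1`**: from the bound of `∫ η (dη) ^ (n - 1)` to the round sphere. -/
theorem isModel_sphere {n : ℕ} (hn : 2 ≤ n) {M : Type} [MetricSpace M] [CompactSpace M] [MeasurableSpace M]
    [BorelSpace M] [Nonempty M] (𝒜 : SDist n M) (hB : Bl M) (hk : 𝒜.HK (n - 1))
    (h : |TG hB (AL hB 𝒜 * dO _ (AL hB 𝒜) ^ (n - 1))| ≤ 2) : Blaschke.IsModel n (n - 1) M := by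
  refine isModel_of_le (by omega) 𝒜 hB (by omega) hk ?_
  have h1 := vol_le (n := n) (c := 1) (by omega) hB (by rw [mul_one]; exact h)
  rwa [one_mul, ← modelVolume_sphere (n := n) (by omega)] at h1

/-- **`κ = 0`**: from the bound of `∫ η (dη) ^ (n - 1)` to the real projective space. -/
theorem isModel_proj {n : ℕ} (hn : 2 ≤ n) {M : Type} [MetricSpace M] [CompactSpace M] [MeasurableSpace M]
    [BorelSpace M] [Nonempty M] (𝒜 : SDist n M) (hB : Bl M) (hk : 𝒜.HK 0)
    (h : |TG hB (AL hB 𝒜 * dO _ (AL hB 𝒜) ^ (n - 1))| ≤ 2 ^ n) : Blaschke.IsModel n 0 M := by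
  refine isModel_of_le (by omega) 𝒜 hB (by omega) hk ?_
  have h1 := vol_le (n := n) (c := 2 ^ (n - 1)) (by omega) hB (by
    rw [← pow_succ', Nat.sub_add_cancel (by omega)]
    exact h)
  rwa [← modelVolume_proj (n := n) (by omega)] at h1

end Pool.Agent.Lib.MP_ccbbf6_gt.L7
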