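import Pool.Agent.Lib.MP_ccbbf6_gt.L7.TP7
import Pool.Agent.Lib.MP_ccbbf6_gt.L7.VO2

/-!
# Level 7, TP8: spheres and projective spaces, with the last two inputs as hypotheses (helper79)

* `model_sphere_of`, `model_proj_of`.
-/

set_option autoImplicit false
set_option maxSynthPendingDepth 3
set_option linter.unusedSectionVars false

open scoped ContDiff

noncomputable section

namespace Pool.Agent.Lib.MP_ccbbf6_gt.L7

open Geo L4 L4.FR L5

variable {n : ℕ} {M : Type} [MetricSpace M] [CompactSpace M] {𝒜 : SDist n M}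

theorem exists_Gs (hB : Bl M) (𝒜 : SDist n M) (hn : 1 ≤ n) [Nonempty M] : ∃ _ : Gs M, True := by
  obtain ⟨p⟩ := (inferInstance : Nonempty M)
  have : Nonempty (Fin n) := ⟨⟨0, hn⟩⟩
  exact ⟨gvg 𝒜 hB p (EuclideanSpace.single (Classical.arbitrary (Fin n)) (1 : ℝ)) (by simp), trivial⟩

/-- the last input : great circles -/
def HLam (hB : Bl M) (𝒜 : SDist n M) : Prop :=
  ∀ {δ : ℕ} (cp : Gs M) (hD : Dl 𝒜 (δ : ℝ)), Odd n → ∃ (h : ℕ) (_ : n = 2 * h + 1) (Λ : Ch (spG 𝒜) (2 * h)),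
    LamD n (cov hB cp hD) (circPhi hB 𝒜) (AL hB 𝒜) h Λ

variable (hB : Bl M) [MeasurableSpace M] [BorelSpace M] [Nonempty M]

/-- spheres -/
theorem model_sphere_of (hn : 2 ≤ n) (hk : 𝒜.HK (n - 1)) (hV : DegV n) (hL : HLam hB 𝒜) :
    Blaschke.IsModel n (n - 1) M := by
  obtain ⟨cp, -⟩ := exists_Gs hB 𝒜 (by omega)
  have hD : Dl 𝒜 ((1 : ℕ) : ℝ) := Or.inl ⟨Nat.cast_one, far1_of_HK hB hk (by omega)⟩
  refine isModel_sphere hn 𝒜 hB hk ?_
  have h := TG_AL_le hB cp hn hD hV (hL cp hD)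
  rwa [Nat.cast_one, one_pow, mul_one] at h

/-- projective spaces -/
theorem model_proj_of (hn : 2 ≤ n) (hk : 𝒜.HK 0) (hV : DegV n) (hL : HLam hB 𝒜) : Blaschke.IsModel n 0 M := by
  obtain ⟨cp, -⟩ := exists_Gs hB 𝒜 (by omega)
  have hD : Dl 𝒜 ((2 : ℕ) : ℝ) := Or.inr ⟨by norm_num, hk⟩
  refine isModel_proj hn 𝒜 hB hk ?_
  have h := TG_AL_le hB cp hn hD hV (hL cp hD)
  have e : 2 * ((2 : ℕ) : ℝ) ^ (n - 1) = 2 ^ n := by
    rw [Nat.cast_ofNat, ← pow_succ', Nat.sub_add_cancel (by omega)]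
  rwa [e] at h

end Pool.Agent.Lib.MP_ccbbf6_gt.L7
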