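import Pool.Agent.Lib.MP_ccbbf6_gt.L7.HL
import Pool.Agent.Lib.MP_ccbbf6_gt.L7.TP8

/-!
# Level 7, HM (helper78): `hLam : HLam hB 𝒜`
-/

set_option autoImplicit false

noncomputable section

namespace Pool.Agent.Lib.MP_ccbbf6_gt.L7

open Geo L4 L4.FR L5

variable {n : ℕ} {M : Type} [MetricSpace M] [CompactSpace M] {𝒜 : SDist n M}

/-- **the great circle data** -/
theorem hLam (hB : Bl M) (hn : 2 ≤ n) : HLam hB 𝒜 := fun {_} cp hD ho => lamD hB cp hD hn ho

end Pool.Agent.Lib.MP_ccbbf6_gt.L7
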