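import Pool.Agent.Lib.MP_ccbbf6_gt.L7.DV
import Pool.Agent.Lib.MP_ccbbf6_gt.L7.HM

/-!
# Level 7, FIN: the cases `κ = n - 1` (spheres) and `κ = 0` (real projective spaces) of the Blaschke conjecture
-/

set_option autoImplicit false
set_option linter.unusedSectionVars false

noncomputable section

namespace Pool.Agent.Lib.MP_ccbbf6_gt.L7

open Geo L4 L4.FR L5

variable {n : ℕ} {M : Type} [MetricSpace M] [CompactSpace M] {𝒜 : SDist n M}
variable (hB : Bl M) [MeasurableSpace M] [BorelSpace M] [Nonempty M]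

include hB

/-- **spheres** -/
theorem model_sphere (hn : 2 ≤ n) (hk : 𝒜.HK (n - 1)) : Blaschke.IsModel n (n - 1) M :=
  model_sphere_of hB hn hk (degV hn) (hLam hB hn)

/-- **real projective spaces** -/
theorem model_proj (hn : 2 ≤ n) (hk : 𝒜.HK 0) : Blaschke.IsModel n 0 M :=
  model_proj_of hB hn hk (degV hn) (hLam hB hn)

end Pool.Agent.Lib.MP_ccbbf6_gt.L7
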