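import Pool.Agent.Lib.MP_ccbbf6_gt.L5.EPS01
import Pool.Agent.Lib.MP_ccbbf6_gt.L5.PHI01

/-!
# Level 7, CH0: integer chains of smooth cubes in a space given by plots (helper33)

* `Ch X k` : chains of dimension `k`, `ch y : Om X →ₗ[ℝ] ℝ` integration over the chain `y` (only the part of degree `k` of the form matters);
* `Cl y` : `y` is closed, `ch y (d w) = 0` for all `w`;
* `push f y`, `ch (push f y) w = ch y (f^* w)`; `cyl H y` (the chain of the cubes `(x, s) ↦ H (p x, s)`), `ch (cyl H y) w = (-1)^k ch y (K H^* w)`;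
* `ch_cyl_d` : for closed `y`: `ch (cyl H y) (d w) = (-1)^k (ch (push H_1 y) w - ch (push H_0 y) w)`;
* `kap c` : `w ↦ ι (average of w)`, `kap_kap = 0`, `kap_d`, `kap_mul`; `circ c y` (the circle action on `y`) is closed if `ch y (kap (d w)) = 0`;
* `Bd N y` : `N y` bounds an integer chain; `Bd` is stable under push-forward and homotopy.
-/

set_option autoImplicit false
set_option maxSynthPendingDepth 3

noncomputable section

namespace Pool.Agent.Lib.MP_ccbbf6_gt.L7

open L4 L4.FR L5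

variable {X Y Z : Space} {k : ℕ}

/-- integer chains of smooth `k`-cubes -/
abbrev Ch (X : Space) (k : ℕ) := X.Plot k →₀ ℤ

/-- integration over a cube, as a linear functional on forms -/
def cIL (p : X.Plot k) : Om X →ₗ[ℝ] ℝ where
  toFun w := cI k (Om.on w p)
  map_add' w w' := by rw [on_add, cI_add]
  map_smul' r w := by rw [on_smul, cI_smul]; rfl

@[simp] theorem cIL_apply (p : X.Plot k) (w : Om X) : cIL p w = cI k (Om.on w p) := rfl

/-- integration over a chain -/
def ch (y : Ch X k) : Om X →ₗ[ℝ] ℝ := y.sum fun p m => (m : ℝ) • cIL p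

theorem ch_add (y z : Ch X k) : ch (y + z) = ch y + ch z := by
  unfold ch
  refine Finsupp.sum_add_index' (fun p => ?_) fun p a b => ?_
  · rw [Int.cast_zero, zero_smul]
  · rw [Int.cast_add, add_smul]

theorem ch_zero : ch (0 : Ch X k) = 0 := Finsupp.sum_zero_index

/-- `ch` as a homomorphism -/
def chH (X : Space) (k : ℕ) : Ch X k →+ (Om X →ₗ[ℝ] ℝ) where
  toFun := ch
  map_zero' := ch_zero
  map_add' := ch_add

theorem chH_apply (y : Ch X k) : chH X k y = ch y := rfl

theorem ch_zsmul (m : ℤ) (y : Ch X k) : ch (m • y) = (m : ℝ) • ch y := by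
  have h := map_zsmul (chH X k) m y
  rw [chH_apply, chH_apply] at h
  rw [h]
  exact (Int.cast_smul_eq_zsmul ℝ m (ch y)).symm

theorem ch_neg (y : Ch X k) : ch (-y) = -ch y := map_neg (chH X k) y

theorem ch_sub (y z : Ch X k) : ch (y - z) = ch y - ch z := map_sub (chH X k) y z

theorem ch_single (p : X.Plot k) (m : ℤ) : ch (Finsupp.single p m) = (m : ℝ) • cIL p := by
  unfold ch
  refine Finsupp.sum_single_index ?_
  rw [Int.cast_zero, zero_smul]

theorem ch_eq_sum (y : Ch X k) (w : Om X) : ch y w = ∑ p ∈ y.support, (y p : ℝ) * cI k (Om.on w p) := by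
  unfold ch Finsupp.sum
  rw [LinearMap.sum_apply]
  rfl

/-- two forms which agree on the cubes of a chain -/
theorem ch_congr {y : Ch X k} {w w' : Om X} (h : ∀ p ∈ y.support, cI k (Om.on w p) = cI k (Om.on w' p)) :
    ch y w = ch y w' := by
  rw [ch_eq_sum, ch_eq_sum]
  exact Finset.sum_congr rfl fun p hp => by rw [h p hp]

theorem ch_zero_of {y : Ch X k} {w : Om X} (h : ∀ p ∈ y.support, cI k (Om.on w p) = 0) : ch y w = 0 := by
  rw [ch_eq_sum]
  exact Finset.sum_eq_zero fun p hp => by rw [h p hp, mul_zero]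

/-! ### maps of chains given by maps of plots -/

/-- chain with every cube `p` replaced by `f p` -/
def mapC {l : ℕ} (f : X.Plot k → Y.Plot l) (y : Ch X k) : Ch Y l := Finsupp.mapDomain f y

theorem ch_mapC {l : ℕ} (f : X.Plot k → Y.Plot l) (y : Ch X k) (w : Om Y) {r : ℝ} {w' : Om X}
    (h : ∀ p ∈ y.support, cI l (Om.on w (f p)) = r * cI k (Om.on w' p)) : ch (mapC f y) w = r * ch y w' := by
  classical
  have h1 : ch (mapC f y) = y.sum fun p m => (m : ℝ) • cIL (f p) := by
    unfold ch mapC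
    refine Finsupp.sum_mapDomain_index (fun p => ?_) fun p a b => ?_
    · rw [Int.cast_zero, zero_smul]
    · rw [Int.cast_add, add_smul]
  rw [h1, ch_eq_sum, Finset.mul_sum]
  unfold Finsupp.sum
  rw [LinearMap.sum_apply]
  refine Finset.sum_congr rfl fun p hp => ?_
  change (y p : ℝ) * cI l (Om.on w (f p)) = _
  rw [h p hp]
  ring

theorem mem_mapC {l : ℕ} {f : X.Plot k → Y.Plot l} {y : Ch X k} {q : Y.Plot l} (hq : q ∈ (mapC f y).support) :
    ∃ p ∈ y.support, f p = q := by
  classical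
  have h := Finsupp.mapDomain_support hq
  rwa [Finset.mem_image] at h

/-- image of a chain -/
def push (f : SMap X Y) (y : Ch X k) : Ch Y k := mapC f.pl y

theorem ch_push (f : SMap X Y) (y : Ch X k) (w : Om Y) : ch (push f y) w = ch y (f.pull w) := by
  have h := ch_mapC (r := 1) (w' := f.pull w) f.pl y w fun p _ => by rw [one_mul, on_pull]
  rwa [one_mul] at h

theorem mem_push {f : SMap X Y} {y : Ch X k} {q : Y.Plot k} (hq : q ∈ (push f y).support) : ∃ p ∈ y.support, f.pl p = q :=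
  mem_mapC hq

/-- cylinder of a homotopy -/
def cyl (H : SMap X.xR Y) (y : Ch X k) : Ch Y (k + 1) := mapC (fun p => H.pl p.up) y

theorem ch_cyl (H : SMap X.xR Y) (y : Ch X k) (w : Om Y) : ch (cyl H y) w = (-1) ^ k * ch y (KO X (H.pull w)) :=
  ch_mapC (fun p : X.Plot k => H.pl p.up) y w fun p _ => by rw [cI_KK]; rfl

/-! ### closed chains -/

/-- `y` is closed -/
def Cl (y : Ch X k) : Prop := ∀ w : Om X, ch y (dO X w) = 0

theorem Cl_zero : Cl (0 : Ch X k) := fun w => by rw [ch_zero]; rfl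

theorem Cl.add {y z : Ch X k} (h : Cl y) (h' : Cl z) : Cl (y + z) := fun w => by
  rw [ch_add, LinearMap.add_apply, h, h', add_zero]

theorem Cl.neg {y : Ch X k} (h : Cl y) : Cl (-y) := fun w => by rw [ch_neg, LinearMap.neg_apply, h, neg_zero]

theorem Cl.sub {y z : Ch X k} (h : Cl y) (h' : Cl z) : Cl (y - z) := fun w => by
  rw [ch_sub, LinearMap.sub_apply, h, h', sub_zero]

theorem Cl.zsmul {y : Ch X k} (h : Cl y) (m : ℤ) : Cl (m • y) := fun w => by
  rw [ch_zsmul, LinearMap.smul_apply, h, smul_zero]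

theorem Cl.push {y : Ch X k} (h : Cl y) (f : SMap X Y) : Cl (push f y) := fun w => by
  rw [ch_push, ← pull_d, h]

/-- **Stokes for the cylinder of a homotopy** -/
theorem ch_cyl_d {y : Ch X k} (h : Cl y) (H : SMap X.xR Y) (w : Om Y) : ch (cyl H y) (dO Y w) =
    (-1) ^ k * (ch (push (H.comp (jO X 1)) y) w - ch (push (H.comp (jO X 0)) y) w) := by
  have h1 := d_K (H.pull w)
  have h2 : KO X (H.pull (dO Y w)) = (jO X 1).pull (H.pull w) - (jO X 0).pull (H.pull w) - dO X (KO X (H.pull w)) := by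
    rw [← h1, ← pull_d, add_sub_cancel_left]
  rw [ch_cyl, h2, map_sub, map_sub, h, sub_zero, ch_push, ch_push, pull_comp, pull_comp]

/-! ### boundaries -/

/-- `N y` bounds an integer chain -/
def Bd (N : ℤ) (y : Ch X k) : Prop := ∃ z : Ch X (k + 1), ∀ w : Om X, ch z (dO X w) = N * ch y w

theorem Bd.push {N : ℤ} {y : Ch X k} (h : Bd N y) (f : SMap X Y) : Bd N (push f y) := by
  obtain ⟨z, hz⟩ := h
  exact ⟨L7.push f z, fun w => by rw [ch_push, ch_push, ← pull_d, hz]⟩

theorem Bd.add {N : ℤ} {y y' : Ch X k} (h : Bd N y) (h' : Bd N y') : Bd N (y + y') := by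
  obtain ⟨z, hz⟩ := h
  obtain ⟨z', hz'⟩ := h'
  exact ⟨z + z', fun w => by
    rw [ch_add, ch_add, LinearMap.add_apply, LinearMap.add_apply, hz, hz']
    ring⟩

theorem Bd.smul {N : ℤ} {y : Ch X k} (h : Bd N y) (m : ℤ) : Bd (m * N) y := by
  obtain ⟨z, hz⟩ := h
  exact ⟨m • z, fun w => by
    rw [ch_zsmul, LinearMap.smul_apply, hz, smul_eq_mul]
    push_cast
    ring⟩

/-- the functional of the boundary determines `Bd` -/
theorem Bd.congr {N N' : ℤ} {y y' : Ch X k} (h : Bd N y) (e : ∀ w, (N : ℝ) * ch y w = N' * ch y' w) : Bd N' y' := by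
  obtain ⟨z, hz⟩ := h
  exact ⟨z, fun w => by rw [hz, e]⟩

theorem Bd_of_zero {N : ℤ} {y : Ch X k} (h : ∀ w, ch y w = 0) : Bd N y :=
  ⟨0, fun w => by rw [ch_zero, h, mul_zero]; rfl⟩

/-- homotopic maps -/
theorem Bd_homotopy {y : Ch X k} (h : Cl y) (H : SMap X.xR Y) :
    Bd 1 (push (H.comp (jO X 1)) y - push (H.comp (jO X 0)) y) := by
  refine ⟨((-1 : ℤ) ^ k) • cyl H y, fun w => ?_⟩
  rw [ch_zsmul, LinearMap.smul_apply, ch_cyl_d h, ch_sub, LinearMap.sub_apply, smul_eq_mul, ← mul_assoc]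
  congr 1
  push_cast
  rw [← mul_pow]
  norm_num

/-- if `H_0 = id` and the end of the homotopy bounds (`N` times), then `N y` bounds -/
theorem Bd_of_homotopy {N : ℤ} {y : Ch X k} (h : Cl y) (H : SMap X.xR X) (h0 : ∀ x, H.1 (x, 0) = x)
    (h1 : Bd N (push (H.comp (jO X 1)) y)) : Bd N y := by
  have e : H.comp (jO X 0) = SMap.id X := SMap_ext h0
  have h2 := (Bd_homotopy h H).smul N
  rw [mul_one] at h2
  rw [e] at h2
  have h3 : Bd N (-(push (H.comp (jO X 1)) y - push (SMap.id X) y)) := by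
    obtain ⟨z, hz⟩ := h2
    exact ⟨-z, fun w => by
      rw [ch_neg, ch_neg, LinearMap.neg_apply, LinearMap.neg_apply, hz]
      ring⟩
  refine (h3.add h1).congr fun w => ?_
  rw [ch_add, ch_neg, ch_sub]
  simp only [LinearMap.add_apply, LinearMap.neg_apply, LinearMap.sub_apply, ch_push, pull_id]
  ring

/-! ### the circle action -/

variable (c : Circ X)

/-- contraction of the average, `kap = ι A = ∫ a^*` -/
def kap : Om X →ₗ[ℝ] Om X := (KO X).comp c.a.pull.toLinearMap

theorem kap_apply (w : Om X) : kap c w = KO X (c.a.pull w) := rfl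

theorem kap_eq (w : Om X) : kap c w = iO c (AO c w) := (i_A c w).symm

theorem Bas_kap (w : Om X) : Bas c (kap c w) := by
  rw [kap_eq]
  refine Bas_of c (i_i c _) ?_
  rw [cartan c (A_inv c w), map_neg, i_i, neg_zero]

theorem kap_bas {w : Om X} (h : Bas c w) : kap c w = 0 := by
  refine Om_ext fun k p => ?_
  rw [kap_apply, on_K, on_pull]
  change KK k (Om.on w (c.op p)) = _
  rw [h, KK_pr, on_zero]

theorem kap_kap (w : Om X) : kap c (kap c w) = 0 := kap_bas c (Bas_kap c w)

theorem kap_d (w : Om X) : kap c (dO X w) = -dO X (kap c w) := by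
  rw [kap_eq, kap_eq, ← A_d, cartan c (A_inv c w), neg_neg]

/-- `kap (w x) = (-1)^deg w w kap x` for basic `w` -/
theorem kap_mul {w : Om X} (h : Bas c w) (x : Om X) : kap c (w * x) = sO X w * kap c x := by
  rw [kap_eq, kap_eq, A_mul c h, i_mul, Bas_i c h, zero_mul, zero_add]

/-- `kap (x w) = (kap x) w` for basic `w` which is even -/
theorem kap_mul' {w : Om X} (h : Bas c w) (hs : sO X w = w) (x : Om X) : kap c (x * w) = kap c x * w := by
  rw [← even_comm' hs x, kap_mul c h, hs, even_comm' hs]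

/-- the circle action on a chain -/
def circ (y : Ch X k) : Ch X (k + 1) := cyl c.a y

theorem ch_circ (y : Ch X k) (w : Om X) : ch (circ c y) w = (-1) ^ k * ch y (kap c w) := ch_cyl c.a y w

/-- `circ c y` is closed -/
theorem Cl_circ {y : Ch X k} (h : ∀ w, ch y (kap c (dO X w)) = 0) : Cl (circ c y) := fun w => by
  rw [ch_circ, h, mul_zero]

/-- the closedness of the circle action of a chain `z` with `d z = N S y` -/
theorem circ_closed_of {N : ℤ} {y : Ch X k} {z : Ch X (k + 1 + 1)} (hz : ∀ w, ch z (dO X w) = N * ch (circ c y) w) :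
    ∀ w, ch z (kap c (dO X w)) = 0 := fun w => by
  rw [kap_d, map_neg, hz, ch_circ, kap_kap, map_zero, mul_zero, mul_zero, neg_zero]

end Pool.Agent.Lib.MP_ccbbf6_gt.L7
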