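import Pool.Agent.Lib.MP_ccbbf6_gt.L5.Ext0
import Pool.Agent.Lib.MP_ccbbf6_gt.L7.CH0

/-!
# Level 7, CH1: restriction of chains to open subspaces (helper33)

* `exists_res` : a chain whose plots take values in `U` is the image of a chain of `sub X U`;
* `Cl_res` : this chain is closed if the given chain is closed (cut-off function equal to one near the cubes).
-/

set_option autoImplicit false
set_option maxSynthPendingDepth 3

open Set Filter Topology MeasureTheory
open scoped ContDiff

noncomputable section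

namespace Pool.Agent.Lib.MP_ccbbf6_gt.L7

open L4 L4.FR L5

variable {X : Space} {U : Set X.pt} {k : ℕ}

theorem inU_pl_inj (X : Space) (U : Set X.pt) (k : ℕ) : Function.Injective fun p : (sub X U).Plot k => (inU X U).pl p := by
  intro p p' h
  refine Subtype.ext (funext fun z => Subtype.ext ?_)
  exact congrFun (congrArg Subtype.val h) z

/-- restriction of a chain to a subspace -/
theorem exists_res (y : Ch X k) (h : ∀ p ∈ y.support, ∀ z, p.1 z ∈ U) :
    ∃ y' : Ch (sub X U) k, push (inU X U) y' = y ∧ ∀ p ∈ y'.support, (inU X U).pl p ∈ y.support := by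
  have hinj := inU_pl_inj X U k
  refine ⟨Finsupp.comapDomain (inU X U).pl y (hinj.injOn), Finsupp.mapDomain_comapDomain _ hinj _ fun p hp => ?_,
    fun p hp => ?_⟩
  · exact ⟨⟨fun z => ⟨p.1 z, h p hp z⟩, p.2⟩, rfl⟩
  · rw [Finsupp.mem_support_iff] at hp ⊢
    exact hp

/-- the restriction of a closed chain is closed -/
theorem Cl_res (hU : OpenU X U) {y' : Ch (sub X U) k} (hy : Cl (push (inU X U) y')) {χ : X.pt → ℝ}
    (hf : ∀ (k : ℕ) (p : X.Plot k), ContDiff ℝ ∞ fun x => χ (p.1 x))
    (h0 : ∀ (k : ℕ) (p : X.Plot k) (x : V k), p.1 x ∉ U → ∀ᶠ y in 𝓝 x, χ (p.1 y) = 0)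
    (h1 : ∀ p ∈ y'.support, ∀ z ∈ Icc (0 : V k) 1, ∀ᶠ u in 𝓝 z, χ (p.1 u).1 = 1) : Cl y' := by
  intro w
  have hV := Van_fO hU hf h0
  have e1 : ch y' (dO _ w) = ch y' (dO _ ((inU X U).pull (fO χ hf) * w)) := by
    refine ch_congr fun p hp => cI_congr fun z hz => ?_
    rw [on_d, on_d]
    congr 1
    refine ev_dd_congr ?_
    filter_upwards [h1 p hp z hz] with u hu
    rw [on_mul, map_mul, on_pull, ev_fO]
    change _ = algebraMap ℝ (Ex k) (χ (p.1 u).1) * _
    rw [hu, map_one, one_mul]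
  rw [e1]
  have e2 := hy (ext0 hU _ (Van_mul hV w))
  rw [ch_push, ← pull_d, ext0_res] at e2
  exact e2

end Pool.Agent.Lib.MP_ccbbf6_gt.L7
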