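import Pool.Agent.Lib.MP_ccbbf6_gt.L4.Deg

/-!
# Level 7, block DG, file 0: the degree of a finite integer combination of maps of a compact set is an integer (helper77)

`deg_int_fin`: `Z` compact, boundary of measure zero, `H i : E → E` smooth, integers `m i`; if
`Σ m i ∫_Z ∂_v f (H i x) det = 0` for all `f` with support in the ball of radius `2 R`, then there is an integer `k` with
`Σ m i ∫_Z g (H i x) det = k ∫ g` for all `g` with support in the ball of radius `R`.
-/

set_option autoImplicit false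

open Set Filter Topology Metric MeasureTheory
open scoped ContDiff

noncomputable section

namespace Pool.Agent.Lib.MP_ccbbf6_gt.L7.DG

open L4.DEG

variable {E : Type*} [NormedAddCommGroup E] [NormedSpace ℝ E] [FiniteDimensional ℝ E] [MeasurableSpace E] [BorelSpace E]
  (μ : Measure E) [μ.IsAddHaarMeasure]

section one

variable {H : E → E} (hH : ContDiff ℝ ∞ H) {Z : Set E} (hZ : IsCompact Z)

include hH hZ in
theorem int1 {f : E → ℝ} (hf : Continuous f) : IntegrableOn (fun x => f (H x) * (fderiv ℝ H x).det) Z μ :=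
  ((hf.comp hH.continuous).mul (continuous_detH hH)).continuousOn.integrableOn_compact hZ

include hH hZ in
/-- the local degree near a regular value -/
theorem deg_loc {y₀ : E} (hy₁ : y₀ ∉ H '' (Z \ interior Z)) (hy₀ : ∀ x ∈ Z, H x = y₀ → (fderiv ℝ H x).det ≠ 0) :
    ∃ N ∈ 𝓝 y₀, ∃ k : ℤ, ∀ g : E → ℝ, Continuous g → Function.support g ⊆ N →
      ∫ x in Z, g (H x) * (fderiv ℝ H x).det ∂μ = k * ∫ y, g y ∂μ := by
  classical
  have hPc : IsCompact (Z ∩ H ⁻¹' {y₀}) := hZ.inter_right (isClosed_singleton.preimage hH.continuous)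
  have hPint : ∀ x ∈ Z ∩ H ⁻¹' {y₀}, x ∈ interior Z := by
    intro x hx
    by_contra h
    exact hy₁ ⟨x, ⟨hx.1, h⟩, hx.2⟩
  have hdc : Continuous fun x => (fderiv ℝ H x).det := continuous_detH hH
  -- local inverse
  have hloc : ∀ x, (fderiv ℝ H x).det ≠ 0 → (∀ U ∈ 𝓝 x, H '' U ∈ 𝓝 (H x)) ∧
      ∃ U : Set E, IsOpen U ∧ x ∈ U ∧ InjOn H U ∧ ∀ y ∈ U, 0 < (fderiv ℝ H y).det * (fderiv ℝ H x).det := by
    intro x hx
    set A : E ≃L[ℝ] E := (fderiv ℝ H x).toContinuousLinearEquivOfDetNeZero hx with hA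
    have hAe : (A : E →L[ℝ] E) = fderiv ℝ H x := by ext v; rfl
    have hs : HasStrictFDerivAt H (A : E →L[ℝ] E) x := by
      rw [hAe]
      exact (hH.contDiffAt).hasStrictFDerivAt (by simp)
    refine ⟨fun U hU => ?_, ?_⟩
    · have h := hs.map_nhds_eq_of_equiv
      rw [← h]
      exact image_mem_map hU
    · let e := hs.toOpenPartialHomeomorph H
      refine ⟨e.source ∩ {y | 0 < (fderiv ℝ H y).det * (fderiv ℝ H x).det}, ?_, ⟨?_, ?_⟩, ?_, fun y hy => hy.2⟩
      · exact e.open_source.inter (isOpen_lt continuous_const (hdc.mul continuous_const))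
      · exact hs.mem_toOpenPartialHomeomorph_source
      · exact mul_self_pos.2 hx
      · intro a ha b hb hab
        exact e.injOn ha.1 hb.1 hab
  have hreg : ∀ x ∈ Z ∩ H ⁻¹' {y₀}, (fderiv ℝ H x).det ≠ 0 := fun x hx => hy₀ x hx.1 hx.2
  choose! U hUo hUm hUi hUs using fun x hx => (hloc x (hreg x hx)).2
  -- finiteness
  have hfin : (Z ∩ H ⁻¹' {y₀}).Finite := by
    obtain ⟨t, htP, htc⟩ := hPc.elim_nhds_subcover U (fun x hx => (hUo x hx).mem_nhds (hUm x hx))
    refine (t.finite_toSet).subset fun z hz => ?_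
    obtain ⟨x, hxt, hzx⟩ := mem_iUnion₂.1 (htc hz)
    have hxP := htP x hxt
    have : z = x := hUi x hxP hzx (hUm x hxP) ((show H z = y₀ from hz.2).trans (show H x = y₀ from hxP.2).symm)
    rw [this]; exact hxt
  obtain ⟨V, hV, hVd⟩ := hfin.t2_separation
  set P : Finset E := hfin.toFinset with hP
  have hPm : ∀ x, x ∈ P ↔ x ∈ Z ∩ H ⁻¹' {y₀} := fun x => by rw [hP, Set.Finite.mem_toFinset]
  set W : E → Set E := fun x => (U x ∩ V x) ∩ interior Z with hW
  have hWo : ∀ x ∈ P, IsOpen (W x) := fun x hx =>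
    ((hUo x ((hPm x).1 hx)).inter (hV x).2).inter isOpen_interior
  have hWm : ∀ x ∈ P, x ∈ W x := fun x hx => ⟨⟨hUm x ((hPm x).1 hx), (hV x).1⟩, hPint x ((hPm x).1 hx)⟩
  have hWi : ∀ x ∈ P, InjOn H (W x) := fun x hx =>
    (hUi x ((hPm x).1 hx)).mono (inter_subset_left.trans inter_subset_left)
  have hWZ : ∀ x ∈ P, W x ⊆ Z := fun x _ => inter_subset_right.trans interior_subset
  have hWd : (P : Set E).PairwiseDisjoint W := by
    intro a ha b hb hab
    have := hVd (show a ∈ Z ∩ H ⁻¹' {y₀} from (hPm a).1 ha) (show b ∈ Z ∩ H ⁻¹' {y₀} from (hPm b).1 hb) hab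
    exact this.mono (inter_subset_left.trans inter_subset_right) (inter_subset_left.trans inter_subset_right)
  have hWU : IsOpen (⋃ x ∈ P, W x) := isOpen_biUnion hWo
  -- the good neighbourhood
  have hN1 : (H '' (Z ∩ (⋃ x ∈ P, W x)ᶜ))ᶜ ∈ 𝓝 y₀ := by
    have hc : IsCompact (Z ∩ (⋃ x ∈ P, W x)ᶜ) := hZ.inter_right hWU.isClosed_compl
    refine (hc.image hH.continuous).isClosed.isOpen_compl.mem_nhds ?_
    rintro ⟨x, hx, hxy⟩
    exact hx.2 (mem_iUnion₂.2 ⟨x, (hPm x).2 ⟨hx.1, hxy⟩, hWm x ((hPm x).2 ⟨hx.1, hxy⟩)⟩)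
  have hN2 : (⋂ x ∈ P, H '' W x) ∈ 𝓝 y₀ := by
    rw [Filter.biInter_finset_mem]
    intro x hx
    have h := (hloc x (hreg x ((hPm x).1 hx))).1 (W x) ((hWo x hx).mem_nhds (hWm x hx))
    rwa [((hPm x).1 hx).2] at h
  refine ⟨_, Filter.inter_mem hN1 hN2, ∑ x ∈ P, (if 0 < (fderiv ℝ H x).det then (1 : ℤ) else -1), fun f hf hfs => ?_⟩
  -- the value on `f`
  have hint := int1 μ hH hZ hf
  have hval : ∫ x in Z, f (H x) * (fderiv ℝ H x).det ∂μ
      = ∑ x ∈ P, ∫ z in W x, f (H z) * (fderiv ℝ H z).det ∂μ := by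
    rw [← integral_biUnion_finset P (fun x hx => (hWo x hx).measurableSet) hWd
      (fun x hx => hint.mono_set (hWZ x hx))]
    refine setIntegral_eq_of_subset_of_forall_sdiff_eq_zero hZ.measurableSet (iUnion₂_subset hWZ) fun x hx => ?_
    have : f (H x) = 0 := by
      by_contra hne
      exact (hfs hne).1 ⟨x, ⟨hx.1, hx.2⟩, rfl⟩
    rw [this, zero_mul]
  have hpiece : ∀ x ∈ P, ∫ z in W x, f (H z) * (fderiv ℝ H z).det ∂μ
      = (if 0 < (fderiv ℝ H x).det then (1 : ℤ) else -1 : ℤ) * ∫ y, f y ∂μ := by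
    intro x hx
    have h1 := integral_image_eq_integral_abs_det_fderiv_smul μ (f' := fderiv ℝ H) (hWo x hx).measurableSet
      (fun z _ => (hH.differentiable (by simp) z).hasFDerivAt.hasFDerivWithinAt) (hWi x hx) f
    have h2 : ∫ y in H '' W x, f y ∂μ = ∫ y, f y ∂μ := by
      refine setIntegral_eq_integral_of_forall_compl_eq_zero fun y hy => ?_
      by_contra hne
      exact hy (mem_iInter₂.1 (hfs hne).2 x hx)
    rw [← h2, h1, ← integral_const_mul]
    refine setIntegral_congr_fun (hWo x hx).measurableSet fun z hz => ?_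
    have hs := hUs x ((hPm x).1 hx) z hz.1.1
    simp only [smul_eq_mul]
    split_ifs with hpos'
    · have : 0 < (fderiv ℝ H z).det := by
        by_contra hn
        nlinarith [not_lt.1 hn]
      rw [abs_of_pos this]; push_cast; ring
    · have hx0 := hreg x ((hPm x).1 hx)
      have hx1 : (fderiv ℝ H x).det < 0 := lt_of_le_of_ne (not_lt.1 hpos') hx0
      have : (fderiv ℝ H z).det < 0 := by
        by_contra hn
        nlinarith [not_lt.1 hn]
      rw [abs_of_neg this]; push_cast; ring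
  rw [hval, Finset.sum_congr rfl hpiece, ← Finset.sum_mul]
  push_cast
  rfl

end one

section many

variable {ι : Type*} (s : Finset ι) (m : ι → ℤ) {H : ι → E → E} (hH : ∀ i, ContDiff ℝ ∞ (H i)) {Z : Set E}
  (hZ : IsCompact Z)

/-- the functional -/
def Lf (H : ι → E → E) (Z : Set E) (f : E → ℝ) : ℝ := ∑ i ∈ s, (m i : ℝ) * ∫ x in Z, f (H i x) * (fderiv ℝ (H i) x).det ∂μ

variable {R : ℝ} (hT : ∀ f : E → ℝ, ContDiff ℝ ∞ f → tsupport f ⊆ closedBall 0 (2 * R) → ∀ v : E,
  ∑ i ∈ s, (m i : ℝ) * ∫ x in Z, fderiv ℝ f (H i x) v * (fderiv ℝ (H i) x).det ∂μ = 0)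

omit [FiniteDimensional ℝ E] [MeasurableSpace E] [BorelSpace E] in
theorem tsupport_tr {f : E → ℝ} {a b : ℝ} (hf : tsupport f ⊆ closedBall 0 a) {w : E} (hw : ‖w‖ ≤ b) :
    tsupport (fun y => f (y - w)) ⊆ closedBall 0 (a + b) := by
  refine closure_minimal (fun y hy => ?_) isClosed_closedBall
  have h1 : y - w ∈ tsupport f := subset_tsupport f hy
  have h2 := hf h1
  rw [mem_closedBall, dist_zero_right] at h2 ⊢
  calc ‖y‖ = ‖(y - w) + w‖ := by rw [sub_add_cancel]
    _ ≤ ‖y - w‖ + ‖w‖ := norm_add_le _ _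
    _ ≤ a + b := add_le_add h2 hw

omit [FiniteDimensional ℝ E] [MeasurableSpace E] [BorelSpace E] in
theorem fderiv_tr {f : E → ℝ} (hf : ContDiff ℝ ∞ f) (w y : E) : fderiv ℝ (fun y => f (y - w)) y = fderiv ℝ f (y - w) := by
  have h3 : HasFDerivAt f (fderiv ℝ f (y - w)) (y - w) := (hf.differentiable (by simp) _).hasFDerivAt
  have h5 := h3.comp y ((hasFDerivAt_id (𝕜 := ℝ) y).sub_const w)
  rw [ContinuousLinearMap.comp_id] at h5
  exact h5.fderiv

include hH hZ hT in
/-- translation invariance -/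
theorem Lf_translate {f : E → ℝ} (hf : ContDiff ℝ ∞ f) (hfc : tsupport f ⊆ closedBall 0 R) {v : E} (hv : ‖v‖ ≤ R) :
    Lf μ s m H Z (fun y => f (y - v)) = Lf μ s m H Z f := by
  have hft : ∀ t : ℝ, ContDiff ℝ ∞ fun y => f (y - t • v) := fun t => hf.comp (contDiff_id.sub contDiff_const)
  have hfd : Continuous (fderiv ℝ f) := hf.continuous_fderiv (by simp)
  have hfcs : HasCompactSupport f := (isCompact_closedBall (0 : E) R).of_isClosed_subset (isClosed_tsupport f) hfc
  obtain ⟨C, hC⟩ := (hfcs.fderiv ℝ).exists_bound_of_continuous hfd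
  have key1 : ∀ (i : ι) (t₀ : ℝ), HasDerivAt (fun t : ℝ => ∫ x in Z, f (H i x - t • v) * (fderiv ℝ (H i) x).det ∂μ)
      (∫ x in Z, fderiv ℝ f (H i x - t₀ • v) (-v) * (fderiv ℝ (H i) x).det ∂μ) t₀ := by
    intro i t₀
    have hbd : IntegrableOn (fun a => C * ‖v‖ * |(fderiv ℝ (H i) a).det|) Z μ :=
      (continuous_const.mul (continuous_detH (hH i)).abs).continuousOn.integrableOn_compact hZ
    have h := hasDerivAt_integral_of_dominated_loc_of_deriv_le (μ := μ.restrict Z) (𝕜 := ℝ) (x₀ := t₀) (s := ball t₀ 1)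
      (F := fun t x => f (H i x - t • v) * (fderiv ℝ (H i) x).det)
      (F' := fun t x => fderiv ℝ f (H i x - t • v) (-v) * (fderiv ℝ (H i) x).det)
      (bound := fun a => C * ‖v‖ * |(fderiv ℝ (H i) a).det|)
      (ball_mem_nhds _ one_pos)
      (Eventually.of_forall fun t => (int1 μ (hH i) hZ (hft t).continuous).aestronglyMeasurable)
      (int1 μ (hH i) hZ (hft t₀).continuous)
      (Continuous.aestronglyMeasurable
        (((hfd.comp ((hH i).continuous.sub continuous_const)).clm_apply continuous_const).mul (continuous_detH (hH i))))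
      (Eventually.of_forall fun a t _ => ?_) hbd
      (Eventually.of_forall fun a t ht => ?_)
    · exact h.2
    · change ‖fderiv ℝ f (H i a - t • v) (-v) * (fderiv ℝ (H i) a).det‖ ≤ _
      rw [norm_mul, Real.norm_eq_abs (ContinuousLinearMap.det _)]
      refine mul_le_mul_of_nonneg_right ?_ (abs_nonneg _)
      calc ‖fderiv ℝ f (H i a - t • v) (-v)‖ ≤ ‖fderiv ℝ f (H i a - t • v)‖ * ‖-v‖ := ContinuousLinearMap.le_opNorm _ _
        _ ≤ C * ‖v‖ := by rw [norm_neg]; exact mul_le_mul_of_nonneg_right (hC _) (norm_nonneg v)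
    · have h3 : HasFDerivAt f (fderiv ℝ f (H i a - t • v)) (H i a - t • v) :=
        (hf.differentiable (by simp) _).hasFDerivAt
      have h4 : HasDerivAt (fun t : ℝ => H i a - t • v) (-v) t := by
        have := ((hasDerivAt_id t).smul_const v).const_sub (H i a)
        simpa using this
      exact (h3.comp_hasDerivAt t h4).mul_const _
  have key : ∀ t₀ ∈ Icc (0 : ℝ) 1, HasDerivAt (fun t : ℝ => Lf μ s m H Z (fun y => f (y - t • v))) 0 t₀ := by
    intro t₀ ht₀
    have h1 : HasDerivAt (fun t : ℝ => ∑ i ∈ s, (m i : ℝ) * ∫ x in Z, f (H i x - t • v) * (fderiv ℝ (H i) x).det ∂μ)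
        (∑ i ∈ s, (m i : ℝ) * ∫ x in Z, fderiv ℝ f (H i x - t₀ • v) (-v) * (fderiv ℝ (H i) x).det ∂μ) t₀ :=
      HasDerivAt.fun_sum fun i _ => (key1 i t₀).const_mul _
    have hw : ‖t₀ • v‖ ≤ R := by
      rw [norm_smul, Real.norm_eq_abs, abs_of_nonneg ht₀.1]
      exact (mul_le_of_le_one_left (norm_nonneg v) ht₀.2).trans hv
    have h2 := hT _ (hft t₀) ((tsupport_tr hfc hw).trans_eq (by rw [← two_mul])) (-v)
    simp only [fderiv_tr hf] at h2
    rw [h2] at h1
    exact h1
  have h3 := constant_of_has_deriv_right_zero (f := fun t : ℝ => Lf μ s m H Z (fun y => f (y - t • v))) (a := 0) (b := 1)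
    (fun t ht => (key t ht).continuousAt.continuousWithinAt) (fun t ht => (key t ⟨ht.1, ht.2.le⟩).hasDerivWithinAt)
    1 ⟨zero_le_one, le_rfl⟩
  simpa using h3

include hH hZ hT in
theorem Lf_comm {f g : E → ℝ} (hf : ContDiff ℝ ∞ f) (hfc : tsupport f ⊆ closedBall 0 R)
    (hg : ContDiff ℝ ∞ g) (hgc : tsupport g ⊆ closedBall 0 R) :
    Lf μ s m H Z f * ∫ y, g y ∂μ = Lf μ s m H Z g * ∫ y, f y ∂μ := by
  have aux : ∀ f g : E → ℝ, ContDiff ℝ ∞ f → tsupport f ⊆ closedBall 0 R → ContDiff ℝ ∞ g → tsupport g ⊆ closedBall 0 R →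
      Lf μ s m H Z f * ∫ y, g y ∂μ
        = ∑ i ∈ s, (m i : ℝ) * ∫ x in Z, (∫ y, g y * f (H i x - y) ∂μ) * (fderiv ℝ (H i) x).det ∂μ := by
    intro f g hf hfc hg hgc
    have hgcs : HasCompactSupport g := (isCompact_closedBall (0 : E) R).of_isClosed_subset (isClosed_tsupport g) hgc
    have hint : ∀ i, Integrable (Function.uncurry fun (y : E) (x : E) => g y * (f (H i x - y) * (fderiv ℝ (H i) x).det))
        (μ.prod (μ.restrict Z)) := by
      intro i
      have hc : Continuous (Function.uncurry fun (y : E) (x : E) => g y * (f (H i x - y) * (fderiv ℝ (H i) x).det)) := by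
        refine (hg.continuous.comp continuous_fst).mul ((hf.continuous.comp ?_).mul ((continuous_detH (hH i)).comp continuous_snd))
        exact ((hH i).continuous.comp continuous_snd).sub continuous_fst
      have hcp : IsCompact ((tsupport g) ×ˢ Z) := hgcs.prod hZ
      have e1 : μ.prod (μ.restrict Z) = (μ.prod μ).restrict (univ ×ˢ Z) := by
        rw [← Measure.prod_restrict, Measure.restrict_univ]
      rw [e1]
      refine (hc.continuousOn.integrableOn_compact hcp).of_forall_sdiff_eq_zero (MeasurableSet.univ.prod hZ.measurableSet) ?_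
      rintro ⟨y, x⟩ ⟨hx1, hx2⟩
      by_contra hxy
      simp only [Function.uncurry_apply_pair] at hxy
      apply hx2
      have h1 : y ∈ tsupport g := subset_tsupport g fun h => hxy (by rw [h, zero_mul])
      exact ⟨h1, hx1.2⟩
    have h1 : ∀ y, g y * Lf μ s m H Z f = g y * Lf μ s m H Z (fun x => f (x - y)) := by
      intro y
      by_cases hy : g y = 0
      · rw [hy, zero_mul, zero_mul]
      · have h2 : ‖y‖ ≤ R := by
          have h3 := hgc (subset_tsupport g hy)
          rwa [mem_closedBall, dist_zero_right] at h3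
        rw [Lf_translate μ s m hH hZ hT hf hfc h2]
    calc Lf μ s m H Z f * ∫ y, g y ∂μ = ∫ y, g y * Lf μ s m H Z (fun x => f (x - y)) ∂μ := by
          rw [mul_comm, ← integral_mul_const]
          exact integral_congr_ae (Eventually.of_forall h1)
      _ = ∫ y, ∑ i ∈ s, (m i : ℝ) * ∫ x in Z, g y * (f (H i x - y) * (fderiv ℝ (H i) x).det) ∂μ ∂μ := by
          refine integral_congr_ae (Eventually.of_forall fun y => ?_)
          change g y * ∑ i ∈ s, (m i : ℝ) * ∫ x in Z, f (H i x - y) * (fderiv ℝ (H i) x).det ∂μ = _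
          rw [Finset.mul_sum]
          refine Finset.sum_congr rfl fun i _ => ?_
          rw [integral_const_mul]
          ring
      _ = ∑ i ∈ s, (m i : ℝ) * ∫ y, ∫ x in Z, g y * (f (H i x - y) * (fderiv ℝ (H i) x).det) ∂μ ∂μ := by
          rw [integral_finsetSum]
          · refine Finset.sum_congr rfl fun i _ => ?_
            rw [integral_const_mul]
          · intro i _
            exact (hint i).integral_prod_left.const_mul _
      _ = ∑ i ∈ s, (m i : ℝ) * ∫ x in Z, ∫ y, g y * (f (H i x - y) * (fderiv ℝ (H i) x).det) ∂μ ∂μ := by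
          refine Finset.sum_congr rfl fun i _ => ?_
          rw [integral_integral_swap (hint i)]
      _ = _ := by
          refine Finset.sum_congr rfl fun i _ => ?_
          congr 1
          refine integral_congr_ae (Eventually.of_forall fun x => ?_)
          change ∫ y, g y * (f (H i x - y) * (fderiv ℝ (H i) x).det) ∂μ = (∫ y, g y * f (H i x - y) ∂μ) * (fderiv ℝ (H i) x).det
          rw [← integral_mul_const]
          refine integral_congr_ae (Eventually.of_forall fun y => ?_)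
          change g y * (f (H i x - y) * (fderiv ℝ (H i) x).det) = g y * f (H i x - y) * (fderiv ℝ (H i) x).det
          ring
  rw [aux f g hf hfc hg hgc, aux g f hg hgc hf hfc]
  refine Finset.sum_congr rfl fun i _ => ?_
  congr 1
  refine integral_congr_ae (Eventually.of_forall fun x => ?_)
  change (∫ y, g y * f (H i x - y) ∂μ) * (fderiv ℝ (H i) x).det = (∫ y, f y * g (H i x - y) ∂μ) * (fderiv ℝ (H i) x).det
  congr 1
  rw [← integral_sub_left_eq_self _ μ (H i x)]
  refine integral_congr_ae (Eventually.of_forall fun y => ?_)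
  change g (H i x - y) * f (H i x - (H i x - y)) = f y * g (H i x - y)
  rw [sub_sub_cancel, mul_comm]

variable (hZ0 : μ (Z \ interior Z) = 0) (hR : 0 < R)

include hH hZ hT hZ0 hR in
/-- **the degree of a finite integer combination of maps is an integer** -/
theorem deg_int_fin : ∃ k : ℤ, ∀ g : E → ℝ, ContDiff ℝ ∞ g → tsupport g ⊆ closedBall 0 R →
    ∑ i ∈ s, (m i : ℝ) * ∫ x in Z, g (H i x) * (fderiv ℝ (H i) x).det ∂μ = k * ∫ y, g y ∂μ := by
  classical
  -- a common regular value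
  obtain ⟨y₀, hyR, hy⟩ : ∃ y₀ : E, y₀ ∈ ball (0 : E) R ∧ ∀ i ∈ s, y₀ ∉ H i '' (Z \ interior Z) ∧
      ∀ x ∈ Z, H i x = y₀ → (fderiv ℝ (H i) x).det ≠ 0 := by
    by_contra hcon
    push Not at hcon
    have h0 : ∀ i, μ (H i '' {x | (fderiv ℝ (H i) x).det = 0}) = 0 := fun i =>
      addHaar_image_eq_zero_of_det_fderivWithin_eq_zero μ (f' := fderiv ℝ (H i))
        (fun x _ => ((hH i).differentiable (by simp) x).hasFDerivAt.hasFDerivWithinAt) (fun x hx => hx)
    have hB : ∀ i, μ (H i '' (Z \ interior Z)) = 0 := fun i =>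
      addHaar_image_eq_zero_of_differentiableOn_of_addHaar_eq_zero μ ((hH i).differentiable (by simp)).differentiableOn hZ0
    have h1 : ball (0 : E) R ⊆ ⋃ i ∈ s, (H i '' (Z \ interior Z) ∪ H i '' {x | (fderiv ℝ (H i) x).det = 0}) := by
      intro y hy
      obtain ⟨i, hi, hi2⟩ := hcon y hy
      refine mem_iUnion₂.2 ⟨i, hi, ?_⟩
      by_cases hy : y ∈ H i '' (Z \ interior Z)
      · exact Or.inl hy
      · obtain ⟨x, _, hx, hx0⟩ := hi2 hy
        exact Or.inr ⟨x, hx0, hx⟩
    have h2 : μ (⋃ i ∈ s, (H i '' (Z \ interior Z) ∪ H i '' {x | (fderiv ℝ (H i) x).det = 0})) = 0 :=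
      (measure_biUnion_null_iff s.countable_toSet).2 fun i _ => measure_union_null (hB i) (h0 i)
    exact (measure_ball_pos μ (0 : E) hR).ne' (measure_mono_null h1 h2)
  choose! N hN k hk using fun (i : ι) (hi : i ∈ s) => deg_loc μ (hH i) hZ (hy i hi).1 (hy i hi).2
  have hNN : (⋂ i ∈ s, N i) ∈ 𝓝 y₀ := (Filter.biInter_finset_mem s).2 hN
  obtain ⟨f, hfs, hfc, hf, hf01, hf1⟩ := exists_contDiff_tsupport_subset (n := ⊤)
    (Filter.inter_mem hNN (isOpen_ball.mem_nhds hyR))
  have hfb : tsupport f ⊆ closedBall 0 R := fun y hy => ball_subset_closedBall (hfs hy).2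
  have hpos : 0 < ∫ y, f y ∂μ := by
    have h0 : 0 ≤ f := fun y => (hf01 (mem_range_self y)).1
    rw [integral_pos_iff_support_of_nonneg h0 (hf.continuous.integrable_of_hasCompactSupport hfc)]
    exact (hf.continuous.isOpen_support).measure_pos μ ⟨y₀, by simp [hf1]⟩
  have hval : Lf μ s m H Z f = ((∑ i ∈ s, m i * k i : ℤ) : ℝ) * ∫ y, f y ∂μ := by
    unfold Lf
    push_cast
    rw [Finset.sum_mul]
    refine Finset.sum_congr rfl fun i hi => ?_
    rw [hk i hi f hf.continuous fun y hy => mem_iInter₂.1 (hfs (subset_tsupport f hy)).1 i hi]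
    ring
  refine ⟨∑ i ∈ s, m i * k i, fun g hg hgc => ?_⟩
  have h := Lf_comm μ s m hH hZ hT hg hgc hf hfb
  rw [hval] at h
  refine mul_right_cancel₀ hpos.ne' ?_
  change Lf μ s m H Z g * ∫ y, f y ∂μ = _
  rw [h]
  ring

end many

end Pool.Agent.Lib.MP_ccbbf6_gt.L7.DG
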