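import Pool.Agent.Lib.MP_ccbbf6_gt.L4.FXb
import Pool.Agent.Lib.MP_ccbbf6_gt.L5.EPS04
import Pool.Agent.Lib.MP_ccbbf6_gt.L7.DG0

namespace Pool.Agent.Lib.MP_ccbbf6_gt.Geo
end Pool.Agent.Lib.MP_ccbbf6_gt.Geo

/-!
# Level 7, block DG, file 1: forms version of the degree of a finite integer combination of maps (helper77)
-/

set_option autoImplicit false

open Set Filter Topology Metric MeasureTheory
open scoped ContDiff

noncomputable section

namespace Pool.Agent.Lib.MP_ccbbf6_gt.L7.DG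

open Geo L4 L4.FR L5

variable {D : ℕ}

theorem cube_null : volume (Icc (0 : V D) 1 \ interior (Icc (0 : V D) 1)) = 0 := by
  have h1 := Convex.addHaar_frontier (μ := (volume : Measure (V D))) (convex_Icc (0 : V D) 1)
  rwa [isClosed_Icc.frontier_eq] at h1

theorem cI_pb (g : FR.Sm D D) (Θ : Fm D) :
    cI D (pb g Θ) = ∫ x in Icc (0 : V D) 1, topE D (ev (g x) Θ) * (fderiv ℝ (g : V D → V D) x).det := by
  unfold cI
  refine setIntegral_congr_fun measurableSet_Icc fun x _ => ?_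
  change topE D (ev x (pb g Θ)) = _
  rw [ev_pb, topE_map, det_tr, mul_comm]

/-- **degree theorem, forms version** -/
theorem deg_forms {ι : Type*} (s : Finset ι) (m : ι → ℤ) (H : ι → FR.Sm (D + 1) (D + 1)) {R : ℝ} (hR : 0 < R)
    (hT : ∀ β : Fm (D + 1), Dg D β → (∀ y : V (D + 1), 2 * R < ‖y‖ → ev y β = 0) →
      ∑ i ∈ s, (m i : ℝ) * cI (D + 1) (pb (H i) (dd (D + 1) β)) = 0) :
    ∃ k : ℤ, ∀ Θ : Fm (D + 1), (∀ y : V (D + 1), R < ‖y‖ → topE (D + 1) (ev y Θ) = 0) →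
      ∑ i ∈ s, (m i : ℝ) * cI (D + 1) (pb (H i) Θ) = k * ∫ y, topE (D + 1) (ev y Θ) := by
  have hT' : ∀ f : V (D + 1) → ℝ, ContDiff ℝ ∞ f → tsupport f ⊆ closedBall 0 (2 * R) → ∀ v : V (D + 1),
      ∑ i ∈ s, (m i : ℝ) * ∫ x in Icc (0 : V (D + 1)) 1, fderiv ℝ f (H i x) v *
        (fderiv ℝ (H i : V (D + 1) → V (D + 1)) x).det = 0 := by
    intro f hf hfs v
    have h1 := hT (fiv (mkC f hf) v) (Dg_fiv _ _) fun y hy => ev_fiv_zero (by
      change f y = 0
      by_contra h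
      have h2 := hfs (subset_tsupport f h)
      rw [mem_closedBall, dist_zero_right] at h2
      exact absurd h2 (not_le.2 hy))
    rw [← h1]
    refine Finset.sum_congr rfl fun i _ => ?_
    rw [cI_pb]
    congr 1
    refine setIntegral_congr_fun measurableSet_Icc fun x _ => ?_
    change _ = topE (D + 1) (ev (H i x) (dd (D + 1) (fiv (mkC f hf) v))) * _
    rw [top_dd_fiv]
    rfl
  obtain ⟨k, hk⟩ := deg_int_fin (volume : Measure (V (D + 1))) s m (H := fun i => (H i : V (D + 1) → V (D + 1)))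
    (fun i => (H i).smooth) (isCompact_Icc (a := (0 : V (D + 1))) (b := 1)) (R := R) hT' cube_null hR
  refine ⟨k, fun Θ hΘ => ?_⟩
  rw [← hk (fun y => topE (D + 1) (ev y Θ)) (contDiff_coef _ _)]
  · exact Finset.sum_congr rfl fun i _ => by rw [cI_pb]
  · refine closure_minimal (fun y hy => ?_) isClosed_closedBall
    rw [mem_closedBall, dist_zero_right]
    by_contra h
    exact hy (hΘ y (not_le.1 h))

/-- a form on `ℝ^D` pulled back to a space by functions -/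
def tfO {X : Space} (T : X.pt → V D) (hT : ∀ (k : ℕ) (p : X.Plot k), ContDiff ℝ ∞ fun x => T (p.1 x)) (Θ : Fm D) : Om X :=
  mkO (fun k p => pb ⟨fun x => T (p.1 x), hT k p⟩ Θ) (fun k l p g => by rw [← pb_comp]; rfl)

section tf

variable {X : Space} {T : X.pt → V D} {hT : ∀ (k : ℕ) (p : X.Plot k), ContDiff ℝ ∞ fun x => T (p.1 x)}

theorem on_tfO (Θ : Fm D) {k : ℕ} (p : X.Plot k) : Om.on (tfO T hT Θ) p = pb ⟨fun x => T (p.1 x), hT k p⟩ Θ := rfl

theorem d_tfO (Θ : Fm D) : dO X (tfO T hT Θ) = tfO T hT (dd D Θ) := Om_ext fun k p => by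
  rw [on_d, on_tfO, on_tfO, pb_dd]

theorem Deg_tfO {j : ℕ} {Θ : Fm D} (h : Dg j Θ) : Deg j (tfO T hT Θ) := fun _ _ => Dg_pb _ h

theorem pull_tfO {Y : Space} (f : SMap Y X) (Θ : Fm D) :
    f.pull (tfO T hT Θ) = tfO (fun y => T (f.1 y)) (fun k p => hT k (f.pl p)) Θ := rfl

/-- a form which vanishes on the image -/
theorem tfO_zero {Θ : Fm D} (h : ∀ x : X.pt, ev (T x) Θ = 0) : tfO T hT Θ = 0 := Om_ext fun k p => by
  rw [on_tfO, on_zero]
  refine ev_inj fun x => ?_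
  exact ev_pb_of_zero _ (h (p.1 x))

end tf

end Pool.Agent.Lib.MP_ccbbf6_gt.L7.DG
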