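import Pool.Agent.Lib.MP_ccbbf6_gt.L5.EPS05
import Pool.Agent.Lib.MP_ccbbf6_gt.L7.CH0
import Pool.Agent.Lib.MP_ccbbf6_gt.L7.DG1

/-!
# Level 7, block DG, file 2: fibre integration of functions of the time; degree of closed chains of the sphere (helper77)

`DG_sphere` : for a closed integer chain `y` of dimension `l ≥ 1` in the unit sphere of `ℝ^(l+1)` there is an integer `g`
with `ch y w = g * JS w` for all forms `w`.
-/

set_option autoImplicit false
set_option maxSynthPendingDepth 3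

open Set Filter Topology Metric MeasureTheory
open scoped ContDiff

noncomputable section

namespace Pool.Agent.Lib.MP_ccbbf6_gt.L7.DG

open Geo L4 L4.FR L5

section time

variable {X Y : Space} {f : ℝ → ℝ} {hf : ContDiff ℝ ∞ f}

/-- functions of the time -/
def sF (X : Space) (f : ℝ → ℝ) (hf : ContDiff ℝ ∞ f) : Om X.xR := fO (fun z : X.xR.pt => f z.2) fun _ p => hf.comp p.2.2

theorem ev_sF {k : ℕ} (q : X.xR.Plot k) (z : V k) : ev z (Om.on (sF X f hf) q) = algebraMap ℝ (Ex k) (f (q.1 z).2) :=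
  ev_fO _ _ _ _

theorem s_sF : sO X.xR (sF X f hf) = sF X f hf := Om_ext fun k p => by rw [on_s, sF, on_fO, sg_fc]

theorem KO_sF : KO X (sF X f hf) = 0 := Om_ext fun k p => by
  rw [on_K, sF, on_fO, KK_apply, cs, cn_fc, map_zero, on_zero]

theorem j_sF (c : ℝ) : (jO X c).pull (sF X f hf) = algebraMap ℝ (Om X) (f c) := Om_ext fun k p => by
  refine ev_ext fun z => ?_
  rw [on_pull, ev_sF]
  exact (AlgHom.commutes (ev z) (f c)).symm

theorem comm_sF (w : Om X.xR) : sF X f hf * w = w * sF X f hf := Om_ext fun k p => by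
  rw [on_mul, on_mul]
  exact fc_comm _ _

/-- `df` anticommutes -/
theorem dsF_mul (w : Om X.xR) : dO _ (sF X f hf) * w = sO _ w * dO _ (sF X f hf) := by
  have h1 := d_mul (sF X f hf) w
  have h2 := d_mul w (sF X f hf)
  rw [s_sF] at h1
  rw [comm_sF w, h2, comm_sF (dO _ w), add_comm] at h1
  exact (add_right_cancel h1).symm

/-- **fibre integral of `df ∧ w`** -/
theorem KO_dsF (w : Om X) : KO X (dO _ (sF X f hf) * (pO X).pull w) = (f 1 - f 0) • w := by
  rw [dsF_mul, pull_s, K_mul, s_s]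
  have h1 := d_K (sF X f hf)
  rw [KO_sF, map_zero, zero_add, j_sF, j_sF, ← map_sub] at h1
  rw [h1, ← Algebra.commutes, ← Algebra.smul_def]

end time

variable {l : ℕ}

theorem toV_smul (c : ℝ) (x : Eu l) : toV (c • x) = c • toV x := rfl

theorem norm_toV_le (x : Eu l) : ‖toV x‖ ≤ ‖x‖ := by
  rw [pi_norm_le_iff_of_nonneg (norm_nonneg x)]
  intro i
  exact PiLp.norm_apply_le x i

theorem norm_le_toV (x : Eu l) : ‖x‖ ≤ l * ‖toV x‖ := by
  have h1 : ‖x‖ ^ 2 ≤ (l * ‖toV x‖) ^ 2 := by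
    rw [EuclideanSpace.norm_sq_eq]
    have h2 : ∀ i ∈ Finset.univ, ‖x i‖ ^ 2 ≤ ‖toV x‖ ^ 2 := fun i _ =>
      pow_le_pow_left₀ (norm_nonneg _) (norm_le_pi_norm (toV x) i) 2
    have h3 := Finset.sum_le_card_nsmul _ _ _ h2
    rw [Finset.card_univ, Fintype.card_fin, nsmul_eq_mul] at h3
    refine h3.trans ?_
    rw [mul_pow]
    refine mul_le_mul_of_nonneg_right ?_ (sq_nonneg _)
    rcases Nat.eq_zero_or_pos l with h | h
    · rw [h]; norm_num
    · have h4 : (1 : ℝ) ≤ l := by exact_mod_cast h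
      nlinarith
  exact le_of_sq_le_sq h1 (by positivity)

/-- the cone map `(x, s) ↦ R s² x` -/
def TS (l : ℕ) (R : ℝ) (z : (spS (l + 1)).xR.pt) : V (l + 1) := (R * z.2 ^ 2) • toV z.1.1

theorem TS_sm (R : ℝ) (k : ℕ) (p : (spS (l + 1)).xR.Plot k) : ContDiff ℝ ∞ fun x => TS l R (p.1 x) :=
  (contDiff_const.mul (p.2.2.pow 2)).smul (contDiff_toV.comp p.2.1)

/-- fibre integral -/
def FS (l : ℕ) (R : ℝ) (Θ : Fm (l + 1)) : Om (spS (l + 1)) := KO _ (tfO (TS l R) (TS_sm R) Θ)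

/-- the cone map along a plot -/
def HS (R : ℝ) (p : (spS (l + 1)).Plot l) : FR.Sm (l + 1) (l + 1) := ⟨fun x => TS l R (p.up.1 x), TS_sm R _ p.up⟩

theorem cI_HS (R : ℝ) (p : (spS (l + 1)).Plot l) (Θ : Fm (l + 1)) :
    cI (l + 1) (pb (HS R p) Θ) = (-1) ^ l * cI l (Om.on (FS l R Θ) p) := cI_KK _

theorem sum_HS (R : ℝ) (y : Ch (spS (l + 1)) l) (Θ : Fm (l + 1)) :
    ∑ p ∈ y.support, (y p : ℝ) * cI (l + 1) (pb (HS R p) Θ) = (-1) ^ l * ch y (FS l R Θ) := by
  rw [ch_eq_sum, Finset.mul_sum]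
  refine Finset.sum_congr rfl fun p _ => ?_
  rw [cI_HS]
  ring

/-- Stokes for the fibre integral -/
theorem FS_d (hl : 1 ≤ l) {R r : ℝ} (hR : (l + 1) * r < R) {β : Fm (l + 1)} (hβ : Dg l β)
    (h0 : ∀ y : V (l + 1), r < ‖y‖ → ev y β = 0) : ∃ u, FS l R (dd (l + 1) β) = dO _ u := by
  refine ⟨-KO _ (tfO (TS l R) (TS_sm R) β), ?_⟩
  have h1 := d_K (tfO (TS l R) (TS_sm R) β)
  have h2 : (jO _ 1).pull (tfO (TS l R) (TS_sm R) β) = 0 := by
    rw [pull_tfO]
    refine tfO_zero fun x => h0 _ ?_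
    change r < ‖(R * (1 : ℝ) ^ 2) • toV x.1‖
    have h3 := norm_le_toV x.1
    have hx : ‖x.1‖ = 1 := x.2
    rw [hx] at h3
    push_cast at h3
    have h5 : 0 < ‖toV x.1‖ := by
      by_contra h
      have h6 : ‖toV x.1‖ = 0 := le_antisymm (not_lt.1 h) (norm_nonneg _)
      rw [h6, mul_zero] at h3
      linarith
    rw [norm_smul, one_pow, mul_one, Real.norm_eq_abs]
    have h4 : (0 : ℝ) < (l : ℝ) + 1 := by positivity
    rcases le_or_gt r 0 with hr | hr
    · have hR' : r < |R| * ‖toV x.1‖ ∨ |R| * ‖toV x.1‖ ≤ r := lt_or_ge _ _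
      rcases hR' with h | h
      · exact h
      · exfalso
        have h7 : 0 ≤ |R| * ‖toV x.1‖ := by positivity
        have hr0 : r = 0 := le_antisymm hr (h7.trans h)
        rw [hr0, mul_zero] at hR
        have h8 : 0 < |R| := abs_pos.2 hR.ne'
        have h9 : 0 < |R| * ‖toV x.1‖ := by positivity
        linarith
    · have hRp : 0 < R := lt_trans (by positivity) hR
      rw [abs_of_pos hRp]
      by_contra h
      have h6 : R * ‖toV x.1‖ ≤ r := not_lt.1 h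
      have h7 : R * ((l + 1) * ‖toV x.1‖) ≤ (l + 1) * r := by nlinarith
      have h8 : R ≤ R * ((l + 1) * ‖toV x.1‖) := le_mul_of_one_le_right hRp.le h3
      linarith
  have h3 : (jO _ 0).pull (tfO (TS l R) (TS_sm R) β) = 0 := by
    rw [pull_tfO]
    refine Om_ext fun k p => ev_inj fun x => ?_
    rw [on_tfO]
    refine ev_pb_zero _ hβ ?_
    have h4 : (fun x => TS l R ((jO (spS (l + 1)) 0).1 (p.1 x))) = fun _ => 0 := by
      funext x
      change (R * (0 : ℝ) ^ 2) • toV (p.1 x).1 = 0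
      rw [zero_pow two_ne_zero, mul_zero, zero_smul]
    change Module.finrank ℝ (LinearMap.range (fderiv ℝ (fun x => TS l R ((jO (spS (l + 1)) 0).1 (p.1 x))) x :
      V k →ₗ[ℝ] V (l + 1))) < l
    have h5 : fderiv ℝ (fun _ : V k => (0 : V (l + 1))) x = 0 := (hasFDerivAt_const _ _).fderiv
    rw [h4, h5]
    change Module.finrank ℝ (LinearMap.range (0 : V k →ₗ[ℝ] V (l + 1))) < l
    rw [LinearMap.range_zero, finrank_bot]
    exact hl
  rw [h2, h3, sub_zero] at h1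
  unfold FS
  rw [← d_tfO, map_neg]
  exact eq_neg_of_add_eq_zero_right h1

/-- `χ(R s²)` -/
def chR2 (R : ℝ) (s : ℝ) : ℝ := chi (R * s ^ 2)

theorem chR2_sm (R : ℝ) : ContDiff ℝ ∞ (chR2 R) := contDiff_chi.comp (contDiff_const.mul (contDiff_id.pow 2))

/-- the pull-back of `Th w` by the cone map -/
theorem tf_Th {R : ℝ} (hR : 0 < R) (w : Om (spS (l + 1))) :
    tfO (TS l R) (TS_sm R) (Th w) = dO _ (sF _ (chR2 R) (chR2_sm R)) * (pO _).pull w := by
  refine Om_ext fun k p => ev_ext fun x => ?_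
  have hn : ∀ z : V k, ‖toE (TS l R (p.1 z))‖ = R * (p.1 z).2 ^ 2 := by
    intro z
    change ‖(R * (p.1 z).2 ^ 2) • (p.1 z).1.1‖ = _
    have h1 : ‖(p.1 z).1.1‖ = 1 := (p.1 z).1.2
    rw [norm_smul, h1, mul_one, Real.norm_eq_abs, abs_of_nonneg (by positivity)]
  obtain ⟨G, hG⟩ : ∃ G : FR.Sm k (l + 1), G = ⟨fun x => TS l R (p.1 x), TS_sm R k p⟩ := ⟨_, rfl⟩
  have hGa : ∀ z, G z = TS l R (p.1 z) := fun z => by rw [hG]
  have hd : ev x (Om.on (dO _ (sF _ (chR2 R) (chR2_sm R))) p) = ev x (pb G (dd (l + 1) (fc (l + 1) (cn1 (l + 1))))) := by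
    rw [on_d, ← pb_dd, pb_fc]
    refine ev_dd_congr (Eventually.of_forall fun z => ?_)
    rw [ev_sF, ev_fc]
    congr 1
    change chi (R * (p.1 z).2 ^ 2) = chi ‖toE (G z)‖
    rw [hGa, hn]
  rw [on_tfO, ← hG, on_mul, map_mul, hd]
  rcases eq_or_ne (p.1 x).2 0 with h0 | h0
  · have h3 : ‖toE (G x)‖ < 1 := by
      rw [hGa, hn, h0, zero_pow two_ne_zero, mul_zero]
      exact one_pos
    have h1 : ev (G x) (Th w) = 0 := by
      rw [ev_Th]
      unfold ThV
      rw [ev_dcn_zero h3, zero_mul]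
    rw [ev_pb_of_zero _ h1, ev_pb_of_zero _ (ev_dcn_zero h3), zero_mul]
  · have hne : toE (G x) ≠ 0 := by
      rw [← norm_ne_zero_iff, hGa, hn]
      positivity
    obtain ⟨Q, hQ, hQ2⟩ := ThV_near w hne
    have h1 : ev x (pb G (Th w)) = ev x (pb G (dd (l + 1) (fc (l + 1) (cn1 (l + 1))) * Om.on w Q)) := by
      refine ev_pb_congr' _ ?_
      filter_upwards [hQ2] with z hz
      rw [ev_Th, hz]
    rw [h1, map_mul (pb _), map_mul, ← on_cmp]
    congr 1
    rw [on_pull]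
    refine ev_on_congr w ?_
    have hc : ContinuousAt (G : V k → V (l + 1)) x := G.smooth.continuous.continuousAt
    have hs : ContinuousAt (fun z => (p.1 z).2) x := p.2.2.continuous.continuousAt
    filter_upwards [hc.eventually hQ, hs.eventually_ne h0] with z hz hz2
    refine Subtype.ext ?_
    change (Q.1 (G z)).1 = (p.1 z).1.1
    rw [hz]
    unfold nrm
    rw [hGa, hn]
    change (R * (p.1 z).2 ^ 2)⁻¹ • ((R * (p.1 z).2 ^ 2) • (p.1 z).1.1) = _
    rw [smul_smul, inv_mul_cancel₀ (by positivity), one_smul]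

theorem FS_Th {R : ℝ} (hR : 2 < R) (w : Om (spS (l + 1))) : FS l R (Th w) = w := by
  unfold FS
  rw [tf_Th (by linarith), KO_dsF]
  have h1 : chR2 R 1 = 1 := chi_one (by rw [one_pow, mul_one]; exact hR.le)
  have h2 : chR2 R 0 = 0 := chi_zero (by rw [zero_pow two_ne_zero, mul_zero]; exact zero_le_one)
  rw [h1, h2, sub_zero, one_smul]

theorem top_Th_zero (w : Om (spS (l + 1))) {y : V (l + 1)} (h : 2 < ‖y‖) : topE (l + 1) (ev y (Th w)) = 0 := by
  rw [ev_Th_zero w (lt_of_lt_of_le h (norm_toV_le (toE y))), map_zero]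

end Pool.Agent.Lib.MP_ccbbf6_gt.L7.DG

namespace Pool.Agent.Lib.MP_ccbbf6_gt.L7

open L4 L4.FR L5 DG

/-- **degree of a closed integer chain of the sphere** -/
theorem DG_sphere {l : ℕ} (hl : 1 ≤ l) (y : Ch (spS (l + 1)) l) (hy : Cl y) : ∃ g : ℤ, ∀ w, ch y w = g * JS w := by
  obtain ⟨R, hR⟩ : ∃ R : ℝ, R = (l + 1) * 4 + 2 := ⟨_, rfl⟩
  have hR1 : ((l : ℝ) + 1) * (2 * 2) < R := by rw [hR]; linarith
  have hR2 : 2 < R := by
    have : (0 : ℝ) ≤ l := Nat.cast_nonneg l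
    rw [hR]
    linarith
  have h4 : ((-1 : ℝ) ^ l) * ((-1 : ℝ) ^ l) = 1 := by
    rw [← mul_pow]
    norm_num
  obtain ⟨k, hk⟩ := deg_forms y.support y (fun p => HS R p) (R := 2) two_pos fun β hβ h0 => by
    obtain ⟨u, hu⟩ := FS_d hl hR1 hβ h0
    rw [sum_HS, hu, hy, mul_zero]
  refine ⟨(-1) ^ l * k, fun w => ?_⟩
  have h1 := hk (Th w) fun y hy => top_Th_zero w hy
  rw [sum_HS, FS_Th hR2] at h1
  push_cast
  calc ch y w = ((-1 : ℝ) ^ l * (-1 : ℝ) ^ l) * ch y w := by rw [h4, one_mul]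
    _ = (-1 : ℝ) ^ l * ((-1 : ℝ) ^ l * ch y w) := by ring
    _ = _ := by rw [h1]; unfold JS; ring

end Pool.Agent.Lib.MP_ccbbf6_gt.L7
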