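import Pool.Agent.Lib.MP_ccbbf6_gt.L4.FI3
import Pool.Agent.Lib.MP_ccbbf6_gt.L5.EPS02
import Pool.Agent.Lib.MP_ccbbf6_gt.L7.CH0

/-!
# Level 7, ST0: the Stiefel manifold of orthonormal pairs in `R^(n+1)` as a space given by plots (helper33)

* `spSt n`, `stX : spSt n → spS (n+1)` (first vector), `stY` (second vector), `stL` (linear isometries);
* `topE_map_zero` : the top coefficient of a pull-back vanishes where the rank is smaller than the dimension;
* `top_rank_zero` : for plots of `spSt n`.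
-/

set_option autoImplicit false
set_option maxSynthPendingDepth 3

open Set Filter Topology MeasureTheory
open scoped ContDiff RealInnerProductSpace

noncomputable section

namespace Pool.Agent.Lib.MP_ccbbf6_gt.L7

open Geo L4 L4.FR L5

variable {k l n N : ℕ}

/-- orthonormal pairs in `R^(n+1)` -/
def spSt (n : ℕ) : Space where
  pt := {z : Eu (n + 1) × Eu (n + 1) // ‖z.1‖ = 1 ∧ ‖z.2‖ = 1 ∧ ⟪z.1, z.2⟫ = 0}
  Pl _ := {p | ContDiff ℝ ∞ fun u => (p u).1}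
  pre := fun {_ _ _} hp g => (show ContDiff ℝ ∞ _ from hp).comp g.smooth

theorem stx (z : (spSt n).pt) : ‖z.1.1‖ = 1 := z.2.1
theorem sty (z : (spSt n).pt) : ‖z.1.2‖ = 1 := z.2.2.1
theorem stxy (z : (spSt n).pt) : ⟪z.1.1, z.1.2⟫ = 0 := z.2.2.2
theorem styx (z : (spSt n).pt) : ⟪z.1.2, z.1.1⟫ = 0 := by rw [real_inner_comm]; exact stxy z
theorem stxx (z : (spSt n).pt) : ⟪z.1.1, z.1.1⟫ = 1 := by rw [real_inner_self_eq_norm_sq, stx, one_pow]
theorem styy (z : (spSt n).pt) : ⟪z.1.2, z.1.2⟫ = 1 := by rw [real_inner_self_eq_norm_sq, sty, one_pow]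

theorem plot_sm (p : (spSt n).Plot k) : ContDiff ℝ ∞ fun u => (p.1 u).1 := p.2
theorem plot_smX (p : (spSt n).Plot k) : ContDiff ℝ ∞ fun u => (p.1 u).1.1 := contDiff_fst.comp (plot_sm p)
theorem plot_smY (p : (spSt n).Plot k) : ContDiff ℝ ∞ fun u => (p.1 u).1.2 := contDiff_snd.comp (plot_sm p)

/-- first vector -/
def stX (n : ℕ) : SMap (spSt n) (spS (n + 1)) := ⟨fun z => ⟨z.1.1, z.2.1⟩, fun _ p => plot_smX p⟩

/-- second vector -/
def stY (n : ℕ) : SMap (spSt n) (spS (n + 1)) := ⟨fun z => ⟨z.1.2, z.2.2.1⟩, fun _ p => plot_smY p⟩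

/-- linear isometries -/
def stL (L : Eu (n + 1) →ₗᵢ[ℝ] Eu (n + 1)) : SMap (spSt n) (spSt n) :=
  ⟨fun z => ⟨(L z.1.1, L z.1.2), by rw [L.norm_map]; exact stx z, by rw [L.norm_map]; exact sty z, by
    rw [L.inner_map_map]; exact stxy z⟩, fun _ p =>
    (L.contDiff.comp (plot_smX p)).prodMk (L.contDiff.comp (plot_smY p))⟩

/-- linear isometries of the sphere -/
def sphL {m : ℕ} (L : Eu m →ₗᵢ[ℝ] Eu m) : SMap (spS m) (spS m) :=
  ⟨fun z => ⟨L z.1, by rw [L.norm_map]; exact z.2⟩, fun _ p => L.contDiff.comp (show ContDiff ℝ ∞ _ from p.2)⟩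

/-- the top coefficient of the image under a map of small rank vanishes -/
theorem topE_map_zero {L : V l →ₗ[ℝ] V k} (hL : Module.finrank ℝ (LinearMap.range L) < k) (a : Ex l) :
    topE k (ExteriorAlgebra.map L a) = 0 := by
  have h : (topE k).comp (ExteriorAlgebra.map L).toLinearMap = 0 := by
    refine ExteriorAlgebra.lhom_ext fun i => ?_
    ext v
    change topE k (ExteriorAlgebra.map L (ExteriorAlgebra.ιMulti ℝ i v)) = 0
    by_cases hi : i = k
    · subst hi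
      rw [extMap_zero hL, map_zero]
      exact ExteriorAlgebra.ιMulti_range ℝ i (Set.mem_range_self v)
    · rw [ExteriorAlgebra.map_apply_ιMulti, topE_ιMulti_ne hi]
  exact LinearMap.congr_fun h a

theorem rank_tr (g : FR.Sm k l) (x : V k) : Module.finrank ℝ (LinearMap.range (tr g x)) =
    Module.finrank ℝ (LinearMap.range (fderiv ℝ (g : V k → V l) x : V k →ₗ[ℝ] V l)) := by
  rw [tr_eq]
  set A := fderiv ℝ (g : V k → V l) x
  have h1 : (trL A) = Matrix.mulVecLin (LinearMap.toMatrix' (A : V k →ₗ[ℝ] V l)).transpose := by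
    refine LinearMap.ext fun v => funext fun i => ?_
    rw [trL_apply, Matrix.mulVecLin_apply, Matrix.mulVec, dotProduct]
    refine Finset.sum_congr rfl fun j _ => ?_
    rw [Matrix.transpose_apply, LinearMap.toMatrix'_apply, mul_comm]
    rfl
  have h2 : Matrix.rank (LinearMap.toMatrix' (A : V k →ₗ[ℝ] V l)).transpose =
      Matrix.rank (LinearMap.toMatrix' (A : V k →ₗ[ℝ] V l)) := Matrix.rank_transpose _
  have h3 : Matrix.rank (LinearMap.toMatrix' (A : V k →ₗ[ℝ] V l)) = Module.finrank ℝ (LinearMap.range (A : V k →ₗ[ℝ] V l)) := by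
    rw [Matrix.rank, ← Matrix.toLin'_apply', Matrix.toLin'_toMatrix']
  rw [h1]
  exact h2.trans h3

/-- the top coefficient of a pull-back vanishes at a point of small rank -/
theorem top_pb_zero (g : FR.Sm k l) (θ : Fm l) {x : V k}
    (h : Module.finrank ℝ (LinearMap.range (fderiv ℝ (g : V k → V l) x : V k →ₗ[ℝ] V l)) < k) :
    topE k (ev x (pb g θ)) = 0 := by
  rw [ev_pb]
  exact topE_map_zero (by rw [rank_tr]; exact h) _

/-! ### local factorisation of plots -/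

/-- coordinates of a plot -/
def stC (p : (spSt n).Plot N) : FR.Sm N (n + 1 + (n + 1)) :=
  ⟨fun x => (spl (n + 1)).symm (p.1 x).1, (spl (n + 1)).symm.contDiff.comp (plot_sm p)⟩

/-- Gram-Schmidt -/
def gsm (a : Eu (n + 1) × Eu (n + 1)) : Eu (n + 1) × Eu (n + 1) :=
  (‖a.1‖⁻¹ • a.1, ‖a.2 - (⟪a.1, a.2⟫ / ⟪a.1, a.1⟫) • a.1‖⁻¹ • (a.2 - (⟪a.1, a.2⟫ / ⟪a.1, a.1⟫) • a.1))

/-- where Gram-Schmidt is defined -/
def GSet (n : ℕ) : Set (Eu (n + 1) × Eu (n + 1)) := {a | a.1 ≠ 0 ∧ a.2 - (⟪a.1, a.2⟫ / ⟪a.1, a.1⟫) • a.1 ≠ 0}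

theorem inner_self_ne {a : Eu (n + 1)} (h : a ≠ 0) : ⟪a, a⟫ ≠ 0 := by
  rw [real_inner_self_eq_norm_sq]
  exact pow_ne_zero 2 (norm_ne_zero_iff.2 h)

theorem gsm_mem {a : Eu (n + 1) × Eu (n + 1)} (h : a ∈ GSet n) :
    ‖(gsm a).1‖ = 1 ∧ ‖(gsm a).2‖ = 1 ∧ ⟪(gsm a).1, (gsm a).2⟫ = 0 := by
  refine ⟨?_, ?_, ?_⟩
  · change ‖‖a.1‖⁻¹ • a.1‖ = 1
    rw [norm_smul, norm_inv, norm_norm, inv_mul_cancel₀ (norm_ne_zero_iff.2 h.1)]
  · change ‖‖_‖⁻¹ • (_ : Eu (n + 1))‖ = 1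
    rw [norm_smul, norm_inv, norm_norm, inv_mul_cancel₀ (norm_ne_zero_iff.2 h.2)]
  · change ⟪‖a.1‖⁻¹ • a.1, ‖_‖⁻¹ • (a.2 - (⟪a.1, a.2⟫ / ⟪a.1, a.1⟫) • a.1)⟫ = 0
    rw [real_inner_smul_left, real_inner_smul_right, inner_sub_right, real_inner_smul_right,
      div_mul_cancel₀ _ (inner_self_ne h.1), sub_self, mul_zero, mul_zero]

theorem contDiffAt_gsm {a : Eu (n + 1) × Eu (n + 1)} (h : a ∈ GSet n) : ContDiffAt ℝ ∞ gsm a := by
  have h1 : ContDiffAt ℝ ∞ (fun a : Eu (n + 1) × Eu (n + 1) => a.2 - (⟪a.1, a.2⟫ / ⟪a.1, a.1⟫) • a.1) a := by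
    have h0 : ContDiffAt ℝ ∞ (fun a : Eu (n + 1) × Eu (n + 1) => ⟪a.1, a.2⟫ / ⟪a.1, a.1⟫) a :=
      (contDiffAt_fst.inner ℝ contDiffAt_snd).div (contDiffAt_fst.inner ℝ contDiffAt_fst) (inner_self_ne h.1)
    exact contDiffAt_snd.sub (h0.smul contDiffAt_fst)
  refine ContDiffAt.prodMk ?_ ?_
  · exact ((contDiffAt_fst.norm ℝ h.1).inv (norm_ne_zero_iff.2 h.1)).smul contDiffAt_fst
  · exact ((h1.norm ℝ h.2).inv (norm_ne_zero_iff.2 h.2)).smul h1

theorem isOpen_GSet : IsOpen (GSet n) := by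
  rw [isOpen_iff_mem_nhds]
  intro a ha
  have h1 : ContinuousAt (fun a : Eu (n + 1) × Eu (n + 1) => a.2 - (⟪a.1, a.2⟫ / ⟪a.1, a.1⟫) • a.1) a := by
    have h0 : ContinuousAt (fun a : Eu (n + 1) × Eu (n + 1) => ⟪a.1, a.2⟫ / ⟪a.1, a.1⟫) a :=
      (continuousAt_fst.inner continuousAt_snd).div (continuousAt_fst.inner continuousAt_fst) (inner_self_ne ha.1)
    exact continuousAt_snd.sub (h0.smul continuousAt_fst)
  exact (continuousAt_fst.eventually_ne ha.1).and (h1.eventually_ne ha.2)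

theorem gsm_of {a : Eu (n + 1) × Eu (n + 1)} (h1 : ‖a.1‖ = 1) (h2 : ‖a.2‖ = 1) (h3 : ⟪a.1, a.2⟫ = 0) :
    a ∈ GSet n ∧ gsm a = a := by
  have e : a.2 - (⟪a.1, a.2⟫ / ⟪a.1, a.1⟫) • a.1 = a.2 := by rw [h3, zero_div, zero_smul, sub_zero]
  refine ⟨⟨?_, ?_⟩, ?_⟩
  · rw [← norm_ne_zero_iff, h1]; exact one_ne_zero
  · rw [e, ← norm_ne_zero_iff, h2]; exact one_ne_zero
  · unfold gsm
    rw [e, h1, h2, inv_one, one_smul, one_smul]

/-- near a point, a plot of `spSt n` factors through a plot on `ℝ^(2n+2)` -/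
theorem plot_facSt (p : (spSt n).Plot N) (x : V N) : ∃ R : (spSt n).Plot (n + 1 + (n + 1)),
    p.1 =ᶠ[𝓝 x] (R.cmp (stC p)).1 := by
  have hU : (fun w : V (n + 1 + (n + 1)) => spl (n + 1) w) ⁻¹' GSet n ∈ 𝓝 (stC p x) := by
    refine (spl (n + 1)).continuous.continuousAt.preimage_mem_nhds (isOpen_GSet.mem_nhds ?_)
    change spl (n + 1) ((spl (n + 1)).symm (p.1 x).1) ∈ _
    rw [ContinuousLinearEquiv.apply_symm_apply]
    exact (gsm_of (stx _) (sty _) (stxy _)).1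
  obtain ⟨s, hs1, hs2⟩ := exists_sq _ hU
  refine ⟨⟨fun w => ⟨gsm (spl (n + 1) (s w)), gsm_mem (hs2 w)⟩, ?_⟩, ?_⟩
  · change ContDiff ℝ ∞ fun w => gsm (spl (n + 1) (s w))
    rw [contDiff_iff_contDiffAt]
    intro w
    exact (contDiffAt_gsm (hs2 w)).comp w ((spl (n + 1)).contDiff.comp s.smooth).contDiffAt
  · have hc : ContinuousAt (stC p : V N → _) x := (stC p).smooth.continuous.continuousAt
    filter_upwards [hc.eventually hs1] with y hy
    refine Subtype.ext ?_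
    change (p.1 y).1 = gsm (spl (n + 1) (s (stC p y)))
    rw [hy]
    change (p.1 y).1 = gsm (spl (n + 1) ((spl (n + 1)).symm (p.1 y).1))
    rw [ContinuousLinearEquiv.apply_symm_apply]
    exact (gsm_of (stx _) (sty _) (stxy _)).2.symm

/-- rank of a composition -/
theorem finrank_comp_le {E F G : Type*} [NormedAddCommGroup E] [NormedSpace ℝ E] [NormedAddCommGroup F]
    [NormedSpace ℝ F] [FiniteDimensional ℝ F] [NormedAddCommGroup G] [NormedSpace ℝ G] (A : F →L[ℝ] G) (B : E →L[ℝ] F) :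
    Module.finrank ℝ (LinearMap.range ((A.comp B : E →L[ℝ] G) : E →ₗ[ℝ] G)) ≤
      Module.finrank ℝ (LinearMap.range (B : E →ₗ[ℝ] F)) := by
  have h2 : ((A.comp B : E →L[ℝ] G) : E →ₗ[ℝ] G) = (A : F →ₗ[ℝ] G).comp (B : E →ₗ[ℝ] F) := rfl
  rw [h2, LinearMap.range_comp]
  exact Submodule.finrank_map_le _ _

/-- rank of the derivative of a plot -/
def rkP (p : (spSt n).Plot N) (x : V N) : ℕ :=
  Module.finrank ℝ (LinearMap.range (fderiv ℝ (fun u => (p.1 u).1) x : V N →ₗ[ℝ] Eu (n + 1) × Eu (n + 1)))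

/-- **forms of top degree vanish along plots at points of small rank** -/
theorem top_rank_zero (w : Om (spSt n)) (p : (spSt n).Plot N) {x : V N} (h : rkP p x < N) :
    topE N (ev x (Om.on w p)) = 0 := by
  obtain ⟨R, hR⟩ := plot_facSt p x
  rw [ev_on_congr w hR, on_cmp]
  refine top_pb_zero (stC p) _ (lt_of_le_of_lt ?_ h)
  obtain ⟨A, hA⟩ : ∃ A : Eu (n + 1) × Eu (n + 1) →L[ℝ] V (n + 1 + (n + 1)), ∀ z, A z = (spl (n + 1)).symm z :=
    ⟨((spl (n + 1)).symm : Eu (n + 1) × Eu (n + 1) →L[ℝ] V (n + 1 + (n + 1))), fun _ => rfl⟩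
  have h1 : fderiv ℝ (stC p : V N → _) x = A.comp (fderiv ℝ (fun u => (p.1 u).1) x) := by
    have h2 : HasFDerivAt (fun u => (p.1 u).1) (fderiv ℝ (fun u => (p.1 u).1) x) x :=
      ((plot_sm p).differentiable (by simp) x).hasFDerivAt
    have h3 : (stC p : V N → _) = fun u => A (p.1 u).1 := funext fun u => (hA _).symm
    rw [h3]
    exact (A.hasFDerivAt.comp x h2).fderiv
  rw [h1]
  exact finrank_comp_le A (fderiv ℝ (fun u => (p.1 u).1) x)

/-- a chain on whose cubes the rank is small integrates to zero -/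
theorem ch_rank_zero {y : Ch (spSt n) k} (h : ∀ p ∈ y.support, ∀ x ∈ Icc (0 : V k) 1, rkP p x < k) (w : Om (spSt n)) :
    ch y w = 0 := by
  refine ch_zero_of fun p hp => ?_
  have h1 : cI k (Om.on w p) = cI k (0 : Fm k) := cI_congr fun x hx => by
    rw [top_rank_zero w p (h p hp x hx), map_zero, map_zero]
  rw [h1, cI_zero]

end Pool.Agent.Lib.MP_ccbbf6_gt.L7
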