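import Pool.Agent.Lib.MP_ccbbf6_gt.L7.DG2
import Pool.Agent.Lib.MP_ccbbf6_gt.L7.ST0

/-!
# Level 7, block DG, file 3: the tube map of the Stiefel manifold and its fibre integral (helper77)

`TV R : (((x, y), s1), s2), s3) ↦ (R s1² x, R s2² y + (2 R s3 - R) x)`; `FV R Θ` the fibre integral of `(TV R)^* Θ`;
`FV_d` : Stokes for the fibre integral of forms with small support.
-/

set_option autoImplicit false
set_option maxSynthPendingDepth 3

open Set Filter Topology Metric MeasureTheory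
open scoped ContDiff RealInnerProductSpace

noncomputable section

namespace Pool.Agent.Lib.MP_ccbbf6_gt.L7.DG

open Geo L4 L4.FR L5

variable {n k N : ℕ}

/-! ### norms -/

theorem norm_spl1 (y : V (n + 1 + (n + 1))) : ‖(spl (n + 1) y).1‖ ≤ (n + 1) * ‖y‖ := by
  have h1 := norm_le_toV (spl (n + 1) y).1
  push_cast at h1
  refine h1.trans (mul_le_mul_of_nonneg_left ?_ (by positivity))
  rw [pi_norm_le_iff_of_nonneg (norm_nonneg y)]
  intro i
  exact norm_le_pi_norm y (Fin.castAdd (n + 1) i)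

theorem norm_spl2 (y : V (n + 1 + (n + 1))) : ‖(spl (n + 1) y).2‖ ≤ (n + 1) * ‖y‖ := by
  have h1 := norm_le_toV (spl (n + 1) y).2
  push_cast at h1
  refine h1.trans (mul_le_mul_of_nonneg_left ?_ (by positivity))
  rw [pi_norm_le_iff_of_nonneg (norm_nonneg y)]
  intro i
  exact norm_le_pi_norm y (Fin.natAdd (n + 1) i)

theorem norm_le_spl (y : V (n + 1 + (n + 1))) {c : ℝ} (h1 : ‖(spl (n + 1) y).1‖ ≤ c) (h2 : ‖(spl (n + 1) y).2‖ ≤ c) :
    ‖y‖ ≤ c := by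
  rw [pi_norm_le_iff_of_nonneg ((norm_nonneg _).trans h1)]
  intro i
  refine Fin.addCases (fun i => ?_) (fun i => ?_) i
  · exact (PiLp.norm_apply_le (spl (n + 1) y).1 i).trans h1
  · exact (PiLp.norm_apply_le (spl (n + 1) y).2 i).trans h2

theorem norm_B (z : (spSt n).pt) (b t : ℝ) : ‖b • z.1.2 + t • z.1.1‖ ^ 2 = b ^ 2 + t ^ 2 := by
  rw [← real_inner_self_eq_norm_sq, inner_add_left, inner_add_right, inner_add_right]
  simp only [real_inner_smul_left, real_inner_smul_right, stxx, styy, stxy, styx]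
  ring

/-! ### the tube map -/

/-- the tube map -/
def TV (n : ℕ) (R : ℝ) (q : (spSt n).xR.xR.xR.pt) : V (n + 1 + (n + 1)) :=
  (spl (n + 1)).symm ((R * q.1.1.2 ^ 2) • q.1.1.1.1.1, (R * q.1.2 ^ 2) • q.1.1.1.1.2 + (2 * R * q.2 - R) • q.1.1.1.1.1)

theorem spl_TV (R : ℝ) (q : (spSt n).xR.xR.xR.pt) : spl (n + 1) (TV n R q) =
    ((R * q.1.1.2 ^ 2) • q.1.1.1.1.1, (R * q.1.2 ^ 2) • q.1.1.1.1.2 + (2 * R * q.2 - R) • q.1.1.1.1.1) :=
  ContinuousLinearEquiv.apply_symm_apply _ _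

theorem TV_sm (R : ℝ) (k : ℕ) (p : (spSt n).xR.xR.xR.Plot k) : ContDiff ℝ ∞ fun x => TV n R (p.1 x) := by
  have h0 : ContDiff ℝ ∞ fun x => (p.1 x).1.1.1.1 := p.2.1.1.1
  have hx : ContDiff ℝ ∞ fun x => (p.1 x).1.1.1.1.1 := contDiff_fst.comp h0
  have hy : ContDiff ℝ ∞ fun x => (p.1 x).1.1.1.1.2 := contDiff_snd.comp h0
  have h1 : ContDiff ℝ ∞ fun x => (p.1 x).1.1.2 := p.2.1.1.2
  have h2 : ContDiff ℝ ∞ fun x => (p.1 x).1.2 := p.2.1.2
  have h3 : ContDiff ℝ ∞ fun x => (p.1 x).2 := p.2.2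
  exact (spl (n + 1)).symm.contDiff.comp (((contDiff_const.mul (h1.pow 2)).smul hx).prodMk
    (((contDiff_const.mul (h2.pow 2)).smul hy).add (((contDiff_const.mul h3).sub contDiff_const).smul hx)))

/-- fibre integral -/
def FV (n : ℕ) (R : ℝ) (Θ : Fm (n + 1 + (n + 1))) : Om (spSt n) := KO _ (KO _ (KO _ (tfO (TV n R) (TV_sm R) Θ)))

/-! ### ranks -/

theorem rank_ax {x : V k → Eu (n + 1)} {a b : V k → ℝ} {z : V k} (hx : DifferentiableAt ℝ x z) (h1 : ∀ z, ‖x z‖ = 1)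
    (ha : DifferentiableAt ℝ a z) (hb : DifferentiableAt ℝ b z) :
    Module.finrank ℝ (LinearMap.range (fderiv ℝ (fun z => (a z • x z, b z • x z)) z : V k →ₗ[ℝ] Eu (n + 1) × Eu (n + 1))) ≤
      n + 2 := by
  have hne : x z ≠ 0 := by
    rw [← norm_ne_zero_iff, h1]
    exact one_ne_zero
  have hperp : ∀ v : V k, ⟪x z, fderiv ℝ x z v⟫ = 0 := by
    intro v
    have h2 := hx.hasFDerivAt.inner ℝ hx.hasFDerivAt
    have h3 : (fun z => ⟪x z, x z⟫) = fun _ => (1 : ℝ) := by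
      funext z
      rw [real_inner_self_eq_norm_sq, h1, one_pow]
    rw [h3] at h2
    have h4 := congrArg (fun L : V k →L[ℝ] ℝ => L v) (h2.unique (hasFDerivAt_const _ _))
    simp at h4
    have h5 := real_inner_comm (x z) (fderiv ℝ x z v)
    linarith
  obtain ⟨L, hL⟩ : ∃ L : Eu (n + 1) →ₗ[ℝ] Eu (n + 1) × Eu (n + 1), L = (a z • LinearMap.id).prod (b z • LinearMap.id) :=
    ⟨_, rfl⟩
  have hd : fderiv ℝ (fun z => (a z • x z, b z • x z)) z =
      (a z • fderiv ℝ x z + (fderiv ℝ a z).smulRight (x z)).prod (b z • fderiv ℝ x z + (fderiv ℝ b z).smulRight (x z)) :=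
    ((ha.hasFDerivAt.smul hx.hasFDerivAt).prodMk (hb.hasFDerivAt.smul hx.hasFDerivAt)).fderiv
  have hsub : LinearMap.range (fderiv ℝ (fun z => (a z • x z, b z • x z)) z : V k →ₗ[ℝ] Eu (n + 1) × Eu (n + 1)) ≤
      ((ℝ ∙ x z)ᗮ.map L) ⊔ (Submodule.span ℝ {((x z, 0) : Eu (n + 1) × Eu (n + 1))} ⊔
        Submodule.span ℝ {((0, x z) : Eu (n + 1) × Eu (n + 1))}) := by
    rintro _ ⟨v, rfl⟩
    have h2 : (fderiv ℝ (fun z => (a z • x z, b z • x z)) z) v =
        L (fderiv ℝ x z v) + (fderiv ℝ a z v • ((x z, 0) : Eu (n + 1) × Eu (n + 1)) +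
          fderiv ℝ b z v • ((0, x z) : Eu (n + 1) × Eu (n + 1))) := by
      rw [hd, hL]
      ext <;> simp
    change (fderiv ℝ (fun z => (a z • x z, b z • x z)) z) v ∈ _
    rw [h2]
    refine Submodule.add_mem_sup ⟨fderiv ℝ x z v, ?_, rfl⟩ (Submodule.add_mem_sup
      (Submodule.smul_mem _ _ (Submodule.mem_span_singleton_self _))
      (Submodule.smul_mem _ _ (Submodule.mem_span_singleton_self _)))
    rw [SetLike.mem_coe, Submodule.mem_orthogonal_singleton_iff_inner_right]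
    exact hperp v
  refine (Submodule.finrank_mono hsub).trans ((Submodule.finrank_add_le_finrank_add_finrank _ _).trans ?_)
  have h6 : Module.finrank ℝ ((ℝ ∙ x z)ᗮ.map L) ≤ n := by
    refine (Submodule.finrank_map_le L _).trans ?_
    have h7 : Fact (Module.finrank ℝ (Eu (n + 1)) = n + 1) := ⟨finrank_euclideanSpace_fin⟩
    exact (Submodule.finrank_orthogonal_span_singleton hne).le
  have h8 : ∀ v : Eu (n + 1) × Eu (n + 1), Module.finrank ℝ (Submodule.span ℝ {v}) ≤ 1 := fun v =>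
    (finrank_span_le_card (R := ℝ) ({v} : Set (Eu (n + 1) × Eu (n + 1)))).trans (by simp)
  have h9 := Submodule.finrank_add_le_finrank_add_finrank (Submodule.span ℝ {((x z, 0) : Eu (n + 1) × Eu (n + 1))})
    (Submodule.span ℝ {((0, x z) : Eu (n + 1) × Eu (n + 1))})
  have h10 := h8 (x z, 0)
  have h11 := h8 (0, x z)
  omega

theorem rank_0B {g : V k → Eu (n + 1)} {z : V k} (hg : DifferentiableAt ℝ g z) :
    Module.finrank ℝ (LinearMap.range (fderiv ℝ (fun z => ((0 : Eu (n + 1)), g z)) z : V k →ₗ[ℝ] Eu (n + 1) × Eu (n + 1))) ≤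
      n + 1 := by
  have hd : fderiv ℝ (fun z => ((0 : Eu (n + 1)), g z)) z = (0 : V k →L[ℝ] Eu (n + 1)).prod (fderiv ℝ g z) :=
    ((hasFDerivAt_const (0 : Eu (n + 1)) z).prodMk hg.hasFDerivAt).fderiv
  have hsub : LinearMap.range (fderiv ℝ (fun z => ((0 : Eu (n + 1)), g z)) z : V k →ₗ[ℝ] Eu (n + 1) × Eu (n + 1)) ≤
      LinearMap.range (LinearMap.inr ℝ (Eu (n + 1)) (Eu (n + 1))) := by
    rintro _ ⟨v, rfl⟩
    refine ⟨fderiv ℝ g z v, ?_⟩
    change _ = (fderiv ℝ (fun z => ((0 : Eu (n + 1)), g z)) z) v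
    rw [hd]
    rfl
  refine (Submodule.finrank_mono hsub).trans ((LinearMap.finrank_range_le _).trans ?_)
  rw [finrank_euclideanSpace_fin]

/-- a form of degree `j` pulled back by a map of rank less than `j` -/
theorem tfO_rank {X : Space} {T : X.pt → V (n + 1 + (n + 1))}
    {hT : ∀ (k : ℕ) (p : X.Plot k), ContDiff ℝ ∞ fun x => T (p.1 x)} {j : ℕ}
    {β : Fm (n + 1 + (n + 1))} (hβ : Dg j β) (G : X.pt → Eu (n + 1) × Eu (n + 1)) (e : ∀ q, T q = (spl (n + 1)).symm (G q))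
    (h : ∀ (k : ℕ) (p : X.Plot k) (x : V k), Module.finrank ℝ (LinearMap.range (fderiv ℝ (fun x => G (p.1 x)) x :
      V k →ₗ[ℝ] Eu (n + 1) × Eu (n + 1))) < j) : tfO T hT β = 0 := by
  refine Om_ext fun k p => ev_inj fun x => ?_
  rw [on_tfO]
  refine ev_pb_zero _ hβ (lt_of_le_of_lt ?_ (h k p x))
  have h0 : ContDiff ℝ ∞ fun x => G (p.1 x) := by
    have h1 := (spl (n + 1)).contDiff.comp (hT k p)
    have h2 : (spl (n + 1) ∘ fun x => T (p.1 x)) = fun x => G (p.1 x) := funext fun x => by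
      change spl (n + 1) (T (p.1 x)) = _
      rw [e, ContinuousLinearEquiv.apply_symm_apply]
    rwa [h2] at h1
  have h3 : fderiv ℝ (fun x => T (p.1 x)) x =
      ((spl (n + 1)).symm : Eu (n + 1) × Eu (n + 1) →L[ℝ] V (n + 1 + (n + 1))).comp (fderiv ℝ (fun x => G (p.1 x)) x) := by
    have h4 : (fun x => T (p.1 x)) = fun x => (spl (n + 1)).symm (G (p.1 x)) := funext fun x => e (p.1 x)
    rw [h4]
    exact (((spl (n + 1)).symm : Eu (n + 1) × Eu (n + 1) →L[ℝ] V (n + 1 + (n + 1))).hasFDerivAt.comp x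
      ((h0.differentiable (by simp) x).hasFDerivAt)).fderiv
  change Module.finrank ℝ (LinearMap.range (fderiv ℝ (fun x => T (p.1 x)) x : V k →ₗ[ℝ] V (n + 1 + (n + 1)))) ≤ _
  rw [h3]
  exact finrank_comp_le _ _

/-! ### Stokes -/

theorem KO_d_of {X : Space} {τ : Om X.xR} (h1 : (jO X 1).pull τ = 0) (h0 : (jO X 0).pull τ = 0) :
    KO X (dO X.xR τ) = -dO X (KO X τ) := by
  have h := d_K τ
  rw [h1, h0, sub_zero] at h
  exact eq_neg_of_add_eq_zero_right h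

section stokes

variable {R r : ℝ} (hR : (n + 1) * r < R) {β : Fm (n + 1 + (n + 1))} (h0 : ∀ y : V (n + 1 + (n + 1)), r < ‖y‖ → ev y β = 0)

include hR h0

theorem ev_far1 {y : V (n + 1 + (n + 1))} (h : R ≤ ‖(spl (n + 1) y).1‖) : ev y β = 0 := by
  refine h0 y ?_
  by_contra h1
  have h2 := norm_spl1 y
  have h3 : ((n : ℝ) + 1) * ‖y‖ ≤ (n + 1) * r := mul_le_mul_of_nonneg_left (not_lt.1 h1) (by positivity)
  linarith

theorem ev_far2 {y : V (n + 1 + (n + 1))} (h : R ≤ ‖(spl (n + 1) y).2‖) : ev y β = 0 := by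
  refine h0 y ?_
  by_contra h1
  have h2 := norm_spl2 y
  have h3 : ((n : ℝ) + 1) * ‖y‖ ≤ (n + 1) * r := mul_le_mul_of_nonneg_left (not_lt.1 h1) (by positivity)
  linarith

/-- **Stokes for the fibre integral** -/
theorem FV_d (hR0 : 0 ≤ r) (hn : 2 ≤ n) (hβ : Dg (n + 1 + n) β) : ∃ u, FV n R (dd (n + 1 + (n + 1)) β) = dO _ u := by
  have hRp : 0 < R := lt_of_le_of_lt (by positivity) hR
  obtain ⟨τ, hτ⟩ : ∃ τ, τ = tfO (TV n R) (TV_sm R) β := ⟨_, rfl⟩
  -- the faces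
  have f1 : (jO _ 1).pull τ = 0 := by
    rw [hτ, pull_tfO]
    refine tfO_zero fun q => ev_far2 hR h0 ?_
    rw [spl_TV]
    change R ≤ ‖(R * q.2 ^ 2) • q.1.1.1.2 + (2 * R * 1 - R) • q.1.1.1.1‖
    refine le_of_sq_le_sq ?_ (norm_nonneg _)
    rw [norm_B q.1.1]
    nlinarith [sq_nonneg (R * q.2 ^ 2)]
  have f0 : (jO _ 0).pull τ = 0 := by
    rw [hτ, pull_tfO]
    refine tfO_zero fun q => ev_far2 hR h0 ?_
    rw [spl_TV]
    change R ≤ ‖(R * q.2 ^ 2) • q.1.1.1.2 + (2 * R * 0 - R) • q.1.1.1.1‖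
    refine le_of_sq_le_sq ?_ (norm_nonneg _)
    rw [norm_B q.1.1]
    nlinarith [sq_nonneg (R * q.2 ^ 2)]
  have g1 : (jO _ 1).pull (KO _ τ) = 0 := by
    rw [← K_up]
    have h1 : (jO (spSt n).xR 1).up.pull τ = 0 := by
      rw [hτ, pull_tfO]
      refine tfO_zero fun q => ev_far2 hR h0 ?_
      rw [spl_TV]
      change R ≤ ‖(R * (1 : ℝ) ^ 2) • q.1.1.1.2 + (2 * R * q.2 - R) • q.1.1.1.1‖
      refine le_of_sq_le_sq ?_ (norm_nonneg _)
      rw [norm_B q.1.1]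
      nlinarith [sq_nonneg (2 * R * q.2 - R)]
    rw [h1, map_zero]
  have g0 : (jO _ 0).pull (KO _ τ) = 0 := by
    rw [← K_up]
    have h1 : (jO (spSt n).xR 0).up.pull τ = 0 := by
      rw [hτ, pull_tfO]
      have e : ∀ q : (spSt n).xR.xR.pt, TV n R ((jO (spSt n).xR 0).up.1 q) =
          (spl (n + 1)).symm ((R * q.1.2 ^ 2) • q.1.1.1.1, (2 * R * q.2 - R) • q.1.1.1.1) := by
        intro q
        change (spl (n + 1)).symm ((R * q.1.2 ^ 2) • q.1.1.1.1, (R * (0 : ℝ) ^ 2) • q.1.1.1.2 + (2 * R * q.2 - R) • q.1.1.1.1) = _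
        rw [zero_pow two_ne_zero, mul_zero, zero_smul, zero_add]
      refine tfO_rank hβ (fun q : (spSt n).xR.xR.pt => ((R * q.1.2 ^ 2) • q.1.1.1.1, (2 * R * q.2 - R) • q.1.1.1.1)) e
        fun k p x => ?_
      refine lt_of_le_of_lt (rank_ax (x := fun x => (p.1 x).1.1.1.1) (a := fun x => R * (p.1 x).1.2 ^ 2)
        (b := fun x => 2 * R * (p.1 x).2 - R) ?_ (fun x => stx (p.1 x).1.1) ?_ ?_) (by omega)
      · have h3 : ContDiff ℝ ∞ fun x => (p.1 x).1.1.1 := p.2.1.1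
        exact (contDiff_fst.comp h3).differentiable (by simp) x
      · have h3 : ContDiff ℝ ∞ fun x => (p.1 x).1.2 := p.2.1.2
        exact (contDiff_const.mul (h3.pow 2)).differentiable (by simp) x
      · have h3 : ContDiff ℝ ∞ fun x => (p.1 x).2 := p.2.2
        exact ((contDiff_const.mul h3).sub contDiff_const).differentiable (by simp) x
    rw [h1, map_zero]
  have k1 : (jO _ 1).pull (KO _ (KO _ τ)) = 0 := by
    rw [← K_up, ← K_up]
    have h1 : (jO (spSt n) 1).up.up.pull τ = 0 := by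
      rw [hτ, pull_tfO]
      refine tfO_zero fun q => ev_far1 hR h0 ?_
      rw [spl_TV]
      change R ≤ ‖(R * (1 : ℝ) ^ 2) • q.1.1.1.1‖
      rw [norm_smul, stx, one_pow, mul_one, mul_one, Real.norm_eq_abs]
      exact le_abs_self R
    rw [h1, map_zero, map_zero]
  have k0 : (jO _ 0).pull (KO _ (KO _ τ)) = 0 := by
    rw [← K_up, ← K_up]
    have h1 : (jO (spSt n) 0).up.up.pull τ = 0 := by
      rw [hτ, pull_tfO]
      have e : ∀ q : (spSt n).xR.xR.pt, TV n R ((jO (spSt n) 0).up.up.1 q) =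
          (spl (n + 1)).symm (0, (R * q.1.2 ^ 2) • q.1.1.1.2 + (2 * R * q.2 - R) • q.1.1.1.1) := by
        intro q
        change (spl (n + 1)).symm ((R * (0 : ℝ) ^ 2) • q.1.1.1.1, (R * q.1.2 ^ 2) • q.1.1.1.2 + (2 * R * q.2 - R) • q.1.1.1.1) = _
        rw [zero_pow two_ne_zero, mul_zero, zero_smul]
      refine tfO_rank hβ (fun q : (spSt n).xR.xR.pt => (0, (R * q.1.2 ^ 2) • q.1.1.1.2 + (2 * R * q.2 - R) • q.1.1.1.1)) e
        fun k p x => ?_
      refine lt_of_le_of_lt (rank_0B (g := fun x => (R * (p.1 x).1.2 ^ 2) • (p.1 x).1.1.1.2 +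
        (2 * R * (p.1 x).2 - R) • (p.1 x).1.1.1.1) ?_) (by omega)
      have h3 : ContDiff ℝ ∞ fun x => (p.1 x).1.1.1 := p.2.1.1
      have h4 : ContDiff ℝ ∞ fun x => (p.1 x).1.2 := p.2.1.2
      have h5 : ContDiff ℝ ∞ fun x => (p.1 x).2 := p.2.2
      exact (((contDiff_const.mul (h4.pow 2)).smul (contDiff_snd.comp h3)).add
        (((contDiff_const.mul h5).sub contDiff_const).smul (contDiff_fst.comp h3))).differentiable (by simp) x
    rw [h1, map_zero, map_zero]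
  refine ⟨-KO _ (KO _ (KO _ τ)), ?_⟩
  unfold FV
  rw [← d_tfO, ← hτ, KO_d_of f1 f0, map_neg, KO_d_of g1 g0, neg_neg, KO_d_of k1 k0, map_neg]

end stokes

end Pool.Agent.Lib.MP_ccbbf6_gt.L7.DG
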