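import Pool.Agent.Lib.MP_ccbbf6_gt.L7.DG3

/-!
# Level 7, block DG, file 4: the form `dχ(|A|) dχ(|B'|) dψ(t) gsm^* w` on `ℝ^(2n+2)`, its integral `JV w`, and the degree of
closed chains of top dimension in the Stiefel manifold (helper77)

`JV w` : integral of `ThW w`, which is the pull-back of `Xi w = dψ(t) dχ(s) dχ(r) w` by `(A, B) ↦ (gsm (A, B), |A|, |B'|, t)`,
`B' = B - (A.B / A.A) A`, `t = A.B / |A|`;
`DG_St0` : for a closed integer chain `y` of dimension `2n-1` : `ch y w = g * JV w`, `g` an integer.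
-/

set_option autoImplicit false
set_option maxSynthPendingDepth 3

open Set Filter Topology Metric MeasureTheory
open scoped ContDiff RealInnerProductSpace

noncomputable section

namespace Pool.Agent.Lib.MP_ccbbf6_gt.L7.DG

open Geo L4 L4.FR L5

variable {n k N : ℕ}

/-- step function of `t` -/
def psc (t : ℝ) : ℝ := chi (t + 3 / 2)

theorem psc_sm : ContDiff ℝ ∞ psc := contDiff_chi.comp (contDiff_id.add contDiff_const)

theorem psc_zero {t : ℝ} (h : t ≤ -1 / 2) : psc t = 0 := chi_zero (by linarith)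

theorem psc_one {t : ℝ} (h : 1 / 2 ≤ t) : psc t = 1 := chi_one (by linarith)

/-- `dψ(t) dχ(s) dχ(r) w` on `(((x, y), r), s), t)` -/
def Xi (w : Om (spSt n)) : Om (spSt n).xR.xR.xR :=
  dO _ (sF _ psc psc_sm) * (pO _).pull (dO _ (sF _ chi contDiff_chi) * (pO _).pull (dO _ (sF _ chi contDiff_chi) *
    (pO _).pull w))

/-- the embedding -/
def jY (q : (spSt n).xR.xR.xR.pt) : (Eu (n + 1) × Eu (n + 1)) × ℝ × ℝ × ℝ := (q.1.1.1.1, q.1.1.2, q.1.2, q.2)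

theorem jY_inj : Function.Injective (jY (n := n)) := by
  rintro ⟨⟨⟨⟨z, hz⟩, r⟩, s⟩, t⟩ ⟨⟨⟨⟨z', hz'⟩, r'⟩, s'⟩, t'⟩ h
  simp only [jY, Prod.mk.injEq] at h
  obtain ⟨h1, h2, h3, h4⟩ := h
  subst h1
  subst h2
  subst h3
  subst h4
  rfl

/-- the part of `B` orthogonal to `A` -/
def Bp (a : Eu (n + 1) × Eu (n + 1)) : Eu (n + 1) := a.2 - (⟪a.1, a.2⟫ / ⟪a.1, a.1⟫) • a.1

/-- the tube coordinates -/
def Gam (y : V (n + 1 + (n + 1))) : (Eu (n + 1) × Eu (n + 1)) × ℝ × ℝ × ℝ :=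
  (gsm (spl (n + 1) y), ‖(spl (n + 1) y).1‖, ‖Bp (spl (n + 1) y)‖, ⟪(spl (n + 1) y).1, (spl (n + 1) y).2⟫ / ‖(spl (n + 1) y).1‖)

theorem contDiffAt_Bp {a : Eu (n + 1) × Eu (n + 1)} (h : a.1 ≠ 0) : ContDiffAt ℝ ∞ Bp a := by
  have h0 : ContDiffAt ℝ ∞ (fun a : Eu (n + 1) × Eu (n + 1) => ⟪a.1, a.2⟫ / ⟪a.1, a.1⟫) a :=
    (contDiffAt_fst.inner ℝ contDiffAt_snd).div (contDiffAt_fst.inner ℝ contDiffAt_fst) (inner_self_ne h)
  exact contDiffAt_snd.sub (h0.smul contDiffAt_fst)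

/-- `Gam` is a local plot on the open set of independent pairs -/
theorem locPl_Gam {y : V (n + 1 + (n + 1))} (h : spl (n + 1) y ∈ GSet n) : LocPl (X := (spSt n).xR.xR.xR) jY Gam y := by
  have hU : (fun w : V (n + 1 + (n + 1)) => spl (n + 1) w) ⁻¹' GSet n ∈ 𝓝 y :=
    (spl (n + 1)).continuous.continuousAt.preimage_mem_nhds (isOpen_GSet.mem_nhds h)
  obtain ⟨s, hs1, hs2⟩ := exists_sq _ hU
  have hsp : ContDiff ℝ ∞ fun w => spl (n + 1) (s w) := (spl (n + 1)).contDiff.comp s.smooth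
  refine ⟨⟨fun w => (((⟨gsm (spl (n + 1) (s w)), gsm_mem (hs2 w)⟩, ‖(spl (n + 1) (s w)).1‖), ‖Bp (spl (n + 1) (s w))‖),
    ⟪(spl (n + 1) (s w)).1, (spl (n + 1) (s w)).2⟫ / ‖(spl (n + 1) (s w)).1‖), ?_⟩, ?_⟩
  · refine ⟨⟨⟨?_, ?_⟩, ?_⟩, ?_⟩
    · change ContDiff ℝ ∞ fun w => gsm (spl (n + 1) (s w))
      rw [contDiff_iff_contDiffAt]
      intro w
      exact (contDiffAt_gsm (hs2 w)).comp w hsp.contDiffAt
    · change ContDiff ℝ ∞ fun w => ‖(spl (n + 1) (s w)).1‖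
      exact (contDiff_fst.comp hsp).norm ℝ fun w => (hs2 w).1
    · change ContDiff ℝ ∞ fun w => ‖Bp (spl (n + 1) (s w))‖
      rw [contDiff_iff_contDiffAt]
      intro w
      have h1 : ContDiffAt ℝ ∞ (fun w => Bp (spl (n + 1) (s w))) w :=
        ContDiffAt.comp (g := Bp) w (contDiffAt_Bp (hs2 w).1) hsp.contDiffAt
      exact h1.norm ℝ (hs2 w).2
    · change ContDiff ℝ ∞ fun w => ⟪(spl (n + 1) (s w)).1, (spl (n + 1) (s w)).2⟫ / ‖(spl (n + 1) (s w)).1‖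
      exact ((contDiff_fst.comp hsp).inner ℝ (contDiff_snd.comp hsp)).div
        ((contDiff_fst.comp hsp).norm ℝ fun w => (hs2 w).1) fun w => norm_ne_zero_iff.2 (hs2 w).1
  · filter_upwards [hs1] with w hw
    change (gsm (spl (n + 1) (s w)), ‖(spl (n + 1) (s w)).1‖, ‖Bp (spl (n + 1) (s w))‖,
      ⟪(spl (n + 1) (s w)).1, (spl (n + 1) (s w)).2⟫ / ‖(spl (n + 1) (s w)).1‖) = Gam w
    rw [hw]
    rfl

/-! ### vanishing of `Xi` -/

theorem ev_dsF_zero {X : Space} {f : ℝ → ℝ} {hf : ContDiff ℝ ∞ f} (q : X.xR.Plot k) {x : V k} {c : ℝ}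
    (h : ∀ᶠ z in 𝓝 x, f (q.1 z).2 = c) : ev x (Om.on (dO _ (sF X f hf)) q) = 0 := by
  rw [on_d]
  have h1 : ev x (dd k (Om.on (sF X f hf) q)) = ev x (dd k (algebraMap ℝ (Fm k) c)) := by
    refine ev_dd_congr ?_
    filter_upwards [h] with z hz
    rw [ev_sF, hz]
    exact (AlgHom.commutes (ev z) c).symm
  rw [h1, Algebra.algebraMap_eq_smul_one, map_smul, dd_one, smul_zero, map_zero]

theorem ev_Xi_t (w : Om (spSt n)) (q : (spSt n).xR.xR.xR.Plot k) {x : V k}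
    (h : (∀ᶠ z in 𝓝 x, (q.1 z).2 ≤ -1 / 2) ∨ ∀ᶠ z in 𝓝 x, 1 / 2 ≤ (q.1 z).2) : ev x (Om.on (Xi w) q) = 0 := by
  unfold Xi
  rw [on_mul, map_mul]
  rcases h with h | h
  · rw [ev_dsF_zero q (c := 0) (by filter_upwards [h] with z hz; exact psc_zero hz), zero_mul]
  · rw [ev_dsF_zero q (c := 1) (by filter_upwards [h] with z hz; exact psc_one hz), zero_mul]

theorem ev_Xi_s (w : Om (spSt n)) (q : (spSt n).xR.xR.xR.Plot k) {x : V k}
    (h : (∀ᶠ z in 𝓝 x, (q.1 z).1.2 ≤ 1) ∨ ∀ᶠ z in 𝓝 x, 2 ≤ (q.1 z).1.2) : ev x (Om.on (Xi w) q) = 0 := by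
  unfold Xi
  rw [on_mul, on_pull, on_mul, map_mul, map_mul]
  rcases h with h | h
  · rw [ev_dsF_zero ((pO _).pl q) (c := 0) (by filter_upwards [h] with z hz; exact chi_zero hz), zero_mul, mul_zero]
  · rw [ev_dsF_zero ((pO _).pl q) (c := 1) (by filter_upwards [h] with z hz; exact chi_one hz), zero_mul, mul_zero]

theorem ev_Xi_r (w : Om (spSt n)) (q : (spSt n).xR.xR.xR.Plot k) {x : V k}
    (h : (∀ᶠ z in 𝓝 x, (q.1 z).1.1.2 ≤ 1) ∨ ∀ᶠ z in 𝓝 x, 2 ≤ (q.1 z).1.1.2) : ev x (Om.on (Xi w) q) = 0 := by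
  unfold Xi
  rw [on_mul, on_pull, on_mul, on_pull, on_mul, map_mul, map_mul, map_mul]
  rcases h with h | h
  · rw [ev_dsF_zero ((pO _).pl ((pO _).pl q)) (c := 0) (by filter_upwards [h] with z hz; exact chi_zero hz), zero_mul,
      mul_zero, mul_zero]
  · rw [ev_dsF_zero ((pO _).pl ((pO _).pl q)) (c := 1) (by filter_upwards [h] with z hz; exact chi_one hz), zero_mul,
      mul_zero, mul_zero]

/-! ### the form `ThW` -/

/-- values -/
def ThX (w : Om (spSt n)) (y : V (n + 1 + (n + 1))) : Ex (n + 1 + (n + 1)) := vAt jY (Xi w) Gam y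

theorem ThX_r (w : Om (spSt n)) {y : V (n + 1 + (n + 1))}
    (h : ‖(spl (n + 1) y).1‖ < 1 ∨ 2 < ‖(spl (n + 1) y).1‖) : ThX w y = 0 := by
  unfold ThX
  by_cases hl : LocPl (X := (spSt n).xR.xR.xR) jY Gam y
  · obtain ⟨P, hP⟩ := hl
    rw [vAt_eq jY_inj _ P hP]
    have hc : Continuous fun z : V (n + 1 + (n + 1)) => ‖(spl (n + 1) z).1‖ :=
      (continuous_fst.comp (spl (n + 1)).continuous).norm
    have he : ∀ z, jY (P.1 z) = Gam z → (P.1 z).1.1.2 = ‖(spl (n + 1) z).1‖ := fun z hz =>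
      congrArg (fun a : (Eu (n + 1) × Eu (n + 1)) × ℝ × ℝ × ℝ => a.2.1) hz
    refine ev_Xi_r w P ?_
    rcases h with h | h
    · left
      filter_upwards [hP, hc.continuousAt.eventually (gt_mem_nhds h)] with z hz1 hz2
      rw [he z hz1]
      exact le_of_lt hz2
    · right
      filter_upwards [hP, hc.continuousAt.eventually (lt_mem_nhds h)] with z hz1 hz2
      rw [he z hz1]
      exact le_of_lt hz2
  · exact vAt_of_not _ hl

theorem ThX_s (w : Om (spSt n)) {y : V (n + 1 + (n + 1))} (h0 : (spl (n + 1) y).1 ≠ 0)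
    (h : ‖Bp (spl (n + 1) y)‖ < 1 ∨ 2 < ‖Bp (spl (n + 1) y)‖) : ThX w y = 0 := by
  unfold ThX
  by_cases hl : LocPl (X := (spSt n).xR.xR.xR) jY Gam y
  · obtain ⟨P, hP⟩ := hl
    rw [vAt_eq jY_inj _ P hP]
    have hc : ContinuousAt (fun z : V (n + 1 + (n + 1)) => ‖Bp (spl (n + 1) z)‖) y :=
      (ContinuousAt.comp (g := Bp) (contDiffAt_Bp h0).continuousAt (spl (n + 1)).continuous.continuousAt).norm
    have he : ∀ z, jY (P.1 z) = Gam z → (P.1 z).1.2 = ‖Bp (spl (n + 1) z)‖ := fun z hz =>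
      congrArg (fun a : (Eu (n + 1) × Eu (n + 1)) × ℝ × ℝ × ℝ => a.2.2.1) hz
    refine ev_Xi_s w P ?_
    rcases h with h | h
    · left
      filter_upwards [hP, hc.eventually (gt_mem_nhds h)] with z hz1 hz2
      rw [he z hz1]
      exact le_of_lt hz2
    · right
      filter_upwards [hP, hc.eventually (lt_mem_nhds h)] with z hz1 hz2
      rw [he z hz1]
      exact le_of_lt hz2
  · exact vAt_of_not _ hl

theorem ThX_t (w : Om (spSt n)) {y : V (n + 1 + (n + 1))} (h0 : (spl (n + 1) y).1 ≠ 0)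
    (h : ⟪(spl (n + 1) y).1, (spl (n + 1) y).2⟫ / ‖(spl (n + 1) y).1‖ < -1 / 2 ∨
      1 / 2 < ⟪(spl (n + 1) y).1, (spl (n + 1) y).2⟫ / ‖(spl (n + 1) y).1‖) : ThX w y = 0 := by
  unfold ThX
  by_cases hl : LocPl (X := (spSt n).xR.xR.xR) jY Gam y
  · obtain ⟨P, hP⟩ := hl
    rw [vAt_eq jY_inj _ P hP]
    have hc0 : Continuous fun z : V (n + 1 + (n + 1)) => (spl (n + 1) z).1 := continuous_fst.comp (spl (n + 1)).continuous
    have hc1 : Continuous fun z : V (n + 1 + (n + 1)) => (spl (n + 1) z).2 := continuous_snd.comp (spl (n + 1)).continuous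
    have hc : ContinuousAt (fun z : V (n + 1 + (n + 1)) => ⟪(spl (n + 1) z).1, (spl (n + 1) z).2⟫ / ‖(spl (n + 1) z).1‖) y :=
      (hc0.inner hc1).continuousAt.div hc0.norm.continuousAt (norm_ne_zero_iff.2 h0)
    have he : ∀ z, jY (P.1 z) = Gam z → (P.1 z).2 = ⟪(spl (n + 1) z).1, (spl (n + 1) z).2⟫ / ‖(spl (n + 1) z).1‖ :=
      fun z hz => congrArg (fun a : (Eu (n + 1) × Eu (n + 1)) × ℝ × ℝ × ℝ => a.2.2.2) hz
    refine ev_Xi_t w P ?_
    rcases h with h | h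
    · left
      filter_upwards [hP, hc.eventually (gt_mem_nhds h)] with z hz1 hz2
      rw [he z hz1]
      exact le_of_lt hz2
    · right
      filter_upwards [hP, hc.eventually (lt_mem_nhds h)] with z hz1 hz2
      rw [he z hz1]
      exact le_of_lt hz2
  · exact vAt_of_not _ hl

theorem ThX_near (w : Om (spSt n)) {y : V (n + 1 + (n + 1))} (h : spl (n + 1) y ∈ GSet n) :
    ∃ P : (spSt n).xR.xR.xR.Plot (n + 1 + (n + 1)), (fun z => jY (P.1 z)) =ᶠ[𝓝 y] Gam ∧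
      ∀ᶠ z in 𝓝 y, ThX w z = ev z (Om.on (Xi w) P) := by
  obtain ⟨P, hP⟩ := locPl_Gam h
  exact ⟨P, hP, vAt_eventuallyEq jY_inj (Xi w) P hP⟩

theorem SmE_ThX (w : Om (spSt n)) : SmE (ThX w) := by
  refine SmE_of_loc fun y => ?_
  by_cases hA : (spl (n + 1) y).1 = 0
  · refine ⟨0, ?_⟩
    have hc : Continuous fun z : V (n + 1 + (n + 1)) => ‖(spl (n + 1) z).1‖ :=
      (continuous_fst.comp (spl (n + 1)).continuous).norm
    filter_upwards [hc.continuousAt.eventually (gt_mem_nhds (show ‖(spl (n + 1) y).1‖ < 1 by rw [hA, norm_zero]; exact one_pos))]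
      with z hz
    rw [ThX_r w (Or.inl hz), map_zero]
  · by_cases hB : Bp (spl (n + 1) y) = 0
    · refine ⟨0, ?_⟩
      have hc : ContinuousAt (fun z : V (n + 1 + (n + 1)) => ‖Bp (spl (n + 1) z)‖) y :=
        (ContinuousAt.comp (g := Bp) (contDiffAt_Bp hA).continuousAt (spl (n + 1)).continuous.continuousAt).norm
      have hc0 : Continuous fun z : V (n + 1 + (n + 1)) => (spl (n + 1) z).1 := continuous_fst.comp (spl (n + 1)).continuous
      filter_upwards [hc.eventually (gt_mem_nhds (show ‖Bp (spl (n + 1) y)‖ < 1 by rw [hB, norm_zero]; exact one_pos)),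
        hc0.continuousAt.eventually_ne hA] with z hz hz2
      rw [ThX_s w hz2 (Or.inl hz), map_zero]
    · obtain ⟨P, _, hP⟩ := ThX_near w (y := y) ⟨hA, hB⟩
      exact ⟨_, hP⟩

/-- `dχ(|A|) dχ(|B'|) dψ(t) gsm^* w` -/
def ThW (w : Om (spSt n)) : Fm (n + 1 + (n + 1)) := ofV (ThX w)

theorem ev_ThW (w : Om (spSt n)) (y : V (n + 1 + (n + 1))) : ev y (ThW w) = ThX w y := ev_ofV (SmE_ThX w) y

/-- the integral of a form over the Stiefel manifold -/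
def JV (w : Om (spSt n)) : ℝ := ∫ y : V (n + 1 + (n + 1)), topE (n + 1 + (n + 1)) (ev y (ThW w))

theorem normB_sq {a : Eu (n + 1) × Eu (n + 1)} (h : a.1 ≠ 0) : ‖a.2‖ ^ 2 = ‖Bp a‖ ^ 2 + (⟪a.1, a.2⟫ / ‖a.1‖) ^ 2 := by
  have h1 : ‖a.1‖ ≠ 0 := norm_ne_zero_iff.2 h
  have h2 : ‖Bp a‖ ^ 2 = ‖a.2‖ ^ 2 - (⟪a.1, a.2⟫ / ‖a.1‖) ^ 2 := by
    unfold Bp
    rw [← real_inner_self_eq_norm_sq, inner_sub_left, inner_sub_right, inner_sub_right]
    simp only [real_inner_smul_left, real_inner_smul_right]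
    rw [real_inner_comm a.1 a.2, real_inner_self_eq_norm_sq, real_inner_self_eq_norm_sq]
    field_simp
    ring
  rw [h2]
  ring

theorem ev_ThW_zero (w : Om (spSt n)) {y : V (n + 1 + (n + 1))} (h : 3 < ‖y‖) : ev y (ThW w) = 0 := by
  rw [ev_ThW]
  by_contra hne
  have h1 : ‖(spl (n + 1) y).1‖ ≤ 2 := by
    by_contra h1
    exact hne (ThX_r w (Or.inr (not_le.1 h1)))
  have h1' : 1 ≤ ‖(spl (n + 1) y).1‖ := by
    by_contra h1
    exact hne (ThX_r w (Or.inl (not_le.1 h1)))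
  have hA : (spl (n + 1) y).1 ≠ 0 := by
    rw [← norm_ne_zero_iff]
    linarith
  have h2 : ‖Bp (spl (n + 1) y)‖ ≤ 2 := by
    by_contra h1
    exact hne (ThX_s w hA (Or.inr (not_le.1 h1)))
  have h3 : ⟪(spl (n + 1) y).1, (spl (n + 1) y).2⟫ / ‖(spl (n + 1) y).1‖ ≤ 1 / 2 := by
    by_contra h1
    exact hne (ThX_t w hA (Or.inr (not_le.1 h1)))
  have h4 : -1 / 2 ≤ ⟪(spl (n + 1) y).1, (spl (n + 1) y).2⟫ / ‖(spl (n + 1) y).1‖ := by
    by_contra h1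
    exact hne (ThX_t w hA (Or.inl (not_le.1 h1)))
  have h5 : ‖(spl (n + 1) y).2‖ ≤ 3 := by
    have h6 := normB_sq (a := spl (n + 1) y) hA
    refine le_of_sq_le_sq ?_ (by norm_num)
    rw [h6]
    have h7 := norm_nonneg (Bp (spl (n + 1) y))
    nlinarith
  have h6 := norm_le_spl y (h1.trans (by norm_num : (2 : ℝ) ≤ 3)) h5
  linarith

/-! ### the pull-back by the tube map -/

/-- change of the tube parameters -/
def rhoY (n : ℕ) (R : ℝ) : SMap (spSt n).xR.xR.xR (spSt n).xR.xR.xR :=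
  ⟨fun q => (((q.1.1.1, R * q.1.1.2 ^ 2), R * q.1.2 ^ 2), 2 * R * q.2 - R), fun _ p =>
    ⟨⟨⟨p.2.1.1.1, contDiff_const.mul (ContDiff.pow (show ContDiff ℝ ∞ _ from p.2.1.1.2) 2)⟩,
      contDiff_const.mul (ContDiff.pow (show ContDiff ℝ ∞ _ from p.2.1.2) 2)⟩,
      (contDiff_const.mul (show ContDiff ℝ ∞ _ from p.2.2)).sub contDiff_const⟩⟩

theorem spl_TV_inner (R : ℝ) (q : (spSt n).xR.xR.xR.pt) : ⟪(spl (n + 1) (TV n R q)).1, (spl (n + 1) (TV n R q)).2⟫ =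
    (R * q.1.1.2 ^ 2) * (2 * R * q.2 - R) := by
  rw [spl_TV]
  change ⟪(R * q.1.1.2 ^ 2) • q.1.1.1.1.1, (R * q.1.2 ^ 2) • q.1.1.1.1.2 + (2 * R * q.2 - R) • q.1.1.1.1.1⟫ = _
  rw [inner_add_right, real_inner_smul_left, real_inner_smul_left, real_inner_smul_right, real_inner_smul_right, stxx, stxy]
  ring

theorem norm_TV1 {R : ℝ} (hR : 0 ≤ R) (q : (spSt n).xR.xR.xR.pt) : ‖(spl (n + 1) (TV n R q)).1‖ = R * q.1.1.2 ^ 2 := by
  rw [spl_TV]
  change ‖(R * q.1.1.2 ^ 2) • q.1.1.1.1.1‖ = _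
  rw [norm_smul, stx, mul_one, Real.norm_eq_abs, abs_of_nonneg (by positivity)]

theorem Bp_TV {R : ℝ} (hR : 0 < R) {q : (spSt n).xR.xR.xR.pt} (h : q.1.1.2 ≠ 0) :
    Bp (spl (n + 1) (TV n R q)) = (R * q.1.2 ^ 2) • q.1.1.1.1.2 := by
  have h1 : R * q.1.1.2 ^ 2 ≠ 0 := by positivity
  unfold Bp
  rw [spl_TV_inner, real_inner_self_eq_norm_sq, norm_TV1 hR.le, spl_TV]
  change ((R * q.1.2 ^ 2) • q.1.1.1.1.2 + (2 * R * q.2 - R) • q.1.1.1.1.1) -
    ((R * q.1.1.2 ^ 2) * (2 * R * q.2 - R) / (R * q.1.1.2 ^ 2) ^ 2) • ((R * q.1.1.2 ^ 2) • q.1.1.1.1.1) = _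
  rw [smul_smul]
  have h2 : (R * q.1.1.2 ^ 2) * (2 * R * q.2 - R) / (R * q.1.1.2 ^ 2) ^ 2 * (R * q.1.1.2 ^ 2) = 2 * R * q.2 - R := by
    field_simp
  rw [h2, add_sub_cancel_right]

theorem Gam_TV {R : ℝ} (hR : 0 < R) {q : (spSt n).xR.xR.xR.pt} (h1 : q.1.1.2 ≠ 0) (h2 : q.1.2 ≠ 0) :
    Gam (TV n R q) = jY ((rhoY n R).1 q) := by
  have e1 : R * q.1.1.2 ^ 2 ≠ 0 := by positivity
  have e2 : R * q.1.2 ^ 2 ≠ 0 := by positivity
  unfold Gam
  rw [spl_TV_inner, norm_TV1 hR.le, Bp_TV hR h1, norm_smul, sty, mul_one, Real.norm_eq_abs,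
    abs_of_nonneg (by positivity : 0 ≤ R * q.1.2 ^ 2), mul_div_cancel_left₀ _ e1]
  have e3 : gsm (spl (n + 1) (TV n R q)) = q.1.1.1.1 := by
    have e4 : gsm (spl (n + 1) (TV n R q)) = (‖(spl (n + 1) (TV n R q)).1‖⁻¹ • (spl (n + 1) (TV n R q)).1,
        ‖Bp (spl (n + 1) (TV n R q))‖⁻¹ • Bp (spl (n + 1) (TV n R q))) := rfl
    rw [e4, norm_TV1 hR.le, Bp_TV hR h1, norm_smul, sty, mul_one, Real.norm_eq_abs,
      abs_of_nonneg (by positivity : 0 ≤ R * q.1.2 ^ 2), spl_TV]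
    change ((R * q.1.1.2 ^ 2)⁻¹ • ((R * q.1.1.2 ^ 2) • q.1.1.1.1.1), (R * q.1.2 ^ 2)⁻¹ • ((R * q.1.2 ^ 2) • q.1.1.1.1.2)) = _
    rw [smul_smul, smul_smul, inv_mul_cancel₀ e1, inv_mul_cancel₀ e2, one_smul, one_smul]
  rw [e3]
  rfl

theorem mem_GSet_TV {R : ℝ} (hR : 0 < R) {q : (spSt n).xR.xR.xR.pt} (h1 : q.1.1.2 ≠ 0) (h2 : q.1.2 ≠ 0) :
    spl (n + 1) (TV n R q) ∈ GSet n := by
  have e1 : 0 < R * q.1.1.2 ^ 2 := by positivity
  have e2 : R * q.1.2 ^ 2 ≠ 0 := by positivity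
  constructor
  · rw [← norm_ne_zero_iff, norm_TV1 hR.le]
    exact e1.ne'
  · change Bp (spl (n + 1) (TV n R q)) ≠ 0
    rw [Bp_TV hR h1, ← norm_ne_zero_iff, norm_smul, sty, mul_one, norm_ne_zero_iff]
    exact e2

/-- **the pull-back of `ThW w` by the tube map** -/
theorem tf_ThW {R : ℝ} (hR : 0 < R) (w : Om (spSt n)) : tfO (TV n R) (TV_sm R) (ThW w) = (rhoY n R).pull (Xi w) := by
  refine Om_ext fun k p => ev_ext fun x => ?_
  obtain ⟨G, hG⟩ : ∃ G : FR.Sm k (n + 1 + (n + 1)), G = ⟨fun x => TV n R (p.1 x), TV_sm R k p⟩ := ⟨_, rfl⟩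
  have hGa : ∀ z, G z = TV n R (p.1 z) := fun z => by rw [hG]
  have c1 : Continuous fun z => (p.1 z).1.1.2 := (show ContDiff ℝ ∞ _ from p.2.1.1.2).continuous
  have c2 : Continuous fun z => (p.1 z).1.2 := (show ContDiff ℝ ∞ _ from p.2.1.2).continuous
  rw [on_tfO, ← hG, on_pull]
  by_cases h1 : (p.1 x).1.1.2 = 0
  · have h3 : ev (G x) (ThW w) = 0 := by
      rw [ev_ThW, ThX_r w (Or.inl ?_)]
      rw [hGa, norm_TV1 hR.le, h1, zero_pow two_ne_zero, mul_zero]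
      exact one_pos
    rw [ev_pb_of_zero _ h3]
    refine (ev_Xi_r w ((rhoY n R).pl p) (Or.inl ?_)).symm
    have h4 : ContinuousAt (fun z => R * (p.1 z).1.1.2 ^ 2) x := (continuous_const.mul (c1.pow 2)).continuousAt
    filter_upwards [h4.eventually (gt_mem_nhds (show R * (p.1 x).1.1.2 ^ 2 < 1 by
      rw [h1, zero_pow two_ne_zero, mul_zero]; exact one_pos))] with z hz
    exact le_of_lt hz
  · by_cases h2 : (p.1 x).1.2 = 0
    · have h3 : ev (G x) (ThW w) = 0 := by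
        rw [ev_ThW, ThX_s w ?_ (Or.inl ?_)]
        · rw [← norm_ne_zero_iff, hGa, norm_TV1 hR.le]
          positivity
        · rw [hGa, Bp_TV hR h1, h2, zero_pow two_ne_zero, mul_zero, zero_smul, norm_zero]
          exact one_pos
      rw [ev_pb_of_zero _ h3]
      refine (ev_Xi_s w ((rhoY n R).pl p) (Or.inl ?_)).symm
      have h4 : ContinuousAt (fun z => R * (p.1 z).1.2 ^ 2) x := (continuous_const.mul (c2.pow 2)).continuousAt
      filter_upwards [h4.eventually (gt_mem_nhds (show R * (p.1 x).1.2 ^ 2 < 1 by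
        rw [h2, zero_pow two_ne_zero, mul_zero]; exact one_pos))] with z hz
      exact le_of_lt hz
    · have hmem : spl (n + 1) (G x) ∈ GSet n := by
        rw [hGa]
        exact mem_GSet_TV hR h1 h2
      obtain ⟨P, hP1, hP2⟩ := ThX_near w hmem
      have h3 : ev x (pb G (ThW w)) = ev x (pb G (Om.on (Xi w) P)) := by
        refine ev_pb_congr' _ ?_
        filter_upwards [hP2] with z hz
        rw [ev_ThW, hz]
      rw [h3, ← on_cmp]
      refine ev_on_congr _ ?_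
      have hc : ContinuousAt (G : V k → V (n + 1 + (n + 1))) x := G.smooth.continuous.continuousAt
      filter_upwards [hc.eventually hP1, c1.continuousAt.eventually_ne h1, c2.continuousAt.eventually_ne h2] with z hz hz1 hz2
      refine jY_inj ?_
      change jY (P.1 (G z)) = jY ((rhoY n R).1 (p.1 z))
      rw [← Gam_TV hR hz1 hz2, ← hGa]
      exact hz

end Pool.Agent.Lib.MP_ccbbf6_gt.L7.DG
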