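import Pool.Agent.Lib.MP_ccbbf6_gt.L7.DG4

/-!
# Level 7, block DG, file 5: the degree of closed chains of top dimension in the Stiefel manifold (helper77)

* `DG_St0` : for a closed integer chain `y` of dimension `2n-1` (`= N`) : `ch y w = g * JV w`, `g` an integer;
* `JVL` : `JV` as a linear functional; `JVL_d` : `JVL (dO w) = 0`.
-/

set_option autoImplicit false
set_option maxSynthPendingDepth 3

open Set Filter Topology Metric MeasureTheory
open scoped ContDiff RealInnerProductSpace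

noncomputable section

namespace Pool.Agent.Lib.MP_ccbbf6_gt.L7.DG

open Geo L4 L4.FR L5

variable {n k N : ℕ}

/-- fibre integral of `df(s) ∧ w` with a change of time -/
theorem KO_dsF' {X : Space} {f : ℝ → ℝ} {hf : ContDiff ℝ ∞ f} {f1 f0 : ℝ} (h1 : f 1 = f1) (h0 : f 0 = f0) (w : Om X) :
    KO X (dO _ (sF X f hf) * (pO X).pull w) = (f1 - f0) • w := by
  rw [KO_dsF, h1, h0]

theorem psR_sm (R : ℝ) : ContDiff ℝ ∞ fun s => psc (2 * R * s - R) :=
  psc_sm.comp ((contDiff_const.mul contDiff_id).sub contDiff_const)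

theorem pull_Xi (R : ℝ) (w : Om (spSt n)) : (rhoY n R).pull (Xi w) =
    dO _ (sF _ (fun s => psc (2 * R * s - R)) (psR_sm R)) * (pO _).pull (dO _ (sF _ (chR2 R) (chR2_sm R)) *
      (pO _).pull (dO _ (sF _ (chR2 R) (chR2_sm R)) * (pO _).pull w)) := rfl

theorem FV_ThW {R : ℝ} (hR : 2 ≤ R) (w : Om (spSt n)) : FV n R (ThW w) = w := by
  unfold FV
  have h1 : chR2 R 1 = 1 := chi_one (by rw [one_pow, mul_one]; exact hR)
  have h2 : chR2 R 0 = 0 := chi_zero (by rw [zero_pow two_ne_zero, mul_zero]; exact zero_le_one)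
  have h3 : psc (2 * R * 1 - R) = 1 := psc_one (by linarith)
  have h4 : psc (2 * R * 0 - R) = 0 := psc_zero (by linarith)
  rw [tf_ThW (by linarith), pull_Xi, KO_dsF' (f := fun s => psc (2 * R * s - R)) h3 h4, sub_zero, one_smul, KO_dsF' h1 h2,
    sub_zero, one_smul, KO_dsF' h1 h2, sub_zero, one_smul]

/-! ### change of the dimension -/

/-- identification of two spaces of the same dimension -/
def cst {k l : ℕ} (h : l = k) : FR.Sm k l := ⟨fun x i => x (Fin.cast h i), contDiff_pi.2 fun i => contDiff_apply ℝ ℝ (Fin.cast h i)⟩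

theorem cI_cst {k l : ℕ} (h : l = k) (θ : Fm l) : cI k (pb (cst h) θ) = cI l θ := by
  subst h
  have h1 : cst (rfl : l = l) = Sm.id l := Sm.ext fun x => rfl
  rw [h1, pb_id]

/-- the tube map along a plot -/
def HV (R : ℝ) (hN : N + 1 + 1 + 1 = n + 1 + (n + 1)) (p : (spSt n).Plot N) : FR.Sm (n + 1 + (n + 1)) (n + 1 + (n + 1)) :=
  Sm.comp (k := n + 1 + (n + 1)) (l := N + 1 + 1 + 1) (n := n + 1 + (n + 1))
    ⟨fun x => TV n R (p.up.up.up.1 x), TV_sm R _ p.up.up.up⟩ (cst hN)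

theorem cI_HV (R : ℝ) (hN : N + 1 + 1 + 1 = n + 1 + (n + 1)) (p : (spSt n).Plot N) (Θ : Fm (n + 1 + (n + 1))) :
    cI (n + 1 + (n + 1)) (pb (HV R hN p) Θ) =
      ((-1) ^ (N + 1 + 1) * ((-1) ^ (N + 1) * (-1) ^ N)) * cI N (Om.on (FV n R Θ) p) := by
  unfold HV
  rw [pb_comp, cI_cst]
  change cI (N + 1 + 1 + 1) (Om.on (tfO (TV n R) (TV_sm R) Θ) p.up.up.up) = _
  rw [cI_KK, ← on_K, cI_KK, ← on_K, cI_KK, ← on_K]
  unfold FV
  ring

theorem sum_HV (R : ℝ) (hN : N + 1 + 1 + 1 = n + 1 + (n + 1)) (y : Ch (spSt n) N) (Θ : Fm (n + 1 + (n + 1))) :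
    ∑ p ∈ y.support, (y p : ℝ) * cI (n + 1 + (n + 1)) (pb (HV R hN p) Θ) =
      ((-1) ^ (N + 1 + 1) * ((-1) ^ (N + 1) * (-1) ^ N)) * ch y (FV n R Θ) := by
  rw [ch_eq_sum, Finset.mul_sum]
  refine Finset.sum_congr rfl fun p _ => ?_
  rw [cI_HV]
  ring

/-- **degree of a closed integer chain of top dimension in the Stiefel manifold** -/
theorem DG_St0 (hn : 2 ≤ n) (hN : N + 1 + 1 + 1 = n + 1 + (n + 1)) (y : Ch (spSt n) N) (hy : Cl y) :
    ∃ g : ℤ, ∀ w, ch y w = g * JV w := by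
  obtain ⟨R, hR⟩ : ∃ R : ℝ, R = (n + 1) * 6 + 2 := ⟨_, rfl⟩
  have hR1 : ((n : ℝ) + 1) * (2 * 3) < R := by rw [hR]; linarith
  have hR2 : 2 ≤ R := by
    have : (0 : ℝ) ≤ n := Nat.cast_nonneg n
    rw [hR]
    linarith
  obtain ⟨e, he, he2⟩ : ∃ e : ℤ, (e : ℝ) = (-1) ^ (N + 1 + 1) * ((-1) ^ (N + 1) * (-1) ^ N) ∧ e * e = 1 := by
    refine ⟨(-1) ^ (N + 1 + 1) * ((-1) ^ (N + 1) * (-1) ^ N), by push_cast; rfl, ?_⟩
    have h1 : ((-1 : ℤ) ^ N) * ((-1 : ℤ) ^ N) = 1 := by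
      rw [← mul_pow]
      norm_num
    rw [pow_succ, pow_succ]
    linear_combination (((-1 : ℤ) ^ N * (-1 : ℤ) ^ N) ^ 2 + (-1 : ℤ) ^ N * (-1 : ℤ) ^ N + 1) * h1
  have h00 : ∀ β : Fm (n + 1 + (n + 1)), Dg (n + 1 + n) β → (∀ y : V (n + 1 + (n + 1)), 2 * 3 < ‖y‖ → ev y β = 0) →
      ∑ p ∈ y.support, (y p : ℝ) * cI (n + 1 + (n + 1)) (pb (HV R hN p) (dd (n + 1 + (n + 1)) β)) = 0 := by
    intro β hβ h0
    obtain ⟨u, hu⟩ := FV_d hR1 h0 (by norm_num) hn hβ
    rw [sum_HV, hu, hy, mul_zero]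
  obtain ⟨k, hk⟩ : ∃ k : ℤ, ∀ Θ : Fm (n + 1 + (n + 1)),
      (∀ y : V (n + 1 + (n + 1)), 3 < ‖y‖ → topE (n + 1 + (n + 1)) (ev y Θ) = 0) →
      ∑ p ∈ y.support, (y p : ℝ) * cI (n + 1 + (n + 1)) (pb (HV R hN p) Θ) = k * ∫ y, topE (n + 1 + (n + 1)) (ev y Θ) :=
    deg_forms (D := n + 1 + n) y.support y (fun p => HV R hN p) (R := 3) three_pos h00
  refine ⟨e * k, fun w => ?_⟩
  have h2 := hk (ThW w) fun y hy => by rw [ev_ThW_zero w hy, map_zero]
  rw [sum_HV] at h2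
  rw [FV_ThW hR2, ← he] at h2
  have h3 : (e : ℝ) * e = 1 := by exact_mod_cast he2
  push_cast
  calc ch y w = ((e : ℝ) * e) * ch y w := by rw [h3, one_mul]
    _ = (e : ℝ) * ((e : ℝ) * ch y w) := by ring
    _ = _ := by rw [h2]; unfold JV; ring

/-! ### `JV` is linear and closed -/

theorem ThX_near_zero {y : V (n + 1 + (n + 1))} (h : spl (n + 1) y ∉ GSet n) (w : Om (spSt n)) : ∀ᶠ z in 𝓝 y, ThX w z = 0 := by
  by_cases hA : (spl (n + 1) y).1 = 0
  · have hc : Continuous fun z : V (n + 1 + (n + 1)) => ‖(spl (n + 1) z).1‖ :=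
      (continuous_fst.comp (spl (n + 1)).continuous).norm
    filter_upwards [hc.continuousAt.eventually (gt_mem_nhds (show ‖(spl (n + 1) y).1‖ < 1 by rw [hA, norm_zero]; exact one_pos))]
      with z hz
    exact ThX_r w (Or.inl hz)
  · have hB : Bp (spl (n + 1) y) = 0 := by
      by_contra hB
      exact h ⟨hA, hB⟩
    have hc : ContinuousAt (fun z : V (n + 1 + (n + 1)) => ‖Bp (spl (n + 1) z)‖) y :=
      (ContinuousAt.comp (g := Bp) (contDiffAt_Bp hA).continuousAt (spl (n + 1)).continuous.continuousAt).norm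
    have hc0 : Continuous fun z : V (n + 1 + (n + 1)) => (spl (n + 1) z).1 := continuous_fst.comp (spl (n + 1)).continuous
    filter_upwards [hc.eventually (gt_mem_nhds (show ‖Bp (spl (n + 1) y)‖ < 1 by rw [hB, norm_zero]; exact one_pos)),
      hc0.continuousAt.eventually_ne hA] with z hz hz2
    exact ThX_s w hz2 (Or.inl hz)

theorem Xi_d (w : Om (spSt n)) : Xi (dO _ w) = -dO _ (Xi w) := by
  have h1 : ∀ {X : Space} {f : ℝ → ℝ} {hf : ContDiff ℝ ∞ f} (θ : Om X),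
      dO _ (dO _ (sF X f hf) * (pO X).pull θ) = -(dO _ (sF X f hf) * (pO X).pull (dO _ θ)) := by
    intro X f hf θ
    rw [d_mul, d_d, zero_mul, zero_add, s_d, s_sF, neg_mul, pull_d]
  unfold Xi
  rw [h1, h1, h1]
  simp only [map_neg, mul_neg, neg_neg]

theorem dd_ThW (w : Om (spSt n)) : dd _ (ThW w) = -ThW (dO _ w) := by
  refine ev_ext fun y => ?_
  rw [map_neg, ev_ThW]
  by_cases h : spl (n + 1) y ∈ GSet n
  · obtain ⟨P, hP, hP2⟩ := ThX_near w h
    have h1 : ev y (dd _ (ThW w)) = ev y (dd _ (Om.on (Xi w) P)) := by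
      refine ev_dd_congr ?_
      filter_upwards [hP2] with z hz
      rw [ev_ThW, hz]
    have h2 : ThX (dO _ w) y = ev y (Om.on (Xi (dO _ w)) P) := vAt_eq jY_inj _ P hP
    rw [h1, h2, Xi_d, on_neg, map_neg, neg_neg, on_d]
  · have h1 : ev y (dd _ (ThW w)) = ev y (dd _ (0 : Fm (n + 1 + (n + 1)))) := by
      refine ev_dd_congr ?_
      filter_upwards [ThX_near_zero h w] with z hz
      rw [ev_ThW, hz, map_zero]
    rw [map_zero, map_zero] at h1
    rw [h1, (ThX_near_zero h (dO _ w)).self_of_nhds, neg_zero]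

theorem hcs_of_far {f : V k → ℝ} {r : ℝ} (h : ∀ y, r < ‖y‖ → f y = 0) : HasCompactSupport f :=
  HasCompactSupport.intro (isCompact_closedBall (0 : V k) r) fun y hy => h y (by
    rw [mem_closedBall, dist_zero_right] at hy
    exact not_le.1 hy)

/-- Stokes on `ℝ^k` -/
theorem int_dd_zero {Θ : Fm k} {r : ℝ} (h : ∀ y : V k, r < ‖y‖ → ev y Θ = 0) : ∫ y, topE k (ev y (dd k Θ)) = 0 := by
  have h1 : ∀ x : V k, topE k (ev x (dd k Θ)) = ∑ i, fderiv ℝ (fco i Θ : V k → ℝ) x (Pi.single i 1) := by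
    intro x
    rw [← tp_apply, tp_dd, AddSubmonoidClass.coe_finsetSum, Finset.sum_apply]
    rfl
  have hc : ∀ i, HasCompactSupport (fco i Θ : V k → ℝ) := fun i => hcs_of_far fun y hy => by
    rw [fco_apply, h y hy, mul_zero, map_zero]
  have hs : ∀ i, ContDiff ℝ 1 (fco i Θ : V k → ℝ) := fun i => (Cs_smooth (fco i Θ)).of_le ENat.LEInfty.out
  simp only [h1]
  rw [integral_finsetSum]
  · exact Finset.sum_eq_zero fun i _ => integral_pd_eq_zero (hs i) (hc i) _
  · intro i _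
    have h2 : Continuous fun x => fderiv ℝ (fco i Θ : V k → ℝ) x (Pi.single i 1) :=
      ((hs i).continuous_fderiv one_ne_zero).clm_apply continuous_const
    exact h2.integrable_of_hasCompactSupport ((hc i).fderiv_apply ℝ _)

theorem int_ThW (w : Om (spSt n)) : Integrable fun y : V (n + 1 + (n + 1)) => topE (n + 1 + (n + 1)) (ev y (ThW w)) :=
  (contDiff_coef _ _).continuous.integrable_of_hasCompactSupport (hcs_of_far (r := 3) fun y hy => by
    rw [ev_ThW_zero w hy, map_zero])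

/-- `JV` as a linear functional -/
def JVL (n : ℕ) : Om (spSt n) →ₗ[ℝ] ℝ where
  toFun := JV
  map_add' w w' := by
    unfold JV
    rw [← integral_add (int_ThW w) (int_ThW w')]
    refine integral_congr_ae (Eventually.of_forall fun y => ?_)
    change topE _ (ev y (ThW (w + w'))) = topE _ (ev y (ThW w)) + topE _ (ev y (ThW w'))
    have h1 : Xi (w + w') = Xi w + Xi w' := by
      unfold Xi
      simp only [map_add, mul_add]
    rw [← map_add, ev_ThW, ev_ThW, ev_ThW]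
    unfold ThX
    rw [h1, vAt_add jY_inj]
  map_smul' r w := by
    unfold JV
    rw [RingHom.id_apply, smul_eq_mul, ← integral_const_mul]
    refine integral_congr_ae (Eventually.of_forall fun y => ?_)
    change topE _ (ev y (ThW (r • w))) = r * topE _ (ev y (ThW w))
    have h1 : Xi (r • w) = r • Xi w := by
      unfold Xi
      simp only [map_smul, mul_smul_comm]
    rw [ev_ThW, ev_ThW]
    unfold ThX
    rw [h1, vAt_smul jY_inj, map_smul, smul_eq_mul]

theorem JVL_apply (w : Om (spSt n)) : JVL n w = JV w := rfl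

/-- **`JV` is closed** -/
theorem JVL_d (w : Om (spSt n)) : JVL n (dO _ w) = 0 := by
  rw [JVL_apply]
  unfold JV
  have h1 : ∀ y : V (n + 1 + (n + 1)), topE (n + 1 + (n + 1)) (ev y (ThW (dO _ w))) =
      -topE (n + 1 + (n + 1)) (ev y (dd _ (ThW w))) := by
    intro y
    rw [dd_ThW, map_neg, map_neg, neg_neg]
  simp only [h1]
  rw [integral_neg, int_dd_zero (r := 3) fun y hy => ev_ThW_zero w hy, neg_zero]

end Pool.Agent.Lib.MP_ccbbf6_gt.L7.DG
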