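import Pool.Agent.Lib.MP_ccbbf6_gt.L7.DG4

/-!
# Level 7, block DG, file 6: the form `dψ(c_0) dχ(|c'|) (c' / |c'|)^* ν` on `ℝ^(n+1)`; the rotation which takes `x` to `e_0`
(helper77)
-/

set_option autoImplicit false
set_option maxSynthPendingDepth 3

open Set Filter Topology Metric MeasureTheory
open scoped ContDiff RealInnerProductSpace

noncomputable section

namespace Pool.Agent.Lib.MP_ccbbf6_gt.L7.DG

open Geo L4 L4.FR L5

variable {n k N : ℕ}

/-! ### the first coordinate -/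

/-- forget the first coordinate (covectors) -/
def tlL (k : ℕ) : V (k + 1) →ₗ[ℝ] V k where
  toFun v i := v i.succ
  map_add' _ _ := rfl
  map_smul' _ _ := rfl

theorem tlL_apply (v : V (k + 1)) (i : Fin k) : tlL k v i = v i.succ := rfl

theorem topE_first0 (i : ℕ) (v : Fin i → V (k + 1)) : topE (k + 1) (ee 0 * ExteriorAlgebra.ιMulti ℝ i v) =
    topE k (ExteriorAlgebra.map (tlL k) (ExteriorAlgebra.ιMulti ℝ i v)) := by
  have h1 : ee 0 * ExteriorAlgebra.ιMulti ℝ i v =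
      ExteriorAlgebra.ιMulti ℝ (i + 1) (Fin.cons (Pi.single 0 1) v : Fin (i + 1) → V (k + 1)) := by
    rw [ExteriorAlgebra.ιMulti_succ_apply]
    rfl
  rw [h1, ExteriorAlgebra.map_apply_ιMulti]
  by_cases hi : i = k
  · subst hi
    rw [topE_ιMulti, topE_ιMulti, Matrix.det_succ_row_zero, Finset.sum_eq_single 0]
    · have h2 : (Matrix.of (Fin.cons (Pi.single 0 1) v : Fin (i + 1) → V (i + 1))) 0 0 = (1 : ℝ) := by
        simp
      have h3 : ((Matrix.of (Fin.cons (Pi.single 0 1) v : Fin (i + 1) → V (i + 1))).submatrix Fin.succ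
          (Fin.succAbove 0)) = Matrix.of (tlL i ∘ v) := by
        ext a b
        simp [tlL]
      rw [h2, h3]
      simp
    · intro j _ hj
      have h2 : (Matrix.of (Fin.cons (Pi.single 0 1) v : Fin (i + 1) → V (i + 1))) 0 j = (0 : ℝ) := by
        simp [Pi.single_eq_of_ne hj]
      rw [h2]
      ring
    · intro h
      exact absurd (Finset.mem_univ _) h
  · rw [topE_ιMulti_ne hi, topE_ιMulti_ne (fun h => hi (by omega))]

/-- the top coefficient and the first covector -/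
theorem topE_first (b : Ex (k + 1)) : topE (k + 1) (ee 0 * b) = topE k (ExteriorAlgebra.map (tlL k) b) := by
  have h : (topE (k + 1)).comp (LinearMap.mulLeft ℝ (ee 0)) = (topE k).comp (ExteriorAlgebra.map (tlL k)).toLinearMap :=
    ExteriorAlgebra.lhom_ext fun i => AlternatingMap.ext fun v => topE_first0 i v
  exact LinearMap.congr_fun h b

/-- forget the first coordinate -/
def tls (k : ℕ) : FR.Sm (k + 1) k := ⟨fun x i => x i.succ, contDiff_pi.2 fun i => contDiff_apply ℝ ℝ i.succ⟩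

theorem tr_tls (k : ℕ) (x : V (k + 1)) (v : V k) : tlL k (tr (tls k) x v) = v := by
  rw [tr_eq]
  have h1 : fderiv ℝ (tls k : V (k + 1) → V k) x = (ContinuousLinearMap.pi fun i : Fin k =>
      ContinuousLinearMap.proj (R := ℝ) (φ := fun _ : Fin (k + 1) => ℝ) i.succ) :=
    (ContinuousLinearMap.pi fun i : Fin k =>
      ContinuousLinearMap.proj (R := ℝ) (φ := fun _ : Fin (k + 1) => ℝ) i.succ).hasFDerivAt.fderiv
  funext i
  rw [tlL_apply, trL_apply, h1, Finset.sum_eq_single i]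
  · simp
  · intro j _ hj
    have : (Pi.single i.succ (1 : ℝ) : V (k + 1)) j.succ = 0 := by
      rw [Pi.single_eq_of_ne]
      exact fun h => hj (Fin.succ_injective _ h)
    simp [this]
  · intro h
    exact absurd (Finset.mem_univ _) h

/-- the top coefficient of `df(c_0) ∧ θ(c')` -/
theorem top_first {f : Cs (k + 1)} {g : ℝ → ℝ} (hg : Differentiable ℝ g) (hf : ∀ x, (f : V (k + 1) → ℝ) x = g (x 0)) (θ : Fm k)
    (x : V (k + 1)) : topE (k + 1) (ev x (dd (k + 1) (fc (k + 1) f) * pb (tls k) θ)) =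
      deriv g (x 0) * topE k (ev (fun i => x i.succ) θ) := by
  have h1 : ev x (dd (k + 1) (fc (k + 1) f)) = deriv g (x 0) • ee 0 := by
    have h1 : HasFDerivAt (fun x : V (k + 1) => x 0)
        (ContinuousLinearMap.proj (R := ℝ) (φ := fun _ : Fin (k + 1) => ℝ) 0) x := hasFDerivAt_apply _ _
    have h2 : HasDerivAt g (deriv g (x 0)) (x 0) := (hg _).hasDerivAt
    have h3 : HasFDerivAt (fun x : V (k + 1) => g (x 0)) (deriv g (x 0) •
        ContinuousLinearMap.proj (R := ℝ) (φ := fun _ : Fin (k + 1) => ℝ) 0) x :=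
      HasDerivAt.comp_hasFDerivAt (h₂ := g) x h2 h1
    have h4 : (f : V (k + 1) → ℝ) = fun x => g (x 0) := funext hf
    rw [ev_dd_fc, ι_eq, Finset.sum_eq_single 0]
    · congr 1
      rw [pd_apply, h4, h3.fderiv]
      simp
    · intro i _ hi
      have h5 : (pd i f : V (k + 1) → ℝ) x = 0 := by
        rw [pd_apply, h4, h3.fderiv]
        simp [Pi.single_eq_of_ne (Ne.symm hi)]
      rw [h5, zero_smul]
    · intro h
      exact absurd (Finset.mem_univ _) h
  rw [map_mul, h1, smul_mul_assoc, map_smul, topE_first, smul_eq_mul, ev_pb, ← AlgHom.comp_apply,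
    ExteriorAlgebra.map_comp_map]
  congr 1
  have h2 : (tlL k).comp (tr (tls k) x) = LinearMap.id := LinearMap.ext fun v => tr_tls k x v
  rw [h2, ExteriorAlgebra.map_id]
  rfl

/-- Fubini for the first variable -/
theorem integral_first {g : ℝ → ℝ} {h : V k → ℝ} :
    ∫ x : V (k + 1), g (x 0) * h (fun i => x i.succ) = (∫ t, g t) * ∫ c, h c := by
  have hmp := (volume_preserving_piFinSuccAbove (fun _ : Fin (k + 1) => ℝ) 0)
  have h1 := hmp.integral_comp (MeasurableEquiv.measurableEmbedding _) (fun z : ℝ × V k => g z.1 * h z.2)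
  have h2 : ∀ x : V (k + 1), (fun z : ℝ × V k => g z.1 * h z.2)
      (MeasurableEquiv.piFinSuccAbove (fun _ : Fin (k + 1) => ℝ) 0 x) = g (x 0) * h (fun i => x i.succ) := by
    intro x
    rfl
  simp only [h2] at h1
  rw [h1]
  exact integral_prod_mul g h

theorem integral_deriv_psc : ∫ s : ℝ, deriv psc s = 1 := by
  have h0 : ∀ s : ℝ, deriv psc s = deriv chi (s + 3 / 2) := fun s => deriv_comp_add_const chi (3 / 2) s
  simp only [h0]
  rw [integral_add_right_eq_self (fun s => deriv chi s) (3 / 2)]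
  have h1 : ∫ s in (0 : ℝ)..3, deriv chi s = ∫ s : ℝ, deriv chi s := by
    rw [intervalIntegral.integral_of_le (by norm_num)]
    refine setIntegral_eq_integral_of_forall_compl_eq_zero fun s hs => ?_
    by_cases h2 : s ≤ 0
    · exact deriv_chi_zero (by linarith)
    · have h3 : 3 < s := by
        by_contra h3
        exact hs ⟨not_le.1 h2, not_lt.1 h3⟩
      exact deriv_chi_zero' (by linarith)
  rw [← h1, integral_deriv_chi]

/-- `dψ(c_0) dχ(|c'|) (c' / |c'|)^* ν` -/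
def Psi (ν : Om (spS n)) : Fm (n + 1) :=
  dd (n + 1) (fc (n + 1) (mkC (fun c => psc (c 0)) (psc_sm.comp (contDiff_apply ℝ ℝ 0)))) * pb (tls n) (Th ν)

theorem top_Psi (ν : Om (spS n)) (c : V (n + 1)) :
    topE (n + 1) (ev c (Psi ν)) = deriv psc (c 0) * topE n (ev (fun i => c i.succ) (Th ν)) :=
  top_first (psc_sm.differentiable (by simp)) (fun _ => rfl) _ _

theorem int_Psi (ν : Om (spS n)) : ∫ c, topE (n + 1) (ev c (Psi ν)) = JS ν := by
  simp only [top_Psi]
  rw [integral_first (g := fun t => deriv psc t) (h := fun c => topE n (ev c (Th ν))), integral_deriv_psc, one_mul]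
  rfl

/-! ### the rotation -/

/-- the rotation which takes the unit vector `x` to `e_0` -/
def Rx (x : Eu (n + 1)) : Eu (n + 1) ≃ₗᵢ[ℝ] Eu (n + 1) :=
  (ℝ ∙ (x + EuclideanSpace.single 0 1)).reflection.trans (ℝ ∙ (EuclideanSpace.single 0 (1 : ℝ) : Eu (n + 1))).reflection

theorem det_Rx {x : Eu (n + 1)} (h : x + EuclideanSpace.single 0 1 ≠ 0) :
    LinearMap.det ((Rx x).toLinearEquiv : Eu (n + 1) →ₗ[ℝ] Eu (n + 1)) = 1 := by
  have h1 : ((Rx x).toLinearEquiv : Eu (n + 1) →ₗ[ℝ] Eu (n + 1)) =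
      ((ℝ ∙ (EuclideanSpace.single 0 (1 : ℝ) : Eu (n + 1))).reflection.toLinearEquiv : Eu (n + 1) →ₗ[ℝ] Eu (n + 1)).comp
        ((ℝ ∙ (x + EuclideanSpace.single 0 1)).reflection.toLinearEquiv : Eu (n + 1) →ₗ[ℝ] Eu (n + 1)) := rfl
  have h7 : Fact (Module.finrank ℝ (Eu (n + 1)) = n + 1) := ⟨finrank_euclideanSpace_fin⟩
  have h8 : (EuclideanSpace.single 0 (1 : ℝ) : Eu (n + 1)) ≠ 0 := by
    intro h9
    have := congrArg (fun z : Eu (n + 1) => z 0) h9
    simp at this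
  rw [h1, LinearMap.det_comp]
  have h2 := (ℝ ∙ (EuclideanSpace.single 0 (1 : ℝ) : Eu (n + 1))).det_reflection
  have h3 := (ℝ ∙ (x + EuclideanSpace.single 0 1 : Eu (n + 1))).det_reflection
  have e2 : LinearMap.det ((ℝ ∙ (EuclideanSpace.single 0 (1 : ℝ) : Eu (n + 1))).reflection.toLinearEquiv :
      Eu (n + 1) →ₗ[ℝ] Eu (n + 1)) = (-1) ^ n := by
    have h9 : Module.finrank ℝ (ℝ ∙ (EuclideanSpace.single 0 (1 : ℝ) : Eu (n + 1)))ᗮ = n :=
      Submodule.finrank_orthogonal_span_singleton (n := n) h8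
    rw [h9] at h2
    exact h2
  have e3 : LinearMap.det ((ℝ ∙ (x + EuclideanSpace.single 0 1 : Eu (n + 1))).reflection.toLinearEquiv :
      Eu (n + 1) →ₗ[ℝ] Eu (n + 1)) = (-1) ^ n := by
    have h9 : Module.finrank ℝ (ℝ ∙ (x + EuclideanSpace.single 0 1 : Eu (n + 1)))ᗮ = n :=
      Submodule.finrank_orthogonal_span_singleton (n := n) h
    rw [h9] at h3
    exact h3
  rw [e2, e3, ← mul_pow]
  norm_num

theorem inner_e0 (x : Eu (n + 1)) : ⟪(EuclideanSpace.single 0 (1 : ℝ) : Eu (n + 1)), x⟫ = x 0 := by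
  rw [EuclideanSpace.inner_single_left]
  simp

theorem norm_x_e0 {x : Eu (n + 1)} (hx : ‖x‖ = 1) : ‖x + EuclideanSpace.single 0 1‖ ^ 2 = 2 * (1 + x 0) := by
  have h1 : ⟪x, (EuclideanSpace.single 0 (1 : ℝ) : Eu (n + 1))⟫ = x 0 := by rw [real_inner_comm, inner_e0]
  have h2 : (EuclideanSpace.single 0 (1 : ℝ) : Eu (n + 1)) 0 = 1 := by simp
  rw [← real_inner_self_eq_norm_sq, inner_add_left, inner_add_right, inner_add_right, inner_e0, inner_e0, h1, h2,
    real_inner_self_eq_norm_sq, hx]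
  ring

theorem refl_apply (v w : Eu (n + 1)) : (ℝ ∙ v).reflection w = (2 * (⟪v, w⟫ / ‖v‖ ^ 2)) • v - w := by
  rw [Submodule.reflection_singleton_apply, two_smul, two_mul, add_smul]
  rfl

theorem Rx_apply {x : Eu (n + 1)} (hx : ‖x‖ = 1) (h0 : 0 < x 0) (B : Eu (n + 1)) :
    Rx x B = (2 * ⟪x, B⟫) • EuclideanSpace.single 0 1 +
      (B - ((⟪x, B⟫ + B 0) / (1 + x 0)) • (x + EuclideanSpace.single 0 1)) := by
  have h1 : (1 : ℝ) + x 0 ≠ 0 := by linarith
  obtain ⟨e, he⟩ : ∃ e : Eu (n + 1), e = EuclideanSpace.single 0 1 := ⟨_, rfl⟩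
  have e00 : e 0 = 1 := by rw [he]; simp
  have hs : (ℝ ∙ (x + e)).reflection B = ((⟪x, B⟫ + B 0) / (1 + x 0)) • (x + e) - B := by
    have h3 : ‖x + e‖ ^ 2 = 2 * (1 + x 0) := by rw [he]; exact norm_x_e0 hx
    have h4 : ⟪e, B⟫ = B 0 := by rw [he]; exact inner_e0 B
    rw [refl_apply, inner_add_left, h4, h3]
    congr 2
    field_simp
  have e0n : ‖e‖ = 1 := by rw [he]; simp
  have h5 : Rx x B = (ℝ ∙ e).reflection ((ℝ ∙ (x + e)).reflection B) := by rw [he]; rfl
  have h2 : (((⟪x, B⟫ + B 0) / (1 + x 0)) • (x + e) - B) 0 = ⟪x, B⟫ := by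
    rw [PiLp.sub_apply, PiLp.smul_apply, PiLp.add_apply, e00, smul_eq_mul]
    field_simp
    ring
  have h6 : ⟪e, ((⟪x, B⟫ + B 0) / (1 + x 0)) • (x + e) - B⟫ = ⟪x, B⟫ := by
    have h7 : ∀ W : Eu (n + 1), ⟪e, W⟫ = W 0 := fun W => by
      rw [he]
      exact inner_e0 W
    rw [h7, h2]
  rw [h5, hs, refl_apply, h6, e0n, ← he, one_pow, div_one, sub_eq_add_neg, neg_sub]

theorem Rx_zero {x : Eu (n + 1)} (hx : ‖x‖ = 1) (h0 : 0 < x 0) (B : Eu (n + 1)) : (Rx x B) 0 = ⟪x, B⟫ := by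
  have h1 : (1 : ℝ) + x 0 ≠ 0 := by linarith
  obtain ⟨e, he⟩ : ∃ e : Eu (n + 1), e = EuclideanSpace.single 0 1 := ⟨_, rfl⟩
  have e00 : e 0 = 1 := by rw [he]; simp
  rw [Rx_apply hx h0, ← he, PiLp.add_apply, PiLp.sub_apply, PiLp.smul_apply, PiLp.smul_apply, PiLp.add_apply, e00,
    smul_eq_mul, smul_eq_mul]
  field_simp
  ring

theorem Rx_succ {x : Eu (n + 1)} (hx : ‖x‖ = 1) (h0 : 0 < x 0) (B : Eu (n + 1)) (i : Fin n) :
    (Rx x B) i.succ = B i.succ - (⟪x, B⟫ + B 0) / (1 + x 0) * x i.succ := by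
  obtain ⟨e, he⟩ : ∃ e : Eu (n + 1), e = EuclideanSpace.single 0 1 := ⟨_, rfl⟩
  have e00 : e i.succ = 0 := by rw [he]; simp
  rw [Rx_apply hx h0, ← he, PiLp.add_apply, PiLp.sub_apply, PiLp.smul_apply, PiLp.smul_apply, PiLp.add_apply, e00,
    smul_eq_mul, smul_eq_mul, mul_zero, zero_add, add_zero]

end Pool.Agent.Lib.MP_ccbbf6_gt.L7.DG
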