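import Pool.Agent.Lib.MP_ccbbf6_gt.L4.ExtB
import Pool.Agent.Lib.MP_ccbbf6_gt.L4.F4a
import Pool.Agent.Lib.MP_ccbbf6_gt.L4.FU2f
import Pool.Agent.Lib.MP_ccbbf6_gt.L5.DGP
import Pool.Agent.Lib.MP_ccbbf6_gt.L5.EPS05
import Pool.Agent.Lib.MP_ccbbf6_gt.L7.ST0

/-!
# Level 7, TP0: pull-back of forms on `ℝ^m`; the form `χ(|z|) (z / |z|)^* ν`; the bump form on the Stiefel manifold
(helper79)

* `RMap X m` : smooth maps to `ℝ^m`, `RMap.pull : Fm m →ₐ Om X`;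
* `nrS n : SMap (spR n) (spS n)`, `Nu ν : Fm n` with value `χ(|z|) (z / |z|)^* ν`; `ev_dNu = 0` for `|z| > 2`;
  `JR_nrS : JR n (nrS^* ν) = JS ν`;
* `mX n : RMap (spSt n) n`, `(x, y) ↦ (x_1, .., x_n)`, `mT n : RMap (spSt n) n`, `(x, y) ↦ 2 ((1 + x_0) y_i - y_0 x_i)_i`,
  `norm_mT : |T| = 2 (1 + x_0)`;
* `wV v ν := x^* v * T^* (Nu ν)`; `Upp v` : `v` is supported in `x_0 > 0`.
-/

set_option autoImplicit false
set_option maxSynthPendingDepth 3

open Set Filter Topology MeasureTheory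
open scoped ContDiff RealInnerProductSpace

noncomputable section

namespace Pool.Agent.Lib.MP_ccbbf6_gt.L7

open Geo L4 L4.FR L5

variable {k l n m j : ℕ} {X Y : Space}

/-! ### smooth maps to `ℝ^m` -/

/-- smooth maps to `ℝ^m` -/
structure RMap (X : Space) (m : ℕ) where
  /-- the map -/
  f : X.pt → V m
  sm : ∀ (k : ℕ) (p : X.Plot k), ContDiff ℝ ∞ fun x => f (p.1 x)

namespace RMap

/-- the map along a plot -/
def pl (f : RMap X m) (p : X.Plot k) : FR.Sm k m := ⟨fun x => f.f (p.1 x), f.sm k p⟩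

theorem pl_apply (f : RMap X m) (p : X.Plot k) (x : V k) : f.pl p x = f.f (p.1 x) := rfl

theorem pl_cmp (f : RMap X m) (p : X.Plot l) (g : FR.Sm k l) : f.pl (p.cmp g) = (f.pl p).comp g := rfl

/-- pull-back -/
def pull (f : RMap X m) : Fm m →ₐ[ℝ] Om X where
  toFun θ := mkO (fun k p => pb (f.pl p) θ) (fun k l p g => by rw [pl_cmp, pb_comp])
  map_add' θ τ := Om_ext fun k p => by simp
  map_mul' θ τ := Om_ext fun k p => by simp
  map_zero' := Om_ext fun _ _ => by simp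
  map_one' := Om_ext fun _ _ => by simp
  commutes' r := Om_ext fun _ p => (pb (f.pl p)).commutes r

theorem on_pull (f : RMap X m) (θ : Fm m) (p : X.Plot k) : Om.on (f.pull θ) p = pb (f.pl p) θ := rfl

theorem pull_d (f : RMap X m) (θ : Fm m) : dO X (f.pull θ) = f.pull (dd m θ) := Om_ext fun k p => by
  rw [on_d, on_pull, on_pull, pb_dd]

theorem Deg_pull (f : RMap X m) {θ : Fm m} (h : Dg j θ) : Deg j (f.pull θ) := fun k p => Dg_pb _ h

theorem ev_pull_zero (f : RMap X m) {θ : Fm m} {p : X.Plot k} {x : V k} (h : ev (f.f (p.1 x)) θ = 0) :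
    ev x (Om.on (f.pull θ) p) = 0 := by
  rw [on_pull, ev_pb]
  have h1 : ev (f.pl p x) θ = 0 := h
  rw [h1, map_zero]

/-- composition with a smooth map -/
def comp (f : RMap Y m) (g : SMap X Y) : RMap X m := ⟨fun x => f.f (g.1 x), fun k p => f.sm k (g.pl p)⟩

theorem comp_pull (f : RMap Y m) (g : SMap X Y) (θ : Fm m) : (f.comp g).pull θ = g.pull (f.pull θ) := rfl

end RMap

/-! ### the form `χ(|z|) (z / |z|)^* ν` -/

/-- the projection to the sphere -/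
def nrS (n : ℕ) : SMap (spR n) (spS n) := ⟨fun x => ⟨‖x.1‖⁻¹ • x.1, normv x.2⟩, fun k p =>
  ((show ContDiff ℝ ∞ fun u => (p.1 u).1 from p.2).norm ℝ fun u => (p.1 u).2).inv
    (fun u => norm_ne_zero_iff.2 (p.1 u).2) |>.smul p.2⟩

theorem nrS_nrmR : (nrS n).comp (nrmR n) = nrS n := by
  refine SMap_ext fun x => Subtype.ext ?_
  change ‖‖x.1‖⁻¹ • x.1‖⁻¹ • (‖x.1‖⁻¹ • x.1) = ‖x.1‖⁻¹ • x.1
  rw [normv x.2, inv_one, one_smul]

/-- the value of the form `χ(|z|) (z / |z|)^* ν` -/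
def NuV (ν : Om (spS n)) (y : V n) : Ex n := vAt (jR n) (chR n * (nrS n).pull ν) toE y

theorem vAt_toE_zero (θ : Om (spR n)) {y : V n} (h : toE y = 0) : vAt (jR n) θ toE y = 0 :=
  vAt_of_not _ (not_locPl_zero h)

theorem NuV_of_lt (ν : Om (spS n)) {y : V n} (h : ‖toE y‖ ≤ 1) : NuV ν y = 0 := by
  by_cases h0 : toE y = 0
  · exact vAt_toE_zero _ h0
  · obtain ⟨P, hP⟩ := locPl_toE h0
    unfold NuV
    rw [vAt_eq jR_inj _ P hP, on_mul, map_mul, chR, on_fO, ev_fc]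
    have h1 : (P.1 y).1 = toE y := hP.self_of_nhds
    change algebraMap ℝ _ (chi ‖(P.1 y).1‖) * _ = 0
    rw [h1, chi_zero h, map_zero, zero_mul]

theorem SmE_NuV (ν : Om (spS n)) : SmE (NuV ν) := by
  refine SmE_of_loc fun y => ?_
  by_cases h : toE y = 0
  · refine ⟨0, ?_⟩
    have h2 : ∀ᶠ z in 𝓝 y, ‖toE z‖ < 1 := contDiff_toE.continuous.norm.continuousAt.eventually
      (gt_mem_nhds (by change ‖toE y‖ < 1; rw [h, norm_zero]; exact one_pos))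
    filter_upwards [h2] with z hz
    rw [NuV_of_lt ν hz.le, map_zero]
  · obtain ⟨P, hP⟩ := locPl_toE h
    refine ⟨Om.on (chR n * (nrS n).pull ν) P, ?_⟩
    exact vAt_eventuallyEq jR_inj _ P hP

/-- the form `χ(|z|) (z / |z|)^* ν` -/
def Nu (ν : Om (spS n)) : Fm n := ofV (NuV ν)

theorem ev_Nu (ν : Om (spS n)) (y : V n) : ev y (Nu ν) = NuV ν y := ev_ofV (SmE_NuV ν) y

theorem Dg_Nu {ν : Om (spS n)} (h : Deg j ν) : Dg j (Nu ν) := by
  refine Dg_of_ev fun y => ?_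
  rw [ev_Nu]
  by_cases h0 : toE y = 0
  · rw [NuV, vAt_toE_zero _ h0]
    exact Submodule.zero_mem _
  · obtain ⟨P, hP⟩ := locPl_toE h0
    unfold NuV
    rw [vAt_eq jR_inj _ P hP]
    have h1 : Deg (0 + j) (chR n * (nrS n).pull ν) := Deg_mul (fun _ _ => Dg_fc _) (Deg_pull _ h)
    rw [zero_add] at h1
    exact Dg_ev (h1 n P) y

/-- far away the form is closed -/
theorem ev_dNu {ν : Om (spS n)} (hn : 1 ≤ n) (h : Deg (n - 1) ν) {y : V n} (hy : 2 < ‖toE y‖) : ev y (dd n (Nu ν)) = 0 := by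
  have h0 : toE y ≠ 0 := by
    rintro h1
    rw [h1, norm_zero] at hy
    linarith
  have hy0 : y ≠ 0 := by
    rintro rfl
    exact h0 rfl
  obtain ⟨P, hP⟩ := locPl_toE h0
  have c : Continuous fun w : V n => ‖toE w‖ := contDiff_toE.continuous.norm
  -- near `y` the form is the pull-back of `ν`
  have e1 : ev y (dd n (Nu ν)) = ev y (dd n (Om.on ((nrS n).pull ν) P)) := by
    refine ev_dd_congr ?_
    filter_upwards [vAt_eventuallyEq jR_inj (chR n * (nrS n).pull ν) P hP, hP, c.continuousAt.eventually (lt_mem_nhds hy)]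
      with z h1 h2 h3
    rw [ev_Nu]
    unfold NuV
    rw [h1, on_mul, map_mul, chR, on_fO, ev_fc]
    have h4 : (P.1 z).1 = toE z := h2
    change algebraMap ℝ _ (chi ‖(P.1 z).1‖) * _ = _
    rw [h4, chi_one (le_of_lt h3), map_one, one_mul]
  rw [e1, ← on_d]
  rw [← vAt_eq jR_inj _ P hP]
  have hd : (nrmR n).pull (dO _ ((nrS n).pull ν)) = dO _ ((nrS n).pull ν) := by
    rw [← pull_d, ← pull_comp, nrS_nrmR]
  have h2 : topE n (vAt (jR n) (dO _ ((nrS n).pull ν)) toE y) = 0 :=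
    topE_eq_zero_of_ctr (EUL.phi_ne_zero hy0) (vAt_rad hd hy0)
  rw [vAt_eq jR_inj _ P hP] at h2 ⊢
  refine FR.eq_zero_of_topE ?_ h2
  have h3 : Deg (n - 1 + 1) (dO _ ((nrS n).pull ν)) := Deg_d (Deg_pull _ h)
  rw [Nat.sub_add_cancel hn] at h3
  exact Dg_ev (h3 n P) y

/-- `JR` of the pull-back of a form on the sphere -/
theorem JR_nrS (ν : Om (spS n)) : JR n ((nrS n).pull ν) = JS ν := by
  unfold JR JS
  refine integral_congr_ae (Eventually.of_forall fun y => ?_)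
  simp only
  congr 1
  rw [ev_Th]
  by_cases h0 : toE y = 0
  · rw [vAt_toE_zero _ h0]
    unfold ThV
    rw [ev_dcn_zero (by rw [h0, norm_zero]; exact one_pos), zero_mul]
  · obtain ⟨P, hP⟩ := locPl_toE h0
    have hQ : (fun z => (((nrS n).pl P).1 z).1) =ᶠ[𝓝 y] nrm := by
      filter_upwards [hP] with z hz
      have h1 : (P.1 z).1 = toE z := hz
      change ‖(P.1 z).1‖⁻¹ • (P.1 z).1 = ‖toE z‖⁻¹ • toE z
      rw [h1]
    rw [vAt_eq jR_inj _ P hP, on_mul, map_mul, on_pull]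
    unfold ThV
    rw [vAt_eq Subtype.val_injective ν ((nrS n).pl P) hQ, on_d, chR, on_fO]
    congr 1
    refine ev_dd_congr ?_
    filter_upwards [hP] with z hz
    rw [ev_fc, ev_fc]
    have h1 : (P.1 z).1 = toE z := hz
    congr 1
    change chi ‖(P.1 z).1‖ = chi ‖toE z‖
    rw [h1]

theorem NuV_far (ν : Om (spS n)) {y : V n} (h : 2 ≤ ‖toE y‖) : NuV ν y = vAt (jR n) ((nrS n).pull ν) toE y := by
  have h0 : toE y ≠ 0 := by
    rintro h1
    rw [h1, norm_zero] at h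
    linarith
  obtain ⟨P, hP⟩ := locPl_toE h0
  unfold NuV
  rw [vAt_eq jR_inj _ P hP, vAt_eq jR_inj _ P hP, on_mul, map_mul, chR, on_fO, ev_fc]
  have h1 : (P.1 y).1 = toE y := hP.self_of_nhds
  change algebraMap ℝ _ (chi ‖(P.1 y).1‖) * _ = _
  rw [h1, chi_one h, map_one, one_mul]

/-! ### the maps -/

/-- `(x, y) ↦ (x_1, .., x_n)` -/
def mX (n : ℕ) : RMap (spSt n) n := ⟨fun z i => z.1.1 i.succ, fun _ p => contDiff_pi.2 fun i =>
  (contDiff_piLp_apply (𝕜 := ℝ) (p := 2) (i := i.succ)).comp (plot_smX p)⟩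

/-- `(x, y) ↦ 2 ((1 + x_0) y_i - y_0 x_i)_i` -/
def mT (n : ℕ) : RMap (spSt n) n := ⟨fun z i => 2 * ((1 + z.1.1 0) * z.1.2 i.succ - z.1.2 0 * z.1.1 i.succ), fun _ p => by
  have hx : ∀ i, ContDiff ℝ ∞ fun u => (p.1 u).1.1 i := fun i =>
    (contDiff_piLp_apply (𝕜 := ℝ) (p := 2) (i := i)).comp (plot_smX p)
  have hy : ∀ i, ContDiff ℝ ∞ fun u => (p.1 u).1.2 i := fun i =>
    (contDiff_piLp_apply (𝕜 := ℝ) (p := 2) (i := i)).comp (plot_smY p)
  exact contDiff_pi.2 fun i => contDiff_const.mul (((contDiff_const.add (hx 0)).mul (hy _)).sub ((hy 0).mul (hx _)))⟩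

theorem sum_sq {N : ℕ} (a : Eu N) : ∑ i, a i ^ 2 = ‖a‖ ^ 2 := by
  rw [EuclideanSpace.norm_sq_eq]
  simp

theorem norm_mT_sq (z : (spSt n).pt) : ‖toE ((mT n).f z)‖ ^ 2 = (2 * (1 + z.1.1 0)) ^ 2 := by
  rw [EuclideanSpace.norm_sq_eq]
  have hx : z.1.1 0 ^ 2 + ∑ i : Fin n, z.1.1 i.succ ^ 2 = 1 := by
    rw [← Fin.sum_univ_succ (f := fun i => z.1.1 i ^ 2), sum_sq, stx, one_pow]
  have hy : z.1.2 0 ^ 2 + ∑ i : Fin n, z.1.2 i.succ ^ 2 = 1 := by
    rw [← Fin.sum_univ_succ (f := fun i => z.1.2 i ^ 2), sum_sq, sty, one_pow]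
  have hxy : z.1.1 0 * z.1.2 0 + ∑ i : Fin n, z.1.1 i.succ * z.1.2 i.succ = 0 := by
    have h1 : ⟪z.1.2, z.1.1⟫ = 0 := styx z
    rw [PiLp.inner_apply] at h1
    rw [← Fin.sum_univ_succ (f := fun i => z.1.1 i * z.1.2 i)]
    exact h1
  have h1 : ∀ i : Fin n, ‖(toE ((mT n).f z)) i‖ ^ 2 = 4 * ((1 + z.1.1 0) ^ 2 * z.1.2 i.succ ^ 2 -
      2 * ((1 + z.1.1 0) * z.1.2 0) * (z.1.1 i.succ * z.1.2 i.succ) + z.1.2 0 ^ 2 * z.1.1 i.succ ^ 2) := by
    intro i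
    rw [Real.norm_eq_abs, sq_abs]
    change (2 * ((1 + z.1.1 0) * z.1.2 i.succ - z.1.2 0 * z.1.1 i.succ)) ^ 2 = _
    ring
  simp only [h1]
  rw [← Finset.mul_sum, Finset.sum_add_distrib, Finset.sum_sub_distrib, ← Finset.mul_sum, ← Finset.mul_sum,
    ← Finset.mul_sum]
  set a := z.1.1 0
  set b := z.1.2 0
  set A := ∑ i : Fin n, z.1.1 i.succ ^ 2
  set B := ∑ i : Fin n, z.1.2 i.succ ^ 2
  set C := ∑ i : Fin n, z.1.1 i.succ * z.1.2 i.succ
  have hA : A = 1 - a ^ 2 := by linarith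
  have hB : B = 1 - b ^ 2 := by linarith
  have hC : C = -(a * b) := by linarith
  rw [hA, hB, hC]
  ring

theorem abs_x0 (z : (spSt n).pt) : |z.1.1 0| ≤ 1 := by
  have h := EuclideanSpace.norm_eq z.1.1
  have h1 : ‖z.1.1 0‖ ≤ ‖z.1.1‖ := PiLp.norm_apply_le z.1.1 0
  rwa [stx, Real.norm_eq_abs] at h1

theorem norm_mT (z : (spSt n).pt) : ‖toE ((mT n).f z)‖ = 2 * (1 + z.1.1 0) := by
  have h := abs_le.1 (abs_x0 z)
  exact (sq_eq_sq₀ (norm_nonneg _) (by linarith)).1 (norm_mT_sq z)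

theorem norm_mX_sq (z : (spSt n).pt) : ‖toE ((mX n).f z)‖ ^ 2 = 1 - z.1.1 0 ^ 2 := by
  have hx : z.1.1 0 ^ 2 + ∑ i : Fin n, z.1.1 i.succ ^ 2 = 1 := by
    rw [← Fin.sum_univ_succ (f := fun i => z.1.1 i ^ 2), sum_sq, stx, one_pow]
  rw [EuclideanSpace.norm_sq_eq]
  have h1 : ∀ i : Fin n, ‖(toE ((mX n).f z)) i‖ ^ 2 = z.1.1 i.succ ^ 2 := by
    intro i
    rw [Real.norm_eq_abs, sq_abs]
    rfl
  simp only [h1]
  linarith

/-- **the bump form** `x^* v * T^* (χ(|z|) (z / |z|)^* ν)` -/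
def wV (v : Om (spS (n + 1))) (ν : Om (spS n)) : Om (spSt n) := (stX n).pull v * (mT n).pull (Nu ν)

theorem Deg_wV {v : Om (spS (n + 1))} (hv : Deg n v) {ν : Om (spS n)} (hν : Deg (n - 1) ν) :
    Deg (n + (n - 1)) (wV v ν) :=
  Deg_mul (Deg_pull _ hv) ((mT n).Deg_pull (Dg_Nu hν))

/-- `v` vanishes on the lower hemisphere -/
def Upp (v : Om (spS (n + 1))) : Prop := ∀ (k : ℕ) (p : (spS (n + 1)).Plot k) (u : V k), (p.1 u).1 0 ≤ 0 → ev u (Om.on v p) = 0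

end Pool.Agent.Lib.MP_ccbbf6_gt.L7
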