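import Pool.Agent.Lib.MP_ccbbf6_gt.L7.DG6
import Pool.Agent.Lib.MP_ccbbf6_gt.L7.TP0

/-!
# Level 7, block DG, file 7: the value of `JV` on the product forms `wV v ν` (helper77)

`top_ThX_wV` : the top coefficient of `ThW (wV v ν)` at `(A, B)` is the product of the top coefficients of `Th v` at `A` and of
`Psi ν` at `R_x B`, `x = A / |A|`; `JV_wV` : `JV (wV v ν) = JS v * JS ν`.
-/

set_option autoImplicit false
set_option maxSynthPendingDepth 3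

open Set Filter Topology Metric MeasureTheory
open scoped ContDiff RealInnerProductSpace

noncomputable section

namespace Pool.Agent.Lib.MP_ccbbf6_gt.L7.DG

open Geo L4 L4.FR L5

variable {n k N : ℕ}

/-! ### the two factors -/

/-- first factor `dχ(r) x^* v` -/
def U1 (v : Om (spS (n + 1))) : Om (spSt n).xR.xR.xR :=
  (pO _).pull ((pO _).pull (dO _ (sF _ chi contDiff_chi) * (pO _).pull ((stX n).pull v)))

/-- second factor `dψ(t) dχ(s) θ` -/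
def U2 (θ : Om (spSt n)) : Om (spSt n).xR.xR.xR :=
  dO _ (sF _ psc psc_sm) * (pO _).pull (dO _ (sF _ chi contDiff_chi) * (pO _).pull ((pO _).pull θ))

theorem s_dsF {X : Space} {f : ℝ → ℝ} {hf : ContDiff ℝ ∞ f} : sO _ (dO _ (sF X f hf)) = -dO _ (sF X f hf) := by
  rw [s_d, s_sF]

theorem mul_rearr {X : Space} {a b c d e : Om X} (h : a * b * (c * d) = c * d * (a * b)) :
    a * (b * (c * (d * e))) = c * d * (a * (b * e)) :=
  calc a * (b * (c * (d * e))) = (a * b * (c * d)) * e := by simp only [mul_assoc]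
    _ = (c * d * (a * b)) * e := by rw [h]
    _ = _ := by simp only [mul_assoc]

theorem Xi_mul (v : Om (spS (n + 1))) (θ : Om (spSt n)) : Xi ((stX n).pull v * θ) = U1 v * U2 θ := by
  have h1 : sO _ (dO _ (sF _ psc psc_sm) * (pO (spSt n).xR.xR).pull (dO _ (sF _ chi contDiff_chi))) =
      dO _ (sF _ psc psc_sm) * (pO (spSt n).xR.xR).pull (dO _ (sF _ chi contDiff_chi)) := by
    rw [map_mul, s_dsF, pull_s, s_dsF, map_neg, neg_mul_neg]
  unfold Xi U1 U2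
  simp only [map_mul]
  exact mul_rearr (even_comm' h1 _)

/-- projection to the first vector -/
def pA (n : ℕ) : FR.Sm (n + 1 + (n + 1)) (n + 1) :=
  ⟨fun y => toV (spl (n + 1) y).1, contDiff_toV.comp (contDiff_fst.comp (spl (n + 1)).contDiff)⟩

theorem tr_pA (y : V (n + 1 + (n + 1))) : tr (pA n) y = A1 (n + 1) := by
  rw [tr_eq, ← trL_fst]
  congr 1
  exact (((toEL (n + 1)).symm : Eu (n + 1) →L[ℝ] V (n + 1)).comp ((ContinuousLinearMap.fst ℝ (Eu (n + 1)) (Eu (n + 1))).comp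
    (spl (n + 1) : V (n + 1 + (n + 1)) →L[ℝ] Eu (n + 1) × Eu (n + 1)))).hasFDerivAt.fderiv

/-- inclusion of the second vectors -/
def sA (A : Eu (n + 1)) : FR.Sm (n + 1) (n + 1 + (n + 1)) :=
  ⟨fun c => (spl (n + 1)).symm (A, toE c), (spl (n + 1)).symm.contDiff.comp (contDiff_const.prodMk contDiff_toE)⟩

theorem spl_sA (A : Eu (n + 1)) (c : V (n + 1)) : spl (n + 1) (sA A c) = (A, toE c) :=
  ContinuousLinearEquiv.apply_symm_apply _ _

theorem tr_sA (A : Eu (n + 1)) (c : V (n + 1)) : tr (sA A) c = A2 (n + 1) := by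
  obtain ⟨L, hL⟩ : ∃ L : V (n + 1) →L[ℝ] V (n + 1 + (n + 1)),
      L = ((spl (n + 1)).symm : Eu (n + 1) × Eu (n + 1) →L[ℝ] V (n + 1 + (n + 1))).comp
        ((ContinuousLinearMap.inr ℝ (Eu (n + 1)) (Eu (n + 1))).comp ((toEL (n + 1) : V (n + 1) →L[ℝ] Eu (n + 1)).comp
          (ContinuousLinearMap.id ℝ (V (n + 1))))) := ⟨_, rfl⟩
  have h1 : (sA A : V (n + 1) → V (n + 1 + (n + 1))) = fun c => (spl (n + 1)).symm (A, 0) + L c := by
    funext c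
    rw [hL]
    change (spl (n + 1)).symm (A, toE c) = (spl (n + 1)).symm (A, 0) + (spl (n + 1)).symm (0, toE c)
    rw [← map_add]
    congr 1
    exact Prod.ext (by simp) (by simp)
  have h2 : fderiv ℝ (sA A : V (n + 1) → V (n + 1 + (n + 1))) c = L := by
    rw [h1]
    exact (L.hasFDerivAt.const_add _).fderiv
  rw [tr_eq, h2, hL, trL_snd, trL_id, LinearMap.id_comp]

/-- the rotation in coordinates -/
def LxS (x : Eu (n + 1)) : FR.Sm (n + 1) (n + 1) :=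
  ⟨fun c => toV (Rx x (toE c)), contDiff_toV.comp ((Rx x).contDiff.comp contDiff_toE)⟩

theorem det_LxS {x : Eu (n + 1)} (h : x + EuclideanSpace.single 0 1 ≠ 0) (c : V (n + 1)) :
    (fderiv ℝ (LxS x : V (n + 1) → V (n + 1)) c).det = 1 := by
  have h1 : fderiv ℝ (LxS x : V (n + 1) → V (n + 1)) c = ((toEL (n + 1)).symm : Eu (n + 1) →L[ℝ] V (n + 1)).comp
      (((Rx x).toContinuousLinearEquiv : Eu (n + 1) →L[ℝ] Eu (n + 1)).comp (toEL (n + 1) : V (n + 1) →L[ℝ] Eu (n + 1))) :=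
    (((toEL (n + 1)).symm : Eu (n + 1) →L[ℝ] V (n + 1)).comp
      (((Rx x).toContinuousLinearEquiv : Eu (n + 1) →L[ℝ] Eu (n + 1)).comp
        (toEL (n + 1) : V (n + 1) →L[ℝ] Eu (n + 1)))).hasFDerivAt.fderiv
  rw [h1]
  have h2 := LinearMap.det_conj ((Rx x).toLinearEquiv : Eu (n + 1) →ₗ[ℝ] Eu (n + 1)) (toEL (n + 1)).symm.toLinearEquiv
  rw [det_Rx h] at h2
  exact h2

/-- the top coefficient of a product of a form of top degree in the first variables with any form -/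
theorem topE_split {a : Ex (n + 1)} (ha : a ∈ ⋀[ℝ]^(n + 1) (V (n + 1))) (η : Ex (n + 1 + (n + 1))) :
    topE (n + 1 + (n + 1)) (ExteriorAlgebra.map (A1 (n + 1)) a * η) =
      topE (n + 1) a * topE (n + 1) (ExteriorAlgebra.map (A2 (n + 1)) η) := by
  have h1 := eq_topE_smul ha
  obtain ⟨r, hr⟩ : ∃ r : ℝ, r = topE (n + 1) a := ⟨_, rfl⟩
  rw [← hr] at h1 ⊢
  rw [h1, map_smul, smul_mul_assoc, map_smul, topE_block, smul_eq_mul]

theorem Th_mem {v : Om (spS (n + 1))} (hv : Deg n v) (y : V (n + 1)) : ev y (Th v) ∈ ⋀[ℝ]^(n + 1) (V (n + 1)) := by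
  by_cases h : toE y = 0
  · rw [ev_Th]
    unfold ThV
    rw [ev_dcn_zero (by rw [h, norm_zero]; exact one_pos), zero_mul]
    exact Submodule.zero_mem _
  · obtain ⟨Q, _, hQ⟩ := ThV_near v h
    rw [ev_Th, hQ.self_of_nhds]
    have h1 : Dg (0 + 1 + n) (dd (n + 1) (fc (n + 1) (cn1 (n + 1))) * Om.on v Q) := Dg_mul (Dg_dd (Dg_fc _)) (hv _ Q)
    rw [zero_add, Nat.add_comm 1 n] at h1
    exact Dg_ev h1 y

/-- the first factor -/
theorem ev_U1 (v : Om (spS (n + 1))) {P : (spSt n).xR.xR.xR.Plot (n + 1 + (n + 1))} {y : V (n + 1 + (n + 1))}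
    (hP : (fun z => jY (P.1 z)) =ᶠ[𝓝 y] Gam) (hA : (spl (n + 1) y).1 ≠ 0) :
    ev y (Om.on (U1 v) P) = ev y (pb (pA n) (Th v)) := by
  obtain ⟨Q, hQ, hQ2⟩ := ThV_near v (y := pA n y) hA
  have h1 : ev y (pb (pA n) (Th v)) = ev y (pb (pA n) (dd (n + 1) (fc (n + 1) (cn1 (n + 1))) * Om.on v Q)) := by
    refine ev_pb_congr' _ ?_
    filter_upwards [hQ2] with z hz
    rw [ev_Th, hz]
  rw [h1, map_mul (pb _), map_mul, ← pb_dd, pb_fc, ← on_cmp]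
  unfold U1
  rw [on_pull, on_pull, on_mul, map_mul, on_d, on_pull, on_pull]
  have hc : ContinuousAt (pA n : V (n + 1 + (n + 1)) → V (n + 1)) y := (pA n).smooth.continuous.continuousAt
  have he : ∀ z, jY (P.1 z) = Gam z → (P.1 z).1.1.2 = ‖(spl (n + 1) z).1‖ := fun z hz =>
    congrArg (fun a : (Eu (n + 1) × Eu (n + 1)) × ℝ × ℝ × ℝ => a.2.1) hz
  have he2 : ∀ z, jY (P.1 z) = Gam z → (P.1 z).1.1.1.1.1 = ‖(spl (n + 1) z).1‖⁻¹ • (spl (n + 1) z).1 := fun z hz =>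
    congrArg (fun a : (Eu (n + 1) × Eu (n + 1)) × ℝ × ℝ × ℝ => a.1.1) hz
  congr 1
  · refine ev_dd_congr ?_
    filter_upwards [hP] with z hz
    rw [ev_sF, ev_fc]
    exact congrArg (fun r => algebraMap ℝ (Ex (n + 1 + (n + 1))) (chi r)) (he z hz)
  · refine ev_on_congr v ?_
    filter_upwards [hP, hc.eventually hQ] with z hz hz2
    refine Subtype.ext ?_
    change (P.1 z).1.1.1.1.1 = (Q.1 (pA n z)).1
    rw [hz2, he2 z hz]
    rfl

theorem nrm_unit {A : Eu (n + 1)} (h : A ≠ 0) : ‖‖A‖⁻¹ • A‖ = 1 := by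
  rw [norm_smul, norm_inv, norm_norm, inv_mul_cancel₀ (norm_ne_zero_iff.2 h)]

theorem ne_of_pos {A : Eu (n + 1)} (h : 0 < A 0) : A ≠ 0 := by
  rintro rfl
  simp at h

/-- `T = (2 (1 + x_0) / |B'|) (R_x B)'` -/
theorem mT_eq {A B : Eu (n + 1)} (hA : 0 < A 0) (z : (spSt n).pt) (hz : z.1 = gsm (A, B)) (i : Fin n) :
    (mT n).f z i = (2 * (1 + (‖A‖⁻¹ • A) 0) * ‖Bp (A, B)‖⁻¹) * (Rx (‖A‖⁻¹ • A) B) i.succ := by
  have hA0 := ne_of_pos hA
  have hx0 : 0 < (‖A‖⁻¹ • A) 0 := by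
    rw [PiLp.smul_apply, smul_eq_mul]
    have := norm_pos_iff.2 hA0
    positivity
  have h1 : z.1.1 = ‖A‖⁻¹ • A := congrArg Prod.fst hz
  have h2 : z.1.2 = ‖Bp (A, B)‖⁻¹ • Bp (A, B) := congrArg Prod.snd hz
  have h3 : Bp (A, B) = B - ⟪‖A‖⁻¹ • A, B⟫ • (‖A‖⁻¹ • A) := by
    change B - (⟪A, B⟫ / ⟪A, A⟫) • A = _
    rw [real_inner_self_eq_norm_sq, real_inner_smul_left, smul_smul]
    congr 2
    have := norm_ne_zero_iff.2 hA0
    field_simp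
  rw [Rx_succ (nrm_unit hA0) hx0]
  change 2 * ((1 + z.1.1 0) * z.1.2 i.succ - z.1.2 0 * z.1.1 i.succ) = _
  obtain ⟨x, hx⟩ : ∃ x : Eu (n + 1), x = ‖A‖⁻¹ • A := ⟨_, rfl⟩
  obtain ⟨c, hc⟩ : ∃ c : ℝ, c = ‖Bp (A, B)‖⁻¹ := ⟨_, rfl⟩
  rw [← hc] at h2 ⊢
  rw [← hx] at h1 h3 hx0 ⊢
  have h4 : (1 : ℝ) + x 0 ≠ 0 := by linarith
  rw [h2, h1, h3, PiLp.smul_apply, PiLp.smul_apply, PiLp.sub_apply, PiLp.sub_apply, PiLp.smul_apply, PiLp.smul_apply]
  simp only [smul_eq_mul]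
  field_simp
  ring

/-- the norm of `(R_x B)'` -/
theorem norm_Rs {A B : Eu (n + 1)} (hA : 0 < A 0) (hB : Bp (A, B) ≠ 0) :
    ‖toE (fun i : Fin n => (Rx (‖A‖⁻¹ • A) B) i.succ)‖ = ‖Bp (A, B)‖ := by
  have hA0 := ne_of_pos hA
  have hmem : (A, B) ∈ GSet n := ⟨hA0, hB⟩
  obtain ⟨z, hz⟩ : ∃ z : (spSt n).pt, z.1 = gsm (A, B) := ⟨⟨gsm (A, B), gsm_mem hmem⟩, rfl⟩
  have hx0 : 0 < (‖A‖⁻¹ • A) 0 := by
    rw [PiLp.smul_apply, smul_eq_mul]
    have := norm_pos_iff.2 hA0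
    positivity
  have h1 := norm_mT z
  have h2 : toE ((mT n).f z) = (2 * (1 + (‖A‖⁻¹ • A) 0) * ‖Bp (A, B)‖⁻¹) •
      toE (fun i : Fin n => (Rx (‖A‖⁻¹ • A) B) i.succ) := by
    ext i
    exact mT_eq hA z hz i
  have h3 : z.1.1 = ‖A‖⁻¹ • A := congrArg Prod.fst hz
  have hBn : 0 < ‖Bp (A, B)‖ := norm_pos_iff.2 hB
  obtain ⟨q, hq⟩ : ∃ q : ℝ, q = 2 * (1 + (‖A‖⁻¹ • A) 0) := ⟨_, rfl⟩
  have hq0 : 0 < q := by rw [hq]; positivity
  rw [h2, norm_smul, Real.norm_eq_abs, h3, ← hq, abs_of_pos (by positivity)] at h1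
  obtain ⟨a, ha⟩ : ∃ a : ℝ, a = ‖toE (fun i : Fin n => (Rx (‖A‖⁻¹ • A) B) i.succ)‖ := ⟨_, rfl⟩
  obtain ⟨b, hb⟩ : ∃ b : ℝ, b = ‖Bp (A, B)‖ := ⟨_, rfl⟩
  rw [← ha, ← hb] at h1
  rw [← hb] at hBn
  rw [← ha, ← hb]
  field_simp at h1
  linarith

end Pool.Agent.Lib.MP_ccbbf6_gt.L7.DG
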