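import Pool.Agent.Lib.MP_ccbbf6_gt.L7.DG5
import Pool.Agent.Lib.MP_ccbbf6_gt.L7.DG7

/-!
# Level 7, block DG, file 8: the value of `JV` on the product forms `wV v ν` (helper77)

`JV_wV` : `JV (wV v ν) = JS v * JS ν` for a form `v` of degree `n` supported in the upper hemisphere.
-/

set_option autoImplicit false
set_option maxSynthPendingDepth 3

open Set Filter Topology Metric MeasureTheory
open scoped ContDiff RealInnerProductSpace

noncomputable section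

namespace Pool.Agent.Lib.MP_ccbbf6_gt.L7.DG

open Geo L4 L4.FR L5

variable {n k N : ℕ}

theorem sA_toV (A B : Eu (n + 1)) : sA A (toV B) = (spl (n + 1)).symm (A, B) := rfl

theorem Gam_sA (A : Eu (n + 1)) (c : V (n + 1)) : Gam (sA A c) =
    (gsm (A, toE c), ‖A‖, ‖Bp (A, toE c)‖, ⟪A, toE c⟫ / ‖A‖) := by
  unfold Gam
  rw [spl_sA]

/-- far away the form `Nu ν` is the pull-back of `ν` -/
theorem Nu_far (ν : Om (spS n)) {y : V n} (h : 2 < ‖toE y‖) : ∃ Q : (spS n).Plot n,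
    (fun z => (Q.1 z).1) =ᶠ[𝓝 y] L5.nrm ∧ ∀ᶠ z in 𝓝 y, ev z (Nu ν) = ev z (Om.on ν Q) := by
  have h0 : toE y ≠ 0 := by
    intro h1
    rw [h1, norm_zero] at h
    linarith
  obtain ⟨P, hP⟩ := locPl_toE h0
  have c : Continuous fun w : V n => ‖toE w‖ := contDiff_toE.continuous.norm
  refine ⟨(nrS n).pl P, ?_, ?_⟩
  · filter_upwards [hP] with z hz
    have h1 : (P.1 z).1 = toE z := hz
    change ‖(P.1 z).1‖⁻¹ • (P.1 z).1 = ‖toE z‖⁻¹ • toE z
    rw [h1]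
  · filter_upwards [vAt_eventuallyEq jR_inj ((nrS n).pull ν) P hP, c.continuousAt.eventually (lt_mem_nhds h)] with z h1 h2
    rw [ev_Nu, NuV_far ν h2.le, h1]
    rfl

theorem x0_pos {A : Eu (n + 1)} (hA : 0 < A 0) : 0 < (‖A‖⁻¹ • A) 0 := by
  rw [PiLp.smul_apply, smul_eq_mul]
  have := norm_pos_iff.2 (ne_of_pos hA)
  positivity

theorem nrm_smul_pos {N : ℕ} {a : ℝ} (ha : 0 < a) (w : Eu N) : ‖a • w‖⁻¹ • (a • w) = ‖w‖⁻¹ • w := by
  rw [norm_smul, Real.norm_eq_abs, abs_of_pos ha, smul_smul, mul_inv, mul_right_comm, inv_mul_cancel₀ ha.ne', one_mul]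

/-- the second factor at `(A, B)` after restriction to `{A} × ℝ^(n+1)` -/
theorem ev_U2 (ν : Om (spS n)) {P : (spSt n).xR.xR.xR.Plot (n + 1 + (n + 1))} {A B : Eu (n + 1)}
    (hP : (fun z => jY (P.1 z)) =ᶠ[𝓝 (sA A (toV B))] Gam) (hA : 0 < A 0) (hB : Bp (A, B) ≠ 0) :
    ev (toV B) (Om.on (U2 ((mT n).pull (Nu ν))) (P.cmp (sA A))) = ev (toV B) (pb (LxS (‖A‖⁻¹ • A)) (Psi ν)) := by
  have hA0 := ne_of_pos hA
  have hx := nrm_unit hA0
  have hx0 := x0_pos hA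
  have hc : ContinuousAt (sA A : V (n + 1) → V (n + 1 + (n + 1))) (toV B) := (sA A).smooth.continuous.continuousAt
  have hP2 : ∀ᶠ c in 𝓝 (toV B), jY (P.1 (sA A c)) = (gsm (A, toE c), ‖A‖, ‖Bp (A, toE c)‖, ⟪A, toE c⟫ / ‖A‖) := by
    filter_upwards [hc.eventually hP] with c hc
    exact hc.trans (Gam_sA A c)
  have hB2 : ∀ᶠ c in 𝓝 (toV B), Bp (A, toE c) ≠ 0 := by
    have h1 : ContinuousAt (fun c : V (n + 1) => Bp (A, toE c)) (toV B) :=
      ContinuousAt.comp (g := Bp) (contDiffAt_Bp hA0).continuousAt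
        (continuous_const.prodMk contDiff_toE.continuous).continuousAt
    exact h1.eventually_ne hB
  have e1 : ∀ c, jY (P.1 (sA A c)) = (gsm (A, toE c), ‖A‖, ‖Bp (A, toE c)‖, ⟪A, toE c⟫ / ‖A‖) →
      (P.1 (sA A c)).2 = ⟪A, toE c⟫ / ‖A‖ := fun c hc =>
    congrArg (fun a : (Eu (n + 1) × Eu (n + 1)) × ℝ × ℝ × ℝ => a.2.2.2) hc
  have e2 : ∀ c, jY (P.1 (sA A c)) = (gsm (A, toE c), ‖A‖, ‖Bp (A, toE c)‖, ⟪A, toE c⟫ / ‖A‖) →
      (P.1 (sA A c)).1.2 = ‖Bp (A, toE c)‖ := fun c hc =>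
    congrArg (fun a : (Eu (n + 1) × Eu (n + 1)) × ℝ × ℝ × ℝ => a.2.2.1) hc
  have e3 : ∀ c, jY (P.1 (sA A c)) = (gsm (A, toE c), ‖A‖, ‖Bp (A, toE c)‖, ⟪A, toE c⟫ / ‖A‖) →
      (P.1 (sA A c)).1.1.1.1 = gsm (A, toE c) := fun c hc =>
    congrArg (fun a : (Eu (n + 1) × Eu (n + 1)) × ℝ × ℝ × ℝ => a.1) hc
  -- the map `tls ∘ LxS`
  obtain ⟨G, hG⟩ : ∃ G : FR.Sm (n + 1) n, G = (tls n).comp (LxS (‖A‖⁻¹ • A)) := ⟨_, rfl⟩
  have hG1 : ∀ c, toE (G c) = toE (fun i : Fin n => (Rx (‖A‖⁻¹ • A) (toE c)) i.succ) := fun c => by rw [hG]; rfl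
  have hG2 : ∀ c, Bp (A, toE c) ≠ 0 → ‖toE (G c)‖ = ‖Bp (A, toE c)‖ := fun c hc => by
    rw [hG1]
    exact norm_Rs hA hc
  have hGn : toE (G (toV B)) ≠ 0 := by
    rw [← norm_ne_zero_iff]
    have h1 : ‖toE (G (toV B))‖ = ‖Bp (A, B)‖ := hG2 (toV B) hB
    rw [h1]
    exact norm_ne_zero_iff.2 hB
  obtain ⟨Q, hQ, hQ2⟩ := ThV_near ν hGn
  have hGc : ContinuousAt (G : V (n + 1) → V n) (toV B) := G.smooth.continuous.continuousAt
  have r1 : ev (toV B) (pb (LxS (‖A‖⁻¹ • A)) (pb (tls n) (Th ν))) =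
      ev (toV B) (dd (n + 1) (fc (n + 1) (G.pull (cn1 n)))) * ev (toV B) (Om.on ν (Q.cmp G)) := by
    rw [← pb_comp, ← hG, ← map_mul, ← pb_fc, pb_dd, on_cmp, ← map_mul]
    refine ev_pb_congr' _ ?_
    filter_upwards [hQ2] with z hz
    rw [ev_Th, hz]
  have hT : 2 < ‖toE ((mT n).f (P.1 (sA A (toV B))).1.1.1)‖ := by
    rw [norm_mT]
    have h1 := e3 _ hP2.self_of_nhds
    have h2 : (P.1 (sA A (toV B))).1.1.1.1.1 = ‖A‖⁻¹ • A := congrArg Prod.fst h1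
    rw [h2]
    linarith
  obtain ⟨Q', hQ', hQ2'⟩ := Nu_far ν hT
  obtain ⟨T, hTe⟩ : ∃ T : FR.Sm (n + 1) n, T = (mT n).pl ((pO _).pl ((pO _).pl ((pO _).pl (P.cmp (sA A))))) := ⟨_, rfl⟩
  have hTv : ∀ c, T c = (mT n).f (P.1 (sA A c)).1.1.1 := fun c => by rw [hTe]; rfl
  have hTc : ContinuousAt (T : V (n + 1) → V n) (toV B) := T.smooth.continuous.continuousAt
  have r2 : ev (toV B) (Om.on ((mT n).pull (Nu ν)) ((pO _).pl ((pO _).pl ((pO _).pl (P.cmp (sA A)))))) =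
      ev (toV B) (Om.on ν (Q'.cmp T)) := by
    rw [RMap.on_pull, ← hTe, on_cmp]
    refine ev_pb_congr' _ ?_
    rw [hTv]
    exact hQ2'
  have r3 : ev (toV B) (Om.on ν (Q'.cmp T)) = ev (toV B) (Om.on ν (Q.cmp G)) := by
    refine ev_on_congr ν ?_
    have hQ'' : ∀ᶠ c in 𝓝 (toV B), (Q'.1 (T c)).1 = L5.nrm (T c) := by
      have h1 : (fun z => (Q'.1 z).1) =ᶠ[𝓝 (T (toV B))] L5.nrm := by
        rw [hTv]
        exact hQ'
      exact hTc.eventually h1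
    filter_upwards [hQ'', hGc.eventually hQ, hP2, hB2] with c h1 h2 h3 h4
    refine Subtype.ext ?_
    change (Q'.1 (T c)).1 = (Q.1 (G c)).1
    rw [h1, h2]
    have h5 : toE (T c) = (2 * (1 + (‖A‖⁻¹ • A) 0) * ‖Bp (A, toE c)‖⁻¹) • toE (G c) := by
      rw [hTv, hG1]
      ext i
      exact mT_eq hA _ (e3 c h3) i
    unfold L5.nrm
    have h6 : 0 < ‖Bp (A, toE c)‖ := norm_pos_iff.2 h4
    rw [h5, nrm_smul_pos (by positivity)]
  have l1 : ev (toV B) (Om.on (dO _ (sF _ psc psc_sm)) (P.cmp (sA A))) =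
      ev (toV B) (pb (LxS (‖A‖⁻¹ • A)) (dd (n + 1) (fc (n + 1) (mkC (fun c => psc (c 0))
        (psc_sm.comp (contDiff_apply ℝ ℝ 0)))))) := by
    rw [on_d, ← pb_dd, pb_fc]
    refine ev_dd_congr ?_
    filter_upwards [hP2] with c hc
    rw [ev_sF, ev_fc]
    refine congrArg (fun r => algebraMap ℝ (Ex (n + 1)) (psc r)) ?_
    have h1 : (Rx (‖A‖⁻¹ • A) (toE c)) 0 = ⟪A, toE c⟫ / ‖A‖ := by
      rw [Rx_zero hx hx0, real_inner_smul_left]
      ring
    exact (e1 c hc).trans h1.symm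
  have l2 : ev (toV B) (Om.on (dO _ (sF _ chi contDiff_chi)) ((pO _).pl (P.cmp (sA A)))) =
      ev (toV B) (dd (n + 1) (fc (n + 1) (G.pull (cn1 n)))) := by
    rw [on_d]
    refine ev_dd_congr ?_
    filter_upwards [hP2, hB2] with c hc hc2
    rw [ev_sF, ev_fc]
    exact congrArg (fun r => algebraMap ℝ (Ex (n + 1)) (chi r)) ((e2 c hc).trans (hG2 c hc2).symm)
  unfold U2 Psi
  rw [on_mul, on_pull, on_mul, on_pull, on_pull, map_mul, map_mul, l1, l2, r2, r3, map_mul (pb _), map_mul, r1]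

/-! ### the top coefficient -/

theorem ThV_upp {v : Om (spS (n + 1))} (hU : Upp v) {A : Eu (n + 1)} (hA : A 0 ≤ 0) : ev (toV A) (Th v) = 0 := by
  rw [ev_Th]
  unfold ThV
  by_cases h : toE (toV A) = 0
  · rw [ev_dcn_zero (by rw [h, norm_zero]; exact one_pos), zero_mul]
  · obtain ⟨P, hP⟩ := locPl_nrm h
    rw [vAt_eq Subtype.val_injective v P hP]
    have h1 : (P.1 (toV A)).1 = ‖A‖⁻¹ • A := hP.self_of_nhds
    rw [hU _ P (toV A), mul_zero]
    rw [h1, PiLp.smul_apply, smul_eq_mul]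
    exact mul_nonpos_of_nonneg_of_nonpos (inv_nonneg.2 (norm_nonneg _)) hA

theorem ThX_upp {v : Om (spS (n + 1))} (hU : Upp v) (ν : Om (spS n)) {A B : Eu (n + 1)} (hA : A 0 ≤ 0) :
    ThX (wV v ν) ((spl (n + 1)).symm (A, B)) = 0 := by
  have hs : spl (n + 1) ((spl (n + 1)).symm (A, B)) = (A, B) := ContinuousLinearEquiv.apply_symm_apply _ _
  by_cases h : A = 0
  · refine ThX_r _ (Or.inl ?_)
    rw [hs]
    change ‖A‖ < 1
    rw [h, norm_zero]
    exact one_pos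
  · unfold ThX
    by_cases hl : LocPl (X := (spSt n).xR.xR.xR) jY Gam ((spl (n + 1)).symm (A, B))
    · obtain ⟨P, hP⟩ := hl
      rw [vAt_eq jY_inj _ P hP]
      unfold wV
      rw [Xi_mul]
      unfold U1
      rw [on_mul, on_pull, on_pull, on_mul, on_pull, on_pull, map_mul, map_mul, hU, mul_zero, zero_mul]
      have h1 : jY (P.1 ((spl (n + 1)).symm (A, B))) = Gam ((spl (n + 1)).symm (A, B)) := hP.self_of_nhds
      have h2 : (P.1 ((spl (n + 1)).symm (A, B))).1.1.1.1.1 = ‖A‖⁻¹ • A := by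
        have h3 := congrArg (fun a : (Eu (n + 1) × Eu (n + 1)) × ℝ × ℝ × ℝ => a.1.1) h1
        refine h3.trans ?_
        unfold Gam
        rw [hs]
        rfl
      change (P.1 ((spl (n + 1)).symm (A, B))).1.1.1.1.1 0 ≤ 0
      rw [h2, PiLp.smul_apply, smul_eq_mul]
      exact mul_nonpos_of_nonneg_of_nonpos (inv_nonneg.2 (norm_nonneg _)) hA
    · exact vAt_of_not _ hl

/-- the tail of `R_x B` vanishes when `B` is a multiple of `A` -/
theorem Rs_zero {A B : Eu (n + 1)} (hA : 0 < A 0) (hB : Bp (A, B) = 0) (i : Fin n) : (Rx (‖A‖⁻¹ • A) B) i.succ = 0 := by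
  have hA0 := ne_of_pos hA
  have hx := nrm_unit hA0
  have hx0 := x0_pos hA
  have h1 : B = ⟪‖A‖⁻¹ • A, B⟫ • (‖A‖⁻¹ • A) := by
    have h2 : B - (⟪A, B⟫ / ⟪A, A⟫) • A = 0 := hB
    refine (sub_eq_zero.1 h2).trans ?_
    rw [real_inner_self_eq_norm_sq, real_inner_smul_left, smul_smul]
    congr 1
    have := norm_ne_zero_iff.2 hA0
    field_simp
  rw [Rx_succ hx hx0]
  obtain ⟨x, hxe⟩ : ∃ x : Eu (n + 1), x = ‖A‖⁻¹ • A := ⟨_, rfl⟩
  rw [← hxe] at h1 hx0 ⊢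
  obtain ⟨t, ht⟩ : ∃ t : ℝ, t = ⟪x, B⟫ := ⟨_, rfl⟩
  rw [← ht] at h1 ⊢
  have h3 : (1 : ℝ) + x 0 ≠ 0 := by linarith
  rw [h1, PiLp.smul_apply, PiLp.smul_apply, smul_eq_mul, smul_eq_mul]
  field_simp
  ring

/-- **the top coefficient of the product form** -/
theorem top_ThX_wV {v : Om (spS (n + 1))} (hv : Deg n v) (hU : Upp v) (ν : Om (spS n)) (A B : Eu (n + 1)) :
    topE (n + 1 + (n + 1)) (ThX (wV v ν) ((spl (n + 1)).symm (A, B))) =
      topE (n + 1) (ev (toV A) (Th v)) * topE (n + 1) (ev (toV (Rx (‖A‖⁻¹ • A) B)) (Psi ν)) := by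
  have hs : spl (n + 1) ((spl (n + 1)).symm (A, B)) = (A, B) := ContinuousLinearEquiv.apply_symm_apply _ _
  by_cases hA : A 0 ≤ 0
  · rw [ThX_upp hU ν hA, ThV_upp hU hA, map_zero, map_zero, zero_mul]
  · have hA1 : 0 < A 0 := not_le.1 hA
    by_cases hB : Bp (A, B) = 0
    · have h1 : ThX (wV v ν) ((spl (n + 1)).symm (A, B)) = 0 := by
        refine ThX_s _ ?_ (Or.inl ?_)
        · rw [hs]
          exact ne_of_pos hA1
        · rw [hs, hB, norm_zero]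
          exact one_pos
      have h2 : topE (n + 1) (ev (toV (Rx (‖A‖⁻¹ • A) B)) (Psi ν)) = 0 := by
        have h3 : (fun i : Fin n => (toV (Rx (‖A‖⁻¹ • A) B)) i.succ) = 0 := funext fun i => Rs_zero hA1 hB i
        rw [top_Psi, h3, ev_Th]
        unfold ThV
        have h4 : ‖toE (0 : V n)‖ < 1 := by
          have h5 : toE (0 : V n) = 0 := rfl
          rw [h5, norm_zero]
          exact one_pos
        rw [ev_dcn_zero h4, zero_mul, map_zero, mul_zero]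
      rw [h1, h2, map_zero, mul_zero]
    · obtain ⟨P, hP, hP2⟩ := ThX_near (wV v ν) (y := (spl (n + 1)).symm (A, B)) (by rw [hs]; exact ⟨ne_of_pos hA1, hB⟩)
      have hA2 : (spl (n + 1) ((spl (n + 1)).symm (A, B))).1 ≠ 0 := by
        rw [hs]
        exact ne_of_pos hA1
      have e1 : ev ((spl (n + 1)).symm (A, B)) (Om.on (U1 v) P) = ExteriorAlgebra.map (A1 (n + 1)) (ev (toV A) (Th v)) := by
        rw [ev_U1 v hP hA2, ev_pb, tr_pA]
        have h1 : pA n ((spl (n + 1)).symm (A, B)) = toV A := by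
          change toV (spl (n + 1) ((spl (n + 1)).symm (A, B))).1 = toV A
          rw [hs]
        rw [h1]
      have e2 : ExteriorAlgebra.map (A2 (n + 1)) (ev ((spl (n + 1)).symm (A, B)) (Om.on (U2 ((mT n).pull (Nu ν))) P)) =
          ExteriorAlgebra.map (tr (LxS (‖A‖⁻¹ • A)) (toV B)) (ev (toV (Rx (‖A‖⁻¹ • A) B)) (Psi ν)) := by
        have h1 := ev_U2 ν (B := B) hP hA1 hB
        rw [on_cmp, ev_pb, ev_pb, tr_sA] at h1
        exact h1
      have hne : ‖A‖⁻¹ • A + EuclideanSpace.single 0 1 ≠ 0 := by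
        intro h1
        have h2 := congrArg (fun z : Eu (n + 1) => z 0) h1
        have h3 := x0_pos hA1
        have h4 : (‖A‖⁻¹ • A) 0 + (EuclideanSpace.single 0 (1 : ℝ) : Eu (n + 1)) 0 = 0 := h2
        have h5 : (EuclideanSpace.single 0 (1 : ℝ) : Eu (n + 1)) 0 = 1 := by simp
        rw [h5] at h4
        linarith
      rw [hP2.self_of_nhds]
      unfold wV
      rw [Xi_mul, on_mul, map_mul, e1, topE_split (Th_mem hv _), e2, topE_map, tr_eq, det_trL, det_LxS hne, one_mul]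

/-! ### the integral -/

theorem integral_toV (k : ℕ) (h : V k → ℝ) : ∫ C : Eu k, h (toV C) = ∫ c : V k, h c :=
  (PiLp.volume_preserving_ofLp (Fin k)).integral_comp (MeasurableEquiv.toLp 2 (Fin k → ℝ)).symm.measurableEmbedding h

/-- **the value of `JV` on the product forms** -/
theorem JV_wV {v : Om (spS (n + 1))} (hv : Deg n v) (hU : Upp v) (ν : Om (spS n)) : JV (wV v ν) = JS v * JS ν := by
  obtain ⟨F, hF⟩ : ∃ F : Eu (n + 1) × Eu (n + 1) → ℝ, F = fun z => topE (n + 1) (ev (toV z.1) (Th v)) *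
      topE (n + 1) (ev (toV (Rx (‖z.1‖⁻¹ • z.1) z.2)) (Psi ν)) := ⟨_, rfl⟩
  have hF1 : ∀ y : V (n + 1 + (n + 1)), topE (n + 1 + (n + 1)) (ev y (ThW (wV v ν))) = F (spl (n + 1) y) := by
    intro y
    obtain ⟨z, hz⟩ : ∃ z : Eu (n + 1) × Eu (n + 1), z = spl (n + 1) y := ⟨_, rfl⟩
    have hy : y = (spl (n + 1)).symm (z.1, z.2) := by rw [hz]; exact ((spl (n + 1)).symm_apply_apply y).symm
    rw [← hz, ev_ThW, hF, hy]
    exact top_ThX_wV hv hU ν z.1 z.2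
  have hFi : Integrable F (volume : Measure (Eu (n + 1) × Eu (n + 1))) := by
    have h1 := int_ThW (wV v ν)
    simp only [hF1] at h1
    have h2 := ((mp_spl_symm (n + 1)).integrable_comp_emb (spl (n + 1)).symm.toHomeomorph.measurableEmbedding).2 h1
    have h3 : (fun y => F (spl (n + 1) y)) ∘ (spl (n + 1)).symm = F := funext fun z => by
      change F (spl (n + 1) ((spl (n + 1)).symm z)) = F z
      rw [ContinuousLinearEquiv.apply_symm_apply]
    rwa [h3] at h2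
  unfold JV
  simp only [hF1]
  rw [← integral_spl, Measure.volume_eq_prod] 
  rw [Measure.volume_eq_prod] at hFi
  rw [integral_prod F hFi, hF]
  simp only
  have h1 : ∀ A : Eu (n + 1), ∫ B : Eu (n + 1), topE (n + 1) (ev (toV A) (Th v)) *
      topE (n + 1) (ev (toV (Rx (‖A‖⁻¹ • A) B)) (Psi ν)) = topE (n + 1) (ev (toV A) (Th v)) * JS ν := by
    intro A
    rw [integral_const_mul, ← int_Psi ν, ← integral_toV (n + 1) fun c => topE (n + 1) (ev c (Psi ν))]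
    congr 1
    exact (Rx (‖A‖⁻¹ • A)).measurePreserving.integral_comp (Rx (‖A‖⁻¹ • A)).toHomeomorph.measurableEmbedding
      (fun C => topE (n + 1) (ev (toV C) (Psi ν)))
  simp only [h1]
  rw [integral_mul_const, integral_toV (n + 1) fun c => topE (n + 1) (ev c (Th v))]
  rfl

/-- the value of `JVL` on the product forms -/
theorem JVL_wV {v : Om (spS (n + 1))} (hv : Deg n v) (hU : Upp v) (ν : Om (spS n)) : JVL n (wV v ν) = JS v * JS ν :=
  JV_wV hv hU ν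

/-- the absolute value of `JVL` on the product forms -/
theorem abs_JVL_wV {v : Om (spS (n + 1))} (hv : Deg n v) (hU : Upp v) (ν : Om (spS n)) :
    |JVL n (wV v ν)| = |JS v| * |JS ν| := by
  rw [JVL_wV hv hU, abs_mul]

end Pool.Agent.Lib.MP_ccbbf6_gt.L7.DG
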