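import Pool.Agent.Lib.MP_ccbbf6_gt.L7.TP3

/-!
# Level 7, TP4: existence of the bump forms, the end (helper79)

* `exists_T` : a form of degree `n` on `ℝ^n` supported in the unit ball with integral `1`;
* `exists_nu` : a form of degree `l` on the unit sphere of `ℝ^(l+1)` with `|JS ν| = 1`;
* `TG_le` : `|TG Ξ| ≤ 2 d^(n-1)`.
-/

set_option autoImplicit false
set_option maxSynthPendingDepth 3
set_option linter.unusedSectionVars false

open Set Filter Topology MeasureTheory Metric Real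
open scoped ContDiff RealInnerProductSpace

noncomputable section

namespace Pool.Agent.Lib.MP_ccbbf6_gt.L7

open Geo L4 L4.FR L5 EXT

variable {n k l : ℕ}

theorem ct_nonneg (a b s : ℝ) : 0 ≤ ct a b s := by
  unfold ct
  linarith [Real.smoothTransition.le_one ((s - a) / (b - a))]

/-- the unnormalized bump form -/
def T00 (n : ℕ) : Fm n := fc n (mkC (fun x : V n => ct ((1 / 4) ^ 2) ((1 / 2) ^ 2) (‖toE x‖ ^ 2))
  ((contDiff_ct _ _).comp (contDiff_toE.norm_sq ℝ))) * cf n (tE n)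

theorem ev_T00 (x : V n) : ev x (T00 n) = ct ((1 / 4) ^ 2) ((1 / 2) ^ 2) (‖toE x‖ ^ 2) • tE n := by
  rw [T00, _root_.map_mul, ev_fc, ev_cf, ← Algebra.smul_def]
  rfl

theorem top_T00 (x : V n) : topE n (ev x (T00 n)) = ct ((1 / 4) ^ 2) ((1 / 2) ^ 2) (‖toE x‖ ^ 2) := by
  rw [ev_T00, map_smul, topE_tE, smul_eq_mul, mul_one]

theorem Dg_T00 : Dg n (T00 n) := Dg_of_ev fun x => by
  rw [ev_T00]
  exact Submodule.smul_mem _ _ (ExteriorAlgebra.ιMulti_range ℝ n (Set.mem_range_self _))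

theorem supp_T00 : SuppLt 1 (T00 n) := by
  intro x hx
  have h1 : 1 ≤ ‖toE x‖ := hx
  rw [ev_T00, ct_zero (by norm_num) (by nlinarith), zero_smul]

theorem compact_toE_le (r : ℝ) : IsCompact {y : V n | ‖toE y‖ ≤ r} := by
  have h3 : {y : V n | ‖toE y‖ ≤ r} = (toEL n).symm '' closedBall 0 r := by
    ext y
    constructor
    · intro hy
      exact ⟨toE y, by rw [mem_closedBall, dist_zero_right]; exact hy, rfl⟩
    · rintro ⟨z, hz, rfl⟩
      rw [mem_closedBall, dist_zero_right] at hz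
      exact hz
  rw [h3]
  exact (isCompact_closedBall _ _).image (toEL n).symm.continuous

/-- **bump form on `ℝ^n`** -/
theorem exists_T (n : ℕ) : ∃ T : Fm n, Dg n T ∧ SuppLt 1 T ∧ ∫ x, topE n (ev x T) = 1 := by
  have h1 : 0 < ∫ x : V n, topE n (ev x (T00 n)) := by
    refine Continuous.integral_pos_of_hasCompactSupport_nonneg_nonzero (x := 0) (continuous_top _) ?_ ?_ ?_
    · refine HasCompactSupport.intro (compact_toE_le 1) fun y hy => ?_
      have hy' : 1 < ‖toE y‖ := not_le.1 hy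
      rw [supp_T00 y hy'.le, map_zero]
    · intro x
      change 0 ≤ topE n (ev x (T00 n))
      rw [top_T00]
      exact ct_nonneg _ _ _
    · have h2 : toE (0 : V n) = 0 := rfl
      rw [top_T00, h2, norm_zero, ct_one (by norm_num) (by norm_num)]
      exact one_ne_zero
  obtain ⟨c, hc⟩ : ∃ c, c = ∫ x : V n, topE n (ev x (T00 n)) := ⟨_, rfl⟩
  refine ⟨c⁻¹ • T00 n, Dg_smul _ Dg_T00, fun x hx => by rw [map_smul, supp_T00 x hx, smul_zero], ?_⟩
  simp only [map_smul, smul_eq_mul]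
  rw [integral_const_mul, ← hc, inv_mul_cancel₀ (by rw [hc]; exact h1.ne')]

/-! ### a form on the sphere -/

theorem contDiffAt_plS (p : (spS (l + 1)).Plot k) (u : V k) : ContDiffAt ℝ ∞ (fun u => (p.1 u).1) u :=
  (show ContDiff ℝ ∞ fun u => (p.1 u).1 from p.2).contDiffAt

/-- the cut-off polar vector -/
def mW (l : ℕ) : RMap (spS (l + 1)) l := ⟨fun x => chi (8 * x.1 0) • toV (WW 1 x.1), fun k p => by
  rw [contDiff_iff_contDiffAt]
  intro u
  have hc : ContDiffAt ℝ ∞ (fun u => (p.1 u).1 0) u :=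
    (contDiff_piLp_apply (𝕜 := ℝ) (p := 2) (i := (0 : Fin (l + 1)))).contDiffAt.comp u (contDiffAt_plS p u)
  by_cases h : 0 < hd l (p.1 u).1 ∨ tl l (p.1 u).1 ≠ 0
  · have h2 : ContDiffAt ℝ ∞ (fun u => WW 1 (p.1 u).1) u :=
      ContDiffAt.comp (g := WW 1) (f := fun u => (p.1 u).1) u (contDiffAt_WW 1 h) (contDiffAt_plS p u)
    have h3 : ContDiffAt ℝ ∞ (fun u => toV (WW 1 (p.1 u).1)) u := contDiff_toV.contDiffAt.comp u h2
    exact (contDiff_chi.contDiffAt.comp u (contDiffAt_const.mul hc)).smul h3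
  · push Not at h
    have h1 : (p.1 u).1 0 < 1 / 8 := lt_of_le_of_lt h.1 (by norm_num)
    refine (contDiffAt_const (c := (0 : V l))).congr_of_eventuallyEq ?_
    filter_upwards [hc.continuousAt.eventually (gt_mem_nhds h1)] with w hw
    rw [chi_zero (by linarith), zero_smul]⟩

/-- the form on the sphere -/
def nuT (T : Fm l) : Om (spS (l + 1)) := cut4 l * (mW l).pull T

theorem IsW_nuT {T : Fm l} (hT : SuppLt 1 T) : IsW 1 T (nuT T) := by
  intro k P q hq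
  have hpi := Real.pi_gt_three
  have hn : ∀ u, ‖toE (q u)‖ = ang (P.1 u).1 := fun u => by
    rw [(hq u).2, norm_WW one_pos (Or.inl (hq u).1), one_mul]
  have hne : ∀ u, (P.1 u).1 ≠ 0 := fun u h => by
    have h3 := (P.1 u).2
    rw [h, norm_zero] at h3
    exact zero_ne_one h3
  refine ev_ext fun u => ?_
  rw [nuT, on_mul, map_mul, ev_cut4, RMap.on_pull]
  by_cases h3 : ‖toE (q u)‖ < 1
  · have h4 : ang (P.1 u).1 < 1 := by rwa [hn] at h3
    have h5 : (P.1 u).1 0 = cos (ang (P.1 u).1) := by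
      have h6 := cos_ang (n := l) (hne u)
      rw [(P.1 u).2, one_mul] at h6
      exact h6.symm
    have h6 : cos (π / 3) < cos (ang (P.1 u).1) :=
      cos_lt_cos_of_nonneg_of_le_pi (ang_nonneg _) (by linarith) (by linarith)
    rw [cos_pi_div_three, ← h5] at h6
    rw [chi_one (by linarith), map_one, one_mul, ev_pb, ev_pb]
    have hc : ContinuousAt (fun u => (P.1 u).1 0) u :=
      ((contDiff_piLp_apply (𝕜 := ℝ) (p := 2) (i := (0 : Fin (l + 1)))).contDiffAt.comp u (contDiffAt_plS P u)).continuousAt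
    have h7 : ∀ᶠ w in 𝓝 u, (mW l).pl P w = q w := by
      filter_upwards [hc.eventually (lt_mem_nhds h6)] with w hw
      change chi (8 * (P.1 w).1 0) • toV (WW 1 (P.1 w).1) = q w
      rw [chi_one (by linarith), one_smul, ← (hq w).2]
      rfl
    rw [tr_congr h7, h7.self_of_nhds]
  · have h4 : ev u (pb q T) = 0 := by
      rw [ev_pb, hT _ (not_lt.1 h3), map_zero]
    rw [h4]
    by_cases h5 : 1 / 4 < (P.1 u).1 0
    · have h6 : (mW l).pl P u = q u := by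
        change chi (8 * (P.1 u).1 0) • toV (WW 1 (P.1 u).1) = q u
        rw [chi_one (by linarith), one_smul, ← (hq u).2]
        rfl
      rw [ev_pb, h6, hT _ (not_lt.1 h3), map_zero, mul_zero]
    · rw [chi_zero (by linarith [not_lt.1 h5]), map_zero, zero_mul]

theorem Upp_nuT (T : Fm l) : Upp (nuT T) := by
  intro k q u hu
  rw [nuT, on_mul, map_mul, ev_cut4, chi_zero (by linarith), map_zero, zero_mul]

/-- **a form with integral `± 1` on the sphere** -/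
theorem exists_nu (l : ℕ) : ∃ ν : Om (spS (l + 1)), Deg l ν ∧ Upp ν ∧ |JS ν| = 1 := by
  obtain ⟨T, h1, h2, h3⟩ := exists_T l
  refine ⟨nuT T, ?_, Upp_nuT T, ?_⟩
  · have h4 : Deg (0 + l) (nuT T) := Deg_mul (fun _ _ => Dg_fc _) ((mW l).Deg_pull h1)
    rwa [zero_add] at h4
  · rw [abs_JS_v le_rfl h2 (IsW_nuT h2) (Upp_nuT T), h3, abs_one]

/-! ### the end -/

/-- the degree theorem on the Stiefel manifold -/
structure DegV (n : ℕ) : Prop where
  ex : ∃ JV : Om (spSt n) →ₗ[ℝ] ℝ, (∀ w, JV (dO _ w) = 0) ∧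
    (∀ y : Ch (spSt n) (2 * (n - 1) + 1), Cl y → ∃ g : ℤ, ∀ w, ch y w = g * JV w) ∧
    ∀ (v : Om (spS (n + 1))) (ν : Om (spS n)), Deg n v → Upp v → Deg (n - 1) ν → |JV (wV v ν)| = |JS v| * |JS ν|
  top : ∀ J J' : Om (spSt n) →ₗ[ℝ] ℝ, (∀ w, J (dO _ w) = 0) → (∀ w, J' (dO _ w) = 0) → ∀ w w' : Om (spSt n),
    Deg (2 * (n - 1) + 1) w → Deg (2 * (n - 1) + 1) w' → J w * J' w' = J w' * J' w

variable {M : Type} [MetricSpace M] [CompactSpace M] {𝒜 : SDist n M} {hB : Bl M} {p : M} {δ : ℝ} {d : ℕ}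
  {D : Cov (spSt n) (spG 𝒜) d} [MeasurableSpace M] [BorelSpace M]

/-- **the bound of `TG`** -/
theorem TG_le (hn : 2 ≤ n) (hd : 1 ≤ d) (E : CovP hB 𝒜 p δ D) (h1 : 1 ≤ δ) (h2 : δ ≤ 2) (hV : DegV n)
    {Z : Ch (spG 𝒜) (2 * (n - 1) + 1)} (hZ : Cl Z) {Ξ : Om (spG 𝒜)} (hΞ : Deg (2 * (n - 1) + 1) Ξ)
    (hZe : ch Z Ξ = 2 * (d : ℝ) ^ (n - 1)) : |TG hB Ξ| ≤ 2 * (d : ℝ) ^ (n - 1) := by
  obtain ⟨JV, hJd, hJg, hJw⟩ := hV.ex
  obtain ⟨T, hTd, hT, hT1⟩ := exists_T n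
  obtain ⟨ν, hν, hν1⟩ : ∃ ν : Om (spS n), Deg (n - 1) ν ∧ |JS ν| = 1 := by
    obtain ⟨l, rfl⟩ : ∃ l, n = l + 1 := ⟨n - 1, by omega⟩
    obtain ⟨ν, a, _, b⟩ := exists_nu l
    exact ⟨ν, a, b⟩
  have hd0 : (0 : ℝ) < d := by exact_mod_cast hd
  -- the bump form
  have w1 : |TG hB (D.tr (wV (E.vT T) ν))| = 1 := by
    rw [E.TG_wV (by omega) hTd hT hν, hT1, one_mul, hν1]
  have w2 : |JV (wV (E.vT T) ν)| = 1 := by
    rw [hJw _ _ (E.Deg_vT hTd) (E.Upp_vT T) hν, abs_JS_v h1 hT (E.IsW_vT h1 h2 hT) (E.Upp_vT T), hT1, hν1, abs_one, one_mul]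
  have w3 : Deg (2 * (n - 1) + 1) (wV (E.vT T) ν) := by
    have h3 := Deg_wV (E.Deg_vT hTd) hν
    have h4 : n + (n - 1) = 2 * (n - 1) + 1 := by omega
    rwa [h4] at h3
  -- the two functionals
  let J : Om (spSt n) →ₗ[ℝ] ℝ := (TG hB).comp D.tr
  have hJ : ∀ w, J (dO _ w) = 0 := fun w => by
    change TG hB (D.tr (dO _ w)) = 0
    rw [D.tr_d, TG_d]
  have e1 := hV.top J JV hJ hJd (D.P.pull Ξ) (wV (E.vT T) ν) (Deg_pull _ hΞ) w3
  have e2 : J (D.P.pull Ξ) = d * TG hB Ξ := by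
    change TG hB (D.tr (D.P.pull Ξ)) = _
    rw [D.tr_P, map_smul, smul_eq_mul]
  have e3 : |JV (D.P.pull Ξ)| = d * |TG hB Ξ| := by
    have h3 := congrArg abs e1
    rw [abs_mul, abs_mul, w2, mul_one, e2] at h3
    have h4 : |J (wV (E.vT T) ν)| = 1 := w1
    rw [h4, one_mul, abs_mul, abs_of_pos hd0] at h3
    exact h3.symm
  obtain ⟨g, hg⟩ := hJg _ (D.Cl_lf hZ)
  have e4 := hg (D.P.pull Ξ)
  rw [D.ch_lf, D.tr_P, map_smul, smul_eq_mul, hZe] at e4
  have e5 : (d : ℝ) * (2 * (d : ℝ) ^ (n - 1)) = |(g : ℝ)| * (d * |TG hB Ξ|) := by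
    rw [← e3, ← abs_mul, ← e4, abs_of_pos (by positivity)]
  have e6 : 2 * (d : ℝ) ^ (n - 1) = |(g : ℝ)| * |TG hB Ξ| := by
    have h3 : (d : ℝ) * (2 * (d : ℝ) ^ (n - 1)) = d * (|(g : ℝ)| * |TG hB Ξ|) := by rw [e5]; ring
    exact mul_left_cancel₀ hd0.ne' h3
  have e7 : (1 : ℝ) ≤ |(g : ℝ)| := by
    have h3 : g ≠ 0 := by
      rintro rfl
      rw [Int.cast_zero, abs_zero, zero_mul] at e6
      have : (0 : ℝ) < 2 * (d : ℝ) ^ (n - 1) := by positivity
      linarith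
    have h4 : 1 ≤ |g| := Int.one_le_abs h3
    calc (1 : ℝ) ≤ ((|g| : ℤ) : ℝ) := by exact_mod_cast h4
      _ = |(g : ℝ)| := by rw [Int.cast_abs]
  rw [e6]
  nlinarith [abs_nonneg (TG hB Ξ)]

end Pool.Agent.Lib.MP_ccbbf6_gt.L7
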