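import Pool.Agent.Lib.MP_ccbbf6_gt.L7.TT2

/-!
# Level 7, TT3: forms of degree larger than `n` are cohomologous to forms supported near a point (helper33)
-/

set_option autoImplicit false
set_option maxSynthPendingDepth 3

open Set Filter Topology MeasureTheory Module
open scoped ContDiff RealInnerProductSpace

noncomputable section

namespace Pool.Agent.Lib.MP_ccbbf6_gt.L7

open Geo L4 L4.FR L5 PE

variable {k l n N j : ℕ}

/-- closed forms and homotopies -/
theorem homotopy_exact {X : Space} (H : SMap X.xR X) (h0 : ∀ x, H.1 (x, 0) = x) {w : Om X} (hw : dO X w = 0) :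
    ∃ β : Om X, w = (H.comp (jO X 1)).pull w + dO X β := by
  have e : H.comp (jO X 0) = SMap.id X := SMap_ext h0
  have h1 := d_K (H.pull w)
  rw [pull_d, hw, map_zero, map_zero, add_zero, ← pull_comp, ← pull_comp, e, pull_id] at h1
  refine ⟨-KO X (H.pull w), ?_⟩
  rw [map_neg, h1]
  abel

/-- **concentration near a point** -/
theorem conc {q v : Eu (n + 1)} (hq : ‖q‖ = 1) (hv : ‖v‖ = 1) (hqv : ⟪q, v⟫ = 0) {t : ℝ} (h0 : 0 < t) (h1 : t < 1)
    {w : Om (spSt n)} (hw : Deg j w) (hd : dO _ w = 0) (hj : n < j) :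
    ∃ w' β : Om (spSt n), w = w' + dO _ β ∧ Deg j w' ∧ ∀ (k : ℕ) (p : (spSt n).Plot k) (u : V k),
      ¬(t ≤ ⟪(p.1 u).1.1, q⟫ ∧ t ≤ ⟪(p.1 u).1.2, fld v (p.1 u).1.1⟫) → ev u (Om.on w' p) = 0 := by
  have hab : t < (1 + t) / 2 := by linarith
  have hb : (1 + t) / 2 ≤ 1 := by linarith
  have hcd : t / 4 < t / 2 := by linarith
  have hU : Tan q (t / 4) (fld v) := Tan_fld hv hqv (by linarith)
  set A := (HA hq hab hb).comp (jO (spSt n) 1) with hA
  set B := (HB hU hcd hab hb).comp (jO (spSt n) 1) with hB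
  obtain ⟨β1, e1⟩ := homotopy_exact (HA hq hab hb) (HA_zero hq hab hb) hd
  have hd2 : dO _ (A.pull w) = 0 := by rw [pull_d, hd, map_zero]
  obtain ⟨β2, e2⟩ := homotopy_exact (HB hU hcd hab hb) (HB_zero hU hcd hab hb) hd2
  refine ⟨B.pull (A.pull w), β2 + β1, ?_, Deg_pull _ (Deg_pull _ hw), fun k p u hu => ?_⟩
  · rw [map_add, ← add_assoc, ← e2]
    exact e1
  · rw [on_pull, on_pull]
    by_cases h3 : t ≤ ⟪(p.1 u).1.1, q⟫
    · have h4 : ⟪(p.1 u).1.2, fld v (p.1 u).1.1⟫ < t := by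
        by_contra h5
        exact hu ⟨h3, not_lt.1 h5⟩
      -- everything is a function of the first vector
      have hx1 : ‖(p.1 u).1.1‖ = 1 := stx _
      have hUs := hU.smooth _ hx1 (by linarith : t / 4 ≤ ⟪(p.1 u).1.1, q⟫)
      have hG : DifferentiableAt ℝ (fun x => (xA q t ((1 + t) / 2) x 1, yA q t ((1 + t) / 2) x (-fld v x) 1)) (p.1 u).1.1 :=
        ((contDiffAt_xA hq hab hb hx1 1).prodMk (contDiffAt_yA hq hab hb hx1 hUs.neg 1)).differentiableAt (by simp)
      refine deg_rank_zero hw _ (lt_of_le_of_lt (rk_fun (A.pl (B.pl p)) p hG ?_) hj)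
      have hc1 : ∀ᶠ z in 𝓝 u, t / 2 < ⟪(p.1 z).1.1, q⟫ :=
        continuousAt_const.eventually_lt ((cont_x p).inner continuous_const).continuousAt (by linarith)
      have hc2 : ∀ᶠ z in 𝓝 u, ⟪(p.1 z).1.2, fld v (p.1 z).1.1⟫ < t := by
        refine ContinuousAt.eventually_lt ?_ continuousAt_const h4
        exact (cont_y p).continuousAt.inner ((hUs.continuousAt).comp (f := fun z => (p.1 z).1.1) (cont_x p).continuousAt)
      filter_upwards [hc1, hc2] with z hz1 hz2
      have e3 : ((HB hU hcd hab hb).1 (p.1 z, 1)).1.2 = -fld v (p.1 z).1.1 := HB_one hU hcd hab hb hz1.le hz2.le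
      change (xA q t ((1 + t) / 2) (p.1 z).1.1 1, yA q t ((1 + t) / 2) (p.1 z).1.1 ((HB hU hcd hab hb).1 (p.1 z, 1)).1.2 1) = _
      rw [e3]
    · -- the first vector is constant
      have h4 : ∀ᶠ z in 𝓝 u, (((A.pl (B.pl p))).1 z).1.1 = -q := by
        have hc : ∀ᶠ z in 𝓝 u, ⟪(p.1 z).1.1, q⟫ < t :=
          ((cont_x p).inner continuous_const).continuousAt.eventually_lt continuousAt_const (not_le.1 h3)
        filter_upwards [hc] with z hz
        exact HA_one hq hab hb (z := (B.pl p).1 z) hz.le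
      have := rk_fib (A.pl (B.pl p)) h4
      exact deg_rank_zero hw _ (by omega)

end Pool.Agent.Lib.MP_ccbbf6_gt.L7
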