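import Pool.Agent.Lib.MP_ccbbf6_gt.L7.ST1

/-!
# Level 7, ST2: the homotopy `B` (helper33)

`U` a field of unit tangent vectors defined for `⟪x, q⟫ ≥ c`; `B` moves `y` towards `-U x`.
-/

set_option autoImplicit false
set_option maxSynthPendingDepth 3

open Set Filter Topology MeasureTheory Module
open scoped ContDiff RealInnerProductSpace

noncomputable section

namespace Pool.Agent.Lib.MP_ccbbf6_gt.L7

open Geo L4 L4.FR L5

variable {k l n N : ℕ}

/-- `0` for `t ≤ a`, `1` for `t ≥ b` -/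
def up (a b t : ℝ) : ℝ := 1 - dn a b t

theorem contDiff_up (a b : ℝ) : ContDiff ℝ ∞ (up a b) := contDiff_const.sub (contDiff_dn a b)
theorem up_nonneg (a b t : ℝ) : 0 ≤ up a b t := sub_nonneg.2 (dn_le _ _ _)
theorem up_le (a b t : ℝ) : up a b t ≤ 1 := sub_le_self _ (dn_nonneg _ _ _)
theorem up_zero {a b t : ℝ} (hab : a < b) (h : t ≤ a) : up a b t = 0 := by unfold up; rw [dn_one hab h, sub_self]
theorem up_one {a b t : ℝ} (hab : a < b) (h : b ≤ t) : up a b t = 1 := by unfold up; rw [dn_zero hab h, sub_zero]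

/-- unit tangent field near `q` -/
structure Tan (q : Eu (n + 1)) (c : ℝ) (U : Eu (n + 1) → Eu (n + 1)) : Prop where
  smooth : ∀ x : Eu (n + 1), ‖x‖ = 1 → c ≤ ⟪x, q⟫ → ContDiffAt ℝ ∞ U x
  norm : ∀ x : Eu (n + 1), ‖x‖ = 1 → c ≤ ⟪x, q⟫ → ‖U x‖ = 1
  orth : ∀ x : Eu (n + 1), ‖x‖ = 1 → c ≤ ⟪x, q⟫ → ⟪x, U x⟫ = 0

section B

variable (q : Eu (n + 1)) (U : Eu (n + 1) → Eu (n + 1)) (c d a b : ℝ)

/-- parameter of the homotopy `B` -/
def sB (x y : Eu (n + 1)) (t : ℝ) : ℝ := st t * (up c d ⟪x, q⟫ * dn a b ⟪y, U x⟫)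

/-- the moving second vector, not normalised -/
def uB (x y : Eu (n + 1)) (t : ℝ) : Eu (n + 1) := (1 - sB q U c d a b x y t) • y - sB q U c d a b x y t • U x

variable {q U c d a b}

theorem sB_nonneg (x y : Eu (n + 1)) (t : ℝ) : 0 ≤ sB q U c d a b x y t :=
  mul_nonneg (st_nonneg t) (mul_nonneg (up_nonneg _ _ _) (dn_nonneg _ _ _))

theorem sB_le (x y : Eu (n + 1)) (t : ℝ) : sB q U c d a b x y t ≤ 1 :=
  mul_le_one₀ (st_le t) (mul_nonneg (up_nonneg _ _ _) (dn_nonneg _ _ _)) (mul_le_one₀ (up_le _ _ _) (dn_nonneg _ _ _) (dn_le _ _ _))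

theorem sB_far (hcd : c < d) {x : Eu (n + 1)} (h : ⟪x, q⟫ ≤ c) (y : Eu (n + 1)) (t : ℝ) : sB q U c d a b x y t = 0 := by
  unfold sB
  rw [up_zero hcd h, zero_mul, mul_zero]

theorem uB_ne (hU : Tan q c U) (hcd : c < d) (hab : a < b) (hb : b ≤ 1) {x y : Eu (n + 1)} (hx : ‖x‖ = 1) (hy : ‖y‖ = 1)
    (t : ℝ) : uB q U c d a b x y t ≠ 0 := by
  intro h
  by_cases h1 : c ≤ ⟪x, q⟫
  · obtain ⟨h2, h3⟩ := eq_of_seg hy (hU.norm x hx h1) (sB_nonneg x y t) (sB_le x y t) h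
    apply h3
    unfold sB
    rw [← h2, real_inner_self_eq_norm_sq, hy, one_pow, dn_zero hab hb, mul_zero, mul_zero]
  · unfold uB at h
    rw [sB_far hcd (le_of_not_ge h1), sub_zero, one_smul, zero_smul, sub_zero] at h
    rw [h, norm_zero] at hy
    exact zero_ne_one hy

theorem uB_orth (hU : Tan q c U) (hcd : c < d) {x y : Eu (n + 1)} (hx : ‖x‖ = 1) (hxy : ⟪x, y⟫ = 0) (t : ℝ) :
    ⟪x, uB q U c d a b x y t⟫ = 0 := by
  unfold uB
  rw [inner_sub_right, real_inner_smul_right, real_inner_smul_right, hxy, mul_zero, zero_sub, neg_eq_zero]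
  by_cases h1 : c ≤ ⟪x, q⟫
  · rw [hU.orth x hx h1, mul_zero]
  · rw [sB_far hcd (le_of_not_ge h1), zero_mul]

/-- the homotopy `B` -/
def HB (hU : Tan q c U) (hcd : c < d) (hab : a < b) (hb : b ≤ 1) : SMap (spSt n).xR (spSt n) :=
  ⟨fun z => ⟨(z.1.1.1, nz (uB q U c d a b z.1.1.1 z.1.1.2 z.2)), stx _, norm_nz (uB_ne hU hcd hab hb (stx _) (sty _) _), by
      unfold nz
      rw [real_inner_smul_right, uB_orth hU hcd (stx _) (stxy _), mul_zero]⟩, fun k p => by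
    change ContDiff ℝ ∞ fun u => ((p.1 u).1.1.1, nz (uB q U c d a b (p.1 u).1.1.1 (p.1 u).1.1.2 (p.1 u).2))
    have hx : ContDiff ℝ ∞ fun u => (p.1 u).1.1.1 := contDiff_fst.comp (show ContDiff ℝ ∞ _ from p.2.1)
    have hy : ContDiff ℝ ∞ fun u => (p.1 u).1.1.2 := contDiff_snd.comp (show ContDiff ℝ ∞ _ from p.2.1)
    have ht : ContDiff ℝ ∞ fun u => (p.1 u).2 := p.2.2
    refine hx.prodMk ?_
    rw [contDiff_iff_contDiffAt]
    intro u
    by_cases h1 : c ≤ ⟪(p.1 u).1.1.1, q⟫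
    · have hU1 : ContDiffAt ℝ ∞ (fun u => U (p.1 u).1.1.1) u :=
        ContDiffAt.comp u (hU.smooth _ (stx _) h1) hx.contDiffAt
      have hs : ContDiffAt ℝ ∞ (fun u => sB q U c d a b (p.1 u).1.1.1 (p.1 u).1.1.2 (p.1 u).2) u :=
        (contDiff_st.comp ht).contDiffAt.mul (((contDiff_up c d).comp (hx.inner ℝ contDiff_const)).contDiffAt.mul
          ((contDiff_dn a b).contDiffAt.comp u (hy.contDiffAt.inner ℝ hU1)))
      have hu : ContDiffAt ℝ ∞ (fun u => uB q U c d a b (p.1 u).1.1.1 (p.1 u).1.1.2 (p.1 u).2) u :=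
        ((contDiffAt_const.sub hs).smul hy.contDiffAt).sub (hs.smul hU1)
      exact contDiffAt_nz hu (uB_ne hU hcd hab hb (stx _) (sty _) _)
    · refine hy.contDiffAt.congr_of_eventuallyEq ?_
      have h2 : ∀ᶠ v in 𝓝 u, ⟪(p.1 v).1.1.1, q⟫ < c :=
        (hx.inner ℝ contDiff_const).continuous.continuousAt.eventually_lt continuousAt_const (lt_of_not_ge h1)
      filter_upwards [h2] with v hv
      unfold uB
      rw [sB_far hcd hv.le, sub_zero, one_smul, zero_smul, sub_zero, nz_of_norm (sty _)]⟩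

theorem HB_fst (hU : Tan q c U) (hcd : c < d) (hab : a < b) (hb : b ≤ 1) (z : (spSt n).pt) (t : ℝ) :
    ((HB hU hcd hab hb).1 (z, t)).1.1 = z.1.1 := rfl

theorem HB_zero (hU : Tan q c U) (hcd : c < d) (hab : a < b) (hb : b ≤ 1) (z : (spSt n).pt) :
    (HB hU hcd hab hb).1 (z, 0) = z := by
  refine Subtype.ext (Prod.ext rfl ?_)
  change nz (uB q U c d a b z.1.1 z.1.2 0) = z.1.2
  unfold uB sB
  rw [st_zero, zero_mul, sub_zero, one_smul, zero_smul, sub_zero, nz_of_norm (sty z)]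

/-- the end of the homotopy `B` -/
theorem HB_one (hU : Tan q c U) (hcd : c < d) (hab : a < b) (hb : b ≤ 1) {z : (spSt n).pt} (h : d ≤ ⟪z.1.1, q⟫)
    (h' : ⟪z.1.2, U z.1.1⟫ ≤ a) : ((HB hU hcd hab hb).1 (z, 1)).1.2 = -U z.1.1 := by
  have h1 : sB q U c d a b z.1.1 z.1.2 1 = 1 := by
    unfold sB
    rw [st_one, up_one hcd h, dn_one hab h', mul_one, mul_one]
  change nz (uB q U c d a b z.1.1 z.1.2 1) = -U z.1.1
  unfold uB
  rw [h1, sub_self, zero_smul, one_smul, zero_sub, nz_of_norm]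
  rw [norm_neg]
  exact hU.norm _ (stx z) (hcd.le.trans h)

end B

/-! ### a tangent field with a given value at `q` -/

/-- the projection of `v` to the tangent space, normalised -/
def fld (v x : Eu (n + 1)) : Eu (n + 1) := nz (v - ⟪v, x⟫ • x)

theorem fld_ne {q v x : Eu (n + 1)} (hv : ‖v‖ = 1) (hqv : ⟪q, v⟫ = 0) (h : 0 < ⟪x, q⟫) :
    v - ⟪v, x⟫ • x ≠ 0 := by
  intro h0
  have h1 : v = ⟪v, x⟫ • x := sub_eq_zero.1 h0
  have h2 : ⟪q, v⟫ = ⟪v, x⟫ * ⟪q, x⟫ := by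
    conv_lhs => rw [h1]
    rw [real_inner_smul_right]
  rw [hqv] at h2
  rcases mul_eq_zero.1 h2.symm with h3 | h3
  · rw [h3, zero_smul] at h1
    rw [h1, norm_zero] at hv
    exact zero_ne_one hv
  · rw [real_inner_comm] at h3
    exact h.ne' h3

theorem Tan_fld {q v : Eu (n + 1)} (hv : ‖v‖ = 1) (hqv : ⟪q, v⟫ = 0) {c : ℝ} (hc : 0 < c) :
    Tan q c (fld v) where
  smooth x hx h := by
    have h1 : ContDiffAt ℝ ∞ (fun x : Eu (n + 1) => v - ⟪v, x⟫ • x) x :=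
      contDiffAt_const.sub ((contDiffAt_const.inner ℝ contDiffAt_id).smul contDiffAt_id)
    exact contDiffAt_nz h1 (fld_ne hv hqv (hc.trans_le h))
  norm x hx h := norm_nz (fld_ne hv hqv (hc.trans_le h))
  orth x hx h := by
    unfold fld nz
    rw [real_inner_smul_right, inner_sub_right, real_inner_smul_right, real_inner_self_eq_norm_sq x, hx, one_pow, mul_one,
      real_inner_comm, sub_self, mul_zero]

theorem fld_self {q v : Eu (n + 1)} (hv : ‖v‖ = 1) (hqv : ⟪q, v⟫ = 0) : fld v q = v := by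
  unfold fld
  rw [real_inner_comm, hqv, zero_smul, sub_zero, nz_of_norm hv]

end Pool.Agent.Lib.MP_ccbbf6_gt.L7
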