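import Pool.Agent.Lib.MP_ccbbf6_gt.Geo.Area2
import Pool.Agent.Lib.MP_ccbbf6_gt.Geo.CZ
import Pool.Agent.Lib.MP_ccbbf6_gt.Geo.CZa
import Pool.Agent.Lib.MP_ccbbf6_gt.Geo.DA1
import Pool.Agent.Lib.MP_ccbbf6_gt.Geo.EQc
import Pool.Agent.Lib.MP_ccbbf6_gt.Geo.EX
import Pool.Agent.Lib.MP_ccbbf6_gt.Geo.HH
import Pool.Agent.Lib.MP_ccbbf6_gt.Geo.KAa
import Pool.Agent.Lib.MP_ccbbf6_gt.Geo.KC1
import Pool.Agent.Lib.MP_ccbbf6_gt.Geo.MEf
import Pool.Agent.Lib.MP_ccbbf6_gt.Geo.SM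
import Pool.Agent.Lib.MP_ccbbf6_gt.L4.Cmp3
import Pool.Agent.Lib.MP_ccbbf6_gt.L4.FI0
import Pool.Agent.Lib.MP_ccbbf6_gt.L4.FI1
import Pool.Agent.Lib.MP_ccbbf6_gt.L5.EPS05
import Pool.Agent.Lib.MP_ccbbf6_gt.L5.EPS07
import Pool.Agent.Lib.MP_ccbbf6_gt.L5.PER01
import Pool.Agent.Lib.MP_ccbbf6_gt.L5.PER02
import Pool.Agent.Lib.MP_ccbbf6_gt.L7.ST2
import Pool.Agent.Lib.MP_ccbbf6_gt.S.KG

/-!
# Level 7, TT4: an affine chart of the Stiefel manifold at `(e₀, e₁)` (helper33)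

* `chC m : (spSt (m + 1)).Plot (m + 1 + m)` : `(a, b) ↦` Gram-Schmidt of `(1, a), (0, 1, b)`;
* `chR z` : inverse near `(e₀, e₁)`, defined and smooth everywhere; `chR_chC`, `chC_chR`.
-/

set_option autoImplicit false
set_option maxSynthPendingDepth 3

open Set Filter Topology MeasureTheory Module
open scoped ContDiff RealInnerProductSpace

noncomputable section

namespace Pool.Agent.Lib.MP_ccbbf6_gt.L7

open Geo L4 L4.FR L5 PE

variable {k l n N j m : ℕ}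

/-- the denominator -/
def mm (t : ℝ) : ℝ := t * up (1 / 4) (1 / 2) t + (1 - up (1 / 4) (1 / 2) t)

theorem contDiff_mm : ContDiff ℝ ∞ mm :=
  (contDiff_id.mul (contDiff_up _ _)).add (contDiff_const.sub (contDiff_up _ _))

theorem mm_of {t : ℝ} (h : 1 / 2 ≤ t) : mm t = t := by
  unfold mm
  rw [up_one (by norm_num) h]
  ring

theorem mm_pos (t : ℝ) : 0 < mm t := by
  unfold mm
  rcases le_or_gt t (1 / 4) with h | h
  · rw [up_zero (by norm_num) h]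
    norm_num
  · have h1 := up_nonneg (1 / 4) (1 / 2) t
    have h2 := up_le (1 / 4) (1 / 2) t
    nlinarith

/-- Gram-Schmidt of combinations of an orthonormal pair -/
theorem gsm_comb (z : (spSt n).pt) {a b : ℝ} (ha : 0 < a) (hb : 0 < b) (c : ℝ) : gsm (a • z.1.1, b • z.1.2 + c • z.1.1) = z.1 := by
  unfold gsm
  refine Prod.ext ?_ ?_
  · change ‖a • z.1.1‖⁻¹ • (a • z.1.1) = z.1.1
    rw [norm_smul, stx, mul_one, Real.norm_of_nonneg ha.le, smul_smul, inv_mul_cancel₀ ha.ne', one_smul]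
  · have h1 : ⟪a • z.1.1, b • z.1.2 + c • z.1.1⟫ / ⟪a • z.1.1, a • z.1.1⟫ = c / a := by
      simp only [inner_add_right, real_inner_smul_left, real_inner_smul_right, stxx, stxy]
      field_simp
      ring
    have h2 : b • z.1.2 + c • z.1.1 - (c / a) • a • z.1.1 = b • z.1.2 := by
      rw [smul_smul, div_mul_cancel₀ _ ha.ne', add_sub_cancel_right]
    change ‖b • z.1.2 + c • z.1.1 - (⟪a • z.1.1, b • z.1.2 + c • z.1.1⟫ / ⟪a • z.1.1, a • z.1.1⟫) • a • z.1.1‖⁻¹ •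
      (b • z.1.2 + c • z.1.1 - (⟪a • z.1.1, b • z.1.2 + c • z.1.1⟫ / ⟪a • z.1.1, a • z.1.1⟫) • a • z.1.1) = z.1.2
    rw [h1, h2, norm_smul, sty, mul_one, Real.norm_of_nonneg hb.le, smul_smul, inv_mul_cancel₀ hb.ne', one_smul]

/-- first affine vector -/
def cA (u : V (m + 1 + m)) : Eu (m + 1 + 1) := WithLp.toLp 2 (Fin.cons 1 fun i => u (Fin.castAdd m i))

/-- second affine vector -/
def cB (u : V (m + 1 + m)) : Eu (m + 1 + 1) := WithLp.toLp 2 (Fin.cons 0 (Fin.cons 1 fun j => u (Fin.natAdd (m + 1) j)))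

theorem cA_zero (u : V (m + 1 + m)) : cA u 0 = 1 := rfl
theorem cA_succ (u : V (m + 1 + m)) (i : Fin (m + 1)) : cA u i.succ = u (Fin.castAdd m i) := rfl
theorem cB_zero (u : V (m + 1 + m)) : cB u 0 = 0 := rfl
theorem cB_one (u : V (m + 1 + m)) : cB u 1 = 1 := rfl
theorem cB_succ (u : V (m + 1 + m)) (j : Fin m) : cB u j.succ.succ = u (Fin.natAdd (m + 1) j) := rfl

theorem contDiff_cA : ContDiff ℝ ∞ (cA : V (m + 1 + m) → _) := by
  rw [contDiff_euclidean]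
  intro i
  refine Fin.cases ?_ (fun i => ?_) i
  · exact contDiff_const
  · exact contDiff_apply ℝ ℝ _

theorem contDiff_cB : ContDiff ℝ ∞ (cB : V (m + 1 + m) → _) := by
  rw [contDiff_euclidean]
  intro i
  refine Fin.cases ?_ (fun i => ?_) i
  · exact contDiff_const
  · refine Fin.cases ?_ (fun j => ?_) i
    · exact contDiff_const
    · exact contDiff_apply ℝ ℝ _

theorem c_mem (u : V (m + 1 + m)) : (cA u, cB u) ∈ GSet (m + 1) := by
  constructor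
  · intro h
    have h1 := congrArg (fun x : Eu (m + 1 + 1) => x 0) h
    exact one_ne_zero h1
  · intro h
    have h0 := congrArg (fun x : Eu (m + 1 + 1) => x 0) h
    have h1 := congrArg (fun x : Eu (m + 1 + 1) => x 1) h
    have h2 : cB u 0 - ⟪cA u, cB u⟫ / ⟪cA u, cA u⟫ * cA u 0 = 0 := h0
    have h3 : cB u 1 - ⟪cA u, cB u⟫ / ⟪cA u, cA u⟫ * cA u 1 = 0 := h1
    rw [cB_zero, cA_zero, mul_one, zero_sub, neg_eq_zero] at h2
    rw [cB_one, h2, zero_mul, sub_zero] at h3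
    exact one_ne_zero h3

/-- **the chart** -/
def chC (m : ℕ) : (spSt (m + 1)).Plot (m + 1 + m) :=
  ⟨fun u => ⟨gsm (cA u, cB u), gsm_mem (c_mem u)⟩, by
    change ContDiff ℝ ∞ fun u => gsm (cA u, cB u)
    rw [contDiff_iff_contDiffAt]
    intro u
    exact (contDiffAt_gsm (c_mem u)).comp u (contDiff_cA.prodMk contDiff_cB).contDiffAt⟩

/-- two by two minors -/
def Dm (z : Eu (n + 1) × Eu (n + 1)) (i j : Fin (n + 1)) : ℝ := z.1 i * z.2 j - z.1 j * z.2 i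

theorem contDiff_Dm (i j : Fin (n + 1)) : ContDiff ℝ ∞ fun z : Eu (n + 1) × Eu (n + 1) => Dm z i j := by
  have h1 : ∀ i : Fin (n + 1), ContDiff ℝ ∞ fun z : Eu (n + 1) × Eu (n + 1) => z.1 i := fun i =>
    (contDiff_euclidean.1 contDiff_id i).comp contDiff_fst
  have h2 : ∀ i : Fin (n + 1), ContDiff ℝ ∞ fun z : Eu (n + 1) × Eu (n + 1) => z.2 i := fun i =>
    (contDiff_euclidean.1 contDiff_id i).comp contDiff_snd
  exact ((h1 i).mul (h2 j)).sub ((h1 j).mul (h2 i))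

/-- inverse of the chart, modified away from `(e₀, e₁)` -/
def chR (z : Eu (m + 1 + 1) × Eu (m + 1 + 1)) : V (m + 1 + m) :=
  Fin.append (fun i => z.1 i.succ / mm (z.1 0)) fun j => Dm z 0 j.succ.succ / mm (Dm z 0 1)

theorem chR_left (z : Eu (m + 1 + 1) × Eu (m + 1 + 1)) (i : Fin (m + 1)) : chR z (Fin.castAdd m i) = z.1 i.succ / mm (z.1 0) :=
  Fin.append_left _ _ _

theorem chR_right (z : Eu (m + 1 + 1) × Eu (m + 1 + 1)) (j : Fin m) :
    chR z (Fin.natAdd (m + 1) j) = Dm z 0 j.succ.succ / mm (Dm z 0 1) := Fin.append_right _ _ _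

theorem contDiff_chR : ContDiff ℝ ∞ (chR : Eu (m + 1 + 1) × Eu (m + 1 + 1) → _) := by
  have h1 : ∀ i : Fin (m + 1 + 1), ContDiff ℝ ∞ fun z : Eu (m + 1 + 1) × Eu (m + 1 + 1) => z.1 i := fun i =>
    (contDiff_euclidean.1 contDiff_id i).comp contDiff_fst
  rw [contDiff_pi]
  intro i
  refine Fin.addCases (fun i => ?_) (fun j => ?_) i
  · simp only [chR_left]
    exact (h1 _).div (contDiff_mm.comp (h1 0)) fun z => (mm_pos _).ne'
  · simp only [chR_right]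
    exact (contDiff_Dm _ _).div (contDiff_mm.comp (contDiff_Dm _ _)) fun z => (mm_pos _).ne'

/-- near `(e₀, e₁)`, level `t` -/
def Nr (t : ℝ) : Set (spSt (m + 1)).pt := {z | t ≤ z.1.1 0 ∧ t ≤ Dm z.1 0 1}

theorem chR_chC (u : V (m + 1 + m)) (h : (chC m).1 u ∈ Nr (m := m) (1 / 2)) : chR ((chC m).1 u).1 = u := by
  obtain ⟨z, hz⟩ : ∃ z, ((chC m).1 u).1 = z := ⟨_, rfl⟩
  have hz' : gsm (cA u, cB u) = z := hz
  set κ := ‖cA u‖⁻¹ with hκ
  set s := ⟪cA u, cB u⟫ / ⟪cA u, cA u⟫ with hs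
  set l := ‖cB u - s • cA u‖⁻¹ with hl
  have hx : ∀ i, z.1 i = κ * cA u i := fun i => by rw [← hz']; rfl
  have hy : ∀ i, z.2 i = l * (cB u i - s * cA u i) := fun i => by rw [← hz']; rfl
  have hκ0 : κ ≠ 0 := inv_ne_zero (norm_ne_zero_iff.2 (c_mem u).1)
  have hl0 : l ≠ 0 := inv_ne_zero (norm_ne_zero_iff.2 (c_mem u).2)
  have hD : ∀ i j, Dm z i j = κ * l * (cA u i * cB u j - cA u j * cB u i) := fun i j => by
    unfold Dm
    rw [hx, hx, hy, hy]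
    ring
  have h1 : 1 / 2 ≤ z.1 0 := by rw [← hz]; exact h.1
  have h2 : 1 / 2 ≤ Dm z 0 1 := by rw [← hz]; exact h.2
  have e1 : z.1 0 = κ := by rw [hx, cA_zero, mul_one]
  have e2 : Dm z 0 1 = κ * l := by rw [hD, cA_zero, cB_one, cB_zero, mul_zero, sub_zero, mul_one, mul_one]
  rw [hz]
  funext i
  refine Fin.addCases (fun i => ?_) (fun j => ?_) i
  · rw [chR_left, mm_of h1, e1, hx, cA_succ, mul_div_cancel_left₀ _ hκ0]
  · rw [chR_right, mm_of h2, e2, hD, cA_zero, cB_zero, mul_zero, sub_zero, one_mul, cB_succ,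
      mul_div_cancel_left₀ _ (mul_ne_zero hκ0 hl0)]

theorem chC_chR {z : (spSt (m + 1)).pt} (h : z ∈ Nr (m := m) (1 / 2)) : (chC m).1 (chR z.1) = z := by
  have h1 : 1 / 2 ≤ z.1.1 0 := h.1
  have h2 : 1 / 2 ≤ Dm z.1 0 1 := h.2
  have hx0 : z.1.1 0 ≠ 0 := by intro h3; rw [h3] at h1; norm_num at h1
  have hD0 : Dm z.1 0 1 ≠ 0 := by intro h3; rw [h3] at h2; norm_num at h2
  have eA : cA (chR z.1) = (z.1.1 0)⁻¹ • z.1.1 := by
    refine PiLp.ext fun i => ?_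
    refine Fin.cases ?_ (fun i => ?_) i
    · rw [cA_zero, PiLp.smul_apply, smul_eq_mul, inv_mul_cancel₀ hx0]
    · rw [cA_succ, chR_left, mm_of h1, PiLp.smul_apply, smul_eq_mul, div_eq_inv_mul]
  have eB : cB (chR z.1) = (z.1.1 0 / Dm z.1 0 1) • z.1.2 + (-(z.1.2 0 / Dm z.1 0 1)) • z.1.1 := by
    have key : ∀ i, ((z.1.1 0 / Dm z.1 0 1) • z.1.2 + (-(z.1.2 0 / Dm z.1 0 1)) • z.1.1) i = Dm z.1 0 i / Dm z.1 0 1 := by
      intro i
      rw [PiLp.add_apply, PiLp.smul_apply, PiLp.smul_apply, smul_eq_mul, smul_eq_mul]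
      conv_rhs => rw [show Dm z.1 0 i = z.1.1 0 * z.1.2 i - z.1.1 i * z.1.2 0 from rfl]
      ring
    refine PiLp.ext fun i => ?_
    rw [key]
    refine Fin.cases ?_ (fun i => ?_) i
    · rw [cB_zero, show Dm z.1 0 0 = 0 from by unfold Dm; ring, zero_div]
    · refine Fin.cases ?_ (fun j => ?_) i
      · change (1 : ℝ) = Dm z.1 0 1 / Dm z.1 0 1
        rw [div_self hD0]
      · rw [cB_succ, chR_right, mm_of h2]
  refine Subtype.ext ?_
  change gsm (cA (chR z.1), cB (chR z.1)) = z.1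
  rw [eA, eB]
  exact gsm_comb z (inv_pos.2 (by linarith)) (div_pos (by linarith) (by linarith)) _

end Pool.Agent.Lib.MP_ccbbf6_gt.L7
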