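import Pool.Agent.Lib.MP_ccbbf6_gt.L7.DG1
import Pool.Agent.Lib.MP_ccbbf6_gt.L7.TT4

/-!
# Level 7, TT5: forms on the Stiefel manifold from compactly supported forms in the chart (helper33)

* `wT Θ` : cut-off times the pull back of `Θ` by `chR`; `d_wT`; `eq_wT` : forms supported near the base point.
-/

set_option autoImplicit false
set_option maxSynthPendingDepth 3

open Set Filter Topology MeasureTheory Module
open scoped ContDiff RealInnerProductSpace

noncomputable section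

namespace Pool.Agent.Lib.MP_ccbbf6_gt.L7

open Geo L4 L4.FR L5 PE DG

variable {k l n N j m : ℕ}

/-- the cut-off function -/
def cut (z : (spSt (m + 1)).pt) : ℝ := up (1 / 2) (3 / 4) (z.1.1 0) * up (1 / 2) (3 / 4) (Dm z.1 0 1)

theorem sm_coord (i : Fin (n + 1)) : ContDiff ℝ ∞ fun z : Eu (n + 1) × Eu (n + 1) => z.1 i :=
  (contDiff_euclidean.1 contDiff_id i).comp contDiff_fst

theorem sm_cut (k : ℕ) (p : (spSt (m + 1)).Plot k) : ContDiff ℝ ∞ fun x => cut (p.1 x) :=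
  ((contDiff_up _ _).comp ((sm_coord 0).comp (plot_sm p))).mul ((contDiff_up _ _).comp ((contDiff_Dm 0 1).comp (plot_sm p)))

theorem sm_chR (k : ℕ) (p : (spSt (m + 1)).Plot k) : ContDiff ℝ ∞ fun x => chR (p.1 x).1 := contDiff_chR.comp (plot_sm p)

theorem cut_one {z : (spSt (m + 1)).pt} (h : z ∈ Nr (m := m) (3 / 4)) : cut z = 1 := by
  unfold cut
  rw [up_one (by norm_num) h.1, up_one (by norm_num) h.2, one_mul]

theorem cut_ne {z : (spSt (m + 1)).pt} (h : cut z ≠ 0) : z ∈ Nr (m := m) (1 / 2) := by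
  unfold cut at h
  constructor
  · by_contra h1
    exact h (by rw [up_zero (by norm_num) (not_le.1 h1).le, zero_mul])
  · by_contra h1
    exact h (by rw [up_zero (by norm_num) (not_le.1 h1).le, mul_zero])

/-- the form given by `Θ` in the chart -/
def wT (Θ : Fm (m + 1 + m)) : Om (spSt (m + 1)) := fO cut sm_cut * tfO (fun z : (spSt (m + 1)).pt => chR z.1) sm_chR Θ

theorem wT_add (Θ Θ' : Fm (m + 1 + m)) : wT (Θ + Θ') = wT Θ + wT Θ' := by
  unfold wT
  rw [← mul_add]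
  congr 1
  exact Om_ext fun k p => by rw [on_add, on_tfO, on_tfO, on_tfO, map_add]

theorem wT_smul (r : ℝ) (Θ : Fm (m + 1 + m)) : wT (r • Θ) = r • wT Θ := by
  unfold wT
  rw [← mul_smul_comm]
  congr 1
  exact Om_ext fun k p => by rw [on_smul, on_tfO, on_tfO, map_smul]

/-- `wT` as a linear map -/
def wTL (m : ℕ) : Fm (m + 1 + m) →ₗ[ℝ] Om (spSt (m + 1)) where
  toFun := wT
  map_add' := wT_add
  map_smul' := wT_smul

theorem ev_wT (Θ : Fm (m + 1 + m)) (p : (spSt (m + 1)).Plot k) (x : V k) : ev x (Om.on (wT Θ) p) =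
    algebraMap ℝ (Ex k) (cut (p.1 x)) * ev x (Om.on (tfO (fun z : (spSt (m + 1)).pt => chR z.1) sm_chR Θ) p) := by
  unfold wT
  rw [on_mul, map_mul, ev_fO]

/-- the form vanishes where `Θ` does -/
theorem ev_wT_zero {Θ : Fm (m + 1 + m)} {p : (spSt (m + 1)).Plot k} {x : V k}
    (h : p.1 x ∈ Nr (m := m) (1 / 2) → ev (chR (p.1 x).1) Θ = 0) : ev x (Om.on (wT Θ) p) = 0 := by
  rw [ev_wT]
  by_cases h1 : cut (p.1 x) = 0
  · rw [h1, map_zero, zero_mul]
  · rw [on_tfO]
    have h2 : ev x (pb ⟨fun x => chR (p.1 x).1, sm_chR k p⟩ Θ) = 0 := ev_pb_of_zero _ (h (cut_ne h1))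
    rw [h2, mul_zero]

theorem lt_mem_Nr {t s : ℝ} (h : t < s) (p : (spSt (m + 1)).Plot k) {x : V k} (hx : p.1 x ∈ Nr (m := m) s) :
    ∀ᶠ y in 𝓝 x, p.1 y ∈ Nr (m := m) t := by
  have h1 : Continuous fun y => (p.1 y).1.1 0 := ((sm_coord 0).comp (plot_sm p)).continuous
  have h2 : Continuous fun y => Dm (p.1 y).1 0 1 := ((contDiff_Dm 0 1).comp (plot_sm p)).continuous
  have h3 : t < (p.1 x).1.1 0 := lt_of_lt_of_le h hx.1
  have h4 : t < Dm (p.1 x).1 0 1 := lt_of_lt_of_le h hx.2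
  filter_upwards [h1.continuousAt.eventually (lt_mem_nhds h3), h2.continuousAt.eventually (lt_mem_nhds h4)] with y h5 h6
  exact ⟨h5.le, h6.le⟩

theorem not_mem_Nr {t s : ℝ} (h : t < s) (p : (spSt (m + 1)).Plot k) {x : V k} (hx : p.1 x ∉ Nr (m := m) t) :
    ∀ᶠ y in 𝓝 x, p.1 y ∉ Nr (m := m) s := by
  have h1 : Continuous fun y => (p.1 y).1.1 0 := ((sm_coord 0).comp (plot_sm p)).continuous
  have h2 : Continuous fun y => Dm (p.1 y).1 0 1 := ((contDiff_Dm 0 1).comp (plot_sm p)).continuous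
  by_cases h3 : t ≤ (p.1 x).1.1 0
  · have h4 : Dm (p.1 x).1 0 1 < s := by
      by_contra h5
      exact hx ⟨h3, h.le.trans (not_lt.1 h5)⟩
    filter_upwards [h2.continuousAt.eventually (gt_mem_nhds h4)] with y h5 h6
    exact absurd h6.2 (not_le.2 h5)
  · have h4 : (p.1 x).1.1 0 < s := (not_le.1 h3).trans h
    filter_upwards [h1.continuousAt.eventually (gt_mem_nhds h4)] with y h5 h6
    exact absurd h6.1 (not_le.2 h5)

section box

variable {R : ℝ} (hbox : ∀ u : V (m + 1 + m), ‖u‖ ≤ R → (chC m).1 u ∈ Nr (m := m) (7 / 8))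

include hbox in
/-- for a form supported in the box, `d (wT β) = wT (d β)` -/
theorem d_wT {β : Fm (m + 1 + m)} (hβ : ∀ u : V (m + 1 + m), R < ‖u‖ → ev u β = 0) : dO _ (wT β) = wT (dd _ β) := by
  have hβ' : ∀ u : V (m + 1 + m), R < ‖u‖ → ev u (dd _ β) = 0 := by
    intro u hu
    have h1 : ev u (dd _ β) = ev u (dd _ 0) := ev_dd_congr (by
      filter_upwards [continuous_norm.continuousAt.eventually (lt_mem_nhds hu)] with v hv
      rw [hβ v hv, map_zero])
    rw [h1, map_zero, map_zero]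
  have hout : ∀ {θ : Fm (m + 1 + m)}, (∀ u : V (m + 1 + m), R < ‖u‖ → ev u θ = 0) → ∀ {k : ℕ} (p : (spSt (m + 1)).Plot k)
      (x : V k), p.1 x ∉ Nr (m := m) (7 / 8) → ev x (Om.on (wT θ) p) = 0 := by
    intro θ hθ k p x hx
    refine ev_wT_zero fun h => hθ _ ?_
    by_contra h1
    have h2 := hbox _ (not_lt.1 h1)
    rw [chC_chR h] at h2
    exact hx h2
  refine Om_ext fun k p => ev_ext fun x => ?_
  rw [on_d]
  by_cases hx : p.1 x ∈ Nr (m := m) (4 / 5)
  · have h1 := lt_mem_Nr (by norm_num : (3 / 4 : ℝ) < 4 / 5) p hx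
    have h2 : ∀ θ : Fm (m + 1 + m), ∀ᶠ y in 𝓝 x, ev y (Om.on (wT θ) p) =
        ev y (Om.on (tfO (fun z : (spSt (m + 1)).pt => chR z.1) sm_chR θ) p) := by
      intro θ
      filter_upwards [h1] with y hy
      rw [ev_wT, cut_one hy, map_one, one_mul]
    rw [ev_dd_congr (h2 β), (h2 (dd _ β)).self_of_nhds, ← d_tfO, on_d]
  · have h1 := not_mem_Nr (by norm_num : (4 / 5 : ℝ) < 7 / 8) p hx
    have h2 : ev x (dd k (Om.on (wT β) p)) = ev x (dd k 0) := ev_dd_congr (by
      filter_upwards [h1] with y hy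
      rw [hout hβ p y hy, map_zero])
    rw [h2, map_zero, map_zero, hout hβ' p x h1.self_of_nhds]

end box

/-- forms supported near the base point come from the chart -/
theorem eq_wT {w : Om (spSt (m + 1))} {S : Set (spSt (m + 1)).pt} (hS : S ⊆ Nr (m := m) (7 / 8))
    (hw : ∀ (k : ℕ) (p : (spSt (m + 1)).Plot k) (u : V k), p.1 u ∉ S → ev u (Om.on w p) = 0) :
    w = wT (Om.on w (chC m)) := by
  refine Om_ext fun k p => ev_ext fun x => ?_
  by_cases hx : p.1 x ∈ S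
  · have h1 : ∀ᶠ y in 𝓝 x, p.1 y ∈ Nr (m := m) (3 / 4) := lt_mem_Nr (by norm_num) p (hS hx)
    rw [ev_wT, cut_one h1.self_of_nhds, map_one, one_mul, on_tfO, ← on_cmp]
    refine ev_on_congr w ?_
    filter_upwards [h1] with y hy
    change p.1 y = (chC m).1 (chR (p.1 y).1)
    exact (chC_chR ⟨le_trans (by norm_num) hy.1, le_trans (by norm_num) hy.2⟩).symm
  · rw [hw k p x hx, ev_wT_zero]
    intro h
    refine hw _ (chC m) _ ?_
    rw [chC_chR h]
    exact hx

end Pool.Agent.Lib.MP_ccbbf6_gt.L7
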