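import Pool.Agent.Lib.MP_ccbbf6_gt.L7.TT1
import Pool.Agent.Lib.MP_ccbbf6_gt.L7.TT3
import Pool.Agent.Lib.MP_ccbbf6_gt.L7.TT5

/-!
# Level 7, TT6: the top degree cohomology of the Stiefel manifold is spanned by one form (helper33)

`St_top1`, `St_top`.
-/

set_option autoImplicit false
set_option maxSynthPendingDepth 3

open Set Filter Topology MeasureTheory Module
open scoped ContDiff RealInnerProductSpace

noncomputable section

namespace Pool.Agent.Lib.MP_ccbbf6_gt.L7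

open Geo L4 L4.FR L5 PE DG

variable {k l n N j m : ℕ}

/-- `∂_i g vol` is exact -/
theorem tm_pd (hN : 1 ≤ N) (g : Cs N) (i : Fin N) : tm (pd i g) (vlE N) = dd N (fiv g (Pi.single i 1)) := by
  obtain ⟨k, rfl⟩ : ∃ k, N = k + 1 := ⟨N - 1, by omega⟩
  rw [Dg_top (Dg_dd (Dg_fiv g (Pi.single i 1)))]
  congr 1
  refine Cs_ext fun y => ?_
  rw [tp_apply, top_dd_fiv, pd_apply]

theorem norm_cA : ‖(cA (0 : V (m + 1 + m)))‖ = 1 := by
  have h : cA (0 : V (m + 1 + m)) = EuclideanSpace.single 0 1 := by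
    refine PiLp.ext fun i => ?_
    refine Fin.cases ?_ (fun i => ?_) i
    · simp [cA_zero]
    · rw [cA_succ]
      simp
  rw [h]
  simp

theorem norm_cB : ‖(cB (0 : V (m + 1 + m)))‖ = 1 := by
  have h : cB (0 : V (m + 1 + m)) = EuclideanSpace.single 1 1 := by
    refine PiLp.ext fun i => ?_
    refine Fin.cases ?_ (fun i => ?_) i
    · simp [cB_zero]
    · refine Fin.cases ?_ (fun j => ?_) i
      · change (1 : ℝ) = EuclideanSpace.single (1 : Fin (m + 1 + 1)) (1 : ℝ) 1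
        simp
      · rw [cB_succ]
        have : (j.succ.succ : Fin (m + 1 + 1)) ≠ 1 := by
          intro h
          have := congrArg Fin.val h
          simp at this
        simp [this]
  rw [h]
  simp

theorem inner_cAB : ⟪cA (0 : V (m + 1 + m)), cB (0 : V (m + 1 + m))⟫ = 0 := by
  rw [PiLp.inner_apply]
  refine Finset.sum_eq_zero fun i _ => ?_
  refine Fin.cases ?_ (fun i => ?_) i
  · rw [cB_zero]
    simp
  · rw [cA_succ]
    simp

theorem gsm_base : gsm (cA (0 : V (m + 1 + m)), cB (0 : V (m + 1 + m))) = (cA (0 : V (m + 1 + m)), cB (0 : V (m + 1 + m))) :=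
  (gsm_of (n := m + 1) (a := (cA (0 : V (m + 1 + m)), cB (0 : V (m + 1 + m)))) norm_cA norm_cB inner_cAB).2

theorem chC_zero : ((chC m).1 0).1 = (cA 0, cB 0) := by
  rw [← gsm_base]
  rfl

theorem base_coord : (cA (0 : V (m + 1 + m))) 0 = 1 ∧ Dm (cA (0 : V (m + 1 + m)), cB (0 : V (m + 1 + m))) 0 1 = 1 := by
  refine ⟨cA_zero _, ?_⟩
  change cA 0 0 * cB 0 1 - cA 0 1 * cB 0 0 = 1
  rw [cA_zero, cB_one, cB_zero]
  ring

theorem exists_box : ∃ R : ℝ, 0 < R ∧ ∀ u : V (m + 1 + m), ‖u‖ ≤ R → (chC m).1 u ∈ Nr (m := m) (7 / 8) := by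
  have h1 : ∀ᶠ u in 𝓝 (0 : V (m + 1 + m)), (chC m).1 u ∈ Nr (m := m) (7 / 8) := by
    refine lt_mem_Nr (by norm_num : (7 / 8 : ℝ) < 1) (chC m) ?_
    have h2 := base_coord (m := m)
    rw [← chC_zero] at h2
    have h3 : ((chC m).1 0).1.1 0 = 1 := by rw [chC_zero]; exact base_coord.1
    exact ⟨h3.ge, h2.2.ge⟩
  obtain ⟨R, hR, h2⟩ := Metric.eventually_nhds_iff_ball.1 h1
  refine ⟨R / 2, by linarith, fun u hu => h2 u ?_⟩
  rw [mem_ball_zero_iff]
  linarith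

/-- the small set -/
def Sm' (q v : Eu (n + 1)) (t : ℝ) : Set (spSt n).pt := {z | t ≤ ⟪z.1.1, q⟫ ∧ t ≤ ⟪z.1.2, fld v z.1.1⟫}

theorem exists_small {q v : Eu (n + 1)} (hq : ‖q‖ = 1) (hv : ‖v‖ = 1) (hqv : ⟪q, v⟫ = 0) {O : Set (Eu (n + 1) × Eu (n + 1))}
    (hO : O ∈ 𝓝 (q, v)) : ∃ t : ℝ, 0 < t ∧ t < 1 ∧ ∀ z ∈ Sm' q v t, z.1 ∈ O := by
  obtain ⟨ε, hε, h1⟩ := Metric.mem_nhds_iff.1 hO
  have hU : Tan q (1 / 2) (fld v) := Tan_fld hv hqv (by norm_num)
  have hqq : (1 / 2 : ℝ) ≤ ⟪q, q⟫ := by rw [real_inner_self_eq_norm_sq, hq]; norm_num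
  obtain ⟨δ, hδ, h2⟩ := Metric.continuousAt_iff.1 (hU.smooth q hq hqq).continuousAt (ε / 2) (by linarith)
  rw [fld_self hv hqv] at h2
  set r := min (min δ (ε / 2)) 1 with hr
  have hr0 : 0 < r := by positivity
  have hrδ : r ≤ δ := (min_le_left _ _).trans (min_le_left _ _)
  have hrε : r ≤ ε / 2 := (min_le_left _ _).trans (min_le_right _ _)
  have hr1 : r ≤ 1 := min_le_right _ _
  refine ⟨1 - r ^ 2 / 4, by nlinarith, by nlinarith, fun z hz => h1 ?_⟩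
  have e1 : ‖z.1.1 - q‖ < r := by
    have h3 : ‖z.1.1 - q‖ ^ 2 = 2 - 2 * ⟪z.1.1, q⟫ := by
      rw [norm_sub_sq_real, stx, hq]
      ring
    have h4 := hz.1
    exact lt_of_pow_lt_pow_left₀ 2 hr0.le (by rw [h3]; nlinarith)
  have e2 : ‖z.1.2 - fld v z.1.1‖ < r := by
    have h5 : ‖fld v z.1.1‖ = 1 := hU.norm _ (stx z) (by have := hz.1; nlinarith)
    have h3 : ‖z.1.2 - fld v z.1.1‖ ^ 2 = 2 - 2 * ⟪z.1.2, fld v z.1.1⟫ := by
      rw [norm_sub_sq_real, sty, h5]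
      ring
    have h4 := hz.2
    exact lt_of_pow_lt_pow_left₀ 2 hr0.le (by rw [h3]; nlinarith)
  have e3 : ‖fld v z.1.1 - v‖ < ε / 2 := by
    have := h2 (x := z.1.1) (by rw [dist_eq_norm]; linarith)
    rwa [dist_eq_norm] at this
  rw [Metric.mem_ball, Prod.dist_eq, max_lt_iff, dist_eq_norm, dist_eq_norm]
  refine ⟨by linarith, ?_⟩
  have h6 : z.1.2 - v = (z.1.2 - fld v z.1.1) + (fld v z.1.1 - v) := by abel
  rw [h6]
  exact lt_of_le_of_lt (norm_add_le _ _) (by linarith)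

/-- **the top degree cohomology of the Stiefel manifold is spanned by one form** -/
theorem St_top1 (hm : 1 ≤ m) : ∃ w1 : Om (spSt (m + 1)), ∀ w : Om (spSt (m + 1)), Deg (m + 1 + m) w →
    ∃ (s : ℝ) (β : Om (spSt (m + 1))), w = s • w1 + dO _ β := by
  obtain ⟨R, hR, hbox⟩ := exists_box (m := m)
  obtain ⟨r, hr, hPL⟩ := PL (N := m + 1 + m) hR
  refine ⟨wT (tm r (vlE _)), fun w hw => ?_⟩
  -- a small set
  have hO : {z : Eu (m + 1 + 1) × Eu (m + 1 + 1) | 7 / 8 < z.1 0 ∧ 7 / 8 < Dm z 0 1 ∧ ‖chR z‖ < R} ∈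
      𝓝 (cA (0 : V (m + 1 + m)), cB (0 : V (m + 1 + m))) := by
    have h1 : ∀ᶠ z in 𝓝 (cA (0 : V (m + 1 + m)), cB (0 : V (m + 1 + m))), 7 / 8 < z.1 0 :=
      (sm_coord 0).continuous.continuousAt.eventually (lt_mem_nhds (by
        change 7 / 8 < cA (0 : V (m + 1 + m)) 0
        rw [cA_zero]
        norm_num))
    have h2 : ∀ᶠ z in 𝓝 (cA (0 : V (m + 1 + m)), cB (0 : V (m + 1 + m))), 7 / 8 < Dm z 0 1 :=
      (contDiff_Dm 0 1).continuous.continuousAt.eventually (lt_mem_nhds (by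
        change 7 / 8 < Dm (cA (0 : V (m + 1 + m)), cB (0 : V (m + 1 + m))) 0 1
        rw [base_coord.2]
        norm_num))
    have h3 : ∀ᶠ z in 𝓝 (cA (0 : V (m + 1 + m)), cB (0 : V (m + 1 + m))), ‖chR z‖ < R :=
      contDiff_chR.continuous.norm.continuousAt.eventually (gt_mem_nhds (by
        have h4 : (chC m).1 0 ∈ Nr (m := m) (1 / 2) := by
          have := hbox 0 (by rw [norm_zero]; exact hR.le)
          exact ⟨le_trans (by norm_num) this.1, le_trans (by norm_num) this.2⟩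
        have h5 := chR_chC (0 : V (m + 1 + m)) h4
        rw [chC_zero] at h5
        change ‖chR (cA (0 : V (m + 1 + m)), cB (0 : V (m + 1 + m)))‖ < R
        rw [h5, norm_zero]
        exact hR))
    filter_upwards [h1, h2, h3] with z a b c
    exact ⟨a, b, c⟩
  obtain ⟨t, ht0, ht1, hS⟩ := exists_small norm_cA norm_cB inner_cAB hO
  obtain ⟨w', β1, e1, hw', hsup⟩ := conc norm_cA norm_cB inner_cAB ht0 ht1 hw (d_top hw (by omega)) (by omega)
  have hsub : Sm' (cA (0 : V (m + 1 + m))) (cB (0 : V (m + 1 + m))) t ⊆ Nr (m := m) (7 / 8) := fun z hz =>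
    ⟨(hS z hz).1.le, (hS z hz).2.1.le⟩
  have e2 : w' = wT (Om.on w' (chC m)) := eq_wT hsub fun k p u hu => hsup k p u hu
  set f := tp (m + 1 + m) (Om.on w' (chC m)) with hf
  have e3 : Om.on w' (chC m) = tm f (vlE _) := Dg_top (hw' _ _)
  have hfB : Bx R f := by
    intro u hu
    rw [hf, tp_apply, hsup, map_zero]
    intro h
    have h1 := hS _ h
    have h2 : (chC m).1 u ∈ Nr (m := m) (1 / 2) := ⟨le_trans (by norm_num) h1.1.le, le_trans (by norm_num) h1.2.1.le⟩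
    have h3 := h1.2.2
    rw [chR_chC u h2] at h3
    linarith
  obtain ⟨s, hs⟩ := hPL f hfB
  -- the exact part
  let L0 : Cs (m + 1 + m) →ₗ[ℝ] Fm (m + 1 + m) :=
    { toFun := fun g => tm g (vlE _), map_add' := fun a b => tm_add_left _ _ _, map_smul' := fun a b => tm_smul_left _ _ _ }
  let L : Cs (m + 1 + m) →ₗ[ℝ] Om (spSt (m + 1)) := (wTL m).comp L0
  have hL : ∀ g, L g = wT (tm g (vlE _)) := fun g => rfl
  have hle : ExR (m + 1 + m) R ≤ (LinearMap.range (dO (spSt (m + 1)))).comap L := by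
    refine Submodule.span_le.2 ?_
    rintro _ ⟨i, g, hg, rfl⟩
    refine ⟨wT (fiv g (Pi.single i 1)), ?_⟩
    rw [d_wT hbox fun u hu => ev_fiv_zero (hg u hu), hL, tm_pd (by omega)]
  obtain ⟨β2, hβ2⟩ := hle hs
  refine ⟨s, β2 + β1, ?_⟩
  have e4 : dO _ β2 = L f - s • L r := by
    rw [hβ2, map_sub, map_smul]
  rw [e1, map_add, e4, hL, hL, ← e3, ← e2]
  abel

/-- **functionals on forms of top degree of the Stiefel manifold** -/
theorem St_top (hn : 2 ≤ n) (J J' : Om (spSt n) →ₗ[ℝ] ℝ) (hJ : ∀ w, J (dO _ w) = 0) (hJ' : ∀ w, J' (dO _ w) = 0)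
    {w w0 : Om (spSt n)} (hw : Deg (2 * (n - 1) + 1) w) (hw0 : Deg (2 * (n - 1) + 1) w0) : J w * J' w0 = J w0 * J' w := by
  obtain ⟨m, rfl⟩ : ∃ m, n = m + 1 := ⟨n - 1, by omega⟩
  obtain ⟨w1, h1⟩ := St_top1 (m := m) (by omega)
  have e : 2 * (m + 1 - 1) + 1 = m + 1 + m := by omega
  rw [e] at hw hw0
  obtain ⟨s, β, hs⟩ := h1 w hw
  obtain ⟨s', β', hs'⟩ := h1 w0 hw0
  rw [hs, hs']
  simp only [map_add, map_smul, hJ, hJ', smul_eq_mul, add_zero]
  ring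

end Pool.Agent.Lib.MP_ccbbf6_gt.L7
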