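import Pool.Agent.Lib.MP_ccbbf6_gt.L7.DG8
import Pool.Agent.Lib.MP_ccbbf6_gt.L7.TP4
import Pool.Agent.Lib.MP_ccbbf6_gt.L7.TT6

/-!
# Level 7, DV (helper77): the degree of closed chains of top dimension in the Stiefel manifold, as the data `DegV`
-/

set_option autoImplicit false
set_option maxSynthPendingDepth 3

noncomputable section

namespace Pool.Agent.Lib.MP_ccbbf6_gt.L7

open Geo L4 L4.FR L5

/-- **degree and value on the bump form** -/
theorem degV {n : ℕ} (hn : 2 ≤ n) : DegV n where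
  ex := ⟨DG.JVL n, DG.JVL_d, fun y hy => DG.DG_St0 hn (by omega) y hy, fun _ ν hv hU _ => DG.abs_JVL_wV hv hU ν⟩
  top J J' hJ hJ' _ _ hw hw' := by
    rw [St_top hn J J' hJ hJ' hw hw']

end Pool.Agent.Lib.MP_ccbbf6_gt.L7
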