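import Pool.Agent.Lib.MP_ccbbf6_gt.L5.EPS06

/-!
# Level 7, GC1: half great circles (helper28)

`F1 : (ξ, s) ↦ cos (π s) e + sin (π s) L ξ`, `L : R^n → e^⊥ ⊂ R^(n+1)` a linear isometry.
`JS_F1` : `JS (K F1^* w) = ± JS w`.
-/

set_option autoImplicit false
set_option maxSynthPendingDepth 3

open Set Filter Topology MeasureTheory
open scoped ContDiff RealInnerProductSpace

noncomputable section

namespace Pool.Agent.Lib.MP_ccbbf6_gt.L7

open Geo L4 L4.FR L5

variable {k l n N : ℕ}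

/-- a unit vector and an isometry to its orthogonal complement -/
structure PoleD (n : ℕ) where
  /-- the pole -/
  e : Eu (n + 1)
  /-- the isometry -/
  L : Eu n →ₗᵢ[ℝ] Eu (n + 1)
  he : ‖e‖ = 1
  ho : ∀ ξ, ⟪e, L ξ⟫ = 0

namespace PoleD

variable (D : PoleD n)

/-- the point of the great circle -/
def pt (ξ : Eu n) (a : ℝ) : Eu (n + 1) := Real.cos a • D.e + Real.sin a • D.L ξ

theorem inner_ee : ⟪D.e, D.e⟫ = 1 := by rw [real_inner_self_eq_norm_sq, D.he, one_pow]

theorem norm_pt {ξ : Eu n} (h : ‖ξ‖ = 1) (a : ℝ) : ‖D.pt ξ a‖ = 1 := by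
  have h1 : ‖D.pt ξ a‖ ^ 2 = 1 := by
    rw [← real_inner_self_eq_norm_sq]
    unfold pt
    have h2 : ⟪D.L ξ, D.L ξ⟫ = 1 := by rw [D.L.inner_map_map, real_inner_self_eq_norm_sq, h, one_pow]
    have h3 : ⟪D.L ξ, D.e⟫ = 0 := by rw [real_inner_comm]; exact D.ho ξ
    simp only [inner_add_left, inner_add_right, real_inner_smul_left, real_inner_smul_right, D.inner_ee, h2, h3, D.ho]
    nlinarith [Real.sin_sq_add_cos_sq a]
  have h2 := norm_nonneg (D.pt ξ a)
  nlinarith

theorem inner_e_pt (ξ : Eu n) (a : ℝ) : ⟪D.e, D.pt ξ a⟫ = Real.cos a := by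
  unfold pt
  rw [inner_add_right, real_inner_smul_right, real_inner_smul_right, D.inner_ee, D.ho]
  ring

theorem contDiff_pt {E : Type*} [NormedAddCommGroup E] [NormedSpace ℝ E] {g : E → Eu n} (hg : ContDiff ℝ ∞ g)
    {a : E → ℝ} (ha : ContDiff ℝ ∞ a) : ContDiff ℝ ∞ fun u => D.pt (g u) (a u) :=
  ((Real.contDiff_cos.comp ha).smul contDiff_const).add ((Real.contDiff_sin.comp ha).smul (D.L.contDiff.comp hg))

/-- great circles with speed `b` -/
def F (b : ℝ) : SMap (spS n).xR (spS (n + 1)) :=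
  ⟨fun z => ⟨D.pt z.1.1 (b * z.2), D.norm_pt z.1.2 _⟩, fun _ p =>
    D.contDiff_pt (show ContDiff ℝ ∞ _ from p.2.1) (contDiff_const.mul p.2.2)⟩

theorem F_apply (b : ℝ) (z : (spS n).xR.pt) : ((D.F b).1 z).1 = D.pt z.1.1 (b * z.2) := rfl

end PoleD

/-! ### The suspension of the collapse map -/

variable (D : PoleD (N + 1))

/-- the suspension of the collapse map -/
def Gp : (spS (N + 2)).Plot (N + 1) := (D.F Real.pi).pl (Col.P N).up

theorem Gp_apply (x : V (N + 1)) : ((Gp D).1 x).1 = D.pt (Col.s (pr N x)) (Real.pi * x (Fin.last N)) := rfl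

theorem hasFDerivAt_lastc (x : V (N + 1)) : HasFDerivAt (fun x : V (N + 1) => x (Fin.last N))
    (ContinuousLinearMap.proj (R := ℝ) (φ := fun _ : Fin (N + 1) => ℝ) (Fin.last N)) x := hasFDerivAt_apply _ _

/-- the derivative of the suspension -/
theorem fderiv_Gp (x v : V (N + 1)) : fderiv ℝ (fun x => ((Gp D).1 x).1) x v =
    v (Fin.last N) • ((-(Real.pi * Real.sin (Real.pi * x (Fin.last N)))) • D.e +
      (Real.pi * Real.cos (Real.pi * x (Fin.last N))) • D.L (Col.s (pr N x))) +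
      Real.sin (Real.pi * x (Fin.last N)) • D.L (fderiv ℝ (Col.s : V N → Eu (N + 1)) (pr N x) (pr N v)) := by
  have h1 : HasFDerivAt (fun x : V (N + 1) => Real.pi * x (Fin.last N))
      (Real.pi • (ContinuousLinearMap.proj (R := ℝ) (φ := fun _ : Fin (N + 1) => ℝ) (Fin.last N))) x :=
    (hasFDerivAt_lastc x).const_mul Real.pi
  have h2 := h1.cos
  have h3 := h1.sin
  have h4 : HasFDerivAt (fun x : V (N + 1) => D.L (Col.s (pr N x)))
      ((D.L.toContinuousLinearMap.comp (fderiv ℝ (Col.s : V N → Eu (N + 1)) (pr N x))).comp (prL N)) x :=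
    (D.L.toContinuousLinearMap.hasFDerivAt.comp (pr N x)
      ((Col.contDiff_s.differentiable (by simp)) (pr N x)).hasFDerivAt).comp x (hasFDerivAt_pr x)
  have h5 := (h2.smul_const D.e).add (h3.smul h4)
  have h6 : fderiv ℝ (fun x => ((Gp D).1 x).1) x = _ := HasFDerivAt.fderiv (f := fun x => ((Gp D).1 x).1) h5
  rw [h6]
  simp only [_root_.add_apply, ContinuousLinearMap.smulRight_apply, _root_.smul_apply, ContinuousLinearMap.comp_apply,
    ContinuousLinearMap.proj_apply, smul_eq_mul, LinearIsometry.coe_toContinuousLinearMap]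
  have h7 : prL N v = pr N v := rfl
  rw [h7]
  module

end Pool.Agent.Lib.MP_ccbbf6_gt.L7
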