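import Pool.Agent.Lib.MP_ccbbf6_gt.L7.GC1

/-!
# Level 7, GC2: the family of half great circles has degree `± 1` (helper28)
-/

set_option autoImplicit false
set_option maxSynthPendingDepth 3

open Set Filter Topology MeasureTheory
open scoped ContDiff RealInnerProductSpace

noncomputable section

namespace Pool.Agent.Lib.MP_ccbbf6_gt.L7

open Geo L4 L4.FR L5

variable {k l n N : ℕ} (D : PoleD (N + 1))

theorem rkF_Gp (hN : 2 ≤ N) (i : Fin (N + 1)) {x : V (N + 1)} (hx : x i = 0 ∨ x i = 1) :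
    rkF (fun x => ((Gp D).1 x).1) i x + 2 ≤ N + 1 := by
  have h1 : ((LinearMap.ker (LinearMap.proj i : V (N + 1) →ₗ[ℝ] ℝ)).map
      (fderiv ℝ (fun x => ((Gp D).1 x).1) x : V (N + 1) →ₗ[ℝ] Eu (N + 2))) ≤
      Submodule.span ℝ {(-(Real.pi * Real.sin (Real.pi * x (Fin.last N)))) • D.e +
        (Real.pi * Real.cos (Real.pi * x (Fin.last N))) • D.L (Col.s (pr N x))} := by
    rintro _ ⟨v, hv, rfl⟩
    have hv' : v i = 0 := hv
    change fderiv ℝ (fun x => ((Gp D).1 x).1) x v ∈ _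
    rw [fderiv_Gp]
    refine Submodule.add_mem _ (Submodule.smul_mem _ _ (Submodule.mem_span_singleton_self _)) ?_
    have h2 : Real.sin (Real.pi * x (Fin.last N)) • D.L (fderiv ℝ (Col.s : V N → Eu (N + 1)) (pr N x) (pr N v)) = 0 := by
      induction i using Fin.lastCases with
      | last =>
        have h3 : Real.sin (Real.pi * x (Fin.last N)) = 0 := by
          rcases hx with h | h <;> rw [h] <;> simp
        rw [h3, zero_smul]
      | cast i =>
        have h3 : fderiv ℝ (Col.s : V N → Eu (N + 1)) (pr N x) (pr N v) = 0 :=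
          Col.fderiv_s_face (i := i) (y := pr N x) hx (v := pr N v) hv'
        rw [h3, map_zero, smul_zero]
    rw [h2]
    exact Submodule.zero_mem _
  have h2 : rkF (fun x => ((Gp D).1 x).1) i x ≤ 1 := by
    refine (Submodule.finrank_mono h1).trans ((finrank_span_le_card (R := ℝ) (_ : Set (Eu (N + 2)))).trans ?_)
    simp
  omega

/-- the regular value -/
def yy0 : V (N + 2) := toV (D.L (toE (Col.y0 N)))

/-- its preimage -/
def xx0 (N : ℕ) : V (N + 2) := Fin.snoc (Fin.snoc (Col.ct N) (1 / 2)) 1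

theorem norm_Ly0 : ‖D.L (toE (Col.y0 N))‖ = 1 := by
  rw [D.L.norm_map, ← Col.s_ct, Col.norm_s]

theorem Hc_Gp (x : V (N + 2)) : toE (Hc (plVE (Gp D)) x) =
    x (Fin.last (N + 1)) • D.pt (Col.s (pr N (pr (N + 1) x))) (Real.pi * (pr (N + 1) x) (Fin.last N)) := rfl

theorem pre_yy0 {x : V (N + 2)} (hx : x ∈ Zc (N + 1)) (h : Hc (plVE (Gp D)) x = yy0 D) : x = xx0 N := by
  have h0 : x (Fin.last (N + 1)) • D.pt (Col.s (pr N (pr (N + 1) x))) (Real.pi * (pr (N + 1) x) (Fin.last N)) =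
      D.L (toE (Col.y0 N)) := by
    rw [← Hc_Gp, h]
    rfl
  have h1 : x (Fin.last (N + 1)) = 1 := by
    have h2 := congrArg norm h0
    rw [norm_smul, D.norm_pt (Col.norm_s _), mul_one, norm_Ly0, Real.norm_eq_abs, abs_of_nonneg hx.2] at h2
    exact h2
  rw [h1, one_smul] at h0
  have hs : (pr (N + 1) x) (Fin.last N) = 1 / 2 := by
    have h2 := congrArg (fun y => ⟪D.e, y⟫) h0
    simp only [D.inner_e_pt, D.ho] at h2
    have h3 : (pr (N + 1) x) (Fin.last N) ∈ Icc (0 : ℝ) 1 := ⟨hx.1.1 _, hx.1.2 _⟩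
    have hπ := Real.pi_pos
    have h4 : Real.cos (Real.pi * (pr (N + 1) x) (Fin.last N)) = Real.cos (Real.pi / 2) := by
      rw [h2, Real.cos_pi_div_two]
    have h5 := Real.injOn_cos (x₁ := Real.pi * (pr (N + 1) x) (Fin.last N)) (x₂ := Real.pi / 2)
      ⟨mul_nonneg hπ.le h3.1, by nlinarith [h3.2]⟩ ⟨by positivity, by linarith⟩ h4
    have h6 : Real.pi * (pr (N + 1) x) (Fin.last N) = Real.pi * (1 / 2) := by rw [h5]; ring
    exact mul_left_cancel₀ hπ.ne' h6
  have hc : Col.s (pr N (pr (N + 1) x)) = toE (Col.y0 N) := by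
    rw [hs] at h0
    unfold PoleD.pt at h0
    rw [show Real.pi * (1 / 2) = Real.pi / 2 by ring, Real.cos_pi_div_two, Real.sin_pi_div_two, zero_smul, zero_add,
      one_smul] at h0
    exact D.L.injective h0
  have hct : pr N (pr (N + 1) x) = Col.ct N := by
    have hm : (Fin.snoc (pr N (pr (N + 1) x)) 1 : V (N + 1)) ∈ Zc N := by
      refine ⟨?_, ?_⟩
      · rw [pr_snoc]
        exact ⟨fun i => hx.1.1 _, fun i => hx.1.2 _⟩
      · rw [Fin.snoc_last]
        exact zero_le_one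
    have h2 := Col.pre_y0 hm (by
      rw [Hc_apply, Fin.snoc_last, pr_snoc, one_smul, plVE_apply]
      change toV (Col.s (pr N (pr (N + 1) x))) = _
      rw [hc]
      rfl)
    have h3 := congrArg (fun y : V (N + 1) => pr N y) h2
    simp only [Col.x0, pr_snoc] at h3
    exact h3
  unfold xx0
  rw [← snoc_pr x, ← snoc_pr (pr (N + 1) x), hct, hs, h1]

theorem xx0_last : (xx0 N) (Fin.last (N + 1)) = 1 := Fin.snoc_last _ _
theorem pr_xx0 : pr (N + 1) (xx0 N) = Fin.snoc (Col.ct N) (1 / 2) := pr_snoc _ _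

theorem pt_half (ξ : Eu (N + 1)) : D.pt ξ (Real.pi * (1 / 2)) = D.L ξ := by
  unfold PoleD.pt
  rw [show Real.pi * (1 / 2) = Real.pi / 2 by ring, Real.cos_pi_div_two, Real.sin_pi_div_two, zero_smul, zero_add,
    one_smul]

theorem Hc_xx0 : Hc (plVE (Gp D)) (xx0 N) = yy0 D := by
  rw [Hc_apply, xx0_last, pr_xx0, one_smul, plVE_apply, Gp_apply, Fin.snoc_last, pr_snoc, pt_half, Col.s_ct]
  rfl

theorem xx0_mem : xx0 N ∈ interior (Zc (N + 1)) := by
  refine mem_interior_Zc (fun i => ?_) ?_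
  · unfold xx0
    rw [Fin.snoc_castSucc]
    induction i using Fin.lastCases with
    | last =>
      rw [Fin.snoc_last]
      constructor <;> norm_num
    | cast i =>
      rw [Fin.snoc_castSucc]
      unfold Col.ct
      constructor <;> norm_num
  · rw [xx0_last]
    exact one_pos

theorem det_xx0 : (fderiv ℝ (Hc (plVE (Gp D)) : V (N + 2) → V (N + 2)) (xx0 N)).det ≠ 0 := by
  intro h0
  have h1 := LinearMap.bot_lt_ker_of_det_eq_zero h0
  obtain ⟨v, hv, hne⟩ := (Submodule.ne_bot_iff _).1 h1.ne'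
  rw [LinearMap.mem_ker] at hv
  have hv' : fderiv ℝ (Hc (plVE (Gp D)) : V (N + 2) → V (N + 2)) (xx0 N) v = 0 := hv
  rw [fderiv_Hc, xx0_last, one_smul, fderiv_plV, pr_xx0] at hv'
  -- in `Eu (N + 2)`
  have hv2 : fderiv ℝ (fun x => ((Gp D).1 x).1) (Fin.snoc (Col.ct N) (1 / 2) : V (N + 1)) (pr (N + 1) v) +
      v (Fin.last (N + 1)) • D.L (toE (Col.y0 N)) = 0 := by
    have h2 := congrArg toE hv'
    have h3 : toE (plVE (Gp D) (Fin.snoc (Col.ct N) (1 / 2))) = D.L (toE (Col.y0 N)) := by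
      rw [plVE_apply, Gp_apply, Fin.snoc_last, pr_snoc, pt_half, Col.s_ct]
      rfl
    rw [← h3]
    exact h2
  rw [fderiv_Gp, Fin.snoc_last, pr_snoc, show Real.pi * (1 / 2) = Real.pi / 2 by ring, Real.cos_pi_div_two,
    Real.sin_pi_div_two, mul_zero, zero_smul, add_zero, mul_one, one_smul] at hv2
  -- the component of `e`
  have hvs : (pr (N + 1) v) (Fin.last N) = 0 := by
    have h2 := congrArg (fun y => ⟪D.e, y⟫) hv2
    simp only [inner_add_right, real_inner_smul_right, D.ho, D.inner_ee, mul_zero, add_zero, mul_one, inner_zero_right] at h2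
    have hπ := Real.pi_pos.ne'
    have h3 : (pr (N + 1) v) (Fin.last N) * Real.pi = 0 := by linarith
    exact (mul_eq_zero.1 h3).resolve_right hπ
  rw [hvs, zero_smul, zero_add, ← map_smul, ← map_add] at hv2
  have hv3 : fderiv ℝ (Col.s : V N → Eu (N + 1)) (Col.ct N) (pr N (pr (N + 1) v)) +
      v (Fin.last (N + 1)) • toE (Col.y0 N) = 0 := by
    have h2 := D.L.injective (hv2.trans (map_zero D.L).symm)
    exact h2
  -- the derivative of the cone over the collapse map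
  have hz : fderiv ℝ (Hc (plVE (Col.P N)) : V (N + 1) → V (N + 1)) (Col.x0 N)
      (Fin.snoc (pr N (pr (N + 1) v)) (v (Fin.last (N + 1)))) = 0 := by
    have e1 : (Col.x0 N) (Fin.last N) = 1 := Fin.snoc_last _ _
    have e2 : pr N (Col.x0 N) = Col.ct N := pr_snoc _ _
    rw [fderiv_Hc, e1, e2, one_smul, fderiv_plV, pr_snoc, Fin.snoc_last]
    have e3 : plVE (Col.P N) (Col.ct N) = Col.y0 N := by
      rw [plVE_apply]
      change toV (Col.s (Col.ct N)) = _
      rw [Col.s_ct]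
      rfl
    rw [e3]
    have h2 := congrArg toV hv3
    exact h2
  have hzero : (Fin.snoc (pr N (pr (N + 1) v)) (v (Fin.last (N + 1))) : V (N + 1)) = 0 := by
    have hd := Col.det_x0 (N := N)
    have hinj := ((fderiv ℝ (Hc (plVE (Col.P N)) : V (N + 1) → V (N + 1)) (Col.x0 N)).toContinuousLinearEquivOfDetNeZero
      hd).injective
    exact hinj (hz.trans (map_zero _).symm)
  apply hne
  have e4 : pr N (pr (N + 1) v) = 0 := by
    have h2 := congrArg (fun y : V (N + 1) => pr N y) hzero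
    simp only [pr_snoc] at h2
    exact h2
  have e5 : v (Fin.last (N + 1)) = 0 := by
    have h2 := congrFun hzero (Fin.last N)
    rw [Fin.snoc_last] at h2
    exact h2
  rw [← snoc_pr v, ← snoc_pr (pr (N + 1) v), e4, e5, hvs]
  funext j
  refine Fin.lastCases ?_ (fun i => ?_) j
  · rw [Fin.snoc_last]; rfl
  · rw [Fin.snoc_castSucc]
    refine Fin.lastCases ?_ (fun i => ?_) i
    · rw [Fin.snoc_last]; rfl
    · rw [Fin.snoc_castSucc]; rfl

/-- the degree of the suspension of the collapse map -/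
theorem cI_Gp (hN : 2 ≤ N) : ∃ σ : ℤ, (σ = 1 ∨ σ = -1) ∧ ∀ w : Om (spS (N + 2)),
    cI (N + 1) (Om.on w (Gp D)) = σ * JS w := by
  obtain ⟨Q, hQ, hQ2⟩ := deg_cube_reg (G := plVE (Gp D)) (by omega) (plVE_ne (Gp D))
    (fun i x _ hx => by rw [rkF_plV]; exact rkF_Gp D hN i hx) (y₀ := yy0 D)
    (by
      rintro ⟨x, hx, hx2⟩
      have := pre_yy0 D hx.1 hx2
      rw [this] at hx
      exact hx.2 xx0_mem)
    (fun x hx hx2 => by rw [pre_yy0 D hx hx2]; exact det_xx0 D)
  have h1 : Q = {xx0 N} := by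
    ext x
    rw [hQ, Finset.mem_singleton]
    constructor
    · rintro ⟨h1, h2⟩
      exact pre_yy0 D h1 h2
    · rintro rfl
      exact ⟨interior_subset xx0_mem, Hc_xx0 D⟩
  rw [h1] at hQ2
  refine ⟨_, ?_, fun w => cI_of_deg hQ2 w⟩
  rw [Finset.sum_singleton]
  rcases neg_one_pow_eq_or ℤ (N + 1) with h | h <;> rw [h] <;> split_ifs <;> simp

/-- **half great circles** -/
theorem JS_F1 (hN : 2 ≤ N) : ∃ t : ℝ, (t = 1 ∨ t = -1) ∧ ∀ w : Om (spS (N + 2)),
    JS (KO (spS (N + 1)) ((D.F Real.pi).pull w)) = t * JS w := by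
  obtain ⟨σ, hσ, h1⟩ := cI_Gp D hN
  obtain ⟨τ, hτ, h2⟩ := Col.cI_P hN
  refine ⟨τ * (-1) ^ N * σ, ?_, fun w => ?_⟩
  · rcases hσ with h | h <;> rcases hτ with h' | h' <;> rcases neg_one_pow_eq_or ℝ N with h3 | h3 <;>
      rw [h, h', h3] <;> norm_num
  · have h3 := h2 (KO (spS (N + 1)) ((D.F Real.pi).pull w))
    have h4 : cI (N + 1) (Om.on w (Gp D)) = (-1) ^ N * cI N (Om.on (KO (spS (N + 1)) ((D.F Real.pi).pull w)) (Col.P N)) := by
      rw [cI_KK]
      rfl
    rw [h1] at h4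
    rw [h3] at h4
    have h5 : ((τ : ℝ) * τ) = 1 := by rcases hτ with h | h <;> rw [h] <;> norm_num
    have h6 : ((-1 : ℝ) ^ N * (-1) ^ N) = 1 := by rw [← mul_pow]; norm_num
    calc JS (KO (spS (N + 1)) ((D.F Real.pi).pull w)) =
        (τ * τ) * ((-1 : ℝ) ^ N * (-1) ^ N) * JS (KO (spS (N + 1)) ((D.F Real.pi).pull w)) := by rw [h5, h6]; ring
      _ = τ * (-1) ^ N * ((-1) ^ N * (τ * JS (KO (spS (N + 1)) ((D.F Real.pi).pull w)))) := by ring
      _ = _ := by rw [← h4]; ring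

end Pool.Agent.Lib.MP_ccbbf6_gt.L7
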