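import Pool.Agent.Lib.MP_ccbbf6_gt.L4.FRd
import Pool.Agent.Lib.MP_ccbbf6_gt.L4.FXa

/-!
# Level 7, KS: path integrals `KO`, change of time, splitting (copy of the first part of K7/KT of helper25, without its imports)

* `Rph X φ` : `(x, s) ↦ (x, φ s)`; `Jt X a θ = ∫_0^a`; `K_time : KO (Rph^* θ) = Jt (φ 1) θ - Jt (φ 0) θ`.
* `K_split`.
-/

set_option autoImplicit false
set_option maxSynthPendingDepth 3

open Set Filter Topology MeasureTheory
open scoped TensorProduct ContDiff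

noncomputable section

namespace Pool.Agent.Lib.MP_ccbbf6_gt.L7.KS

open L4 L4.FR

variable {X Y Z M : Space} {k l n : ℕ} {i j : ℕ}

/-- `(z, s) ↦ (z, φ s)` -/
def rp (k : ℕ) {φ : ℝ → ℝ} (hφ : ContDiff ℝ ∞ φ) : FR.Sm (k + 1) (k + 1) :=
  ⟨fun z => Fin.snoc (pr k z) (φ (z (Fin.last k))),
    contDiff_snoc.comp ((pr k).smooth.prodMk (hφ.comp (contDiff_apply ℝ ℝ (Fin.last k))))⟩

variable {φ : ℝ → ℝ} (hφ : ContDiff ℝ ∞ φ)

theorem rp_sl (s : ℝ) : (rp k hφ).comp (sl k s) = sl k (φ s) := by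
  refine FR.Sm.ext fun x => ?_
  change (Fin.snoc (pr k (Fin.snoc x s)) (φ ((Fin.snoc x s : V (k + 1)) (Fin.last k))) : V (k + 1)) =
    Fin.snoc x (φ s)
  rw [pr_snoc, Fin.snoc_last]

theorem cp_rp_castSucc (i : Fin k) : (rp k hφ).cp i.castSucc = co i.castSucc := by
  apply Cs_ext
  intro z
  exact Fin.snoc_castSucc (α := fun _ => ℝ) _ _ i

/-- `φ ∘ last` -/
def phl (k : ℕ) (hφ : ContDiff ℝ ∞ φ) : Cs (k + 1) :=
  mkC (fun z => φ (z (Fin.last k))) (hφ.comp (contDiff_apply ℝ ℝ (Fin.last k)))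

theorem cp_rp_last : (rp k hφ).cp (Fin.last k) = phl k hφ := by
  apply Cs_ext
  intro z
  exact Fin.snoc_last (α := fun _ => ℝ) _ _

include hφ in
theorem contDiff_deriv' : ContDiff ℝ ∞ (deriv φ) := by
  have h := (contDiff_infty_iff_deriv.1 hφ).2
  exact h

/-- `φ' ∘ last` -/
def dphl (k : ℕ) (hφ : ContDiff ℝ ∞ φ) : Cs (k + 1) := phl k (contDiff_deriv' hφ)

theorem pd_phl_last : pd (Fin.last k) (phl k hφ) = dphl k hφ := by
  apply Cs_ext
  intro z
  change fderiv ℝ (fun y : V (k + 1) => φ (y (Fin.last k))) z (Pi.single (Fin.last k) 1) = deriv φ (z (Fin.last k))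
  have h1 : HasDerivAt φ (deriv φ (z (Fin.last k))) (z (Fin.last k)) :=
    (hφ.differentiable (by simp)).differentiableAt.hasDerivAt
  have h2 : HasFDerivAt (fun y : V (k + 1) => y (Fin.last k))
      (ContinuousLinearMap.proj (R := ℝ) (φ := fun _ : Fin (k + 1) => ℝ) (Fin.last k)) z := hasFDerivAt_apply _ _
  have h3 := h1.comp_hasFDerivAt (f := fun y : V (k + 1) => y (Fin.last k)) z h2
  have h4 : fderiv ℝ (fun y : V (k + 1) => φ (y (Fin.last k))) z =
      deriv φ (z (Fin.last k)) • (ContinuousLinearMap.proj (R := ℝ) (φ := fun _ : Fin (k + 1) => ℝ) (Fin.last k)) := h3.fderiv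
  rw [h4]
  change deriv φ (z (Fin.last k)) * (Pi.single (Fin.last k) 1 : V (k + 1)) (Fin.last k) = _
  rw [Pi.single_eq_same, mul_one]

theorem cs_pb_dx_last : cs k (pb (rp k hφ) (dx (Fin.last k))) = fc (k + 1) (dphl k hφ) := by
  rw [pb_dx, cp_rp_last, dd_fc, map_sum, Finset.sum_eq_single (Fin.last k)]
  · rw [cs, cn_mul, cn_fc, zero_mul, zero_add, sg_fc, cn_dx, lst_apply, Pi.single_eq_same, map_one, mul_one, pd_phl_last]
  · intro i _ hi
    rw [cs, cn_mul, cn_fc, zero_mul, zero_add, sg_fc, cn_dx, lst_apply, Pi.single_eq_of_ne hi.symm, map_zero, mul_zero]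
  · intro h
    exact absurd (Finset.mem_univ _) h

theorem mul_left_comm_fc {m : ℕ} (x y : Fm m) (f : Cs m) : x * (fc m f * y) = fc m f * (x * y) := by
  rw [← mul_assoc, ← mul_assoc, fc_comm]

theorem cs_rp (x : Fm (k + 1)) : cs k (pb (rp k hφ) x) = fc (k + 1) (dphl k hφ) * pb (rp k hφ) (cs k x) := by
  induction x using Fm_ind with
  | hf f => rw [pb_fc, cs, cn_fc, cn_fc, map_zero, mul_zero]
  | hd j =>
    refine Fin.lastCases ?_ (fun i => ?_) j
    · rw [cs_pb_dx_last, cs, cn_dx, lst_apply, Pi.single_eq_same, AlgHom.commutes, map_one, mul_one]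
    · rw [pb_dx, cp_rp_castSucc, fc_pd_co, cs, cn_dx, lst_apply,
        Pi.single_eq_of_ne (Fin.castSucc_lt_last i).ne', map_zero, map_zero, mul_zero]
  | hm x y hx hy =>
    rw [cs] at hx hy
    rw [map_mul, cs, cn_mul, cn_mul, map_add, map_mul, map_mul, hx, hy, ← pb_sg, mul_add, mul_assoc,
      mul_left_comm_fc]
  | ha x y hx hy => rw [map_add, map_add, hx, hy, map_add, map_add, mul_add]

/-- the integral over a reparametrised segment -/
theorem KK_rp (x : Fm (k + 1)) (f : Ex k →ₗ[ℝ] ℝ) (z : V k) :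
    f (ev z (KK k (pb (rp k hφ) x))) = ∫ s in (φ 0)..(φ 1), f (ev z (pb (sl k s) (cs k x))) := by
  obtain ⟨g, hg⟩ : ∃ g : ℝ → ℝ, g = fun s => f (ev z (pb (sl k s) (cs k x))) := ⟨_, rfl⟩
  have hc : Continuous g := by rw [hg]; exact cont_ev f z _
  have h1 : ∀ s, f (ev z (pb (sl k s) (cs k x))) = g s := fun s => by rw [hg]
  have h2 : ∀ s, f (ev z (pb (sl k s) (fc (k + 1) (dphl k hφ) * pb (rp k hφ) (cs k x)))) = g (φ s) * deriv φ s := fun s => by
    rw [map_mul, ← pb_comp (rp k hφ), rp_sl, map_mul, pb_fc, ev_fc, ← Algebra.smul_def, map_smul, smul_eq_mul, h1, mul_comm]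
    congr 1
    change deriv φ ((Fin.snoc z s : V (k + 1)) (Fin.last k)) = deriv φ s
    rw [Fin.snoc_last]
  rw [KK_apply, cs_rp, ev_Q0]
  simp only [h1, h2]
  exact intervalIntegral.integral_comp_mul_deriv (fun s _ => (hφ.differentiable (by simp)).differentiableAt.hasDerivAt)
    (contDiff_deriv' hφ).continuous.continuousOn hc

/-- `(x, s) ↦ (x, φ s)` -/
def Rph (X : Space) {φ : ℝ → ℝ} (hφ : ContDiff ℝ ∞ φ) : SMap X.xR X.xR := ⟨fun z => (z.1, φ z.2), fun _ p => ⟨p.2.1, hφ.comp p.2.2⟩⟩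

theorem Rph_up (p : X.Plot k) : (Rph X hφ).pl p.up = p.up.cmp (rp k hφ) :=
  Plot_ext fun z => by
    change (p.1 (pr k z), φ (z (Fin.last k))) = (p.1 (pr k (Fin.snoc (pr k z) (φ (z (Fin.last k))))),
      (Fin.snoc (pr k z) (φ (z (Fin.last k))) : V (k + 1)) (Fin.last k))
    rw [pr_snoc, Fin.snoc_last]

theorem contDiff_mulc (a : ℝ) : ContDiff ℝ ∞ fun r : ℝ => r * a := contDiff_id.mul contDiff_const

/-- the integral over `[0, a]` -/
def Jt (X : Space) (a : ℝ) (θ : Om X.xR) : Om X := KO X ((Rph X (contDiff_mulc a)).pull θ)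

/-- **change of time** -/
theorem K_time (θ : Om X.xR) : KO X ((Rph X hφ).pull θ) = Jt X (φ 1) θ - Jt X (φ 0) θ :=
  Om_ext fun k p => by
    rw [← sub_eq_zero]
    refine ev_fun_inj fun f z => ?_
    obtain ⟨g, hg⟩ : ∃ g : ℝ → ℝ, g = fun s => f (ev z (pb (sl k s) (cs k (Om.on θ p.up)))) := ⟨_, rfl⟩
    have hc : Continuous g := by rw [hg]; exact cont_ev f z _
    have h1 : ∀ {φ : ℝ → ℝ} (hφ : ContDiff ℝ ∞ φ), f (ev z (KK k (Om.on ((Rph X hφ).pull θ) p.up))) =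
        ∫ s in (φ 0)..(φ 1), g s := fun hφ => by
      rw [on_pull, Rph_up, on_cmp, KK_rp, hg]
    unfold Jt
    rw [on_sub, map_sub, map_sub, map_sub, map_sub, on_K, on_K, on_K, h1 hφ, h1 (contDiff_mulc _), h1 (contDiff_mulc _)]
    rw [zero_mul, one_mul, zero_mul, one_mul, sub_eq_zero, intervalIntegral.integral_interval_sub_left
      (hc.intervalIntegrable _ _) (hc.intervalIntegrable _ _)]

theorem Jt_one (θ : Om X.xR) : Jt X 1 θ = KO X θ := by
  unfold Jt
  have e : Rph X (contDiff_mulc 1) = SMap.id X.xR := SMap_ext fun z => Prod.ext rfl (mul_one _)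
  rw [e, pull_id]

theorem Jt_zero (θ : Om X.xR) : Jt X 0 θ = 0 := by
  unfold Jt
  have e : Rph X (contDiff_mulc 0) = (jO X 0).comp (pO X) := SMap_ext fun z => Prod.ext rfl (mul_zero _)
  rw [e, pull_comp, K_p]

/-- **splitting at `1/2`** -/
theorem K_split (θ : Om X.xR) : KO X θ = KO X ((Rph X (contDiff_mulc (1 / 2))).pull θ) +
    KO X ((Rph X (φ := fun s => 1 / 2 + s * (1 / 2)) (contDiff_const.add (contDiff_mulc _))).pull θ) := by
  have h : (1 / 2 + 1 * (1 / 2) : ℝ) = 1 := by norm_num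
  have h0 : (1 / 2 + 0 * (1 / 2) : ℝ) = 1 / 2 := by norm_num
  rw [K_time, K_time, h, h0, one_mul, zero_mul, Jt_zero, sub_zero, Jt_one]
  abel

end Pool.Agent.Lib.MP_ccbbf6_gt.L7.KS
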