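import Pool.Agent.Lib.MP_ccbbf6_gt.L5.DGP
import Pool.Agent.Lib.MP_ccbbf6_gt.L5.EPS08
import Pool.Agent.Lib.MP_ccbbf6_gt.L7.ST0

/-!
# Level 7, RC: the recursion (helper79)

* `Cov V G δ` : a cover `P : V → G` with transfer `tr`, `tr d = d tr`, `tr P^* = δ`, and lifts of cubes as chains;
* `Cov.lf` : the lift of a chain; `Bd_down` : if `N (lf y)` bounds, then `N δ y` bounds;
* `rec_step`, `rec_even`, `rec_odd` : from a point to a closed chain `Z` of dimension `2 n - 1` with
  `Z (η (d η)^(n-1)) = 2 δ^(n-1)`.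
-/

set_option autoImplicit false
set_option maxSynthPendingDepth 3

noncomputable section

namespace Pool.Agent.Lib.MP_ccbbf6_gt.L7

open L4 L4.FR L5

/-! ### only the part of degree `k` matters -/

section deg

variable {X : Space} {k : ℕ}

theorem topE_of_ne {i : ℕ} {a : Ex k} (ha : a ∈ ⋀[ℝ]^i (V k)) (hi : i ≠ k) : topE k a = 0 := by
  rw [← ExteriorAlgebra.ιMulti_span_fixedDegree] at ha
  induction ha using Submodule.span_induction with
  | mem x hx =>
    obtain ⟨v, rfl⟩ := hx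
    exact topE_ιMulti_ne hi v
  | zero => rw [map_zero]
  | add x y _ _ hx hy => rw [map_add, hx, hy, add_zero]
  | smul r x _ hx => rw [map_smul, hx, smul_zero]

theorem topE_dpE (k : ℕ) (a : Ex k) : topE k (dpE k k a) = topE k a := by
  conv_rhs => rw [← dpE_sum a, map_sum]
  rw [Finset.sum_eq_single k]
  · intro j _ hj
    exact topE_of_ne (dpE_mem j a) hj
  · intro h
    exact absurd (Finset.mem_range.2 (Nat.lt_succ_self k)) h

theorem ch_dp (y : Ch X k) (w : Om X) : ch y (dpO X k w) = ch y w := by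
  refine ch_congr fun p _ => ?_
  unfold cI
  simp only [on_dp, ev_dpF, topE_dpE]

end deg

/-! ### the cover -/

/-- a cover with transfer -/
structure Cov (V G : Space) (δ : ℕ) where
  /-- the projection -/
  P : SMap V G
  /-- the transfer -/
  tr : Om V →ₗ[ℝ] Om G
  tr_d : ∀ w, tr (dO V w) = dO G (tr w)
  tr_P : ∀ w, tr (P.pull w) = (δ : ℝ) • w
  lft : ∀ {k : ℕ} (p : G.Plot k), ∃ y : Ch V k, ∀ w, ch y w = cI k (Om.on (tr w) p)

namespace Cov

variable {V G : Space} {δ : ℕ} (D : Cov V G δ) {k : ℕ}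

/-- the lift of a chain -/
def lf (y : Ch G k) : Ch V k := y.sum fun p m => m • (D.lft p).choose

theorem ch_lf (y : Ch G k) (w : Om V) : ch (D.lf y) w = ch y (D.tr w) := by
  rw [ch_eq_sum y]
  unfold lf Finsupp.sum
  rw [← chH_apply, map_sum, LinearMap.sum_apply]
  refine Finset.sum_congr rfl fun p _ => ?_
  rw [chH_apply, ch_zsmul, LinearMap.smul_apply, (D.lft p).choose_spec w, smul_eq_mul]

theorem Cl_lf {y : Ch G k} (h : Cl y) : Cl (D.lf y) := fun w => by rw [D.ch_lf, D.tr_d, h]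

theorem lf_P (y : Ch G k) (w : Om G) : ch (push D.P (D.lf y)) w = δ * ch y w := by
  rw [ch_push, D.ch_lf, D.tr_P, map_smul, smul_eq_mul]

/-- a filling of the lift gives a filling below -/
theorem Bd_down {N : ℤ} {y : Ch G k} (h : Bd N (D.lf y)) : Bd (N * δ) y :=
  (h.push D.P).congr fun w => by
    rw [D.lf_P]
    push_cast
    ring

end Cov

/-! ### the contraction of the average -/

section kap

variable {G : Space} (c : Circ G)

theorem kap_eq_Ai (θ : Om G) : kap c θ = AO c (iO c θ) := Om_ext fun k p => by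
  rw [kap_apply, on_K, on_pull, on_A, on_i, op_op, on_cmp, cs_sh, ← pb_comp, sh_sl, ts_zero, pb_id]
  rfl

variable {η : Om G} (hi : iO c η = 1)

include hi in
theorem kap_eta : kap c η = 1 := by rw [kap_eq_Ai, hi, A_one]

variable (hb : Bas c (dO G η)) (hd : Deg 1 η)

include hi hb hd in
theorem kap_eta_pow (k : ℕ) : kap c (η * dO G η ^ k) = dO G η ^ k := by
  have hs : sO G (dO G η ^ k) = dO G η ^ k := by
    rw [map_pow, Deg_even (j := 1) (Deg_d hd)]
  rw [kap_mul' c (Bas_pow c hb k) hs, kap_eta c hi, one_mul]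

omit c in
theorem d_eta_pow {η : Om G} (k : ℕ) : dO G (η * dO G η ^ k) = dO G η ^ (k + 1) := by
  have h0 : ∀ k : ℕ, dO G (dO G η ^ k) = 0 := by
    intro k
    induction k with
    | zero => rw [pow_zero, d_one]
    | succ k ih => rw [pow_succ, d_mul, ih, zero_mul, zero_add, d_d, mul_zero]
  rw [d_mul, h0, mul_zero, add_zero, ← pow_succ']

include hi hb hd in
/-- **one step of the recursion** -/
theorem rec_step {k : ℕ} {N : ℤ} (W : Ch G (2 * k)) (h : Bd N (circ c W)) :
    ∃ W' : Ch G (2 * (k + 1)), (∀ w, ch W' (kap c (dO G w)) = 0) ∧ ch W' (dO G η ^ (k + 1)) = N * ch W (dO G η ^ k) := by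
  obtain ⟨z, hz⟩ := h
  refine ⟨z, circ_closed_of c hz, ?_⟩
  have h1 : ch z (dO G η ^ (k + 1)) = N * ch (circ c W) (η * dO G η ^ k) := by
    rw [← hz, d_eta_pow]
  have h2 : ch (circ c W) (η * dO G η ^ k) = ch W (dO G η ^ k) := by
    rw [ch_circ, kap_eta_pow c hi hb hd, pow_mul, neg_one_sq, one_pow, one_mul]
  rw [← h2]
  exact h1

include hi hb hd in
/-- the end of the recursion -/
theorem rec_end {k : ℕ} (W : Ch G (2 * k)) (hc : ∀ w, ch W (kap c (dO G w)) = 0) :
    ∃ Z : Ch G (2 * k + 1), Cl Z ∧ ch Z (η * dO G η ^ k) = ch W (dO G η ^ k) :=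
  ⟨circ c W, Cl_circ c hc, by
    rw [ch_circ, kap_eta_pow c hi hb hd, pow_mul, neg_one_sq, one_pow, one_mul]⟩

end kap

/-! ### the recursion -/

section rec

variable {V G : Space} {δ n : ℕ} (D : Cov V G δ) (c : Circ G) {η : Om G} (hi : iO c η = 1) (hb : Bas c (dO G η))
  (hd : Deg 1 η)

/-- the state of the recursion -/
def St (c : Circ G) (η : Om G) (k : ℕ) (m : ℝ) : Prop :=
  ∃ W : Ch G (2 * k), (∀ w, ch W (kap c (dO G w)) = 0) ∧ ch W (dO G η ^ k) = m

/-- the beginning: a point -/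
theorem St_zero (p : G.Plot 0) : St c η 0 1 := by
  refine ⟨Finsupp.single p 1, fun w => ?_, ?_⟩
  · rw [kap_d, map_neg, ch_single, Int.cast_one, one_smul, cIL_apply, on_d]
    have h : dd 0 (Om.on (kap c w) p) = 0 := by
      unfold dd
      rw [Finset.univ_eq_empty, Finset.sum_empty, LinearMap.zero_apply]
    rw [h, cI_zero, neg_zero]
  · rw [pow_zero, ch_single, Int.cast_one, one_smul, cIL_apply, on_one, ← map_one (algebraMap ℝ (Fm 0)),
      cI_zero_algebraMap]

/-- the filling theorems in the Stiefel manifold and the degree on the sphere -/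
structure FillD (n : ℕ) : Prop where
  gen : ∀ {j : ℕ} (y : Ch (spSt n) j), Cl y → 1 ≤ j → (j + 1 < n ∨ (n < j ∧ j + 2 ≤ 2 * n)) → Bd 1 y
  even : Even n → ∀ {j : ℕ} (y : Ch (spSt n) j), j + 1 = n → Cl y → Bd 2 y
  odd : Odd n → ∀ {j : ℕ} (y : Ch (spSt n) j), j = n → Cl y → (∀ t, ch y ((stX n).pull t) = 0) → Bd 1 y
  deg : ∀ {j : ℕ} (y : Ch (spS (n + 1)) j), j = n → Cl y → ∃ m : ℤ, ∀ w, ch y w = m * JS w

/-- the great circles (for odd `n`) -/
structure LamD (n : ℕ) {G : Space} {δ : ℕ} (D : Cov (spSt n) G δ) (c : Circ G) (η : Om G) (h : ℕ) (Λ : Ch G (2 * h)) :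
    Prop where
  cl : Cl Λ
  zero : ch Λ (dO G η ^ h) = 0
  deg : ∃ t : ℤ, t ^ 2 = 1 ∧ ∀ θ : Om (spS (n + 1)), ch (circ c Λ) (D.tr ((stX n).pull θ)) = 2 * t * JS θ

/-- the factor -/
def fac (n k : ℕ) : ℤ := if (n + 1) / 2 ≤ k then 2 else 1

include hi hb hd in
/-- **the recursion** -/
theorem St_all (D : Cov (spSt n) G δ) (hn : 2 ≤ n) (p : G.Plot 0) (F : FillD n)
    (hL : Odd n → ∃ (h : ℕ) (_ : n = 2 * h + 1) (Λ : Ch G (2 * h)), LamD n D c η h Λ) :
    ∀ k : ℕ, k ≤ n - 1 → St c η k ((δ : ℤ) ^ k * fac n k : ℤ) := by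
  intro k
  induction k with
  | zero =>
    intro _
    have h1 : ((δ : ℤ) ^ 0 * fac n 0 : ℤ) = 1 := by
      rw [pow_zero, one_mul]
      unfold fac
      rw [if_neg (by omega)]
    rw [h1, Int.cast_one]
    exact St_zero c p
  | succ k ih =>
    intro hk
    obtain ⟨W, hW, hWe⟩ := ih (by omega)
    have hcl : ∀ W : Ch G (2 * k), (∀ w, ch W (kap c (dO G w)) = 0) → Cl (circ c W) := fun W hW => Cl_circ c hW
    -- the generic step
    have gen : ∀ (N : ℤ) (W : Ch G (2 * k)), Bd N (D.lf (circ c W)) → (m : ℤ) → ch W (dO G η ^ k) = m →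
        St c η (k + 1) ((N * δ * m : ℤ) : ℝ) := by
      intro N W hbd m hm
      obtain ⟨W', h1, h2⟩ := rec_step c hi hb hd W (D.Bd_down hbd)
      refine ⟨W', h1, ?_⟩
      rw [h2, hm]
      push_cast
      ring
    have e2 : ∀ N : ℤ, N * fac n k = fac n (k + 1) → St c η (k + 1) ((N * δ * ((δ : ℤ) ^ k * fac n k) : ℤ) : ℝ) →
        St c η (k + 1) ((δ : ℤ) ^ (k + 1) * fac n (k + 1) : ℤ) := by
      intro N hN h
      have : (N * δ * ((δ : ℤ) ^ k * fac n k) : ℤ) = (δ : ℤ) ^ (k + 1) * fac n (k + 1) := by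
        rw [← hN]
        ring
      rwa [this] at h
    have hlf : Cl (D.lf (circ c W)) := D.Cl_lf (hcl W hW)
    rcases lt_trichotomy (2 * k + 2) n with h | h | h
    · -- low dimension
      refine e2 1 ?_ (gen 1 W (F.gen _ hlf (by omega) (Or.inl (by omega))) _ hWe)
      unfold fac
      rw [if_neg (by omega), if_neg (by omega), one_mul]
    · -- `n` even, middle dimension
      refine e2 2 ?_ (gen 2 W (F.even ⟨k + 1, by omega⟩ _ (by omega) hlf) _ hWe)
      unfold fac
      rw [if_neg (by omega), if_pos (by omega), mul_one]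
    · rcases eq_or_ne (2 * k + 1) n with h' | h'
      · -- `n` odd, middle dimension
        subst h'
        obtain ⟨h0, he, Λ, hΛ⟩ := hL ⟨k, rfl⟩
        obtain rfl : h0 = k := by omega
        obtain ⟨t, ht, hdeg⟩ := hΛ.deg
        obtain ⟨m, hm⟩ := F.deg (push (stX (2 * h0 + 1)) (D.lf (circ c W))) rfl (hlf.push _)
        set W2 : Ch G (2 * h0) := (2 : ℤ) • W - (t * m) • Λ with hW2
        have hΛk : ∀ w, ch Λ (kap c (dO G w)) = 0 := fun w => by rw [kap_d, map_neg, hΛ.cl, neg_zero]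
        have hch : ∀ w, ch W2 w = 2 * ch W w - t * m * ch Λ w := by
          intro w
          rw [hW2, ch_sub, ch_zsmul, ch_zsmul]
          simp only [LinearMap.sub_apply, LinearMap.smul_apply, smul_eq_mul]
          push_cast
          ring
        have hW2k : ∀ w, ch W2 (kap c (dO G w)) = 0 := fun w => by rw [hch, hW, hΛk, mul_zero, mul_zero, sub_zero]
        have hW2e : ch W2 (dO G η ^ h0) = ((2 * ((δ : ℤ) ^ h0 * fac (2 * h0 + 1) h0) : ℤ) : ℝ) := by
          rw [hch, hWe, hΛ.zero]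
          push_cast
          ring
        have hzero : ∀ θ, ch (D.lf (circ c W2)) ((stX (2 * h0 + 1)).pull θ) = 0 := by
          intro θ
          have h1 : ch (D.lf (circ c W)) ((stX (2 * h0 + 1)).pull θ) = m * JS θ := by rw [← ch_push, hm]
          rw [D.ch_lf, ch_circ] at h1
          have h2 := hdeg θ
          rw [ch_circ] at h2
          rw [D.ch_lf, ch_circ, hch, mul_sub, mul_left_comm, h1]
          have h3 : ∀ x : ℝ, (-1 : ℝ) ^ (2 * h0) * (t * m * x) = t * m * ((-1 : ℝ) ^ (2 * h0) * x) := fun x => by ring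
          rw [h3, h2]
          have h4 : (t : ℝ) * t = 1 := by
            have : t * t = 1 := by rw [← sq, ht]
            exact_mod_cast this
          linear_combination -(2 * m * JS θ) * h4
        have hlf2 : Cl (D.lf (circ c W2)) := D.Cl_lf (hcl W2 hW2k)
        have h5 := gen 1 W2 (F.odd ⟨h0, rfl⟩ _ rfl hlf2 hzero) _ hW2e
        have h6 : (1 * δ * (2 * ((δ : ℤ) ^ h0 * fac (2 * h0 + 1) h0)) : ℤ) =
            (δ : ℤ) ^ (h0 + 1) * fac (2 * h0 + 1) (h0 + 1) := by
          unfold fac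
          rw [if_neg (by omega), if_pos (by omega)]
          ring
        rwa [h6] at h5
      · -- high dimension
        refine e2 1 ?_ (gen 1 W (F.gen _ hlf (by omega) (Or.inr (by omega))) _ hWe)
        unfold fac
        rw [if_pos (by omega), if_pos (by omega), one_mul]

include hi hb hd in
/-- **the closed chain of top dimension** -/
theorem exists_Z (D : Cov (spSt n) G δ) (hn : 2 ≤ n) (p : G.Plot 0) (F : FillD n)
    (hL : Odd n → ∃ (h : ℕ) (_ : n = 2 * h + 1) (Λ : Ch G (2 * h)), LamD n D c η h Λ) :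
    ∃ Z : Ch G (2 * (n - 1) + 1), Cl Z ∧ ch Z (η * dO G η ^ (n - 1)) = 2 * (δ : ℝ) ^ (n - 1) := by
  obtain ⟨W, hW, hWe⟩ := St_all c hi hb hd D hn p F hL (n - 1) le_rfl
  obtain ⟨Z, hZ, hZe⟩ := rec_end c hi hb hd W hW
  refine ⟨Z, hZ, ?_⟩
  rw [hZe, hWe]
  have : fac n (n - 1) = 2 := by
    unfold fac
    rw [if_pos (by omega)]
  rw [this]
  push_cast
  ring

end rec

end Pool.Agent.Lib.MP_ccbbf6_gt.L7
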