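import Pool.Agent.Lib.MP_ccbbf6_gt.L7.PR6
import Pool.Agent.Lib.MP_ccbbf6_gt.L7.RC

/-!
# Level 7, PR7 (helper78): the covering `PP : spSt n → spG 𝒜`, the transfer, `cov : Cov (spSt n) (spG 𝒜) δ`
-/

set_option autoImplicit false
set_option maxSynthPendingDepth 3
set_option linter.unusedSectionVars false

open Set Filter Topology Metric Real Module
open scoped ContDiff RealInnerProductSpace

noncomputable section

namespace Pool.Agent.Lib.MP_ccbbf6_gt.L7

open Geo L4 L4.ORI L4.FR L5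

variable {n k l : ℕ}

/-! ### the antipodal map of the Stiefel manifold -/

/-- the antipodal map `(x, y) ↦ (-x, -y)` -/
def stN (n : ℕ) : SMap (spSt n) (spSt n) :=
  ⟨fun z => ⟨(-z.1.1, -z.1.2), by rw [norm_neg]; exact stx z, by rw [norm_neg]; exact sty z, by
    rw [inner_neg_neg]; exact stxy z⟩, fun _ p => (plot_smX p).neg.prodMk (plot_smY p).neg⟩

theorem stN_fst (z : (spSt n).pt) : ((stN n).1 z).1.1 = -z.1.1 := rfl
theorem stN_snd (z : (spSt n).pt) : ((stN n).1 z).1.2 = -z.1.2 := rfl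

theorem stN_stN (z : (spSt n).pt) : (stN n).1 ((stN n).1 z) = z := by
  refine Subtype.ext (Prod.ext ?_ ?_)
  · show - -z.1.1 = z.1.1
    rw [neg_neg]
  · show - -z.1.2 = z.1.2
    rw [neg_neg]

theorem stN_comp : (stN n).comp (stN n) = SMap.id _ := SMap_ext fun z => stN_stN z

theorem stN_pl (q : (spSt n).Plot k) : (stN n).pl ((stN n).pl q) = q := Plot_ext fun _ => stN_stN _

theorem stN_pull (w : Om (spSt n)) : (stN n).pull ((stN n).pull w) = w := by
  rw [← pull_comp, stN_comp, pull_id]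

variable {M : Type} [MetricSpace M] [CompactSpace M] {𝒜 : SDist n M}

/-! ### the covering -/

section cover

variable (hB : Bl M) (cp : Gs M) {δ : ℝ} (hD : Dl 𝒜 δ)

/-- the covering of the space of geodesics -/
def PP : SMap (spSt n) (spG 𝒜) :=
  ⟨fun z => pst hB 𝒜 cp δ z.1.1 z.1.2, fun _ p => smG_of fun _ =>
    smGA_pst hB cp hD (plot_smX p).contDiffAt (plot_smY p).contDiffAt (norm_ne (stx _)) (norm_ne (sty _)) (stxy _)⟩

theorem PP_apply (z : (spSt n).pt) : (PP hB cp hD).1 z = pst hB 𝒜 cp δ z.1.1 z.1.2 := rfl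

/-- the covering of the manifold -/
def PM : SMap (spS (n + 1)) (spM 𝒜) :=
  ⟨fun x => prh (M := M) hB 𝒜 cp δ x.1, fun _ p => show Sm 𝒜 (fun v => prh hB 𝒜 cp δ (p.1 v).1) from fun u =>
    SmAt.comp (g := prh hB 𝒜 cp δ) (f := fun v => (p.1 v).1) (smAt_prh hB cp hD (norm_ne (p.1 u).2))
      (show ContDiff ℝ ∞ _ from p.2).contDiffAt⟩

theorem PM_apply (x : (spS (n + 1)).pt) : (PM hB cp hD).1 x = prh hB 𝒜 cp δ x.1 := rfl

theorem foot_PP : (foot hB 0).comp (PP hB cp hD) = (PM hB cp hD).comp (stX n) := SMap_ext fun _ => pst_zero hB cp δ _ _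

theorem exists_lift_at (p : (spG 𝒜).Plot k) (u0 : V k) (z0 : (spSt n).pt) (h : (PP hB cp hD).1 z0 = p.1 u0) :
    ∃ q : (spSt n).Plot k, (PP hB cp hD).pl q = p ∧ q.1 u0 = z0 := by
  obtain ⟨X, Y, hX, hY, h1, h2, h3, h4, h5, h6⟩ := exists_lift_G hB cp hD (σ := p.1) p.2 u0 (stx z0) (sty z0) (stxy z0) h
  refine ⟨⟨fun v => ⟨(X v, Y v), h1 v, h2 v, h3 v⟩, hX.prodMk hY⟩, Plot_ext fun v => h4 v, ?_⟩
  exact Subtype.ext (Prod.ext h5 h6)

theorem exists_lift (p : (spG 𝒜).Plot k) : ∃ q : (spSt n).Plot k, (PP hB cp hD).pl q = p := by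
  obtain ⟨x, y, h1, h2, h3, h4⟩ := exists_pst hB cp hD (p.1 0)
  obtain ⟨q, hq, -⟩ := exists_lift_at hB cp hD p 0 ⟨(x, y), h1, h2, h3⟩ h4
  exact ⟨q, hq⟩

theorem surj_PP (c : Gs M) : ∃ z : (spSt n).pt, (PP hB cp hD).1 z = c := by
  obtain ⟨x, y, h1, h2, h3, h4⟩ := exists_pst hB cp hD c
  exact ⟨⟨(x, y), h1, h2, h3⟩, h4⟩

theorem surj_PM (m : M) : ∃ x : (spS (n + 1)).pt, (PM hB cp hD).1 x = m := prS_surj hB cp hD m

theorem exists_lift_PM_at (p : (spM 𝒜).Plot k) (u0 : V k) (x0 : (spS (n + 1)).pt) (h : (PM hB cp hD).1 x0 = p.1 u0) :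
    ∃ q : (spS (n + 1)).Plot k, (PM hB cp hD).pl q = p ∧ q.1 u0 = x0 := by
  obtain ⟨F, h1, h2, h3, h4⟩ := exists_lift_M (M := M) hB cp hD (f := p.1) p.2 u0 x0.2 h
  exact ⟨⟨fun v => ⟨F v, h2 v⟩, h1⟩, Plot_ext fun v => h3 v, Subtype.ext h4⟩

theorem exists_lift_PM (p : (spM 𝒜).Plot k) : ∃ q : (spS (n + 1)).Plot k, (PM hB cp hD).pl q = p := by
  obtain ⟨x, hx⟩ := surj_PM hB cp hD (p.1 0)
  obtain ⟨q, hq, -⟩ := exists_lift_PM_at hB cp hD p 0 x hx
  exact ⟨q, hq⟩

end cover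

/-! ### uniqueness of lifts -/

theorem PP_inj1 (hB : Bl M) (cp : Gs M) (hD : Dl 𝒜 1) {z z' : (spSt n).pt} (h : (PP hB cp hD).1 z = (PP hB cp hD).1 z') :
    z' = z := by
  obtain ⟨h1, h2⟩ := pst_inj1 hB cp hD (stx z) (sty z) (stx z') (sty z') (stxy z) (stxy z') h
  exact Subtype.ext (Prod.ext h1 h2)

theorem PP_neg2 (hB : Bl M) (cp : Gs M) (hD : Dl 𝒜 2) (z : (spSt n).pt) :
    (PP hB cp hD).1 ((stN n).1 z) = (PP hB cp hD).1 z := pst_neg2 hB cp hD (norm_ne (stx z)) _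

theorem PP_inj2 (hB : Bl M) (hk : 𝒜.HK 0) (cp : Gs M) (hD : Dl 𝒜 2) {z z' : (spSt n).pt}
    (h : (PP hB cp hD).1 z = (PP hB cp hD).1 z') : z' = z ∨ z' = (stN n).1 z := by
  rcases pst_inj2 hB hk cp (stx z) (sty z) (stx z') (sty z') (stxy z) (stxy z') h with ⟨h1, h2⟩ | ⟨h1, h2⟩
  · exact Or.inl (Subtype.ext (Prod.ext h1 h2))
  · exact Or.inr (Subtype.ext (Prod.ext h1 h2))

/-- two continuous families of unit vectors, pointwise equal or opposite, are equal or opposite -/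
theorem const_sign {E F : Type*} [TopologicalSpace E] [PreconnectedSpace E] [NormedAddCommGroup F] [NormedSpace ℝ F]
    {f g : E → F} (hf : Continuous f) (hg : Continuous g) (h0 : ∀ v, f v ≠ 0) (h : ∀ v, g v = f v ∨ g v = -f v) :
    (∀ v, g v = f v) ∨ (∀ v, g v = -f v) := by
  have h1 : IsClosed {v | g v = f v} := isClosed_eq hg hf
  have h2 : IsClosed {v | g v = -f v} := isClosed_eq hg hf.neg
  have h3 : {v | g v = f v}ᶜ = {v | g v = -f v} := by
    ext v
    constructor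
    · intro h4
      exact (h v).resolve_left h4
    · intro (h4 : g v = -f v) (h5 : g v = f v)
      rw [h5] at h4
      have h6 : (2 : ℝ) • f v = 0 := by
        rw [two_smul]
        nth_rewrite 1 [h4]
        exact neg_add_cancel _
      exact h0 v ((smul_eq_zero.1 h6).resolve_left two_ne_zero)
  have h4 : IsClopen {v | g v = f v} := ⟨h1, by rw [← isClosed_compl_iff, h3]; exact h2⟩
  rcases isClopen_iff.1 h4 with h5 | h5
  · right
    intro v
    have : v ∈ {v | g v = -f v} := by rw [← h3, h5]; exact mem_compl (fun h => h)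
    exact this
  · left
    intro v
    have : v ∈ {v | g v = f v} := by rw [h5]; exact mem_univ v
    exact this

theorem lift_eq1 (hB : Bl M) (cp : Gs M) (hD : Dl 𝒜 1) {q q' : (spSt n).Plot k}
    (h : (PP hB cp hD).pl q = (PP hB cp hD).pl q') : q' = q :=
  Plot_ext fun x => PP_inj1 hB cp hD (congrFun (congrArg Subtype.val h) x)

theorem lift_eq2 (hB : Bl M) (hk : 𝒜.HK 0) (cp : Gs M) (hD : Dl 𝒜 2) {q q' : (spSt n).Plot k}
    (h : (PP hB cp hD).pl q = (PP hB cp hD).pl q') : q' = q ∨ q' = (stN n).pl q := by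
  have h1 : ∀ x, q'.1 x = q.1 x ∨ q'.1 x = (stN n).1 (q.1 x) := fun x =>
    PP_inj2 hB hk cp hD (congrFun (congrArg Subtype.val h) x)
  have h2 := const_sign (f := fun x => (q.1 x).1) (g := fun x => (q'.1 x).1) (plot_sm q).continuous (plot_sm q').continuous
    (fun v h0 => norm_ne (stx (q.1 v)) (congrArg Prod.fst h0))
    (fun v => (h1 v).imp (fun h => by rw [h]) fun h => by rw [h]; rfl)
  rcases h2 with h2 | h2
  · exact Or.inl (Plot_ext fun x => Subtype.ext (h2 x))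
  · exact Or.inr (Plot_ext fun x => Subtype.ext (h2 x))

/-! ### the transfer -/

/-- the sum over the deck transformations -/
def dk (δ : ℕ) (n : ℕ) : Om (spSt n) →ₗ[ℝ] Om (spSt n) :=
  if δ = 1 then LinearMap.id else LinearMap.id + (stN n).pull.toLinearMap

theorem dk_one (w : Om (spSt n)) : dk 1 n w = w := by
  unfold dk
  rw [if_pos rfl]
  rfl

theorem dk_two (w : Om (spSt n)) : dk 2 n w = w + (stN n).pull w := by
  unfold dk
  rw [if_neg (by norm_num)]
  rfl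

theorem dk_d (δ : ℕ) (w : Om (spSt n)) : dk δ n (dO _ w) = dO _ (dk δ n w) := by
  unfold dk
  split_ifs
  · rfl
  · show dO _ w + (stN n).pull (dO _ w) = dO _ (w + (stN n).pull w)
    rw [map_add, pull_d]

theorem Deg_dk (δ : ℕ) {j : ℕ} {w : Om (spSt n)} (h : Deg j w) : Deg j (dk δ n w) := by
  unfold dk
  split_ifs
  · exact h
  · exact Deg_add h (Deg_pull (stN n) h)

section transfer

variable (hB : Bl M) (cp : Gs M) {δ : ℕ} (hD : Dl 𝒜 (δ : ℝ))

include hD in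
theorem Dl_cases : (δ = 1 ∧ Far1 M) ∨ (δ = 2 ∧ 𝒜.HK 0) := by
  rcases hD with ⟨h, h'⟩ | ⟨h, h'⟩
  · exact Or.inl ⟨by exact_mod_cast h, h'⟩
  · exact Or.inr ⟨by exact_mod_cast h, h'⟩

/-- pull-backs from below are invariant -/
theorem dk_mul (a : Om (spG 𝒜)) (w : Om (spSt n)) : dk δ n ((PP hB cp hD).pull a * w) = (PP hB cp hD).pull a * dk δ n w := by
  rcases Dl_cases hD with ⟨rfl, h⟩ | ⟨rfl, h⟩
  · rw [dk_one, dk_one]
  · have hD' : Dl 𝒜 2 := Or.inr ⟨rfl, h⟩
    have e : (PP hB cp hD).comp (stN n) = PP hB cp hD := SMap_ext fun z => by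
      have := PP_neg2 hB cp hD' z
      show pst hB 𝒜 cp ((2 : ℕ) : ℝ) _ _ = pst hB 𝒜 cp ((2 : ℕ) : ℝ) _ _
      rw [Nat.cast_ofNat]
      exact this
    rw [dk_two, dk_two, map_mul, ← pull_comp, e, mul_add]

theorem dk_mul' (a : Om (spG 𝒜)) (w : Om (spSt n)) : dk δ n (w * (PP hB cp hD).pull a) = dk δ n w * (PP hB cp hD).pull a := by
  rcases Dl_cases hD with ⟨rfl, h⟩ | ⟨rfl, h⟩
  · rw [dk_one, dk_one]
  · have hD' : Dl 𝒜 2 := Or.inr ⟨rfl, h⟩
    have e : (PP hB cp hD).comp (stN n) = PP hB cp hD := SMap_ext fun z => by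
      have := PP_neg2 hB cp hD' z
      show pst hB 𝒜 cp ((2 : ℕ) : ℝ) _ _ = pst hB 𝒜 cp ((2 : ℕ) : ℝ) _ _
      rw [Nat.cast_ofNat]
      exact this
    rw [dk_two, dk_two, map_mul, ← pull_comp, e, add_mul]

theorem dk_PP (a : Om (spG 𝒜)) : dk δ n ((PP hB cp hD).pull a) = (δ : ℝ) • (PP hB cp hD).pull a := by
  have h := dk_mul hB cp hD a 1
  rw [mul_one] at h
  rw [h]
  have h1 := Dl_cases hD
  obtain ⟨b, hb⟩ : ∃ b, b = (PP hB cp hD).pull a := ⟨_, rfl⟩
  rw [← hb]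
  clear hb h
  rcases h1 with ⟨rfl, h⟩ | ⟨rfl, h⟩
  · rw [dk_one, mul_one, Nat.cast_one, one_smul]
  · rw [dk_two, map_one, mul_add, mul_one, Nat.cast_ofNat, two_smul]

/-- the value on a lift does not depend on the lift -/
theorem dk_lift (w : Om (spSt n)) {q q' : (spSt n).Plot k} (h : (PP hB cp hD).pl q = (PP hB cp hD).pl q') :
    Om.on (dk δ n w) q' = Om.on (dk δ n w) q := by
  rcases Dl_cases hD with ⟨rfl, h1⟩ | ⟨rfl, h1⟩
  · have hD' : Dl 𝒜 1 := Or.inl ⟨rfl, h1⟩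
    have e : q' = q := by
      refine lift_eq1 hB cp hD' (Plot_ext fun x => ?_)
      have := congrFun (congrArg Subtype.val h) x
      change pst hB 𝒜 cp ((1 : ℕ) : ℝ) _ _ = pst hB 𝒜 cp ((1 : ℕ) : ℝ) _ _ at this
      rw [Nat.cast_one] at this
      exact this
    rw [e]
  · have hD' : Dl 𝒜 2 := Or.inr ⟨rfl, h1⟩
    have e : q' = q ∨ q' = (stN n).pl q := by
      refine lift_eq2 hB h1 cp hD' (Plot_ext fun x => ?_)
      have := congrFun (congrArg Subtype.val h) x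
      change pst hB 𝒜 cp ((2 : ℕ) : ℝ) _ _ = pst hB 𝒜 cp ((2 : ℕ) : ℝ) _ _ at this
      rw [Nat.cast_ofNat] at this
      exact this
    rcases e with rfl | rfl
    · rfl
    · rw [dk_two, on_add, on_add, FR.on_pull, FR.on_pull, stN_pl, add_comm]

/-- the chosen lift of a plot -/
def lftP (p : (spG 𝒜).Plot k) : (spSt n).Plot k := (exists_lift hB cp hD p).choose

theorem lftP_spec (p : (spG 𝒜).Plot k) : (PP hB cp hD).pl (lftP hB cp hD p) = p := (exists_lift hB cp hD p).choose_spec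

/-- the transfer -/
def tf : Om (spSt n) →ₗ[ℝ] Om (spG 𝒜) where
  toFun w := mkO (fun _ p => Om.on (dk δ n w) (lftP hB cp hD p)) fun _ _ p g => by
    rw [← on_cmp]
    refine dk_lift hB cp hD w ?_
    rw [pl_cmp, lftP_spec, lftP_spec]
  map_add' w w' := Om_ext fun k p => by
    rw [on_mkO, map_add, on_add, on_add, on_mkO, on_mkO]
  map_smul' r w := Om_ext fun k p => by
    rw [on_mkO, map_smul, on_smul, RingHom.id_apply, on_smul, on_mkO]

/-- the transfer on a plot with a lift -/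
theorem on_tf (w : Om (spSt n)) (q : (spSt n).Plot k) : Om.on (tf hB cp hD w) ((PP hB cp hD).pl q) = Om.on (dk δ n w) q :=
  dk_lift hB cp hD w (lftP_spec hB cp hD _).symm

theorem on_tf' (w : Om (spSt n)) {p : (spG 𝒜).Plot k} {q : (spSt n).Plot k} (h : (PP hB cp hD).pl q = p) :
    Om.on (tf hB cp hD w) p = Om.on (dk δ n w) q := by
  rw [← h, on_tf]

theorem PP_tf (w : Om (spSt n)) : (PP hB cp hD).pull (tf hB cp hD w) = dk δ n w := Om_ext fun _ q => on_tf hB cp hD w q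

theorem comp_tf {Y : Space} (f : SMap Y (spSt n)) (w : Om (spSt n)) :
    ((PP hB cp hD).comp f).pull (tf hB cp hD w) = f.pull (dk δ n w) := by
  rw [pull_comp, PP_tf]

/-- forms below are determined by their pull-backs -/
theorem PP_injective {a b : Om (spG 𝒜)} (h : (PP hB cp hD).pull a = (PP hB cp hD).pull b) : a = b := Om_ext fun k p => by
  obtain ⟨q, rfl⟩ := exists_lift hB cp hD p
  have := congrArg (fun w => Om.on w q) h
  exact this

theorem tf_d (w : Om (spSt n)) : tf hB cp hD (dO _ w) = dO _ (tf hB cp hD w) := PP_injective hB cp hD (by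
  rw [PP_tf, ← pull_d, PP_tf, dk_d])

theorem tf_P (a : Om (spG 𝒜)) : tf hB cp hD ((PP hB cp hD).pull a) = (δ : ℝ) • a := PP_injective hB cp hD (by
  rw [PP_tf, map_smul, dk_PP])

/-- **projection formula** -/
theorem tf_mul (a : Om (spG 𝒜)) (w : Om (spSt n)) : tf hB cp hD ((PP hB cp hD).pull a * w) = a * tf hB cp hD w :=
  PP_injective hB cp hD (by rw [PP_tf, dk_mul, map_mul, PP_tf])

theorem tf_mul' (a : Om (spG 𝒜)) (w : Om (spSt n)) : tf hB cp hD (w * (PP hB cp hD).pull a) = tf hB cp hD w * a :=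
  PP_injective hB cp hD (by rw [PP_tf, dk_mul', map_mul, PP_tf])

theorem Deg_tf {j : ℕ} {w : Om (spSt n)} (h : Deg j w) : Deg j (tf hB cp hD w) := fun _ p => Deg_dk δ h _ (lftP hB cp hD p)

/-- the lift of a plot as a chain -/
def lfC (δ : ℕ) (q : (spSt n).Plot k) : Ch (spSt n) k :=
  if δ = 1 then Finsupp.single q 1 else Finsupp.single q 1 + Finsupp.single ((stN n).pl q) 1

include hD in
theorem ch_lfC (q : (spSt n).Plot k) (w : Om (spSt n)) : ch (lfC δ q) w = cI k (Om.on (dk δ n w) q) := by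
  rcases Dl_cases hD with ⟨rfl, h1⟩ | ⟨rfl, h1⟩
  · unfold lfC
    rw [if_pos rfl, dk_one, ch_single, Int.cast_one, one_smul, cIL_apply]
  · unfold lfC
    rw [if_neg (by norm_num), dk_two, ch_add, ch_single, ch_single, Int.cast_one, one_smul, one_smul, LinearMap.add_apply,
      cIL_apply, cIL_apply, on_add, cI_add, FR.on_pull]

/-- **the covering with its transfer** -/
def cov : Cov (spSt n) (spG 𝒜) δ where
  P := PP hB cp hD
  tr := tf hB cp hD
  tr_d := tf_d hB cp hD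
  tr_P := tf_P hB cp hD
  lft p := ⟨lfC δ (lftP hB cp hD p), fun w => ch_lfC hD _ w⟩

@[simp] theorem cov_P : (cov hB cp hD).P = PP hB cp hD := rfl
@[simp] theorem cov_tr : (cov hB cp hD).tr = tf hB cp hD := rfl

end transfer

/-! ### the geodesics through the base point, great circles -/

section circ

variable (hB : Bl M) (𝒜) (cp : Gs M)

theorem smAt_const {E : Type*} [NormedAddCommGroup E] [NormedSpace ℝ E] (p : M) (u : E) : SmAt 𝒜 (fun _ : E => p) u :=
  ⟨continuousAt_const, contDiffAt_const⟩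

/-- the geodesic with foot `cp 0` in the direction `ξ` -/
def cxi : SMap (spS n) (spG 𝒜) :=
  ⟨fun ξ => gw 𝒜 hB cp ξ.1, fun _ p => smG_of fun u => by
    refine smGA_gw (c := fun _ => cp) (w := fun v => (p.1 v).1) (p := cp.1 0) hB (smAt_const 𝒜 _ u) (𝒜.mem _) ?_ ?_
    · show ContDiffAt ℝ ∞ (fun v => CC 𝒜 (cp.1 0) (cp.1 0) (p.1 v).1) u
      exact (CC 𝒜 (cp.1 0) (cp.1 0)).contDiff.contDiffAt.comp u (show ContDiff ℝ ∞ _ from p.2).contDiffAt
    · intro h
      have h1 := (p.1 u).2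
      change ‖(p.1 u).1‖ = 1 at h1
      rw [h, norm_zero] at h1
      exact zero_ne_one h1⟩

theorem cxi_apply (ξ : (spS n).pt) : (cxi 𝒜 hB cp).1 ξ = gw 𝒜 hB cp ξ.1 := rfl

/-- the great circles through the pole with their velocities -/
def gcS (n : ℕ) : SMap (spS n).xR (spSt n) :=
  ⟨fun z => ⟨(cos z.2 • e0 n + sin z.2 • em n z.1.1, -sin z.2 • e0 n + cos z.2 • em n z.1.1), inner_circ z.1.1 z.1.2 z.2⟩,
    fun _ p => by
      have h1 : ContDiff ℝ ∞ fun u => (p.1 u).2 := p.2.2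
      have h2 : ContDiff ℝ ∞ fun u => (p.1 u).1.1 := p.2.1
      have h3 : ContDiff ℝ ∞ fun u => em n (p.1 u).1.1 := (em n).contDiff.comp h2
      show ContDiff ℝ ∞ fun u => (cos (p.1 u).2 • e0 n + sin (p.1 u).2 • em n (p.1 u).1.1,
        -sin (p.1 u).2 • e0 n + cos (p.1 u).2 • em n (p.1 u).1.1)
      have hc : ContDiff ℝ ∞ fun u => cos (p.1 u).2 := Real.contDiff_cos.comp h1
      have hs : ContDiff ℝ ∞ fun u => sin (p.1 u).2 := Real.contDiff_sin.comp h1
      exact ((hc.smul contDiff_const).add (hs.smul h3)).prodMk ((hs.neg.smul contDiff_const).add (hc.smul h3))⟩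

theorem PP_gcS {δ : ℝ} (hD : Dl 𝒜 δ) (ξ : (spS n).pt) (θ : ℝ) :
    (PP hB cp hD).1 ((gcS n).1 (ξ, θ)) = shift (δ * θ) ((cxi 𝒜 hB cp).1 ξ) := pst_circle hB cp hD ξ.2 θ

/-- directions at the pole -/
def poS (n : ℕ) : SMap (spS n) (spSt n) :=
  ⟨fun ξ => ⟨(e0 n, em n ξ.1), by
      have h := inner_circ ξ.1 ξ.2 0
      rw [cos_zero, sin_zero, neg_zero, zero_smul, zero_smul, one_smul, one_smul, add_zero, zero_add] at h
      exact h⟩, fun _ p => by
      have h2 : ContDiff ℝ ∞ fun u => (p.1 u).1 := p.2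
      exact contDiff_const.prodMk ((em n).contDiff.comp h2)⟩

theorem PP_poS {δ : ℝ} (hD : Dl 𝒜 δ) : (PP hB cp hD).comp (poS n) = cxi 𝒜 hB cp :=
  SMap_ext fun ξ => pst_pole hB cp hD ξ.2

theorem gcS_zero (ξ : (spS n).pt) : (gcS n).1 (ξ, 0) = (poS n).1 ξ := by
  refine Subtype.ext (Prod.ext ?_ ?_)
  · show cos 0 • e0 n + sin 0 • em n ξ.1 = e0 n
    rw [cos_zero, sin_zero, zero_smul, one_smul, add_zero]
  · show -sin 0 • e0 n + cos 0 • em n ξ.1 = em n ξ.1
    rw [cos_zero, sin_zero, neg_zero, zero_smul, one_smul, zero_add]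

end circ

end Pool.Agent.Lib.MP_ccbbf6_gt.L7
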