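import Pool.Agent.Lib.MP_ccbbf6_gt.L5.EPS05
import Pool.Agent.Lib.MP_ccbbf6_gt.L7.ST0

/-!
# Level 7, SP1: the integral over the sphere and linear isometries (helper28)

`JS_L` : `JS (L^* w) = det L * JS w`.
-/

set_option autoImplicit false
set_option maxSynthPendingDepth 3

open Set Filter Topology MeasureTheory
open scoped ContDiff RealInnerProductSpace

noncomputable section

namespace Pool.Agent.Lib.MP_ccbbf6_gt.L7

open Geo L4 L4.FR L5

variable {k l n N : ℕ} (L : Eu n →ₗᵢ[ℝ] Eu n)

/-- a linear isometry in the coordinates of `V n`, as a linear map -/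
def lvL : V n →ₗ[ℝ] V n :=
  ((WithLp.linearEquiv 2 ℝ (Fin n → ℝ)).toLinearMap.comp L.toLinearMap).comp
    (WithLp.linearEquiv 2 ℝ (Fin n → ℝ)).symm.toLinearMap

theorem lvL_apply (y : V n) : lvL L y = toV (L (toE y)) := rfl

theorem toE_lvL (y : V n) : toE (lvL L y) = L (toE y) := rfl

theorem det_lvL : LinearMap.det (lvL L) = LinearMap.det L.toLinearMap := by
  have h := LinearMap.det_conj L.toLinearMap (WithLp.linearEquiv 2 ℝ (Fin n → ℝ))
  exact h

/-- as a smooth map -/
def lvS : FR.Sm n n := ⟨fun y => lvL L y, (LinearMap.toContinuousLinearMap (lvL L)).contDiff⟩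

theorem lvS_apply (y : V n) : lvS L y = toV (L (toE y)) := rfl

theorem toE_lvS (y : V n) : toE (lvS L y) = L (toE y) := rfl

theorem norm_lvS (y : V n) : ‖toE (lvS L y)‖ = ‖toE y‖ := by rw [toE_lvS, L.norm_map]

theorem nrm_lvS (y : V n) : nrm (lvS L y) = L (nrm y) := by
  unfold nrm
  rw [norm_lvS, toE_lvS, map_smul]

/-- `Th` is natural for linear isometries -/
theorem Th_L (w : Om (spS n)) : Th ((sphL L).pull w) = pb (lvS L) (Th w) := by
  refine ev_ext fun y => ?_
  by_cases h : toE y = 0
  · have h1 : ‖toE y‖ < 1 := by rw [h, norm_zero]; exact one_pos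
    have h2 : ev (lvS L y) (Th w) = 0 := by
      rw [ev_Th]
      unfold ThV
      rw [ev_dcn_zero (by rw [norm_lvS]; exact h1), zero_mul]
    rw [ev_pb_of_zero _ h2, ev_Th]
    unfold ThV
    rw [ev_dcn_zero h1, zero_mul]
  · have h' : toE (lvS L y) ≠ 0 := by
      rw [← norm_ne_zero_iff, norm_lvS, norm_ne_zero_iff]
      exact h
    obtain ⟨P, hP, hP2⟩ := ThV_near w h'
    obtain ⟨Q, hQ, hQ2⟩ := ThV_near ((sphL L).pull w) h
    have h1 : ev y (pb (lvS L) (Th w)) = ev y (pb (lvS L) (dd n (fc n (cn1 n)) * Om.on w P)) := by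
      refine ev_pb_congr' _ ?_
      filter_upwards [hP2] with z hz
      rw [ev_Th, hz]
    rw [h1, ev_Th, hQ2.self_of_nhds, map_mul, map_mul (pb _), map_mul, ← pb_dd, pb_fc, ← on_cmp]
    congr 1
    · congr 3
      apply Cs_ext
      intro z
      change chi ‖toE z‖ = chi ‖toE (lvS L z)‖
      rw [norm_lvS]
    · rw [on_pull]
      refine ev_on_congr w ?_
      have hc : ContinuousAt (lvS L : V n → V n) y := (lvS L).smooth.continuous.continuousAt
      filter_upwards [hQ, hc.eventually hP] with z h2 h3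
      refine Subtype.ext ?_
      change L (Q.1 z).1 = (P.1 (lvS L z)).1
      rw [h2, h3, nrm_lvS]

theorem fderiv_lvS (y : V n) : (fderiv ℝ (lvS L : V n → V n) y : V n →ₗ[ℝ] V n) = lvL L := by
  have h : HasFDerivAt (lvS L : V n → V n) (LinearMap.toContinuousLinearMap (lvL L)) y :=
    (LinearMap.toContinuousLinearMap (lvL L)).hasFDerivAt
  rw [h.fderiv]
  rfl

theorem abs_det_L : |LinearMap.det L.toLinearMap| = 1 := by
  rw [← LinearMap.normDet_eq_abs_det]
  exact L.normDet_eq_one

theorem lvL_injective : Function.Injective (lvL L) := fun x y h => by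
  have h1 : L (toE x) = L (toE y) := congrArg toE h
  exact congrArg toV (L.injective h1)

theorem integral_lvS (g : V n → ℝ) : ∫ y, g (lvS L y) = ∫ y, g y := by
  have hinj : Function.Injective (lvL L) := lvL_injective L
  have hsurj : Function.Surjective (lvL L) := LinearMap.injective_iff_surjective.1 hinj
  have h := integral_image_eq_integral_abs_det_fderiv_smul (volume : Measure (V n)) (s := univ) (f := fun y => lvS L y)
    (f' := fun _ => LinearMap.toContinuousLinearMap (lvL L)) MeasurableSet.univ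
    (fun x _ => ((LinearMap.toContinuousLinearMap (lvL L)).hasFDerivAt).hasFDerivWithinAt) hinj.injOn g
  rw [image_univ] at h
  have h1 : range (fun y => lvS L y) = univ := hsurj.range_eq
  have h2 : (LinearMap.toContinuousLinearMap (lvL L)).det = LinearMap.det L.toLinearMap := det_lvL L
  rw [h1, setIntegral_univ, setIntegral_univ] at h
  simp only [h2, abs_det_L, one_smul] at h
  exact h.symm

/-- **linear isometries** -/
theorem JS_L (w : Om (spS n)) : JS ((sphL L).pull w) = LinearMap.det L.toLinearMap * JS w := by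
  unfold JS
  have h1 : ∀ y, topE n (ev y (Th ((sphL L).pull w))) = LinearMap.det L.toLinearMap * topE n (ev (lvS L y) (Th w)) := by
    intro y
    rw [Th_L, ev_pb, topE_map, det_tr]
    congr 1
    rw [← det_lvL, ← fderiv_lvS L y]
  simp only [h1]
  rw [integral_const_mul, integral_lvS L (fun y => topE n (ev y (Th w)))]

end Pool.Agent.Lib.MP_ccbbf6_gt.L7
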