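import Pool.Agent.Lib.MP_ccbbf6_gt.L4.AL
import Pool.Agent.Lib.MP_ccbbf6_gt.L7.GC2
import Pool.Agent.Lib.MP_ccbbf6_gt.L7.KS
import Pool.Agent.Lib.MP_ccbbf6_gt.L7.PR7
import Pool.Agent.Lib.MP_ccbbf6_gt.L7.SP1

/-!
# Level 7, HL (helper78): the closed chain of the directions at the pole, its great circles (`n` odd): the data `LamD`
-/

set_option autoImplicit false
set_option maxSynthPendingDepth 3
set_option linter.unusedSectionVars false

open Set Filter Topology Metric Real Module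
open scoped ContDiff RealInnerProductSpace

noncomputable section

namespace Pool.Agent.Lib.MP_ccbbf6_gt.L7

open Geo L4 L4.FR L5

variable {n k N : ℕ}

/-! ### the fundamental chain of the sphere -/

/-- the fundamental chain of the sphere -/
def cS (N : ℕ) : Ch (spS (N + 1)) N := Finsupp.single (Col.P N) 1

theorem ch_cS (w : Om (spS (N + 1))) : ch (cS N) w = cI N (Om.on w (Col.P N)) := by
  rw [cS, ch_single, Int.cast_one, one_smul, cIL_apply]

theorem Cl_cS (hN : 2 ≤ N) : Cl (cS N) := by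
  obtain ⟨m, rfl⟩ : ∃ m, N = m + 1 := ⟨N - 1, by omega⟩
  intro w
  rw [← ch_dp, dp_d, ch_cS, on_d]
  refine cI_dd_zero _ fun i x _ hx => ?_
  exact top_face_on (Deg_dp m w) _ (by rw [Col.rkF_P hx]; omega)

/-! ### the pole -/

theorem hl_norm_em (v : Eu n) : ‖em n v‖ = ‖v‖ := by
  have h := norm_sq_decomp (em n v)
  rw [hd_em, tl_em] at h
  have h1 : ‖em n v‖ ^ 2 = ‖v‖ ^ 2 := by rw [h]; ring
  exact (sq_eq_sq₀ (norm_nonneg _) (norm_nonneg _)).1 h1

/-- the pole of the covering -/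
def pole0 (n : ℕ) : PoleD n where
  e := e0 n
  L := ⟨(em n : Eu n →ₗ[ℝ] Eu (n + 1)), fun v => hl_norm_em v⟩
  he := by
    unfold e0
    simp
  ho ξ := by
    show ⟪e0 n, em n ξ⟫ = 0
    unfold e0
    rw [EuclideanSpace.inner_single_left, ← hd_apply, hd_em, mul_zero]

theorem pole0_pt (ξ : Eu n) (a : ℝ) : (pole0 n).pt ξ a = cos a • e0 n + sin a • em n ξ := rfl

/-- minus the identity -/
def ngL (m : ℕ) : Eu m →ₗᵢ[ℝ] Eu m := (LinearIsometryEquiv.neg ℝ (E := Eu m)).toLinearIsometry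

theorem ngL_apply (m : ℕ) (x : Eu m) : ngL m x = -x := rfl

theorem det_ngL (m : ℕ) : LinearMap.det (ngL m).toLinearMap = (-1) ^ m := by
  have h : (ngL m).toLinearMap = (-1 : ℝ) • LinearMap.id := by
    ext x
    show (-x).ofLp _ = _
    simp
  rw [h, LinearMap.det_smul, LinearMap.det_id, mul_one, finrank_euclideanSpace, Fintype.card_fin]

/-- the circles: a sum over the two halves -/
theorem half_sum (hN : 2 ≤ N) (he : Even N) : ∃ t : ℤ, t ^ 2 = 1 ∧ ∀ θ : Om (spS (N + 2)),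
    ch (cS N) (KO (spS (N + 1)) (((pole0 (N + 1)).F π).pull θ) +
      KO (spS (N + 1)) (((sphL (ngL (N + 2))).comp ((pole0 (N + 1)).F π)).pull θ)) = 2 * t * JS θ := by
  obtain ⟨t, ht, h1⟩ := JS_F1 (pole0 (N + 1)) hN
  obtain ⟨σ, hσ, h2⟩ := Col.cI_P hN
  obtain ⟨t', ht', htt⟩ : ∃ t' : ℤ, (t' = 1 ∨ t' = -1) ∧ t = t' := by
    rcases ht with rfl | rfl
    · exact ⟨1, Or.inl rfl, by norm_num⟩
    · exact ⟨-1, Or.inr rfl, by norm_num⟩
  refine ⟨σ * t', ?_, fun θ => ?_⟩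
  · rcases hσ with rfl | rfl <;> rcases ht' with rfl | rfl <;> norm_num
  · rw [map_add, ch_cS, ch_cS, h2, h2, h1, pull_comp, h1, JS_L, det_ngL, htt]
    have h3 : ((-1 : ℝ)) ^ (N + 2) = 1 := Even.neg_one_pow (he.add even_two)
    rw [h3]
    push_cast
    ring

variable {M : Type} [MetricSpace M] [CompactSpace M] {𝒜 : SDist n M}

/-- the contact form vanishes on the directions at the pole -/
theorem cxi_AL (hB : Bl M) (cp : Gs M) : (cxi 𝒜 hB cp).pull (AL hB 𝒜) = 0 := by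
  refine Om_ext fun k p => ev_ext fun u => ?_
  rw [FR.on_pull, ev_AL, on_zero, map_zero]
  refine Finset.sum_eq_zero fun i _ => ?_
  have h1 : (fun v => 𝒜.ψ ((((cxi 𝒜 hB cp).pl p).1 u : Gs M).1 0) ((((cxi 𝒜 hB cp).pl p).1 v : Gs M).1 0)) =
      fun _ => 𝒜.ψ (cp.1 0) (cp.1 0) := by
    funext v
    have h2 : ∀ v, (((cxi 𝒜 hB cp).pl p).1 v : Gs M).1 0 = cp.1 0 := fun v => ORI.gw_zero 𝒜 hB cp _
    rw [h2, h2]
  rw [h1]
  simp

/-- the flow of the directions at the pole -/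
theorem phi_cxi (hB : Bl M) (cp : Gs M) {δ : ℝ} (hD : Dl 𝒜 δ) (hb : ContDiff ℝ ∞ fun s : ℝ => s * (2 * π / δ)) :
    (phiF hB).comp (cxi 𝒜 hB cp).up = (PP hB cp hD).comp ((gcS n).comp (KS.Rph (spS n) hb)) := SMap_ext fun z => by
  have h1 := PP_gcS 𝒜 hB cp hD z.1 (z.2 * (2 * π / δ))
  have h2 : δ * (z.2 * (2 * π / δ)) = 2 * π * z.2 := by
    have := hD.pos.ne'
    field_simp
  rw [h2] at h1
  exact h1.symm

section lam

variable (hB : Bl M) (cp : Gs M) {δ : ℕ} (hD : Dl 𝒜 (δ : ℝ))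

theorem kap_cxi (hb : ContDiff ℝ ∞ fun s : ℝ => s * (2 * π / (δ : ℝ))) (w : Om (spSt n)) :
    (cxi 𝒜 hB cp).pull (kap (circPhi hB 𝒜) (tf hB cp hD w)) =
      KO (spS n) (((gcS n).comp (KS.Rph (spS n) hb)).pull (dk δ n w)) := by
  have h1 : (cxi 𝒜 hB cp).pull (kap (circPhi hB 𝒜) (tf hB cp hD w)) =
      KO (spS n) (((phiF hB).comp (cxi 𝒜 hB cp).up).pull (tf hB cp hD w)) := rfl
  rw [h1, phi_cxi hB cp hD hb, comp_tf]

include hD in
theorem kap_stX (θ : Om (spS (n + 1))) :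
    (cxi 𝒜 hB cp).pull (kap (circPhi hB 𝒜) (tf hB cp hD ((stX n).pull θ))) =
      KO (spS n) (((pole0 n).F π).pull θ) + KO (spS n) (((sphL (ngL (n + 1))).comp ((pole0 n).F π)).pull θ) := by
  have hb : ContDiff ℝ ∞ fun s : ℝ => s * (2 * π / (δ : ℝ)) := contDiff_id.mul contDiff_const
  rw [kap_cxi hB cp hD hb]
  rcases Dl_cases hD with ⟨rfl, h⟩ | ⟨rfl, h⟩
  · rw [dk_one, KS.K_split]
    congr 1
    · have e : (stX n).comp (((gcS n).comp (KS.Rph (spS n) hb)).comp (KS.Rph (spS n) (KS.contDiff_mulc (1 / 2)))) =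
          (pole0 n).F π := SMap_ext fun z => Subtype.ext (by
        show cos (z.2 * (1 / 2) * (2 * π / ((1 : ℕ) : ℝ))) • e0 n + sin (z.2 * (1 / 2) * (2 * π / ((1 : ℕ) : ℝ))) • em n z.1.1 =
          cos (π * z.2) • e0 n + sin (π * z.2) • em n z.1.1
        have h2 : z.2 * (1 / 2) * (2 * π / ((1 : ℕ) : ℝ)) = π * z.2 := by
          rw [Nat.cast_one]
          ring
        rw [h2])
      rw [← e]
      rfl
    · have e : (stX n).comp (((gcS n).comp (KS.Rph (spS n) hb)).comp (KS.Rph (spS n) (φ := fun s => 1 / 2 + s * (1 / 2))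
          (contDiff_const.add (KS.contDiff_mulc _)))) = (sphL (ngL (n + 1))).comp ((pole0 n).F π) :=
          SMap_ext fun z => Subtype.ext (by
        show cos ((1 / 2 + z.2 * (1 / 2)) * (2 * π / ((1 : ℕ) : ℝ))) • e0 n +
            sin ((1 / 2 + z.2 * (1 / 2)) * (2 * π / ((1 : ℕ) : ℝ))) • em n z.1.1 =
          -(cos (π * z.2) • e0 n + sin (π * z.2) • em n z.1.1)
        have h2 : (1 / 2 + z.2 * (1 / 2)) * (2 * π / ((1 : ℕ) : ℝ)) = π * z.2 + π := by
          rw [Nat.cast_one]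
          ring
        rw [h2, cos_add_pi, sin_add_pi, neg_smul, neg_smul, neg_add])
      rw [← e]
      rfl
  · rw [dk_two, map_add, map_add]
    congr 1
    · have e : (stX n).comp ((gcS n).comp (KS.Rph (spS n) hb)) = (pole0 n).F π := SMap_ext fun z => Subtype.ext (by
        show cos (z.2 * (2 * π / ((2 : ℕ) : ℝ))) • e0 n + sin (z.2 * (2 * π / ((2 : ℕ) : ℝ))) • em n z.1.1 =
          cos (π * z.2) • e0 n + sin (π * z.2) • em n z.1.1
        have h2 : z.2 * (2 * π / ((2 : ℕ) : ℝ)) = π * z.2 := by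
          rw [Nat.cast_ofNat]
          ring
        rw [h2])
      rw [← e]
      rfl
    · have e : (stX n).comp ((stN n).comp ((gcS n).comp (KS.Rph (spS n) hb))) = (sphL (ngL (n + 1))).comp ((pole0 n).F π) :=
          SMap_ext fun z => Subtype.ext (by
        show -(cos (z.2 * (2 * π / ((2 : ℕ) : ℝ))) • e0 n + sin (z.2 * (2 * π / ((2 : ℕ) : ℝ))) • em n z.1.1) =
          -(cos (π * z.2) • e0 n + sin (π * z.2) • em n z.1.1)
        have h2 : z.2 * (2 * π / ((2 : ℕ) : ℝ)) = π * z.2 := by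
          rw [Nat.cast_ofNat]
          ring
        rw [h2])
      rw [← e]
      rfl

/-- **the great circles through the pole** -/
theorem lamD (hn : 2 ≤ n) (ho : Odd n) : ∃ (h : ℕ) (_ : n = 2 * h + 1) (Λ : Ch (spG 𝒜) (2 * h)),
    LamD n (cov hB cp hD) (circPhi hB 𝒜) (AL hB 𝒜) h Λ := by
  obtain ⟨h, rfl⟩ := ho
  have hN : 2 ≤ 2 * h := by omega
  refine ⟨h, rfl, push (cxi 𝒜 hB cp) (cS (2 * h)), ?_, ?_, ?_⟩
  · exact (Cl_cS hN).push _
  · rw [ch_push, map_pow, ← pull_d, cxi_AL, map_zero, zero_pow (by omega), map_zero]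
  · obtain ⟨t, ht, h1⟩ := half_sum hN (even_two_mul h)
    refine ⟨t, ht, fun θ => ?_⟩
    rw [ch_circ, ch_push, cov_tr, kap_stX, h1, pow_mul, neg_one_sq, one_pow, one_mul]

end lam

end Pool.Agent.Lib.MP_ccbbf6_gt.L7
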