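import Pool.Agent.Lib.MP_ccbbf6_gt.Geo.Ifc
import Pool.Agent.Lib.MP_ccbbf6_gt.L4.FRa

/-!
# Level 7, PR1 (helper78): polar coordinates of the sphere in `Eu (n + 1)`

`hd x`, `tl x`: first coordinate and the other coordinates; `ang x`: the angle between `x` and `e0`;
`WW δ x = δ ang x (tl x / |tl x|)`, smooth outside `-ℝ₊ e0`; its derivative has kernel `ℝ x`.
-/

set_option autoImplicit false
set_option linter.unusedSectionVars false

open Set Filter Topology Metric Real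
open scoped ContDiff RealInnerProductSpace

noncomputable section

namespace Pool.Agent.Lib.MP_ccbbf6_gt.L7

open Geo L4

variable {n : ℕ}

/-- the first coordinate -/
def hd (n : ℕ) : Eu (n + 1) →L[ℝ] ℝ := EuclideanSpace.proj (0 : Fin (n + 1))

/-- the other coordinates -/
def tl (n : ℕ) : Eu (n + 1) →L[ℝ] Eu n := LinearMap.toContinuousLinearMap
  { toFun := fun x => WithLp.toLp 2 fun i : Fin n => x i.succ
    map_add' := fun x y => by ext i; simp
    map_smul' := fun r x => by ext i; simp }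

/-- the inclusion `v ↦ (0, v)` -/
def em (n : ℕ) : Eu n →L[ℝ] Eu (n + 1) := LinearMap.toContinuousLinearMap
  { toFun := fun v => WithLp.toLp 2 (Fin.cons 0 v : Fin (n + 1) → ℝ)
    map_add' := fun x y => by
      ext i
      refine Fin.cases ?_ (fun j => ?_) i <;> simp
    map_smul' := fun r x => by
      ext i
      refine Fin.cases ?_ (fun j => ?_) i <;> simp }

/-- the pole -/
def e0 (n : ℕ) : Eu (n + 1) := EuclideanSpace.single 0 1

theorem hd_apply (x : Eu (n + 1)) : hd n x = x 0 := rfl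

theorem tl_apply (x : Eu (n + 1)) (i : Fin n) : tl n x i = x i.succ := rfl

theorem em_zero' (v : Eu n) : em n v 0 = 0 := rfl

theorem em_succ (v : Eu n) (i : Fin n) : em n v i.succ = v i := rfl

theorem hd_em (v : Eu n) : hd n (em n v) = 0 := rfl

theorem tl_em (v : Eu n) : tl n (em n v) = v := by
  ext i
  rw [tl_apply, em_succ]

theorem hd_e0 : hd n (e0 n) = 1 := by
  rw [hd_apply, e0]
  simp

theorem tl_e0 : tl n (e0 n) = 0 := by
  ext i
  rw [tl_apply, e0]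
  simp

theorem decomp (x : Eu (n + 1)) : hd n x • e0 n + em n (tl n x) = x := by
  ext i
  refine Fin.cases ?_ (fun j => ?_) i
  · show hd n x * e0 n 0 + em n (tl n x) 0 = x 0
    rw [em_zero', hd_apply, e0]
    simp
  · show hd n x * e0 n j.succ + em n (tl n x) j.succ = x j.succ
    rw [em_succ, tl_apply, e0]
    simp

theorem norm_sq_decomp (x : Eu (n + 1)) : ‖x‖ ^ 2 = hd n x ^ 2 + ‖tl n x‖ ^ 2 := by
  rw [EuclideanSpace.real_norm_sq_eq, EuclideanSpace.real_norm_sq_eq, Fin.sum_univ_succ]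
  rfl

theorem eq_of_tl_zero {x : Eu (n + 1)} (h : tl n x = 0) : x = hd n x • e0 n := by
  conv_lhs => rw [← decomp x, h, map_zero, add_zero]

theorem eq_of_hd_tl {x y : Eu (n + 1)} (h : hd n x = hd n y) (h' : tl n x = tl n y) : x = y := by
  rw [← decomp x, ← decomp y, h, h']

theorem ne_zero_of_tl {x : Eu (n + 1)} (h : tl n x ≠ 0) : x ≠ 0 := by
  rintro rfl
  exact h (map_zero _)

theorem ne_zero_of_hd {x : Eu (n + 1)} (h : hd n x ≠ 0) : x ≠ 0 := by
  rintro rfl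
  exact h (map_zero _)

/-- the angle between `x` and `e0` -/
def ang (x : Eu (n + 1)) : ℝ := arccos (hd n x / ‖x‖)

theorem ang_nonneg (x : Eu (n + 1)) : 0 ≤ ang x := arccos_nonneg _

theorem ang_le (x : Eu (n + 1)) : ang x ≤ π := arccos_le_pi _

theorem hd_abs_le (x : Eu (n + 1)) : |hd n x| ≤ ‖x‖ := by
  have h := norm_sq_decomp x
  apply abs_le_of_sq_le_sq _ (norm_nonneg _)
  nlinarith [sq_nonneg ‖tl n x‖]

theorem hd_div_mem (x : Eu (n + 1)) : -1 ≤ hd n x / ‖x‖ ∧ hd n x / ‖x‖ ≤ 1 := by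
  have h : |hd n x / ‖x‖| ≤ 1 := by
    rw [abs_div, abs_of_nonneg (norm_nonneg x)]
    exact div_le_one_of_le₀ (hd_abs_le x) (norm_nonneg _)
  exact abs_le.1 h

theorem cos_ang {x : Eu (n + 1)} (hx : x ≠ 0) : ‖x‖ * cos (ang x) = hd n x := by
  unfold ang
  rw [cos_arccos (hd_div_mem x).1 (hd_div_mem x).2, mul_div_cancel₀ _ (norm_ne_zero_iff.2 hx)]

theorem sin_ang {x : Eu (n + 1)} (hx : x ≠ 0) : ‖x‖ * sin (ang x) = ‖tl n x‖ := by
  have hn : 0 < ‖x‖ := norm_pos_iff.2 hx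
  have h0 : 0 ≤ sin (ang x) := sin_nonneg_of_nonneg_of_le_pi (ang_nonneg x) (ang_le x)
  have h1 := norm_sq_decomp x
  have h2 := cos_ang hx
  have h3 := sin_sq_add_cos_sq (ang x)
  have h4 : (‖x‖ * sin (ang x)) ^ 2 = ‖tl n x‖ ^ 2 := by
    rw [← h2] at h1
    have : ‖x‖ ^ 2 * (sin (ang x) ^ 2 + cos (ang x) ^ 2) = ‖x‖ ^ 2 := by rw [h3, mul_one]
    nlinarith
  exact (sq_eq_sq₀ (mul_nonneg hn.le h0) (norm_nonneg _)).1 h4

theorem ang_smul {r : ℝ} (hr : 0 < r) (x : Eu (n + 1)) : ang (r • x) = ang x := by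
  unfold ang
  rw [map_smul, norm_smul, Real.norm_of_nonneg hr.le, smul_eq_mul, mul_div_mul_left _ _ hr.ne']

theorem ang_neg (x : Eu (n + 1)) : ang (-x) = π - ang x := by
  unfold ang
  rw [map_neg, norm_neg, neg_div, arccos_neg]

theorem div_ne {x : Eu (n + 1)} (h : tl n x ≠ 0) : hd n x / ‖x‖ ≠ -1 ∧ hd n x / ‖x‖ ≠ 1 := by
  have hx := ne_zero_of_tl h
  have hn : 0 < ‖x‖ := norm_pos_iff.2 hx
  have h1 := norm_sq_decomp x
  have h2 : 0 < ‖tl n x‖ ^ 2 := by positivity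
  constructor
  · intro h3
    rw [div_eq_iff hn.ne'] at h3
    rw [h3] at h1
    nlinarith
  · intro h3
    rw [div_eq_iff hn.ne'] at h3
    rw [h3] at h1
    nlinarith

theorem ang_pos {x : Eu (n + 1)} (h : tl n x ≠ 0) : 0 < ang x := by
  rcases (ang_nonneg x).lt_or_eq with h1 | h1
  · exact h1
  · exfalso
    have h2 := sin_ang (ne_zero_of_tl h)
    rw [← h1, sin_zero, mul_zero] at h2
    exact h (norm_eq_zero.1 h2.symm)

theorem ang_lt {x : Eu (n + 1)} (h : tl n x ≠ 0) : ang x < π := by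
  rcases (ang_le x).lt_or_eq with h1 | h1
  · exact h1
  · exfalso
    have h2 := sin_ang (ne_zero_of_tl h)
    rw [h1, sin_pi, mul_zero] at h2
    exact h (norm_eq_zero.1 h2.symm)

theorem ang_of_tl_zero_pos {x : Eu (n + 1)} (h : tl n x = 0) (h' : 0 < hd n x) : ang x = 0 := by
  have h1 := norm_sq_decomp x
  rw [h, norm_zero] at h1
  have h2 : ‖x‖ = hd n x := by
    have : ‖x‖ ^ 2 = hd n x ^ 2 := by rw [h1]; ring
    exact (sq_eq_sq₀ (norm_nonneg _) h'.le).1 this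
  unfold ang
  rw [h2, div_self h'.ne', arccos_one]

theorem ang_of_tl_zero_neg {x : Eu (n + 1)} (h : tl n x = 0) (h' : hd n x < 0) : ang x = π := by
  have h1 := ang_neg (-x)
  rw [neg_neg, ang_of_tl_zero_pos (x := -x) (by rw [map_neg, h, neg_zero]) (by rw [map_neg]; linarith)] at h1
  linarith

theorem ang_lt_half {x : Eu (n + 1)} (h : 0 < hd n x) : ang x < π / 2 := by
  unfold ang
  rw [arccos_lt_pi_div_two]
  have hx := ne_zero_of_hd h.ne'
  exact div_pos h (norm_pos_iff.2 hx)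

/-- the polar vector -/
def WW (δ : ℝ) (x : Eu (n + 1)) : Eu n := (δ * ang x / ‖tl n x‖) • tl n x

theorem WW_of_tl_zero (δ : ℝ) {x : Eu (n + 1)} (h : tl n x = 0) : WW δ x = 0 := by
  unfold WW
  rw [h, smul_zero]

theorem norm_WW {δ : ℝ} (hδ : 0 < δ) {x : Eu (n + 1)} (h : 0 < hd n x ∨ tl n x ≠ 0) : ‖WW δ x‖ = δ * ang x := by
  by_cases h0 : tl n x = 0
  · rw [WW_of_tl_zero δ h0, norm_zero, ang_of_tl_zero_pos h0 (h.resolve_right (not_not.2 h0)), mul_zero]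
  · have h1 : 0 < ‖tl n x‖ := norm_pos_iff.2 h0
    unfold WW
    rw [norm_smul, Real.norm_of_nonneg (div_nonneg (mul_nonneg hδ.le (ang_nonneg x)) h1.le), div_mul_cancel₀ _ h1.ne']

/-- `arctan |v| / |v|` -/
def Bv (v : Eu n) : ℝ := ∫ τ in (0 : ℝ)..1, (1 + ‖v‖ ^ 2 * τ ^ 2)⁻¹

theorem contDiff_Bv : ContDiff ℝ ∞ (Bv : Eu n → ℝ) := by
  refine FR.contDiff_param (f := fun (v : Eu n) (τ : ℝ) => (1 + ‖v‖ ^ 2 * τ ^ 2)⁻¹) ?_
  show ContDiff ℝ ∞ fun z : Eu n × ℝ => (1 + ‖z.1‖ ^ 2 * z.2 ^ 2)⁻¹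
  refine ContDiff.inv ?_ fun z => by positivity
  exact contDiff_const.add ((contDiff_fst.norm_sq ℝ).mul (contDiff_snd.pow 2))

theorem Bv_eq (v : Eu n) : ‖v‖ * Bv v = arctan ‖v‖ := by
  unfold Bv
  rw [← intervalIntegral.integral_const_mul]
  have h : ∀ τ ∈ uIcc (0 : ℝ) 1, HasDerivAt (fun τ => arctan (‖v‖ * τ)) (‖v‖ * (1 + ‖v‖ ^ 2 * τ ^ 2)⁻¹) τ := by
    intro τ _
    have h1 : HasDerivAt (fun τ : ℝ => ‖v‖ * τ) ‖v‖ τ := by
      have h2 := (hasDerivAt_id τ).const_mul ‖v‖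
      rwa [mul_one] at h2
    have h2 := h1.arctan
    convert h2 using 1
    rw [one_div, mul_pow]
    ring
  rw [intervalIntegral.integral_eq_sub_of_hasDerivAt h]
  · simp
  · refine ContinuousOn.intervalIntegrable ?_
    refine ContinuousOn.mul continuousOn_const (ContinuousOn.inv₀ ?_ fun τ _ => by positivity)
    fun_prop

theorem Bv_zero : Bv (0 : Eu n) = 1 := by
  unfold Bv
  simp

theorem ang_eq_arctan {x : Eu (n + 1)} (h : 0 < hd n x) : ang x = arctan ‖(hd n x)⁻¹ • tl n x‖ := by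
  have hx := ne_zero_of_hd h.ne'
  have hn : 0 < ‖x‖ := norm_pos_iff.2 hx
  unfold ang
  rw [arccos_eq_arctan (div_pos h hn)]
  congr 1
  have h1 : 1 - (hd n x / ‖x‖) ^ 2 = (‖tl n x‖ / ‖x‖) ^ 2 := by
    have h2 := norm_sq_decomp x
    field_simp
    linarith
  rw [h1, sqrt_sq (by positivity), norm_smul, norm_inv, Real.norm_of_nonneg h.le]
  field_simp

theorem WW_eq (δ : ℝ) {x : Eu (n + 1)} (h : 0 < hd n x) :
    WW δ x = (δ * Bv ((hd n x)⁻¹ • tl n x)) • ((hd n x)⁻¹ • tl n x) := by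
  by_cases h0 : tl n x = 0
  · rw [WW_of_tl_zero δ h0, h0, smul_zero, smul_zero]
  · have h1 : 0 < ‖tl n x‖ := norm_pos_iff.2 h0
    unfold WW
    rw [ang_eq_arctan h, ← Bv_eq, smul_smul]
    congr 1
    rw [norm_smul, norm_inv, Real.norm_of_nonneg h.le]
    field_simp

theorem contDiffAt_ang {x : Eu (n + 1)} (h : tl n x ≠ 0) : ContDiffAt ℝ ∞ (ang : Eu (n + 1) → ℝ) x := by
  have hx := ne_zero_of_tl h
  have h1 : ContDiffAt ℝ ∞ (fun x : Eu (n + 1) => hd n x / ‖x‖) x :=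
    (hd n).contDiff.contDiffAt.div (contDiffAt_norm ℝ hx) (norm_ne_zero_iff.2 hx)
  have h2 : ContDiffAt ℝ ∞ arccos (hd n x / ‖x‖) := contDiffAt_arccos (div_ne h).1 (div_ne h).2
  exact ContDiffAt.comp (g := arccos) (f := fun x : Eu (n + 1) => hd n x / ‖x‖) x h2 h1

theorem contDiffAt_WW (δ : ℝ) {x : Eu (n + 1)} (h : 0 < hd n x ∨ tl n x ≠ 0) : ContDiffAt ℝ ∞ (WW δ) x := by
  by_cases h0 : tl n x = 0
  · have h1 : 0 < hd n x := h.resolve_right (not_not.2 h0)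
    have h2 : WW δ =ᶠ[𝓝 x] fun y => (δ * Bv ((hd n y)⁻¹ • tl n y)) • ((hd n y)⁻¹ • tl n y) := by
      filter_upwards [(isOpen_lt continuous_const (hd n).continuous).mem_nhds h1] with y hy
      exact WW_eq δ hy
    refine ContDiffAt.congr_of_eventuallyEq ?_ h2
    have h3 : ContDiffAt ℝ ∞ (fun y : Eu (n + 1) => (hd n y)⁻¹ • tl n y) x :=
      ((hd n).contDiff.contDiffAt.inv h1.ne').smul (tl n).contDiff.contDiffAt
    exact (contDiffAt_const.mul (contDiff_Bv.contDiffAt.comp x h3)).smul h3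
  · have h1 : ContDiffAt ℝ ∞ (fun x : Eu (n + 1) => ‖tl n x‖) x :=
      ContDiffAt.comp (g := fun v : Eu n => ‖v‖) (f := fun x => tl n x) x (contDiffAt_norm ℝ h0) (tl n).contDiff.contDiffAt
    have h2 : ContDiffAt ℝ ∞ (fun x : Eu (n + 1) => δ * ang x / ‖tl n x‖) x :=
      (contDiffAt_const.mul (contDiffAt_ang h0)).div h1 (norm_ne_zero_iff.2 h0)
    exact h2.smul (tl n).contDiff.contDiffAt

/-- the inverse of `WW` -/
def ZZ (δ : ℝ) (w : Eu n) : Eu (n + 1) := cos (‖w‖ / δ) • e0 n + em n ((sin (‖w‖ / δ) / ‖w‖) • w)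

theorem ZZ_WW {δ : ℝ} (hδ : 0 < δ) {x : Eu (n + 1)} (h : 0 < hd n x ∨ tl n x ≠ 0) : ZZ δ (WW δ x) = ‖x‖⁻¹ • x := by
  have hx : x ≠ 0 := by
    rcases h with h | h
    · exact ne_zero_of_hd h.ne'
    · exact ne_zero_of_tl h
  have hn : 0 < ‖x‖ := norm_pos_iff.2 hx
  unfold ZZ
  rw [norm_WW hδ h, mul_div_cancel_left₀ _ hδ.ne']
  by_cases h0 : tl n x = 0
  · have h1 : 0 < hd n x := h.resolve_right (not_not.2 h0)
    rw [WW_of_tl_zero δ h0, smul_zero, map_zero, add_zero, ang_of_tl_zero_pos h0 h1, cos_zero, one_smul]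
    have h2 := eq_of_tl_zero h0
    have h3 : ‖x‖ = hd n x := by
      have h4 := norm_sq_decomp x
      rw [h0, norm_zero] at h4
      have : ‖x‖ ^ 2 = hd n x ^ 2 := by rw [h4]; ring
      exact (sq_eq_sq₀ (norm_nonneg _) h1.le).1 this
    rw [h3]
    conv_rhs => rw [h2]
    rw [smul_smul, map_smul, hd_e0, smul_eq_mul, mul_one, inv_mul_cancel₀ h1.ne', one_smul]
  · have h1 : 0 < ‖tl n x‖ := norm_pos_iff.2 h0
    have h2 := ang_pos h0
    refine eq_of_hd_tl ?_ ?_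
    · rw [map_add, map_smul, hd_e0, hd_em, map_smul, ← cos_ang hx, smul_eq_mul, smul_eq_mul]
      field_simp
      ring
    · rw [map_add, map_smul, tl_e0, tl_em, map_smul, smul_zero, zero_add]
      unfold WW
      rw [smul_smul]
      congr 1
      have h3 := sin_ang hx
      have h4 : sin (ang x) = ‖tl n x‖ / ‖x‖ := by rw [← h3]; field_simp
      rw [h4]
      field_simp

theorem diff_ZZ (δ : ℝ) {w : Eu n} (hw : w ≠ 0) : DifferentiableAt ℝ (ZZ δ) w := by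
  have h1 : DifferentiableAt ℝ (fun w : Eu n => ‖w‖) w := (contDiffAt_norm ℝ hw).differentiableAt (n := ∞) (by simp)
  have h2 : DifferentiableAt ℝ (fun w : Eu n => ‖w‖ / δ) w := by
    simp only [div_eq_mul_inv]
    exact h1.mul_const δ⁻¹
  have h3 : DifferentiableAt ℝ (fun w : Eu n => cos (‖w‖ / δ) • e0 n) w := h2.cos.smul_const _
  have h4 : DifferentiableAt ℝ (fun w : Eu n => (sin (‖w‖ / δ) / ‖w‖) • w) w := by
    simp only [div_eq_mul_inv] at h2 ⊢
    exact (h2.sin.mul (h1.inv (norm_ne_zero_iff.2 hw))).smul differentiableAt_id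
  exact h3.add ((em n).differentiableAt.comp w h4)

/-- **the derivative of `WW` has kernel `ℝ x`** -/
theorem ker_WW {δ : ℝ} (hδ : 0 < δ) {x : Eu (n + 1)} (h : 0 < hd n x ∨ tl n x ≠ 0) {z : Eu (n + 1)}
    (hz : fderiv ℝ (WW δ) x z = 0) : ∃ r : ℝ, z = r • x := by
  have hx : x ≠ 0 := by
    rcases h with h | h
    · exact ne_zero_of_hd h.ne'
    · exact ne_zero_of_tl h
  have hn : 0 < ‖x‖ := norm_pos_iff.2 hx
  by_cases h0 : tl n x = 0
  · have h1 : 0 < hd n x := h.resolve_right (not_not.2 h0)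
    have h2 : WW δ =ᶠ[𝓝 x] fun y => (δ * Bv ((hd n y)⁻¹ • tl n y)) • ((hd n y)⁻¹ • tl n y) := by
      filter_upwards [(isOpen_lt continuous_const (hd n).continuous).mem_nhds h1] with y hy
      exact WW_eq δ hy
    have h3 : DifferentiableAt ℝ (fun y : Eu (n + 1) => (hd n y)⁻¹) x :=
      (hd n).differentiableAt.inv h1.ne'
    have h4 : HasFDerivAt (fun y : Eu (n + 1) => (hd n y)⁻¹ • tl n y)
        ((hd n x)⁻¹ • tl n + (fderiv ℝ (fun y : Eu (n + 1) => (hd n y)⁻¹) x).smulRight (tl n x)) x :=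
      h3.hasFDerivAt.smul (tl n).hasFDerivAt
    have h5 : DifferentiableAt ℝ (fun y : Eu (n + 1) => δ * Bv ((hd n y)⁻¹ • tl n y)) x :=
      DifferentiableAt.const_mul (DifferentiableAt.comp (g := Bv) x (contDiff_Bv.contDiffAt.differentiableAt (by simp))
        h4.differentiableAt) δ
    have h6 := (h5.hasFDerivAt.smul h4).congr_of_eventuallyEq h2
    have h7 : fderiv ℝ (WW δ) x z = (δ * Bv ((hd n x)⁻¹ • tl n x)) • ((hd n x)⁻¹ • tl n z + (fderiv ℝ (fun y : Eu (n + 1) => (hd n y)⁻¹) x z) • tl n x) +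
        (fderiv ℝ (fun y : Eu (n + 1) => δ * Bv ((hd n y)⁻¹ • tl n y)) x z) • ((hd n x)⁻¹ • tl n x) := by
      rw [h6.fderiv]
      rfl
    rw [h7, h0, smul_zero, smul_zero, smul_zero, add_zero, add_zero, Bv_zero, mul_one, smul_smul, smul_eq_zero] at hz
    have h8 : tl n z = 0 := hz.resolve_left (mul_ne_zero hδ.ne' (inv_ne_zero h1.ne'))
    refine ⟨hd n z / hd n x, ?_⟩
    have h9 := eq_of_tl_zero h0
    have h10 : (hd n z / hd n x) • x = (hd n z / hd n x) • (hd n x • e0 n) := by rw [← h9]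
    rw [h10, smul_smul, div_mul_cancel₀ _ h1.ne']
    exact eq_of_tl_zero h8
  · have hW0 : WW δ x ≠ 0 := by
      rw [← norm_ne_zero_iff, norm_WW hδ h]
      exact (mul_pos hδ (ang_pos h0)).ne'
    have h1 : HasFDerivAt (WW δ) (fderiv ℝ (WW δ) x) x := ((contDiffAt_WW δ h).differentiableAt (by simp)).hasFDerivAt
    have h2 := (diff_ZZ δ hW0).hasFDerivAt.comp x h1
    have h3 : (fun y : Eu (n + 1) => ‖y‖⁻¹ • y) =ᶠ[𝓝 x] ZZ δ ∘ WW δ := by
      filter_upwards [(isOpen_ne.preimage (tl n).continuous).mem_nhds h0] with y hy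
      exact (ZZ_WW hδ (Or.inr hy)).symm
    have h4 := h2.congr_of_eventuallyEq h3
    have h5 : DifferentiableAt ℝ (fun y : Eu (n + 1) => ‖y‖) x := (contDiffAt_norm ℝ hx).differentiableAt (n := ∞) (by simp)
    have h6 := h5.hasFDerivAt.smul h4
    have h7 : (fun y : Eu (n + 1) => ‖y‖ • (‖y‖⁻¹ • y)) =ᶠ[𝓝 x] fun y => y := by
      filter_upwards [isOpen_ne.mem_nhds hx] with y hy
      rw [smul_smul, mul_inv_cancel₀ (norm_ne_zero_iff.2 hy), one_smul]
    have h8 := (hasFDerivAt_id (𝕜 := ℝ) x).congr_of_eventuallyEq h7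
    have h9 := congrArg (fun L : Eu (n + 1) →L[ℝ] Eu (n + 1) => L z) (h6.unique h8)
    have h10 : ‖x‖ • (fderiv ℝ (ZZ δ) (WW δ x) (fderiv ℝ (WW δ) x z)) + (fderiv ℝ (fun y : Eu (n + 1) => ‖y‖) x z) • (‖x‖⁻¹ • x) = z := h9
    rw [hz, map_zero, smul_zero, zero_add, smul_smul] at h10
    exact ⟨_, h10.symm⟩

end Pool.Agent.Lib.MP_ccbbf6_gt.L7
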