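import Pool.Agent.Lib.MP_ccbbf6_gt.L5.G3S
import Pool.Agent.Lib.MP_ccbbf6_gt.L7.PR1

/-!
# Level 7, PR2 (helper78): the map `prh : Eu (n + 1) - {0} → M`

`prh x = c_ξ (δ ang x)`, `ξ = tl x / |tl x|`, `c_ξ` the geodesic from `cp 0` in the direction `ξ`.
`Far1 M`: all geodesics with the same foot meet at time `π` (`κ = n - 1`); `Dl 𝒜 δ`: `δ = 1` and `Far1 M`, or `δ = 2` and `HK 0`.
`smAt_prh`: `prh` is smooth at all `x ≠ 0` (the far pole by `prh (-x) = aM (prh x)` resp. `prh (-x) = prh x`).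
-/

set_option autoImplicit false
set_option linter.unusedSectionVars false

open Set Filter Topology Metric Real Module
open scoped ContDiff RealInnerProductSpace

noncomputable section

namespace Pool.Agent.Lib.MP_ccbbf6_gt.L7

open Geo L4 L4.ORI L5

variable {n : ℕ} {M : Type*} [MetricSpace M] [CompactSpace M] {𝒜 : SDist n M}

theorem smAt_Ex (hB : Bl M) (p : M) (ξ : Eu n) : SmAt 𝒜 (fun η => 𝒜.Ex p η) ξ :=
  ⟨(continuous_Ex 𝒜 hB p).continuousAt, contDiffAt_Ex 𝒜 hB p ξ (𝒜.mem _)⟩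

/-- all geodesics with the same foot meet at time `π` -/
def Far1 (M : Type*) [MetricSpace M] : Prop := ∀ c c' : Gs M, c.1 0 = c'.1 0 → c.1 π = c'.1 π

theorem far1_of_HK (hB : Bl M) {κ : ℕ} (hk : 𝒜.HK κ) (hn : κ + 1 = n) : Far1 M := by
  intro c c' h
  have h1 : 𝒜.PV (c.1 0) (𝒜.vel c.1 0) = ⊤ := by
    apply Submodule.eq_top_of_finrank_eq
    rw [finrank_PV 𝒜 hB hk _ (vel_ne 𝒜 c), finrank_euclideanSpace, Fintype.card_fin, hn]
  have h2 : c' = gw 𝒜 hB c (𝒜.vel c'.1 0) := eq_of_vel' 𝒜 (by rw [gw_zero, h])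
    (by rw [gw_vel 𝒜 hB c (vel_ne 𝒜 c'), nrm_of_norm (vel_norm 𝒜 c')])
  rw [h2]
  exact (top_of_mem 𝒜 hB c (vel_ne 𝒜 c') (by rw [h1]; trivial)).symm

section far

/-- a geodesic with foot `x` -/
def bG (hB : Bl M) (𝒜 : SDist n M) (cp : Gs M) (x : M) : Gs M := gvg 𝒜 hB x (𝒜.vel cp.1 0) (vel_norm 𝒜 cp)

theorem bG_zero (hB : Bl M) (cp : Gs M) (x : M) : (bG hB 𝒜 cp x).1 0 = x := (gvg_vel 𝒜 hB x _ _).1

/-- the far point -/
def aM (hB : Bl M) (𝒜 : SDist n M) (cp : Gs M) (x : M) : M := (bG hB 𝒜 cp x).1 π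

theorem aM_eq (hB : Bl M) (hF : Far1 M) (cp c : Gs M) : aM hB 𝒜 cp (c.1 0) = c.1 π := hF _ _ (bG_zero hB cp _)

theorem aM_eq' (hB : Bl M) (hF : Far1 M) (cp c : Gs M) (t : ℝ) : aM hB 𝒜 cp (c.1 t) = c.1 (t + π) := by
  have h := aM_eq (𝒜 := 𝒜) hB hF cp (shift t c)
  rw [G3.shift_zero_pt] at h
  rw [h]
  show c.1 (π + t) = c.1 (t + π)
  rw [add_comm]

theorem aM_aM (hB : Bl M) (hF : Far1 M) (cp : Gs M) (x : M) : aM hB 𝒜 cp (aM hB 𝒜 cp x) = x := by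
  have h := aM_eq' (𝒜 := 𝒜) hB hF cp (bG hB 𝒜 cp x) π
  have h1 := (bG hB 𝒜 cp x).2.closed 𝒜 hB 0
  rw [zero_add, two_mul] at h1
  rw [h1, bG_zero] at h
  exact h

variable {E : Type*} [NormedAddCommGroup E] [NormedSpace ℝ E]

theorem smAt_aM (hB : Bl M) (hF : Far1 M) (cp : Gs M) {g : E → M} {u : E} (hg : SmAt 𝒜 g u) :
    SmAt 𝒜 (fun v => aM hB 𝒜 cp (g v)) u := by
  have hw0 : DD 𝒜 (g u) (g u) (𝒜.vel cp.1 0) ≠ 0 := by
    intro h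
    have h1 := CC_DD 𝒜 (𝒜.mem (g u)) (𝒜.vel cp.1 0)
    rw [h, map_zero] at h1
    exact vel_ne 𝒜 cp h1.symm
  have hfoot : (fun v => (bG hB 𝒜 cp (g v)).1 0) = g := by
    funext v
    exact bG_zero hB cp _
  have hV : SmV 𝒜 (g u) (fun v => (bG hB 𝒜 cp (g v)).1 0) (fun v => DD 𝒜 (g u) (g v) (𝒜.vel cp.1 0)) u := by
    rw [hfoot]
    have h1 : (fun v => CC 𝒜 (g u) (g v) (DD 𝒜 (g u) (g v) (𝒜.vel cp.1 0))) =ᶠ[𝓝 u] fun _ => 𝒜.vel cp.1 0 := by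
      filter_upwards [hg.cont.eventually ((𝒜.ψ (g u)).open_source.mem_nhds (𝒜.mem _))] with v hv
      exact CC_DD 𝒜 hv _
    exact contDiffAt_const.congr_of_eventuallyEq h1
  have h2 := smGA_gw (𝒜 := 𝒜) hB (c := fun v => bG hB 𝒜 cp (g v)) (w := fun v => DD 𝒜 (g u) (g v) (𝒜.vel cp.1 0)) (u := u)
    (p := g u) (by rw [hfoot]; exact hg) (by rw [bG_zero]; exact 𝒜.mem _) hV hw0
  refine (h2.at hB π).congr (Eventually.of_forall fun v => ?_)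
  have h3 := aM_eq (𝒜 := 𝒜) hB hF cp (gw 𝒜 hB (bG hB 𝒜 cp (g v)) (DD 𝒜 (g u) (g v) (𝒜.vel cp.1 0)))
  rw [gw_zero, bG_zero] at h3
  exact h3

end far

/-- the map to `M` -/
def prh (hB : Bl M) (𝒜 : SDist n M) (cp : Gs M) (δ : ℝ) (x : Eu (n + 1)) : M := (gw 𝒜 hB cp (tl n x)).1 (δ * ang x)

theorem gw_zero_vec (hB : Bl M) (c : Gs M) : gw 𝒜 hB c 0 = c := by
  unfold gw
  rw [dif_neg (by simp)]

theorem prh_smul (hB : Bl M) (cp : Gs M) (δ : ℝ) {r : ℝ} (hr : 0 < r) (x : Eu (n + 1)) :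
    prh hB 𝒜 cp δ (r • x) = prh hB 𝒜 cp δ x := by
  unfold prh
  rw [ang_smul hr, map_smul]
  by_cases h : tl n x = 0
  · rw [h, smul_zero]
  · rw [gw_eq 𝒜 hB cp (smul_ne_zero hr.ne' h), gw_eq 𝒜 hB cp h, rad_smul _ hr]

theorem prh_eq_Ex (hB : Bl M) (cp : Gs M) (δ : ℝ) {x : Eu (n + 1)} (h : 0 < hd n x ∨ tl n x ≠ 0) :
    prh hB 𝒜 cp δ x = 𝒜.Ex (cp.1 0) (WW δ x) := by
  unfold prh
  by_cases h0 : tl n x = 0
  · rw [WW_of_tl_zero δ h0, Ex_zero 𝒜 hB, ang_of_tl_zero_pos h0 (h.resolve_right (not_not.2 h0)), mul_zero, gw_zero]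
  · rw [gw_eq 𝒜 hB cp h0]
    rfl

theorem smAt_prh_of (hB : Bl M) (cp : Gs M) (δ : ℝ) {x : Eu (n + 1)} (h : 0 < hd n x ∨ tl n x ≠ 0) :
    SmAt 𝒜 (prh hB 𝒜 cp δ) x := by
  have h1 : SmAt 𝒜 (fun y : Eu (n + 1) => 𝒜.Ex (cp.1 0) (WW δ y)) x :=
    SmAt.comp (g := fun η => 𝒜.Ex (cp.1 0) η) (f := WW δ) (smAt_Ex hB _ _) (contDiffAt_WW δ h)
  refine h1.congr ?_
  have h2 : ∀ᶠ y in 𝓝 x, 0 < hd n y ∨ tl n y ≠ 0 := by
    rcases h with h | h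
    · filter_upwards [(isOpen_lt continuous_const (hd n).continuous).mem_nhds h] with y hy
      exact Or.inl hy
    · filter_upwards [(isOpen_ne.preimage (tl n).continuous).mem_nhds h] with y hy
      exact Or.inr hy
  filter_upwards [h2] with y hy
  exact prh_eq_Ex hB cp δ hy

theorem gw_neg (hB : Bl M) (cp : Gs M) {w : Eu n} (hw : w ≠ 0) (t : ℝ) :
    (gw 𝒜 hB cp (-w)).1 t = (gw 𝒜 hB cp w).1 (-t) := by
  rw [gw_eq 𝒜 hB cp (neg_ne_zero.2 hw), gw_eq 𝒜 hB cp hw]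
  congr 1
  unfold rad
  rw [norm_neg, smul_neg, ← neg_smul]
  congr 1
  ring

theorem hd_of_not {x : Eu (n + 1)} (hx : x ≠ 0) (h : ¬(0 < hd n x ∨ tl n x ≠ 0)) : tl n x = 0 ∧ hd n x < 0 := by
  rw [not_or, not_not, not_lt] at h
  refine ⟨h.2, lt_of_le_of_ne h.1 fun h1 => hx ?_⟩
  rw [eq_of_tl_zero h.2, h1, zero_smul]

theorem prh_neg1 (hB : Bl M) (hF : Far1 M) (cp : Gs M) {x : Eu (n + 1)} (hx : x ≠ 0) :
    prh hB 𝒜 cp 1 (-x) = aM hB 𝒜 cp (prh hB 𝒜 cp 1 x) := by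
  unfold prh
  rw [ang_neg, map_neg, one_mul, one_mul]
  by_cases h : tl n x = 0
  · rw [h, neg_zero, gw_zero_vec, aM_eq' hB hF]
    rcases lt_or_ge 0 (hd n x) with h1 | h1
    · rw [ang_of_tl_zero_pos h h1]
      refine congrArg _ ?_
      ring
    · have h2 := hd_of_not hx (by rw [not_or, not_not]; exact ⟨not_lt.2 h1, h⟩)
      rw [ang_of_tl_zero_neg h h2.2]
      have h3 := cp.2.closed 𝒜 hB 0
      rw [zero_add, two_mul] at h3
      rw [h3]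
      refine congrArg _ ?_
      ring
  · rw [gw_neg hB cp h, aM_eq' hB hF]
    have h3 := (gw 𝒜 hB cp (tl n x)).2.closed 𝒜 hB (-(π - ang x))
    rw [← h3]
    refine congrArg _ ?_
    ring

theorem prh_neg2 (hB : Bl M) (cp : Gs M) {x : Eu (n + 1)} (hx : x ≠ 0) :
    prh hB 𝒜 cp 2 (-x) = prh hB 𝒜 cp 2 x := by
  unfold prh
  rw [ang_neg, map_neg]
  by_cases h : tl n x = 0
  · rw [h, neg_zero, gw_zero_vec]
    have h3 := cp.2.closed 𝒜 hB 0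
    rw [zero_add] at h3
    rcases lt_or_ge 0 (hd n x) with h1 | h1
    · rw [ang_of_tl_zero_pos h h1, mul_zero, sub_zero, h3]
    · have h2 := hd_of_not hx (by rw [not_or, not_not]; exact ⟨not_lt.2 h1, h⟩)
      rw [ang_of_tl_zero_neg h h2.2, sub_self, mul_zero, h3]
  · rw [gw_neg hB cp h]
    have h3 := (gw 𝒜 hB cp (tl n x)).2.closed 𝒜 hB (-(2 * (π - ang x)))
    rw [← h3]
    refine congrArg _ ?_
    ring

/-- the two cases: `δ = 1`, `κ = n - 1`, and `δ = 2`, `κ = 0` -/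
def Dl (𝒜 : SDist n M) (δ : ℝ) : Prop := (δ = 1 ∧ Far1 M) ∨ (δ = 2 ∧ 𝒜.HK 0)

theorem Dl.pos {δ : ℝ} (h : Dl 𝒜 δ) : 0 < δ := by
  rcases h with ⟨h, -⟩ | ⟨h, -⟩ <;> rw [h] <;> norm_num

theorem smAt_prh (hB : Bl M) (cp : Gs M) {δ : ℝ} (hD : Dl 𝒜 δ) {x : Eu (n + 1)} (hx : x ≠ 0) :
    SmAt 𝒜 (prh hB 𝒜 cp δ) x := by
  by_cases h : 0 < hd n x ∨ tl n x ≠ 0
  · exact smAt_prh_of hB cp δ h
  obtain ⟨h1, h2⟩ := hd_of_not hx h
  have h3 : SmAt 𝒜 (prh hB 𝒜 cp δ) (-x) := smAt_prh_of hB cp δ (Or.inl (by rw [map_neg]; linarith))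
  have h4 : SmAt 𝒜 (fun y : Eu (n + 1) => prh hB 𝒜 cp δ (-y)) x := SmAt.comp (g := prh hB 𝒜 cp δ) (f := fun y => -y) h3
    contDiffAt_id.neg
  rcases hD with ⟨rfl, hF⟩ | ⟨rfl, -⟩
  · refine (smAt_aM hB hF cp h4).congr ?_
    filter_upwards [isOpen_ne.mem_nhds hx] with y hy
    have h5 := prh_neg1 (𝒜 := 𝒜) hB hF cp (neg_ne_zero.2 hy)
    rw [neg_neg] at h5
    exact h5
  · refine h4.congr ?_
    filter_upwards [isOpen_ne.mem_nhds hx] with y hy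
    exact (prh_neg2 hB cp hy).symm

/-! ### great circles through the pole -/

theorem prh_circle (hB : Bl M) (cp : Gs M) {δ : ℝ} (hD : Dl 𝒜 δ) {ξ : Eu n} (hξ : ‖ξ‖ = 1) (θ : ℝ) :
    prh hB 𝒜 cp δ (cos θ • e0 n + sin θ • em n ξ) = (gw 𝒜 hB cp ξ).1 (δ * θ) := by
  have hξ0 : ξ ≠ 0 := by
    intro h
    rw [h, norm_zero] at hξ
    exact zero_ne_one hξ
  -- reduction to `0 ≤ θ < 2 π`
  have key : ∀ θ : ℝ, 0 ≤ θ → θ ≤ π → ∀ ξ : Eu n, ‖ξ‖ = 1 →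
      prh hB 𝒜 cp δ (cos θ • e0 n + sin θ • em n ξ) = (gw 𝒜 hB cp ξ).1 (δ * θ) := by
    intro θ h0 h1 ξ hξ
    have hξ0 : ξ ≠ 0 := by
      intro h
      rw [h, norm_zero] at hξ
      exact zero_ne_one hξ
    obtain ⟨x, hx⟩ : ∃ x, x = cos θ • e0 n + sin θ • em n ξ := ⟨_, rfl⟩
    have e1 : hd n x = cos θ := by rw [hx, map_add, map_smul, map_smul, hd_e0, hd_em, smul_zero, add_zero, smul_eq_mul, mul_one]
    have e2 : tl n x = sin θ • ξ := by rw [hx, map_add, map_smul, map_smul, tl_e0, tl_em, smul_zero, zero_add]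
    have e3 : ‖x‖ = 1 := by
      have h2 := norm_sq_decomp x
      rw [e1, e2, norm_smul, hξ, mul_one, Real.norm_eq_abs, sq_abs, cos_sq_add_sin_sq] at h2
      exact (sq_eq_sq₀ (norm_nonneg _) zero_le_one).1 (by rw [h2, one_pow])
    have e4 : ang x = θ := by
      unfold ang
      rw [e1, e3, div_one, arccos_cos h0 h1]
    rw [← hx]
    rcases h0.lt_or_eq with h2 | h2
    · rcases h1.lt_or_eq with h3 | h3
      · have h4 : 0 < sin θ := sin_pos_of_pos_of_lt_pi h2 h3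
        unfold prh
        rw [e4, e2, gw_eq 𝒜 hB cp (smul_ne_zero h4.ne' hξ0), gw_eq 𝒜 hB cp hξ0, rad_smul _ h4]
      · have h5 : tl n x = 0 := by rw [e2, h3, sin_pi, zero_smul]
        unfold prh
        rw [h5, gw_zero_vec, e4, h3]
        rcases hD with ⟨rfl, hF⟩ | ⟨rfl, -⟩
        · rw [one_mul]
          exact hF _ _ (gw_zero 𝒜 hB cp ξ).symm
        · have h6 := cp.2.closed 𝒜 hB 0
          have h7 := (gw 𝒜 hB cp ξ).2.closed 𝒜 hB 0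
          rw [zero_add] at h6 h7
          rw [h6, h7, gw_zero]
    · unfold prh
      rw [e4, ← h2, mul_zero, gw_zero, gw_zero]
  have per : ∀ θ : ℝ, (gw 𝒜 hB cp ξ).1 (δ * (θ + 2 * π)) = (gw 𝒜 hB cp ξ).1 (δ * θ) := by
    intro θ
    rcases hD with ⟨rfl, hF⟩ | ⟨rfl, -⟩
    · rw [one_mul, one_mul]
      exact (gw 𝒜 hB cp ξ).2.closed 𝒜 hB θ
    · have h7 := (gw 𝒜 hB cp ξ).2.closed 𝒜 hB (2 * θ)
      have h8 := (gw 𝒜 hB cp ξ).2.closed 𝒜 hB (2 * θ + 2 * π)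
      rw [← h7, ← h8]
      refine congrArg _ ?_
      ring
  -- `-π ≤ θ ≤ π`
  have key2 : ∀ θ : ℝ, -π ≤ θ → θ ≤ π → prh hB 𝒜 cp δ (cos θ • e0 n + sin θ • em n ξ) = (gw 𝒜 hB cp ξ).1 (δ * θ) := by
    intro θ h1 h2
    rcases le_total 0 θ with h3 | h3
    · exact key θ h3 h2 ξ hξ
    · have h4 := key (-θ) (by linarith) (by linarith) (-ξ) (by rw [norm_neg, hξ])
      rw [cos_neg, sin_neg, map_neg, neg_smul, smul_neg, neg_neg, gw_neg hB cp hξ0] at h4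
      rw [h4]
      refine congrArg _ ?_
      ring
  -- general `θ`
  obtain ⟨k, hk⟩ : ∃ k : ℤ, θ - k * (2 * π) ∈ Ico (-π) π := by
    have h1 := toIcoMod_mem_Ico (two_pi_pos) (-π) θ
    refine ⟨toIcoDiv two_pi_pos (-π) θ, ?_⟩
    rw [toIcoMod] at h1
    rw [zsmul_eq_mul] at h1
    rw [show -π + 2 * π = π by ring] at h1
    exact h1
  have h5 := key2 _ hk.1 hk.2.le
  have h6 : ∀ (k : ℤ) (θ : ℝ), (gw 𝒜 hB cp ξ).1 (δ * (θ - k * (2 * π))) = (gw 𝒜 hB cp ξ).1 (δ * θ) := by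
    intro k
    induction k using Int.induction_on with
    | zero => intro θ; simp
    | succ k ih =>
      intro θ
      have h7 := ih (θ - 2 * π)
      have h8 := per (θ - 2 * π)
      rw [sub_add_cancel] at h8
      rw [h8, ← h7]
      refine congrArg _ ?_
      push_cast
      ring
    | pred k ih =>
      intro θ
      have h7 := ih (θ + 2 * π)
      have h8 := per θ
      rw [← h8, ← h7]
      refine congrArg _ ?_
      push_cast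
      ring
  rw [h6, cos_sub_int_mul_two_pi, sin_sub_int_mul_two_pi] at h5
  exact h5

end Pool.Agent.Lib.MP_ccbbf6_gt.L7
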