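import Pool.Agent.Lib.MP_ccbbf6_gt.L7.PR2

/-!
# Level 7, PR3 (helper78): the derivative of `prh` has kernel `ℝ x`

`dM 𝒜 g u`: the derivative of `g : E → M` at `u` in the chart centered at `g u`.
-/

set_option autoImplicit false
set_option linter.unusedSectionVars false

open Set Filter Topology Metric Real Module
open scoped ContDiff RealInnerProductSpace

noncomputable section

namespace Pool.Agent.Lib.MP_ccbbf6_gt.L7

open Geo L4 L4.ORI L5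

variable {n : ℕ} {M : Type*} [MetricSpace M] [CompactSpace M] {𝒜 : SDist n M}

section dM

variable {E : Type*} [NormedAddCommGroup E] [NormedSpace ℝ E] {E' : Type*} [NormedAddCommGroup E'] [NormedSpace ℝ E']

/-- the derivative in the chart centered at `g u` -/
def dM (𝒜 : SDist n M) (g : E → M) (u : E) : E →L[ℝ] Eu n := fderiv ℝ (fun v => 𝒜.ψ (g u) (g v)) u

theorem hasFDerivAt_dM {g : E → M} {u : E} (hg : SmAt 𝒜 g u) : HasFDerivAt (fun v => 𝒜.ψ (g u) (g v)) (dM 𝒜 g u) u :=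
  (hg.2.differentiableAt (by simp)).hasFDerivAt

theorem hasFDerivAt_dM_chart {g : E → M} {u : E} (hg : SmAt 𝒜 g u) {q : M} (hq : g u ∈ (𝒜.ψ q).source) :
    HasFDerivAt (fun v => 𝒜.ψ q (g v)) ((CC 𝒜 q (g u)).comp (dM 𝒜 g u)) u := by
  have h1 : HasFDerivAt (𝒜.ch q (g u)) (CC 𝒜 q (g u)) (𝒜.ψ (g u) (g u)) := by
    rw [𝒜.zero]
    exact hasFDerivAt_ch 𝒜 hq
  have h2 := h1.comp u (hasFDerivAt_dM hg)
  refine h2.congr_of_eventuallyEq ?_
  filter_upwards [hg.cont.eventually ((𝒜.ψ (g u)).open_source.mem_nhds (𝒜.mem _))] with v hv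
  show 𝒜.ψ q (g v) = 𝒜.ψ q ((𝒜.ψ (g u)).symm (𝒜.ψ (g u) (g v)))
  rw [(𝒜.ψ (g u)).left_inv hv]

theorem dM_congr {g g' : E → M} {u : E} (e : g' =ᶠ[𝓝 u] g) : dM 𝒜 g' u = dM 𝒜 g u := by
  have e0 := e.self_of_nhds
  unfold dM
  rw [e0]
  exact Filter.EventuallyEq.fderiv_eq (by filter_upwards [e] with v hv; rw [hv])

/-- composition with a curve or a map into the domain -/
theorem dM_comp {g : E → M} {f : E' → E} {v : E'} (hg : SmAt 𝒜 g (f v)) (hf : DifferentiableAt ℝ f v) (z : E') :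
    dM 𝒜 (fun w => g (f w)) v z = dM 𝒜 g (f v) (fderiv ℝ f v z) := by
  have h1 := (hasFDerivAt_dM hg).comp v hf.hasFDerivAt
  have h2 : dM 𝒜 (fun w => g (f w)) v = (dM 𝒜 g (f v)).comp (fderiv ℝ f v) := h1.fderiv
  rw [h2]
  rfl

theorem dM_curve {g : E → M} {f : ℝ → E} {t : ℝ} {z : E} (hg : SmAt 𝒜 g (f t)) (hf : HasDerivAt f z t) :
    HasDerivAt (fun s => 𝒜.ψ (g (f t)) (g (f s))) (dM 𝒜 g (f t) z) t :=
  (hasFDerivAt_dM hg).comp_hasDerivAt t hf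

/-- composition with a smooth map of `M` -/
theorem dM_aM_zero (hB : Bl M) (hF : Far1 M) (cp : Gs M) {g : E → M} {u z : E} (hg : SmAt 𝒜 g u) (hz : dM 𝒜 g u z = 0) :
    dM 𝒜 (fun v => aM hB 𝒜 cp (g v)) u z = 0 := by
  obtain ⟨q, hq⟩ : ∃ q, q = g u := ⟨_, rfl⟩
  have h0 : SmAt 𝒜 (fun w : Eu n => (𝒜.ψ q).symm w) 0 :=
    smAt_symm (f := fun w : Eu n => w) contDiffAt_id (Geo.zero_mem_target 𝒜 q)
  have h1 := smAt_aM hB hF cp h0
  have h2 := hasFDerivAt_dM h1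
  have h3 : (𝒜.ψ q).symm 0 = q := Geo.symm_zero 𝒜 q
  rw [h3] at h2
  have h4 := hasFDerivAt_dM hg
  rw [← hq] at h4
  have h5 : HasFDerivAt (fun w : Eu n => 𝒜.ψ (aM hB 𝒜 cp q) (aM hB 𝒜 cp ((𝒜.ψ q).symm w)))
      (dM 𝒜 (fun v => aM hB 𝒜 cp ((𝒜.ψ q).symm v)) 0) (𝒜.ψ q (g u)) := by
    rw [← hq, 𝒜.zero]
    exact h2
  have h6 := h5.comp u h4
  have h7 : (fun v => 𝒜.ψ (aM hB 𝒜 cp (g u)) (aM hB 𝒜 cp (g v))) =ᶠ[𝓝 u]
      (fun w : Eu n => 𝒜.ψ (aM hB 𝒜 cp q) (aM hB 𝒜 cp ((𝒜.ψ q).symm w))) ∘ (fun v => 𝒜.ψ q (g v)) := by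
    filter_upwards [hg.cont.eventually ((𝒜.ψ q).open_source.mem_nhds (by rw [← hq]; exact 𝒜.mem _))] with v hv
    show _ = 𝒜.ψ (aM hB 𝒜 cp q) (aM hB 𝒜 cp ((𝒜.ψ q).symm (𝒜.ψ q (g v))))
    rw [(𝒜.ψ q).left_inv hv, ← hq]
  have h8 := (h6.congr_of_eventuallyEq h7).fderiv
  have h9 : dM 𝒜 (fun v => aM hB 𝒜 cp (g v)) u z =
      dM 𝒜 (fun v => aM hB 𝒜 cp ((𝒜.ψ q).symm v)) 0 (dM 𝒜 g u z) := congrArg (fun L : E →L[ℝ] Eu n => L z) h8
  rw [h9, hz, map_zero]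

end dM

/-- the differential of the exponential map is injective inside the ball of radius `π` -/
theorem dEx_inj (hB : Bl M) (p : M) {ξ : Eu n} (h : ‖ξ‖ < π) {η : Eu n} (hη : dM 𝒜 (fun η => 𝒜.Ex p η) ξ η = 0) : η = 0 := by
  have h1 : fderiv ℝ (fun η => 𝒜.ψ (𝒜.Ex p ξ) (𝒜.Ex p η)) ξ η = 0 := hη
  have h2 := BF_Ex 𝒜 hB p h η η
  rw [h1, map_zero] at h2
  have h3 : ⟪η, η⟫ = 0 := by linarith
  exact inner_self_eq_zero.1 h3

/-- for `κ = 0` the differential of the exponential map is injective at vectors of length `π` -/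
theorem dEx_inj_pi (hB : Bl M) (hk : 𝒜.HK 0) (c : Gs M) {η : Eu n}
    (hη : dM 𝒜 (fun η => 𝒜.Ex (c.1 0) η) (π • 𝒜.vel c.1 0) η = 0) : η = 0 := by
  obtain ⟨v, hv⟩ : ∃ v, v = 𝒜.vel c.1 0 := ⟨_, rfl⟩
  have hv1 : ‖v‖ = 1 := by rw [hv]; exact vel_norm 𝒜 c
  have hv0 : v ≠ 0 := by rw [hv]; exact vel_ne 𝒜 c
  have hEx : ∀ t : ℝ, 𝒜.Ex (c.1 0) (t • v) = c.1 t := by
    intro t
    rw [gs_Ex 𝒜 hB c t, ← hv, rad_unit t hv1]
  rw [← hv] at hη
  obtain ⟨L, hL⟩ : ∃ L, L = dM 𝒜 (fun η => 𝒜.Ex (c.1 0) η) (π • v) := ⟨_, rfl⟩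
  rw [← hL] at hη
  have hLd : HasFDerivAt (fun η => 𝒜.ψ (c.1 π) (𝒜.Ex (c.1 0) η)) L (π • v) := by
    have h1 := hasFDerivAt_dM (smAt_Ex (𝒜 := 𝒜) hB (c.1 0) (π • v))
    rw [hEx, ← hL] at h1
    exact h1
  -- the radial derivative
  have hLv : L v = 𝒜.vel c.1 π := by
    have h1 : HasDerivAt (fun t : ℝ => t • v) v π := by
      have := (hasDerivAt_id (π : ℝ)).smul_const v
      rwa [one_smul] at this
    have h2 := hLd.comp_hasDerivAt π h1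
    have h3 : HasDerivAt (fun t => 𝒜.ψ (c.1 π) (c.1 t)) (𝒜.vel c.1 π) π := (IsGeo.exists_vel 𝒜 c.2 π).2
    refine (h2.congr_of_eventuallyEq (Eventually.of_forall fun t => ?_)).unique h3
    show 𝒜.ψ (c.1 π) (c.1 t) = 𝒜.ψ (c.1 π) (𝒜.Ex (c.1 0) (t • v))
    rw [hEx]
  -- the derivative of `rad π`
  have hrad : HasFDerivAt (rad π) (fderiv ℝ (rad π) v) v := ((contDiffAt_rad π hv0).differentiableAt (by simp)).hasFDerivAt
  have hradv : rad π v = π • v := rad_unit π hv1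
  have hSc : ∀ b, G3.Sc 𝒜 c b = L (fderiv ℝ (rad π) v b) := by
    intro b
    have h1 : HasFDerivAt (fun η => 𝒜.ψ (c.1 π) (𝒜.Ex (c.1 0) η)) L (rad π v) := by rw [hradv]; exact hLd
    have h2 := (h1.comp v hrad).fderiv
    have h3 : G3.Sc 𝒜 c = fderiv ℝ ((fun η => 𝒜.ψ (c.1 π) (𝒜.Ex (c.1 0) η)) ∘ rad π) v := by
      unfold G3.Sc
      rw [← hv]
      rfl
    rw [h3, h2]
    rfl
  have hperp : ∀ b, ⟪v, b⟫ = 0 → fderiv ℝ (rad π) v b = π • b := by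
    intro b hb
    have hn : HasFDerivAt (fun w : Eu n => ‖w‖ ^ 2) (2 • (innerSL ℝ v)) v := (hasStrictFDerivAt_norm_sq v).hasFDerivAt
    have hN : HasFDerivAt (fun w : Eu n => ‖w‖) (fderiv ℝ (fun w : Eu n => ‖w‖) v) v :=
      ((contDiffAt_norm ℝ hv0 (n := 1)).differentiableAt (by simp)).hasFDerivAt
    have h2 : HasFDerivAt (fun w : Eu n => ‖w‖ • rad π w) (‖v‖ • fderiv ℝ (rad π) v + (fderiv ℝ (fun w : Eu n => ‖w‖) v).smulRight (rad π v)) v :=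
      hN.smul hrad
    have h3 : (fun w : Eu n => π • w) =ᶠ[𝓝 v] fun w : Eu n => ‖w‖ • rad π w := by
      filter_upwards [isOpen_ne.mem_nhds hv0] with w hw
      unfold rad
      rw [smul_smul, mul_div_cancel₀ _ (norm_ne_zero_iff.2 hw)]
    have h4 : HasFDerivAt (fun w : Eu n => π • w) (π • ContinuousLinearMap.id ℝ (Eu n)) v := (hasFDerivAt_id (𝕜 := ℝ) v).const_smul π
    have h5 := congrArg (fun T : Eu n →L[ℝ] Eu n => T b) ((h2.congr_of_eventuallyEq h3).unique h4)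
    have h6 : ‖v‖ • fderiv ℝ (rad π) v b + (fderiv ℝ (fun w : Eu n => ‖w‖) v b) • rad π v = π • b := h5
    -- the derivative of the norm
    have h7 : fderiv ℝ (fun w : Eu n => ‖w‖) v b = 0 := by
      have h8 := (hN.mul hN)
      have h9 : (fun w : Eu n => ‖w‖ * ‖w‖) = fun w : Eu n => ‖w‖ ^ 2 := by funext w; ring
      have h10 : HasFDerivAt (fun w : Eu n => ‖w‖ ^ 2) (‖v‖ • fderiv ℝ (fun w : Eu n => ‖w‖) v + ‖v‖ • fderiv ℝ (fun w : Eu n => ‖w‖) v) v := by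
        rw [← h9]; exact h8
      have h11 := congrArg (fun T : Eu n →L[ℝ] ℝ => T b) (h10.unique hn)
      have h12 : ‖v‖ * fderiv ℝ (fun w : Eu n => ‖w‖) v b + ‖v‖ * fderiv ℝ (fun w : Eu n => ‖w‖) v b = 2 • ⟪v, b⟫ := h11
      rw [hv1, hb, smul_zero, one_mul] at h12
      linarith
    rw [h7, hv1, zero_smul, add_zero, one_smul] at h6
    exact h6
  -- decomposition of `η`
  obtain ⟨a, ha⟩ : ∃ a, a = ⟪v, η⟫ := ⟨_, rfl⟩
  obtain ⟨b, hb⟩ : ∃ b, b = η - a • v := ⟨_, rfl⟩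
  have hbv : ⟪v, b⟫ = 0 := by
    rw [hb, inner_sub_right, real_inner_smul_right, real_inner_self_eq_norm_sq, hv1, ha]
    ring
  have hπ := Real.pi_pos
  have h1 : G3.Sc 𝒜 c b = -(π * a) • 𝒜.vel c.1 π := by
    rw [hSc, hperp b hbv, map_smul, hb, map_sub, hη, map_smul, hLv, zero_sub, smul_neg, smul_smul, neg_smul]
  have h2 : ⟪𝒜.vel c.1 π, G3.Sc 𝒜 c b⟫ = 0 := by
    have h3 := vel_mem_Vc 𝒜 hB (shift π c)
    rw [G3.vel_shift, zero_add] at h3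
    exact G3.inner_Sc hB h3 b
  have hvπ : ‖𝒜.vel c.1 π‖ = 1 := (IsGeo.exists_vel 𝒜 c.2 π).1
  rw [h1, real_inner_smul_right, real_inner_self_eq_norm_sq, hvπ] at h2
  have ha0 : a = 0 := by
    have : π * a = 0 := by linarith
    exact (mul_eq_zero.1 this).resolve_left hπ.ne'
  rw [ha0, mul_zero, neg_zero, zero_smul] at h1
  have h3 : b ∈ Vc 𝒜 c := G3.V_of_Sc hB hk h1
  have h4 : b ∈ (ℝ ∙ v)ᗮ := by
    rw [Submodule.mem_orthogonal_singleton_iff_inner_right]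
    exact hbv
  have h5 : b ∈ Kc 𝒜 c := ⟨h3, by rw [← hv]; exact h4⟩
  have h6 := finrank_Kc 𝒜 hB hk c
  have h7 : Kc 𝒜 c = ⊥ := Submodule.finrank_eq_zero.1 h6
  rw [h7, Submodule.mem_bot] at h5
  rw [h5, ha0, zero_smul, sub_zero] at hb
  exact hb.symm

theorem diff_neg (x : Eu (n + 1)) : DifferentiableAt ℝ (fun v : Eu (n + 1) => -v) x :=
  (-(ContinuousLinearMap.id ℝ (Eu (n + 1)))).differentiableAt

/-- **the derivative of `prh` has kernel `ℝ x`** -/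
theorem ker_prh (hB : Bl M) (cp : Gs M) {δ : ℝ} (hD : Dl 𝒜 δ) {x : Eu (n + 1)} (hx : x ≠ 0) {z : Eu (n + 1)}
    (hz : dM 𝒜 (prh hB 𝒜 cp δ) x z = 0) : ∃ r : ℝ, z = r • x := by
  have hπ := Real.pi_pos
  have good : ∀ x : Eu (n + 1), (0 < hd n x ∨ tl n x ≠ 0) → prh hB 𝒜 cp δ =ᶠ[𝓝 x] fun y => 𝒜.Ex (cp.1 0) (WW δ y) := by
    intro x h
    have h2 : ∀ᶠ y in 𝓝 x, 0 < hd n y ∨ tl n y ≠ 0 := by
      rcases h with h | h
      · filter_upwards [(isOpen_lt continuous_const (hd n).continuous).mem_nhds h] with y hy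
        exact Or.inl hy
      · filter_upwards [(isOpen_ne.preimage (tl n).continuous).mem_nhds h] with y hy
        exact Or.inr hy
    filter_upwards [h2] with y hy
    exact prh_eq_Ex hB cp δ hy
  have red : ∀ x z : Eu (n + 1), (0 < hd n x ∨ tl n x ≠ 0) → dM 𝒜 (prh hB 𝒜 cp δ) x z = 0 →
      (∀ η, dM 𝒜 (fun η => 𝒜.Ex (cp.1 0) η) (WW δ x) η = 0 → η = 0) → ∃ r : ℝ, z = r • x := by
    intro x z h hz hinj
    rw [dM_congr (good x h), dM_comp (g := fun η => 𝒜.Ex (cp.1 0) η) (f := WW δ) (smAt_Ex hB _ _)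
      ((contDiffAt_WW δ h).differentiableAt (by simp))] at hz
    exact ker_WW hD.pos h (hinj _ hz)
  rcases hD with ⟨rfl, hF⟩ | ⟨rfl, hk⟩
  · -- `δ = 1`
    have A : ∀ x z : Eu (n + 1), (0 < hd n x ∨ tl n x ≠ 0) → dM 𝒜 (prh hB 𝒜 cp 1) x z = 0 → ∃ r : ℝ, z = r • x := by
      intro x z h hz
      refine red x z h hz fun η hη => dEx_inj hB _ ?_ hη
      rw [norm_WW one_pos h, one_mul]
      by_cases h0 : tl n x = 0
      · rw [ang_of_tl_zero_pos h0 (h.resolve_right (not_not.2 h0))]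
        exact hπ
      · exact ang_lt h0
    by_cases h : 0 < hd n x ∨ tl n x ≠ 0
    · exact A x z h hz
    obtain ⟨h1, h2⟩ := hd_of_not hx h
    have h3 := dM_aM_zero hB hF cp (smAt_prh hB cp (Or.inl ⟨rfl, hF⟩) hx) hz
    have h4 : (fun v => aM hB 𝒜 cp (prh hB 𝒜 cp 1 v)) =ᶠ[𝓝 x] fun v => prh hB 𝒜 cp 1 (-v) := by
      filter_upwards [isOpen_ne.mem_nhds hx] with y hy
      exact (prh_neg1 hB hF cp hy).symm
    rw [dM_congr h4, dM_comp (g := prh hB 𝒜 cp 1) (f := fun v => -v)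
      (smAt_prh hB cp (Or.inl ⟨rfl, hF⟩) (neg_ne_zero.2 hx)) (diff_neg x)] at h3
    have h5 : fderiv ℝ (fun v : Eu (n + 1) => -v) x z = -z := by
      have := (hasFDerivAt_id (𝕜 := ℝ) x).neg.fderiv
      have h6 : fderiv ℝ (fun v : Eu (n + 1) => -v) x = -ContinuousLinearMap.id ℝ _ := this
      rw [h6]
      rfl
    rw [h5] at h3
    obtain ⟨r, hr⟩ := A (-x) (-z) (Or.inl (by rw [map_neg]; linarith)) h3
    exact ⟨r, by rw [smul_neg] at hr; exact neg_injective hr⟩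
  · -- `δ = 2`
    have A : ∀ x z : Eu (n + 1), x ≠ 0 → ang x ≤ π / 2 → dM 𝒜 (prh hB 𝒜 cp 2) x z = 0 → ∃ r : ℝ, z = r • x := by
      intro x z hx h hz
      have hg : 0 < hd n x ∨ tl n x ≠ 0 := by
        by_contra h0
        obtain ⟨h1, h2⟩ := hd_of_not hx h0
        rw [ang_of_tl_zero_neg h1 h2] at h
        linarith
      refine red x z hg hz fun η hη => ?_
      rcases h.lt_or_eq with h1 | h1
      · refine dEx_inj hB _ ?_ hη
        rw [norm_WW two_pos hg]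
        linarith
      · have h0 : tl n x ≠ 0 := by
          intro h0
          rw [ang_of_tl_zero_pos h0 (hg.resolve_right (not_not.2 h0))] at h1
          linarith
        obtain ⟨c, hc⟩ : ∃ c, c = gw 𝒜 hB cp (tl n x) := ⟨_, rfl⟩
        have hc0 : c.1 0 = cp.1 0 := by rw [hc, gw_zero]
        have hcv : 𝒜.vel c.1 0 = nrm (tl n x) := by rw [hc, gw_vel 𝒜 hB cp h0]
        have hW : WW 2 x = π • 𝒜.vel c.1 0 := by
          rw [hcv]
          unfold WW nrm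
          rw [h1, smul_smul]
          congr 1
          ring
        rw [hW, ← hc0] at hη
        exact dEx_inj_pi hB hk c hη
    rcases le_total (ang x) (π / 2) with h | h
    · exact A x z hx h hz
    have h4 : prh hB 𝒜 cp 2 =ᶠ[𝓝 x] fun v => prh hB 𝒜 cp 2 (-v) := by
      filter_upwards [isOpen_ne.mem_nhds hx] with y hy
      exact (prh_neg2 hB cp hy).symm
    rw [dM_congr h4, dM_comp (g := prh hB 𝒜 cp 2) (f := fun v => -v)
      (smAt_prh hB cp (Or.inr ⟨rfl, hk⟩) (neg_ne_zero.2 hx)) (diff_neg x)] at hz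
    have h5 : fderiv ℝ (fun v : Eu (n + 1) => -v) x z = -z := by
      have := (hasFDerivAt_id (𝕜 := ℝ) x).neg.fderiv
      have h6 : fderiv ℝ (fun v : Eu (n + 1) => -v) x = -ContinuousLinearMap.id ℝ _ := this
      rw [h6]
      rfl
    rw [h5] at hz
    obtain ⟨r, hr⟩ := A (-x) (-z) (neg_ne_zero.2 hx) (by rw [ang_neg]; linarith) hz
    exact ⟨r, by rw [smul_neg] at hr; exact neg_injective hr⟩

theorem dM_prh_self (hB : Bl M) (cp : Gs M) {δ : ℝ} (hD : Dl 𝒜 δ) {x : Eu (n + 1)} (hx : x ≠ 0) :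
    dM 𝒜 (prh hB 𝒜 cp δ) x x = 0 := by
  have h1 : HasDerivAt (fun t : ℝ => t • x) x 1 := by
    have := (hasDerivAt_id (1 : ℝ)).smul_const x
    rwa [one_smul] at this
  have h2 := dM_curve (𝒜 := 𝒜) (g := prh hB 𝒜 cp δ) (f := fun t : ℝ => t • x) (t := 1) (by rw [one_smul]; exact smAt_prh hB cp hD hx) h1
  rw [one_smul] at h2
  refine h2.unique ?_
  refine (hasDerivAt_const (1 : ℝ) (0 : Eu n)).congr_of_eventuallyEq ?_
  filter_upwards [lt_mem_nhds (zero_lt_one (α := ℝ))] with t ht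
  rw [prh_smul hB cp δ ht, 𝒜.zero]

end Pool.Agent.Lib.MP_ccbbf6_gt.L7
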