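import Pool.Agent.Lib.MP_ccbbf6_gt.L7.PR3

/-!
# Level 7, PR4 (helper78): the covering `prS : S^n → M`

Surjective; `δ = 1`: injective; `δ = 2`: fibres `{x, -x}`; covering map; lifts of smooth families of `M`.
-/

set_option autoImplicit false
set_option linter.unusedSectionVars false

open Set Filter Topology Metric Real Module
open scoped ContDiff RealInnerProductSpace

noncomputable section

namespace Pool.Agent.Lib.MP_ccbbf6_gt.L7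

open Geo L4 L4.ORI L5

variable {n : ℕ} {M : Type*} [MetricSpace M] [CompactSpace M] {𝒜 : SDist n M}

/-! ### fibres -/

theorem norm_ne {x : Eu (n + 1)} (hx : ‖x‖ = 1) : x ≠ 0 := by
  rintro rfl
  rw [norm_zero] at hx
  exact zero_ne_one hx

theorem dist_prh (hB : Bl M) (cp : Gs M) {δ : ℝ} (h0 : 0 < δ) {x : Eu (n + 1)} (h : δ * ang x ≤ π) :
    dist (cp.1 0) (prh hB 𝒜 cp δ x) = δ * ang x := by
  have h1 : 0 ≤ δ * ang x := mul_nonneg h0.le (ang_nonneg x)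
  unfold prh
  have h2 := (gw 𝒜 hB cp (tl n x)).2 0 (δ * ang x) (by rw [zero_sub, abs_neg, abs_of_nonneg h1]; exact h)
  rw [gw_zero, zero_sub, abs_neg, abs_of_nonneg h1] at h2
  exact h2

theorem ang_eq_zero {x : Eu (n + 1)} (hx : ‖x‖ = 1) (h : ang x = 0) : x = e0 n := by
  have h1 := cos_ang (norm_ne hx)
  have h2 := sin_ang (norm_ne hx)
  rw [h, cos_zero, mul_one, hx] at h1
  rw [h, sin_zero, mul_zero] at h2
  have h3 := eq_of_tl_zero (norm_eq_zero.1 h2.symm)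
  rw [h3, ← h1, one_smul]

theorem ang_eq_pi {x : Eu (n + 1)} (hx : ‖x‖ = 1) (h : ang x = π) : x = -e0 n := by
  have h1 := ang_neg x
  rw [h, sub_self] at h1
  have h2 := ang_eq_zero (by rw [norm_neg]; exact hx) h1
  rw [← h2, neg_neg]

theorem eq_of_WW {δ : ℝ} (hδ : 0 < δ) {x y : Eu (n + 1)} (hx : ‖x‖ = 1) (hy : ‖y‖ = 1) (h : 0 < hd n x ∨ tl n x ≠ 0)
    (h' : 0 < hd n y ∨ tl n y ≠ 0) (he : WW δ x = WW δ y) : x = y := by
  have h1 := ZZ_WW hδ h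
  have h2 := ZZ_WW hδ h'
  rw [hx, inv_one, one_smul] at h1
  rw [hy, inv_one, one_smul] at h2
  rw [← h1, ← h2, he]

theorem good_of_ang {x : Eu (n + 1)} (hx : x ≠ 0) (h : ang x < π) : 0 < hd n x ∨ tl n x ≠ 0 := by
  by_contra h0
  obtain ⟨h1, h2⟩ := hd_of_not hx h0
  rw [ang_of_tl_zero_neg h1 h2] at h
  exact lt_irrefl _ h

theorem fib_small (hB : Bl M) (cp : Gs M) {δ : ℝ} (hδ : 0 < δ) {x y : Eu (n + 1)} (hx : ‖x‖ = 1) (hy : ‖y‖ = 1)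
    (h1 : ang x < π) (h2 : ang y < π) (h3 : δ * ang x < π) (h4 : δ * ang y < π)
    (h : prh hB 𝒜 cp δ x = prh hB 𝒜 cp δ y) : x = y := by
  have g1 := good_of_ang (norm_ne hx) h1
  have g2 := good_of_ang (norm_ne hy) h2
  rw [prh_eq_Ex hB cp δ g1, prh_eq_Ex hB cp δ g2] at h
  refine eq_of_WW hδ hx hy g1 g2 (Ex_injOn 𝒜 hB _ ?_ ?_ h)
  · rw [mem_ball_zero_iff, norm_WW hδ g1]
    exact h3
  · rw [mem_ball_zero_iff, norm_WW hδ g2]
    exact h4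

theorem prh_inj1 (hB : Bl M) (cp : Gs M) {x y : Eu (n + 1)} (hx : ‖x‖ = 1) (hy : ‖y‖ = 1)
    (h : prh hB 𝒜 cp 1 x = prh hB 𝒜 cp 1 y) : x = y := by
  have h1 := dist_prh (𝒜 := 𝒜) hB cp one_pos (x := x) (by rw [one_mul]; exact ang_le x)
  have h2 := dist_prh (𝒜 := 𝒜) hB cp one_pos (x := y) (by rw [one_mul]; exact ang_le y)
  rw [h, h2, one_mul, one_mul] at h1
  rcases (ang_le x).lt_or_eq with h3 | h3
  · have h4 : ang y < π := by rw [h1]; exact h3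
    exact fib_small hB cp one_pos hx hy h3 h4 (by rw [one_mul]; exact h3) (by rw [one_mul]; exact h4) h
  · rw [ang_eq_pi hx h3, ang_eq_pi hy (by rw [h1]; exact h3)]

theorem fib2_aux (hB : Bl M) (hk : 𝒜.HK 0) (cp : Gs M) {x y : Eu (n + 1)} (hx : ‖x‖ = 1) (hy : ‖y‖ = 1)
    (hx0 : ang x ≤ π / 2) (hy0 : ang y ≤ π / 2) (h : prh hB 𝒜 cp 2 x = prh hB 𝒜 cp 2 y) : y = x ∨ y = -x := by
  have hπ := Real.pi_pos
  have h1 := dist_prh (𝒜 := 𝒜) hB cp two_pos (x := x) (by linarith)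
  have h2 := dist_prh (𝒜 := 𝒜) hB cp two_pos (x := y) (by linarith)
  rw [h, h2] at h1
  have h3 : ang y = ang x := by linarith
  rcases hx0.lt_or_eq with h4 | h4
  · left
    exact (fib_small hB cp two_pos hx hy (by linarith) (by linarith) (by linarith) (by linarith) h).symm
  · -- both have first coordinate zero
    have key : ∀ z : Eu (n + 1), ‖z‖ = 1 → ang z = π / 2 → hd n z = 0 ∧ ‖tl n z‖ = 1 := by
      intro z hz ha
      have e1 := cos_ang (norm_ne hz)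
      have e2 := sin_ang (norm_ne hz)
      rw [ha, cos_pi_div_two, mul_zero] at e1
      rw [ha, sin_pi_div_two, mul_one, hz] at e2
      exact ⟨e1.symm, e2.symm⟩
    obtain ⟨a1, a2⟩ := key x hx h4
    obtain ⟨b1, b2⟩ := key y hy (by rw [h3, h4])
    have hx1 : tl n x ≠ 0 := by
      intro h0
      rw [h0, norm_zero] at a2
      exact zero_ne_one a2
    have hy1 : tl n y ≠ 0 := by
      intro h0
      rw [h0, norm_zero] at b2
      exact zero_ne_one b2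
    obtain ⟨c, hc⟩ : ∃ c, c = gw 𝒜 hB cp (tl n x) := ⟨_, rfl⟩
    obtain ⟨c', hc'⟩ : ∃ c', c' = gw 𝒜 hB cp (tl n y) := ⟨_, rfl⟩
    have hv : 𝒜.vel c.1 0 = tl n x := by rw [hc, gw_vel 𝒜 hB cp hx1, nrm_of_norm a2]
    have hv' : 𝒜.vel c'.1 0 = tl n y := by rw [hc', gw_vel 𝒜 hB cp hy1, nrm_of_norm b2]
    have hπe : (2 : ℝ) * (π / 2) = π := by ring
    have e1 : prh hB 𝒜 cp 2 x = c.1 π := by
      unfold prh
      rw [h4, hπe, ← hc]
    have e2 : prh hB 𝒜 cp 2 y = c'.1 π := by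
      unfold prh
      rw [h3, h4, hπe, ← hc']
    have e3 := mem_PV_of_top 𝒜 hB (c := c) (c' := c') (by rw [hc, hc', gw_zero, gw_zero]) (by rw [← e1, ← e2, h])
    have e4 : Vc 𝒜 c = ℝ ∙ (tl n x) := by
      symm
      apply Submodule.eq_of_le_of_finrank_eq
      · rw [Submodule.span_singleton_le_iff_mem, ← hv]
        exact vel_mem_Vc 𝒜 hB c
      · rw [finrank_span_singleton hx1, finrank_Vc 𝒜 hB hk c]
    have e5 : tl n y ∈ ℝ ∙ (tl n x) := by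
      rw [← e4, ← hv']
      exact e3
    obtain ⟨r, hr⟩ := Submodule.mem_span_singleton.1 e5
    have e6 : |r| = 1 := by
      have := congrArg norm hr
      rw [norm_smul, a2, b2, mul_one] at this
      exact this
    rcases (abs_eq zero_le_one).1 e6 with e7 | e7
    · left
      exact eq_of_hd_tl (by rw [a1, b1]) (by rw [← hr, e7, one_smul])
    · right
      exact eq_of_hd_tl (by rw [map_neg, a1, b1, neg_zero]) (by rw [map_neg, ← hr, e7, neg_one_smul])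

theorem prh_fib2 (hB : Bl M) (hk : 𝒜.HK 0) (cp : Gs M) {x y : Eu (n + 1)} (hx : ‖x‖ = 1) (hy : ‖y‖ = 1)
    (h : prh hB 𝒜 cp 2 x = prh hB 𝒜 cp 2 y) : y = x ∨ y = -x := by
  have key : ∀ z : Eu (n + 1), ‖z‖ = 1 → ∃ z', ‖z'‖ = 1 ∧ ang z' ≤ π / 2 ∧ prh hB 𝒜 cp 2 z' = prh hB 𝒜 cp 2 z ∧ (z' = z ∨ z' = -z) := by
    intro z hz
    rcases le_total (ang z) (π / 2) with h1 | h1
    · exact ⟨z, hz, h1, rfl, Or.inl rfl⟩
    · exact ⟨-z, by rw [norm_neg, hz], by rw [ang_neg]; linarith, prh_neg2 hB cp (norm_ne hz), Or.inr rfl⟩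
  obtain ⟨x', hx', ax, ex, sx⟩ := key x hx
  obtain ⟨y', hy', ay, ey, sy⟩ := key y hy
  have h1 := fib2_aux hB hk cp hx' hy' ax ay (by rw [ex, ey, h])
  rcases sx with rfl | rfl <;> rcases sy with rfl | rfl <;> rcases h1 with h1 | h1
  · exact Or.inl h1
  · exact Or.inr h1
  · exact Or.inr (neg_eq_iff_eq_neg.1 h1)
  · exact Or.inl (neg_injective h1)
  · exact Or.inr h1
  · rw [neg_neg] at h1
    exact Or.inl h1
  · exact Or.inl (neg_injective h1)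
  · rw [neg_neg] at h1
    exact Or.inr (neg_eq_iff_eq_neg.1 h1)

/-! ### the map of the sphere -/

/-- the unit sphere of `Eu (n + 1)` -/
abbrev Sn (n : ℕ) := {x : Eu (n + 1) // ‖x‖ = 1}

instance compactSn : CompactSpace (Sn n) := by
  have h : IsCompact {x : Eu (n + 1) | ‖x‖ = 1} := by
    have h1 := isCompact_sphere (0 : Eu (n + 1)) 1
    have h2 : {x : Eu (n + 1) | ‖x‖ = 1} = sphere 0 1 := by
      ext x
      rw [mem_sphere_zero_iff_norm]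
      rfl
    rw [h2]
    exact h1
  exact isCompact_iff_compactSpace.1 h

/-- the covering -/
def prS (hB : Bl M) (𝒜 : SDist n M) (cp : Gs M) (δ : ℝ) (x : Sn n) : M := prh hB 𝒜 cp δ x.1

theorem continuous_prS (hB : Bl M) (cp : Gs M) {δ : ℝ} (hD : Dl 𝒜 δ) : Continuous (prS hB 𝒜 cp δ) :=
  continuous_iff_continuousAt.2 fun x =>
    ContinuousAt.comp (g := prh hB 𝒜 cp δ) (f := fun x : Sn n => x.1) (smAt_prh hB cp hD (norm_ne x.2)).cont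
      continuous_subtype_val.continuousAt

theorem prS_surj (hB : Bl M) (cp : Gs M) {δ : ℝ} (hD : Dl 𝒜 δ) : Function.Surjective (prS hB 𝒜 cp δ) := by
  intro m
  obtain ⟨ξ, h1, h2⟩ := Ex_surj 𝒜 hB (cp.1 0) m
  obtain ⟨v, hv⟩ : ∃ v, v = 𝒜.vel cp.1 0 := ⟨_, rfl⟩
  have hv1 : ‖v‖ = 1 := by rw [hv]; exact vel_norm 𝒜 cp
  have key : ∃ (w : Eu n) (t : ℝ), ‖w‖ = 1 ∧ m = (gw 𝒜 hB cp w).1 t := by
    by_cases h : ξ = 0
    · refine ⟨v, 0, hv1, ?_⟩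
      rw [gw_zero, ← h2, h, Ex_zero 𝒜 hB]
    · have h3 : nrm ξ ≠ 0 := NEG.nc2_nrm_ne h
      refine ⟨nrm ξ, ‖ξ‖, norm_nrm h, ?_⟩
      rw [gw_eq 𝒜 hB cp h3, rad_unit _ (norm_nrm h), NEG.nc2_smul_nrm h, h2]
  obtain ⟨w, t, hw, hm⟩ := key
  have h3 := prh_circle (𝒜 := 𝒜) hB cp hD hw (t / δ)
  rw [mul_div_cancel₀ _ hD.pos.ne', ← hm] at h3
  refine ⟨⟨cos (t / δ) • e0 n + sin (t / δ) • em n w, ?_⟩, h3⟩
  have h4 := norm_sq_decomp (cos (t / δ) • e0 n + sin (t / δ) • em n w)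
  rw [map_add, map_add, map_smul, map_smul, map_smul, map_smul, hd_e0, hd_em, tl_e0, tl_em, smul_zero, smul_zero, add_zero,
    zero_add, smul_eq_mul, mul_one, norm_smul, hw, mul_one, Real.norm_eq_abs, sq_abs, cos_sq_add_sin_sq] at h4
  exact (sq_eq_sq₀ (norm_nonneg _) zero_le_one).1 (by rw [h4, one_pow])

/-! ### the local inverse -/

/-- the local diffeomorphism of `Eu (n + 1)` -/
def Ph (hB : Bl M) (𝒜 : SDist n M) (cp : Gs M) (δ : ℝ) (q : M) (z : Eu (n + 1)) : Eu n × ℝ :=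
  (𝒜.ψ q (prh hB 𝒜 cp δ z), ‖z‖ ^ 2)

theorem contDiffAt_Ph (hB : Bl M) (cp : Gs M) {δ : ℝ} (hD : Dl 𝒜 δ) {q : M} {x : Eu (n + 1)} (hx : x ≠ 0)
    (hq : prh hB 𝒜 cp δ x ∈ (𝒜.ψ q).source) : ContDiffAt ℝ ∞ (Ph hB 𝒜 cp δ q) x :=
  ((smAt_prh hB cp hD hx).chart hq).prodMk (contDiff_norm_sq ℝ).contDiffAt

/-- the derivative of `Ph` -/
def dPh (hB : Bl M) (𝒜 : SDist n M) (cp : Gs M) (δ : ℝ) (q : M) (x : Eu (n + 1)) : Eu (n + 1) →L[ℝ] Eu n × ℝ :=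
  ((CC 𝒜 q (prh hB 𝒜 cp δ x)).comp (dM 𝒜 (prh hB 𝒜 cp δ) x)).prod (2 • innerSL ℝ x)

theorem hasFDerivAt_Ph (hB : Bl M) (cp : Gs M) {δ : ℝ} (hD : Dl 𝒜 δ) {q : M} {x : Eu (n + 1)} (hx : x ≠ 0)
    (hq : prh hB 𝒜 cp δ x ∈ (𝒜.ψ q).source) : HasFDerivAt (Ph hB 𝒜 cp δ q) (dPh hB 𝒜 cp δ q x) x :=
  (hasFDerivAt_dM_chart (smAt_prh hB cp hD hx) hq).prodMk (hasStrictFDerivAt_norm_sq x).hasFDerivAt

theorem dPh_inj (hB : Bl M) (cp : Gs M) {δ : ℝ} (hD : Dl 𝒜 δ) {q : M} {x : Eu (n + 1)} (hx : x ≠ 0)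
    (hq : prh hB 𝒜 cp δ x ∈ (𝒜.ψ q).source) : Function.Injective (dPh hB 𝒜 cp δ q x) := by
  rw [injective_iff_map_eq_zero]
  intro z hz
  have h1 : CC 𝒜 q (prh hB 𝒜 cp δ x) (dM 𝒜 (prh hB 𝒜 cp δ) x z) = 0 := congrArg Prod.fst hz
  have h2 : (2 : ℕ) • ⟪x, z⟫ = 0 := congrArg Prod.snd hz
  have h3 : dM 𝒜 (prh hB 𝒜 cp δ) x z = 0 := by
    have h4 := DD_CC 𝒜 hq (dM 𝒜 (prh hB 𝒜 cp δ) x z)
    rw [h1, map_zero] at h4
    exact h4.symm
  obtain ⟨r, hr⟩ := ker_prh hB cp hD hx h3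
  rw [hr, real_inner_smul_right, real_inner_self_eq_norm_sq, two_nsmul] at h2
  have h5 : r * ‖x‖ ^ 2 = 0 := by linarith
  have h6 : r = 0 := (mul_eq_zero.1 h5).resolve_right (pow_ne_zero 2 (norm_ne_zero_iff.2 hx))
  rw [hr, h6, zero_smul]

/-- the derivative of `Ph` as an equivalence -/
theorem exists_dPh (hB : Bl M) (cp : Gs M) {δ : ℝ} (hD : Dl 𝒜 δ) {q : M} {x : Eu (n + 1)} (hx : x ≠ 0)
    (hq : prh hB 𝒜 cp δ x ∈ (𝒜.ψ q).source) : ∃ e : Eu (n + 1) ≃L[ℝ] Eu n × ℝ, (e : Eu (n + 1) →L[ℝ] Eu n × ℝ) = dPh hB 𝒜 cp δ q x := by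
  have h1 := dPh_inj hB cp hD hx hq
  have h2 : finrank ℝ (Eu (n + 1)) = finrank ℝ (Eu n × ℝ) := by
    rw [Module.finrank_prod, finrank_euclideanSpace, finrank_euclideanSpace, Fintype.card_fin, Fintype.card_fin, Module.finrank_self]
  have h3 : Function.Surjective (dPh hB 𝒜 cp δ q x : Eu (n + 1) →ₗ[ℝ] Eu n × ℝ) :=
    (LinearMap.injective_iff_surjective_of_finrank_eq_finrank h2).1 h1
  refine ⟨(LinearEquiv.ofBijective (dPh hB 𝒜 cp δ q x : Eu (n + 1) →ₗ[ℝ] Eu n × ℝ) ⟨h1, h3⟩).toContinuousLinearEquiv, ?_⟩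
  ext1 z
  rfl

end Pool.Agent.Lib.MP_ccbbf6_gt.L7
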