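import Pool.Agent.Lib.MP_ccbbf6_gt.L7.PR4

/-!
# Level 7, PR4b (helper78): `prS` is a covering map, lifts of smooth families
-/

set_option autoImplicit false
set_option linter.unusedSectionVars false

open Set Filter Topology Metric Real Module
open scoped ContDiff RealInnerProductSpace

noncomputable section

namespace Pool.Agent.Lib.MP_ccbbf6_gt.L7

open Geo L4 L4.ORI L5

variable {n : ℕ} {M : Type*} [MetricSpace M] [CompactSpace M] {𝒜 : SDist n M}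

/-- local inverse of `prS` -/
theorem local_prS (hB : Bl M) (cp : Gs M) {δ : ℝ} (hD : Dl 𝒜 δ) (x : Sn n) :
    ∃ e : OpenPartialHomeomorph (Sn n) M, x ∈ e.source ∧ EqOn (prS hB 𝒜 cp δ) e e.source := by
  obtain ⟨q, hqx⟩ : ∃ q, q = prh hB 𝒜 cp δ x.1 := ⟨_, rfl⟩
  have hx := norm_ne x.2
  have hq : prh hB 𝒜 cp δ x.1 ∈ (𝒜.ψ q).source := by rw [← hqx]; exact 𝒜.mem q
  obtain ⟨L, hL⟩ := exists_dPh hB cp hD hx hq
  have hF : ContDiffAt ℝ ∞ (Ph hB 𝒜 cp δ q) x.1 := contDiffAt_Ph hB cp hD hx hq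
  have hF' : HasFDerivAt (Ph hB 𝒜 cp δ q) (L : Eu (n + 1) →L[ℝ] Eu n × ℝ) x.1 := by
    rw [hL]
    exact hasFDerivAt_Ph hB cp hD hx hq
  obtain ⟨e, he⟩ : ∃ e, e = hF.toOpenPartialHomeomorph (Ph hB 𝒜 cp δ q) hF' (by simp) := ⟨_, rfl⟩
  have hec : (e : Eu (n + 1) → Eu n × ℝ) = Ph hB 𝒜 cp δ q := by rw [he]; rfl
  have hxs : x.1 ∈ e.source := by
    rw [he]
    exact hF.mem_toOpenPartialHomeomorph_source hF' (by simp)
  have hsrc : (𝒜.ψ q).source ∈ 𝓝 q := (𝒜.ψ q).open_source.mem_nhds (𝒜.mem q)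
  -- the candidate
  obtain ⟨g, hg⟩ : ∃ g : M → Eu (n + 1), g = fun m => e.symm (𝒜.ψ q m, 1) := ⟨_, rfl⟩
  have hgn : ∀ m, (𝒜.ψ q m, (1 : ℝ)) ∈ e.target → ‖g m‖ = 1 ∧ 𝒜.ψ q (prh hB 𝒜 cp δ (g m)) = 𝒜.ψ q m ∧ g m ∈ e.source := by
    intro m hm
    have h1 := e.right_inv hm
    rw [hec] at h1
    have h2 : ‖g m‖ ^ 2 = 1 := by
      rw [hg]
      exact congrArg Prod.snd h1
    refine ⟨(sq_eq_sq₀ (norm_nonneg _) zero_le_one).1 (by rw [h2, one_pow]), ?_, ?_⟩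
    · rw [hg]
      exact congrArg Prod.fst h1
    · rw [hg]
      exact e.map_target hm
  have hgz : ∀ z : Sn n, z.1 ∈ e.source → g (prS hB 𝒜 cp δ z) = z.1 := by
    intro z hz
    have h1 := e.left_inv hz
    rw [hec] at h1
    have h2 : Ph hB 𝒜 cp δ q z.1 = (𝒜.ψ q (prS hB 𝒜 cp δ z), 1) := by
      unfold Ph
      rw [z.2, one_pow]
      rfl
    rw [h2] at h1
    rw [hg]
    exact h1
  -- the open sets
  have hcS : Continuous (prS hB 𝒜 cp δ) := continuous_prS hB cp hD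
  obtain ⟨T, hT⟩ : ∃ T : Set M, T = {m | m ∈ (𝒜.ψ q).source ∧ (𝒜.ψ q m, (1 : ℝ)) ∈ e.target} := ⟨_, rfl⟩
  have hTo : IsOpen T := by
    have h1 : ContinuousOn (fun m => (𝒜.ψ q m, (1 : ℝ))) (𝒜.ψ q).source :=
      (𝒜.ψ q).continuousOn.prodMk continuousOn_const
    have h2 := h1.isOpen_inter_preimage (𝒜.ψ q).open_source e.open_target
    rw [hT]
    exact h2
  have hgc : ContinuousOn g T := by
    have h1 : ContinuousOn (fun m => (𝒜.ψ q m, (1 : ℝ))) T :=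
      ((𝒜.ψ q).continuousOn.mono (fun m hm => by rw [hT] at hm; exact hm.1)).prodMk continuousOn_const
    rw [hg]
    exact e.continuousOn_symm.comp h1 (fun m hm => by rw [hT] at hm; exact hm.2)
  have hnz : ∀ m ∈ T, g m ≠ 0 := fun m hm => by
    rw [hT] at hm
    exact norm_ne (hgn m hm.2).1
  have hpg : ContinuousOn (fun m => prh hB 𝒜 cp δ (g m)) T := fun m hm =>
    ContinuousAt.comp_continuousWithinAt (g := prh hB 𝒜 cp δ) (smAt_prh hB cp hD (hnz m hm)).cont (hgc m hm)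
  have hgg : ContinuousOn (fun m => if h : ‖g m‖ = 1 then (⟨g m, h⟩ : Sn n) else x) T := by
    rw [continuousOn_iff_continuous_domRestrict]
    have h1 : Continuous (T.domRestrict g) := continuousOn_iff_continuous_domRestrict.1 hgc
    have h2' : ∀ m ∈ T, ‖g m‖ = 1 := fun m hm => by
      rw [hT] at hm
      exact (hgn m hm.2).1
    have h2 : ∀ m : T, ‖g m.1‖ = 1 := fun m => h2' m.1 m.2
    have h3 : (T.domRestrict fun m => if h : ‖g m‖ = 1 then (⟨g m, h⟩ : Sn n) else x) = fun m : T => (⟨g m.1, h2 m⟩ : Sn n) := by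
      funext m
      show (if h : ‖g m.1‖ = 1 then (⟨g m.1, h⟩ : Sn n) else x) = _
      rw [dif_pos (h2 m)]
    rw [h3]
    exact h1.subtype_mk _
  refine ⟨{ toFun := prS hB 𝒜 cp δ
            invFun := fun m => if h : ‖g m‖ = 1 then ⟨g m, h⟩ else x
            source := {z | z.1 ∈ e.source ∧ prS hB 𝒜 cp δ z ∈ (𝒜.ψ q).source}
            target := {m | m ∈ T ∧ prh hB 𝒜 cp δ (g m) ∈ (𝒜.ψ q).source}
            map_source' := ?_
            map_target' := ?_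
            left_inv' := ?_
            right_inv' := ?_
            open_source := ?_
            open_target := ?_
            continuousOn_toFun := hcS.continuousOn
            continuousOn_invFun := hgg.mono fun m hm => hm.1 }, ⟨hxs, hq⟩, fun z _ => rfl⟩
  · rintro z ⟨h1, h2⟩
    have h3 := e.map_source h1
    rw [hec] at h3
    have h4 : Ph hB 𝒜 cp δ q z.1 = (𝒜.ψ q (prS hB 𝒜 cp δ z), 1) := by
      unfold Ph
      rw [z.2, one_pow]
      rfl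
    rw [h4] at h3
    refine ⟨by rw [hT]; exact ⟨h2, h3⟩, ?_⟩
    rw [hgz z h1]
    exact h2
  · rintro m ⟨h1, h2⟩
    rw [hT] at h1
    obtain ⟨h3, h4, h5⟩ := hgn m h1.2
    rw [dif_pos h3]
    exact ⟨h5, h2⟩
  · rintro z ⟨h1, h2⟩
    have h3 := hgz z h1
    have h4 : ‖g (prS hB 𝒜 cp δ z)‖ = 1 := by rw [h3, z.2]
    rw [dif_pos h4]
    exact Subtype.ext h3
  · rintro m ⟨h1, h2⟩
    rw [hT] at h1
    obtain ⟨h3, h4, h5⟩ := hgn m h1.2
    rw [dif_pos h3]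
    exact (𝒜.ψ q).injOn h2 h1.1 h4
  · exact (e.open_source.preimage continuous_subtype_val).inter ((𝒜.ψ q).open_source.preimage hcS)
  · exact hpg.isOpen_inter_preimage hTo (𝒜.ψ q).open_source

theorem isLocalHomeomorph_prS (hB : Bl M) (cp : Gs M) {δ : ℝ} (hD : Dl 𝒜 δ) : IsLocalHomeomorph (prS hB 𝒜 cp δ) :=
  IsLocalHomeomorph.mk _ fun x => local_prS hB cp hD x

theorem isCoveringMap_prS (hB : Bl M) (cp : Gs M) {δ : ℝ} (hD : Dl 𝒜 δ) : IsCoveringMap (prS hB 𝒜 cp δ) :=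
  (isLocalHomeomorph_iff_isCoveringMap.1 (isLocalHomeomorph_prS hB cp hD))

/-- a continuous lift of a smooth family is smooth -/
theorem smooth_of_lift (hB : Bl M) (cp : Gs M) {δ : ℝ} (hD : Dl 𝒜 δ) {E : Type*} [NormedAddCommGroup E] [NormedSpace ℝ E]
    {f : E → M} {F : E → Eu (n + 1)} {u : E} (hf : SmAt 𝒜 f u) (hF : ContinuousAt F u) (h1 : ∀ v, ‖F v‖ = 1)
    (h : ∀ v, prh hB 𝒜 cp δ (F v) = f v) : ContDiffAt ℝ ∞ F u := by
  obtain ⟨q, hq⟩ : ∃ q, q = f u := ⟨_, rfl⟩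
  have hqs : prh hB 𝒜 cp δ (F u) ∈ (𝒜.ψ q).source := by rw [h, ← hq]; exact 𝒜.mem q
  have hx : F u ≠ 0 := norm_ne (h1 u)
  obtain ⟨L, hL⟩ := exists_dPh hB cp hD hx hqs
  have hC : ContDiffAt ℝ ∞ (Ph hB 𝒜 cp δ q) (F u) := contDiffAt_Ph hB cp hD hx hqs
  have hF' : HasFDerivAt (Ph hB 𝒜 cp δ q) (L : Eu (n + 1) →L[ℝ] Eu n × ℝ) (F u) := by
    rw [hL]
    exact hasFDerivAt_Ph hB cp hD hx hqs
  have h2 : ∀ᶠ z in 𝓝 (F u), hC.localInverse hF' (by simp) (Ph hB 𝒜 cp δ q z) = z :=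
    (hC.hasStrictFDerivAt' hF' (by simp)).eventually_left_inverse
  have h3 : ContDiffAt ℝ ∞ (hC.localInverse hF' (by simp)) (Ph hB 𝒜 cp δ q (F u)) := hC.to_localInverse hF' (by simp)
  have h4 : ∀ v, Ph hB 𝒜 cp δ q (F v) = (𝒜.ψ q (f v), 1) := by
    intro v
    unfold Ph
    rw [h, h1, one_pow]
  have h5 : ContDiffAt ℝ ∞ (fun v => (𝒜.ψ q (f v), (1 : ℝ))) u :=
    (hf.chart (by rw [← hq]; exact 𝒜.mem q)).prodMk contDiffAt_const
  have h6 : ContDiffAt ℝ ∞ (fun v => hC.localInverse hF' (by simp) (𝒜.ψ q (f v), (1 : ℝ))) u := by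
    rw [h4] at h3
    exact ContDiffAt.comp (g := hC.localInverse hF' (by simp)) (f := fun v => (𝒜.ψ q (f v), (1 : ℝ))) u h3 h5
  refine h6.congr_of_eventuallyEq ?_
  filter_upwards [hF.eventually h2] with v hv
  rw [← h4, hv]

/-- **lifts of smooth families** -/
theorem exists_lift_M (hB : Bl M) (cp : Gs M) {δ : ℝ} (hD : Dl 𝒜 δ) {k : ℕ} {f : (Fin k → ℝ) → M} (hf : Sm 𝒜 f)
    (u0 : Fin k → ℝ) {x0 : Eu (n + 1)} (hx0 : ‖x0‖ = 1) (h0 : prh hB 𝒜 cp δ x0 = f u0) :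
    ∃ F : (Fin k → ℝ) → Eu (n + 1), ContDiff ℝ ∞ F ∧ (∀ v, ‖F v‖ = 1) ∧ (∀ v, prh hB 𝒜 cp δ (F v) = f v) ∧ F u0 = x0 := by
  obtain ⟨F, ⟨hF0, hF1⟩, -⟩ := (isCoveringMap_prS hB cp hD).existsUnique_continuousMap_lifts (A := Fin k → ℝ)
    ⟨f, hf.continuous⟩ u0 ⟨x0, hx0⟩ h0
  refine ⟨fun v => (F v).1, ?_, fun v => (F v).2, fun v => congrFun hF1 v, ?_⟩
  · rw [contDiff_iff_contDiffAt]
    intro u
    exact smooth_of_lift hB cp hD (hf u) (continuous_subtype_val.comp F.continuous).continuousAt (fun v => (F v).2)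
      fun v => congrFun hF1 v
  · show (F u0).1 = x0
    rw [hF0]

end Pool.Agent.Lib.MP_ccbbf6_gt.L7
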