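import Pool.Agent.Lib.MP_ccbbf6_gt.L7.PR4

/-!
# Level 7, PR5 (helper78): the map `pst (x, y)` from orthonormal pairs to geodesics

`pst x y`: the geodesic with foot `prh x` and velocity `dM prh x y` (normalised).
-/

set_option autoImplicit false
set_option linter.unusedSectionVars false

open Set Filter Topology Metric Real Module
open scoped ContDiff RealInnerProductSpace

noncomputable section

namespace Pool.Agent.Lib.MP_ccbbf6_gt.L7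

open Geo L4 L4.ORI L5

variable {n : ℕ} {M : Type*} [MetricSpace M] [CompactSpace M] {𝒜 : SDist n M}

/-- the geodesic with foot `prh x` and velocity `dM prh x y` -/
def pst (hB : Bl M) (𝒜 : SDist n M) (cp : Gs M) (δ : ℝ) (x y : Eu (n + 1)) : Gs M :=
  gw 𝒜 hB (bG hB 𝒜 cp (prh hB 𝒜 cp δ x)) (dM 𝒜 (prh hB 𝒜 cp δ) x y)

section pt

variable (hB : Bl M) (cp : Gs M) {δ : ℝ} (hD : Dl 𝒜 δ)

theorem pst_zero (δ : ℝ) (x y : Eu (n + 1)) : (pst hB 𝒜 cp δ x y).1 0 = prh hB 𝒜 cp δ x := by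
  unfold pst
  rw [gw_zero, bG_zero]

include hD in
theorem dM_ne {x y : Eu (n + 1)} (hx : x ≠ 0) (hy : y ≠ 0) (hxy : ⟪x, y⟫ = 0) : dM 𝒜 (prh hB 𝒜 cp δ) x y ≠ 0 := by
  intro h
  obtain ⟨r, hr⟩ := ker_prh hB cp hD hx h
  have h1 : ⟪y, y⟫ = 0 := by
    nth_rewrite 1 [hr]
    rw [real_inner_smul_left, hxy, mul_zero]
  exact hy (inner_self_eq_zero.1 h1)

include hD in
theorem pst_vel {x y : Eu (n + 1)} (hx : x ≠ 0) (hy : y ≠ 0) (hxy : ⟪x, y⟫ = 0) :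
    𝒜.vel (pst hB 𝒜 cp δ x y).1 0 = ORI.nrm (dM 𝒜 (prh hB 𝒜 cp δ) x y) :=
  gw_vel 𝒜 hB _ (dM_ne hB cp hD hx hy hxy)

include hD in
theorem eq_pst {x y : Eu (n + 1)} (hx : x ≠ 0) (hy : y ≠ 0) (hxy : ⟪x, y⟫ = 0) {c : Gs M} (h0 : c.1 0 = prh hB 𝒜 cp δ x)
    (hv : 𝒜.vel c.1 0 = ORI.nrm (dM 𝒜 (prh hB 𝒜 cp δ) x y)) : c = pst hB 𝒜 cp δ x y :=
  eq_of_vel' 𝒜 (by rw [h0, pst_zero]) (by rw [hv, pst_vel hB cp hD hx hy hxy])

theorem nrm_smul' {w : Eu n} {r : ℝ} (hr : 0 < r) : ORI.nrm (r • w) = ORI.nrm w := by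
  unfold ORI.nrm
  rw [norm_smul, Real.norm_eq_abs, abs_of_pos hr, mul_inv, smul_smul]
  congr 1
  field_simp

/-- great circles -/
theorem hasDerivAt_circ (ξ : Eu n) (θ : ℝ) : HasDerivAt (fun θ : ℝ => cos θ • e0 n + sin θ • em n ξ)
    (-sin θ • e0 n + cos θ • em n ξ) θ :=
  ((Real.hasDerivAt_cos θ).smul_const (e0 n)).add ((Real.hasDerivAt_sin θ).smul_const (em n ξ))

theorem inner_circ (ξ : Eu n) (hξ : ‖ξ‖ = 1) (θ : ℝ) :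
    ‖cos θ • e0 n + sin θ • em n ξ‖ = 1 ∧ ‖-sin θ • e0 n + cos θ • em n ξ‖ = 1 ∧
      ⟪cos θ • e0 n + sin θ • em n ξ, -sin θ • e0 n + cos θ • em n ξ⟫ = 0 := by
  have key : ∀ a b : ℝ, a ^ 2 + b ^ 2 = 1 → ‖a • e0 n + b • em n ξ‖ = 1 := by
    intro a b h
    have h4 := norm_sq_decomp (a • e0 n + b • em n ξ)
    rw [map_add, map_add, map_smul, map_smul, map_smul, map_smul, hd_e0, hd_em, tl_e0, tl_em, smul_zero, smul_zero, add_zero,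
      zero_add, smul_eq_mul, mul_one, norm_smul, hξ, mul_one, Real.norm_eq_abs, sq_abs, h] at h4
    exact (sq_eq_sq₀ (norm_nonneg _) zero_le_one).1 (by rw [h4, one_pow])
  have h1 := key _ _ (cos_sq_add_sin_sq θ)
  have h2 := key (-sin θ) (cos θ) (by rw [neg_sq, sin_sq_add_cos_sq])
  refine ⟨h1, h2, ?_⟩
  have h3 : HasDerivAt (fun θ : ℝ => ⟪cos θ • e0 n + sin θ • em n ξ, cos θ • e0 n + sin θ • em n ξ⟫)
      (⟪cos θ • e0 n + sin θ • em n ξ, -sin θ • e0 n + cos θ • em n ξ⟫ +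
        ⟪-sin θ • e0 n + cos θ • em n ξ, cos θ • e0 n + sin θ • em n ξ⟫) θ :=
    (hasDerivAt_circ ξ θ).inner ℝ (hasDerivAt_circ ξ θ)
  have h5 : (fun θ : ℝ => ⟪cos θ • e0 n + sin θ • em n ξ, cos θ • e0 n + sin θ • em n ξ⟫) = fun _ => (1 : ℝ) := by
    funext θ
    rw [real_inner_self_eq_norm_sq, key _ _ (cos_sq_add_sin_sq θ), one_pow]
  rw [h5] at h3
  have h6 := h3.unique (hasDerivAt_const θ (1 : ℝ))
  rw [real_inner_comm (cos θ • e0 n + sin θ • em n ξ)] at h6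
  linarith

include hD in
theorem pst_circle {ξ : Eu n} (hξ : ‖ξ‖ = 1) (θ : ℝ) :
    pst hB 𝒜 cp δ (cos θ • e0 n + sin θ • em n ξ) (-sin θ • e0 n + cos θ • em n ξ) = shift (δ * θ) (gw 𝒜 hB cp ξ) := by
  obtain ⟨h1, h2, h3⟩ := inner_circ ξ hξ θ
  symm
  refine eq_pst hB cp hD (norm_ne h1) (norm_ne h2) h3 ?_ ?_
  · rw [G3.shift_zero_pt, prh_circle hB cp hD hξ]
  · obtain ⟨g, hg⟩ : ∃ g, g = gw 𝒜 hB cp ξ := ⟨_, rfl⟩
    have h4 : HasDerivAt (fun s => 𝒜.ψ (prh hB 𝒜 cp δ (cos θ • e0 n + sin θ • em n ξ))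
        (prh hB 𝒜 cp δ (cos s • e0 n + sin s • em n ξ)))
        (dM 𝒜 (prh hB 𝒜 cp δ) (cos θ • e0 n + sin θ • em n ξ) (-sin θ • e0 n + cos θ • em n ξ)) θ :=
      dM_curve (𝒜 := 𝒜) (g := prh hB 𝒜 cp δ) (f := fun θ : ℝ => cos θ • e0 n + sin θ • em n ξ)
        (smAt_prh hB cp hD (norm_ne h1)) (hasDerivAt_circ ξ θ)
    simp only [prh_circle hB cp hD hξ] at h4
    rw [← hg] at h4 ⊢
    have h5 : HasDerivAt (fun t => 𝒜.ψ (g.1 (δ * θ)) (g.1 t)) (𝒜.vel g.1 (δ * θ)) (δ * θ) :=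
      (IsGeo.exists_vel 𝒜 g.2 (δ * θ)).2
    have h6 : HasDerivAt (fun s : ℝ => δ * s) δ θ := by
      have := (hasDerivAt_id θ).const_mul δ
      rwa [mul_one] at this
    have h7 := HasDerivAt.scomp θ h5 h6
    have h8 := h4.unique h7
    rw [G3.vel_shift, zero_add, h8, nrm_smul' hD.pos, nrm_of_norm (IsGeo.exists_vel 𝒜 g.2 _).1]

include hD in
theorem pst_pole {ξ : Eu n} (hξ : ‖ξ‖ = 1) : pst hB 𝒜 cp δ (e0 n) (em n ξ) = gw 𝒜 hB cp ξ := by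
  have h := pst_circle hB cp hD hξ 0
  rw [cos_zero, sin_zero, neg_zero, zero_smul, zero_smul, one_smul, one_smul, add_zero, zero_add, mul_zero] at h
  rw [h]
  refine Subtype.ext (funext fun t => ?_)
  show (gw 𝒜 hB cp ξ).1 (t + 0) = _
  rw [add_zero]

end pt

/-! ### smoothness -/

section sm

variable {E : Type*} [NormedAddCommGroup E] [NormedSpace ℝ E]

theorem smV_dM (hB : Bl M) (cp : Gs M) {δ : ℝ} (hD : Dl 𝒜 δ) {X Y : E → Eu (n + 1)} {u : E} (hX : ContDiffAt ℝ ∞ X u)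
    (hY : ContDiffAt ℝ ∞ Y u) (hx : X u ≠ 0) {q : M} (hq : prh hB 𝒜 cp δ (X u) ∈ (𝒜.ψ q).source) :
    SmV 𝒜 q (fun v => prh hB 𝒜 cp δ (X v)) (fun v => dM 𝒜 (prh hB 𝒜 cp δ) (X v) (Y v)) u := by
  have h1 : ContDiffAt ℝ ∞ (fun z => 𝒜.ψ q (prh hB 𝒜 cp δ z)) (X u) := (smAt_prh hB cp hD hx).chart hq
  have h2 : ContDiffAt ℝ ∞ (fderiv ℝ (fun z => 𝒜.ψ q (prh hB 𝒜 cp δ z))) (X u) := h1.fderiv_right (by simp)
  have h3 : ContDiffAt ℝ ∞ (fun v => fderiv ℝ (fun z => 𝒜.ψ q (prh hB 𝒜 cp δ z)) (X v)) u :=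
    ContDiffAt.comp (g := fderiv ℝ (fun z => 𝒜.ψ q (prh hB 𝒜 cp δ z))) (f := X) u h2 hX
  have h4 : SmAt 𝒜 (fun v => prh hB 𝒜 cp δ (X v)) u := SmAt.comp (g := prh hB 𝒜 cp δ) (f := X) (smAt_prh hB cp hD hx) hX
  unfold SmV
  refine (h3.clm_apply hY).congr_of_eventuallyEq ?_
  filter_upwards [h4.cont.eventually ((𝒜.ψ q).open_source.mem_nhds hq), hX.continuousAt.eventually_ne hx] with v h5 h6
  have h7 := (hasFDerivAt_dM_chart (smAt_prh hB cp hD h6) h5).fderiv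
  rw [h7]
  rfl

theorem smGA_pst (hB : Bl M) (cp : Gs M) {δ : ℝ} (hD : Dl 𝒜 δ) {X Y : E → Eu (n + 1)} {u : E} (hX : ContDiffAt ℝ ∞ X u)
    (hY : ContDiffAt ℝ ∞ Y u) (hx : X u ≠ 0) (hy : Y u ≠ 0) (hxy : ⟪X u, Y u⟫ = 0) :
    SmGA 𝒜 (fun v => pst hB 𝒜 cp δ (X v) (Y v)) u := by
  have hfoot : (fun v => (bG hB 𝒜 cp (prh hB 𝒜 cp δ (X v))).1 0) = fun v => prh hB 𝒜 cp δ (X v) := by
    funext v
    exact bG_zero hB cp _
  have h4 : SmAt 𝒜 (fun v => prh hB 𝒜 cp δ (X v)) u := SmAt.comp (g := prh hB 𝒜 cp δ) (f := X) (smAt_prh hB cp hD hx) hX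
  refine smGA_gw (p := prh hB 𝒜 cp δ (X u)) hB (by rw [hfoot]; exact h4) (by rw [bG_zero]; exact 𝒜.mem _) ?_
    (dM_ne hB cp hD hx hy hxy)
  rw [hfoot]
  exact smV_dM hB cp hD hX hY hx (𝒜.mem _)

end sm

/-! ### fibres -/

theorem pst_inj_same (hB : Bl M) (cp : Gs M) {δ : ℝ} (hD : Dl 𝒜 δ) {x y y' : Eu (n + 1)} (hx : ‖x‖ = 1) (hy : ‖y‖ = 1)
    (hy' : ‖y'‖ = 1) (hxy : ⟪x, y⟫ = 0) (hxy' : ⟪x, y'⟫ = 0) (h : pst hB 𝒜 cp δ x y = pst hB 𝒜 cp δ x y') : y = y' := by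
  have h1 := congrArg (fun c : Gs M => 𝒜.vel c.1 0) h
  have hx0 := norm_ne hx
  have hy0 := norm_ne hy
  have hy0' := norm_ne hy'
  simp only [pst_vel hB cp hD hx0 hy0 hxy, pst_vel hB cp hD hx0 hy0' hxy'] at h1
  obtain ⟨a, ha⟩ : ∃ a, a = dM 𝒜 (prh hB 𝒜 cp δ) x y := ⟨_, rfl⟩
  obtain ⟨b, hb⟩ : ∃ b, b = dM 𝒜 (prh hB 𝒜 cp δ) x y' := ⟨_, rfl⟩
  have ha0 : a ≠ 0 := by rw [ha]; exact dM_ne hB cp hD hx0 hy0 hxy
  have hb0 : b ≠ 0 := by rw [hb]; exact dM_ne hB cp hD hx0 hy0' hxy'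
  rw [← ha, ← hb] at h1
  have h2 : a = (‖a‖ / ‖b‖) • b := by
    have h3 := congrArg (fun w => ‖a‖ • w) h1
    simp only [ORI.nrm, smul_smul] at h3
    rw [mul_inv_cancel₀ (norm_ne_zero_iff.2 ha0), one_smul] at h3
    rw [div_eq_mul_inv]
    exact h3
  obtain ⟨r, hr⟩ : ∃ r, r = ‖a‖ / ‖b‖ := ⟨_, rfl⟩
  have hr0 : 0 < r := by rw [hr]; exact div_pos (norm_pos_iff.2 ha0) (norm_pos_iff.2 hb0)
  rw [← hr] at h2
  have h3 : dM 𝒜 (prh hB 𝒜 cp δ) x (y - r • y') = 0 := by rw [map_sub, map_smul, ← ha, ← hb, ← h2, sub_self]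
  obtain ⟨s, hs⟩ := ker_prh hB cp hD hx0 h3
  have h4 : s = 0 := by
    have h5 := congrArg (fun w => ⟪x, w⟫) hs
    simp only [inner_sub_right, real_inner_smul_right, hxy, hxy', real_inner_self_eq_norm_sq, hx] at h5
    linarith
  rw [h4, zero_smul, sub_eq_zero] at hs
  have h5 : r = 1 := by
    have h6 := congrArg norm hs
    rw [norm_smul, hy, hy', Real.norm_eq_abs, abs_of_pos hr0, mul_one] at h6
    exact h6.symm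
  rw [hs, h5, one_smul]

theorem pst_inj1 (hB : Bl M) (cp : Gs M) (hD : Dl 𝒜 1) {x y x' y' : Eu (n + 1)} (hx : ‖x‖ = 1) (hy : ‖y‖ = 1)
    (hx' : ‖x'‖ = 1) (hy' : ‖y'‖ = 1) (hxy : ⟪x, y⟫ = 0) (hxy' : ⟪x', y'⟫ = 0)
    (h : pst hB 𝒜 cp 1 x y = pst hB 𝒜 cp 1 x' y') : x' = x ∧ y' = y := by
  have h1 := congrArg (fun c : Gs M => c.1 0) h
  simp only [pst_zero] at h1
  have h2 := prh_inj1 hB cp hx hx' h1
  subst h2
  exact ⟨rfl, (pst_inj_same hB cp hD hx hy hy' hxy hxy' h).symm⟩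

theorem pst_neg2 (hB : Bl M) (cp : Gs M) (hD : Dl 𝒜 2) {x : Eu (n + 1)} (hx : x ≠ 0) (y : Eu (n + 1)) :
    pst hB 𝒜 cp 2 (-x) (-y) = pst hB 𝒜 cp 2 x y := by
  have h4 : prh hB 𝒜 cp 2 =ᶠ[𝓝 x] fun v => prh hB 𝒜 cp 2 (-v) := by
    filter_upwards [isOpen_ne.mem_nhds hx] with y hy
    exact (prh_neg2 hB cp hy).symm
  have h5 : dM 𝒜 (prh hB 𝒜 cp 2) x y = dM 𝒜 (prh hB 𝒜 cp 2) (-x) (-y) := by
    rw [dM_congr h4, dM_comp (g := prh hB 𝒜 cp 2) (f := fun v => -v) (smAt_prh hB cp hD (neg_ne_zero.2 hx)) (diff_neg x)]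
    have := (hasFDerivAt_id (𝕜 := ℝ) x).neg.fderiv
    have h6 : fderiv ℝ (fun v : Eu (n + 1) => -v) x = -ContinuousLinearMap.id ℝ _ := this
    rw [h6]
    rfl
  unfold pst
  rw [prh_neg2 hB cp hx, h5]

theorem pst_inj2 (hB : Bl M) (hk : 𝒜.HK 0) (cp : Gs M) {x y x' y' : Eu (n + 1)} (hx : ‖x‖ = 1) (hy : ‖y‖ = 1)
    (hx' : ‖x'‖ = 1) (hy' : ‖y'‖ = 1) (hxy : ⟪x, y⟫ = 0) (hxy' : ⟪x', y'⟫ = 0)
    (h : pst hB 𝒜 cp 2 x y = pst hB 𝒜 cp 2 x' y') : (x' = x ∧ y' = y) ∨ (x' = -x ∧ y' = -y) := by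
  have hD : Dl 𝒜 2 := Or.inr ⟨rfl, hk⟩
  have h1 := congrArg (fun c : Gs M => c.1 0) h
  simp only [pst_zero] at h1
  rcases prh_fib2 hB hk cp hx hx' h1 with h2 | h2
  · left
    subst h2
    exact ⟨rfl, (pst_inj_same hB cp hD hx hy hy' hxy hxy' h).symm⟩
  · right
    refine ⟨h2, ?_⟩
    have h3 := pst_neg2 (𝒜 := 𝒜) hB cp hD (norm_ne hx') y'
    rw [h2, neg_neg] at h3
    rw [h2, ← h3] at h
    have h4 := pst_inj_same hB cp hD hx hy (by rw [norm_neg, hy']) hxy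
      (by rw [h2, inner_neg_left] at hxy'; rw [inner_neg_right]; exact hxy') h
    rw [h4, neg_neg]

end Pool.Agent.Lib.MP_ccbbf6_gt.L7
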