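import Pool.Agent.Lib.MP_ccbbf6_gt.L7.PR4b
import Pool.Agent.Lib.MP_ccbbf6_gt.L7.PR5

/-!
# Level 7, PR6 (helper78): lifts of smooth families of geodesics
-/

set_option autoImplicit false
set_option linter.unusedSectionVars false

open Set Filter Topology Metric Real Module
open scoped ContDiff RealInnerProductSpace

noncomputable section

namespace Pool.Agent.Lib.MP_ccbbf6_gt.L7

open Geo L4 L4.ORI L5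

variable {n : ℕ} {M : Type*} [MetricSpace M] [CompactSpace M] {𝒜 : SDist n M}

/-- the vector `y ⟂ x` with `dM prh x y = w` -/
def Yof (hB : Bl M) (𝒜 : SDist n M) (cp : Gs M) (δ : ℝ) (q : M) (x : Eu (n + 1)) (w : Eu n) : Eu (n + 1) :=
  (dPh hB 𝒜 cp δ q x).inverse (CC 𝒜 q (prh hB 𝒜 cp δ x) w, 0)

theorem Yof_spec (hB : Bl M) (cp : Gs M) {δ : ℝ} (hD : Dl 𝒜 δ) {q : M} {x : Eu (n + 1)} (hx : x ≠ 0)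
    (hq : prh hB 𝒜 cp δ x ∈ (𝒜.ψ q).source) (w : Eu n) :
    dM 𝒜 (prh hB 𝒜 cp δ) x (Yof hB 𝒜 cp δ q x w) = w ∧ ⟪x, Yof hB 𝒜 cp δ q x w⟫ = 0 := by
  obtain ⟨e, he⟩ := exists_dPh hB cp hD hx hq
  have h1 : dPh hB 𝒜 cp δ q x (Yof hB 𝒜 cp δ q x w) = (CC 𝒜 q (prh hB 𝒜 cp δ x) w, 0) := by
    unfold Yof
    rw [← he, ContinuousLinearMap.inverse_equiv]
    exact e.apply_symm_apply _
  constructor
  · have h2 : CC 𝒜 q (prh hB 𝒜 cp δ x) (dM 𝒜 (prh hB 𝒜 cp δ) x (Yof hB 𝒜 cp δ q x w)) = CC 𝒜 q (prh hB 𝒜 cp δ x) w :=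
      congrArg Prod.fst h1
    have h3 := congrArg (DD 𝒜 q (prh hB 𝒜 cp δ x)) h2
    rwa [DD_CC 𝒜 hq, DD_CC 𝒜 hq] at h3
  · have h2 : (2 : ℕ) • ⟪x, Yof hB 𝒜 cp δ q x w⟫ = 0 := congrArg Prod.snd h1
    rw [two_nsmul] at h2
    linarith

theorem Yof_unique (hB : Bl M) (cp : Gs M) {δ : ℝ} (hD : Dl 𝒜 δ) {q : M} {x : Eu (n + 1)} (hx : x ≠ 0)
    (hq : prh hB 𝒜 cp δ x ∈ (𝒜.ψ q).source) {w : Eu n} {y : Eu (n + 1)} (h1 : dM 𝒜 (prh hB 𝒜 cp δ) x y = w)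
    (h2 : ⟪x, y⟫ = 0) : y = Yof hB 𝒜 cp δ q x w := by
  obtain ⟨h3, h4⟩ := Yof_spec hB cp hD hx hq w
  by_contra hne
  exact dM_ne (𝒜 := 𝒜) hB cp hD hx (sub_ne_zero.2 hne) (by rw [inner_sub_right, h2, h4, sub_self])
    (by rw [map_sub, h1, h3, sub_self])

theorem Yof_ne (hB : Bl M) (cp : Gs M) {δ : ℝ} (hD : Dl 𝒜 δ) {q : M} {x : Eu (n + 1)} (hx : x ≠ 0)
    (hq : prh hB 𝒜 cp δ x ∈ (𝒜.ψ q).source) {w : Eu n} (hw : w ≠ 0) : Yof hB 𝒜 cp δ q x w ≠ 0 := by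
  intro h
  have h1 := (Yof_spec hB cp hD hx hq w).1
  rw [h, map_zero] at h1
  exact hw h1.symm

/-- the covector part is the normalised vector -/
def Yn (hB : Bl M) (𝒜 : SDist n M) (cp : Gs M) (δ : ℝ) (x : Eu (n + 1)) (c : Gs M) : Eu (n + 1) :=
  ORI.nrm (Yof hB 𝒜 cp δ (prh hB 𝒜 cp δ x) x (𝒜.vel c.1 0))

theorem Yn_spec (hB : Bl M) (cp : Gs M) {δ : ℝ} (hD : Dl 𝒜 δ) {x : Eu (n + 1)} (hx : x ≠ 0) {c : Gs M}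
    (hc : c.1 0 = prh hB 𝒜 cp δ x) :
    ‖Yn hB 𝒜 cp δ x c‖ = 1 ∧ ⟪x, Yn hB 𝒜 cp δ x c⟫ = 0 ∧ pst hB 𝒜 cp δ x (Yn hB 𝒜 cp δ x c) = c := by
  have hq : prh hB 𝒜 cp δ x ∈ (𝒜.ψ (prh hB 𝒜 cp δ x)).source := 𝒜.mem _
  have h0 := Yof_ne hB cp hD hx hq (vel_ne 𝒜 c)
  obtain ⟨h1, h2⟩ := Yof_spec hB cp hD hx hq (𝒜.vel c.1 0)
  have h3 : ‖Yn hB 𝒜 cp δ x c‖ = 1 := ORI.norm_nrm h0
  have h4 : ⟪x, Yn hB 𝒜 cp δ x c⟫ = 0 := by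
    unfold Yn ORI.nrm
    rw [real_inner_smul_right, h2, mul_zero]
  refine ⟨h3, h4, (eq_pst hB cp hD hx (norm_ne h3) h4 hc ?_).symm⟩
  unfold Yn ORI.nrm
  rw [map_smul, h1]
  have h5 := nrm_smul' (w := 𝒜.vel c.1 0) (inv_pos.2 (norm_pos_iff.2 h0))
  unfold ORI.nrm at h5
  rw [h5, vel_norm, inv_one, one_smul]

section sm

variable {E : Type*} [NormedAddCommGroup E] [NormedSpace ℝ E]

theorem contDiffAt_Yn (hB : Bl M) (cp : Gs M) {δ : ℝ} (hD : Dl 𝒜 δ) {X : E → Eu (n + 1)} {σ : E → Gs M} {u : E}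
    (hX : ContDiffAt ℝ ∞ X u) (hσ : SmGA 𝒜 σ u) (hx : X u ≠ 0) (h : ∀ᶠ v in 𝓝 u, (σ v).1 0 = prh hB 𝒜 cp δ (X v)) :
    ContDiffAt ℝ ∞ (fun v => Yn hB 𝒜 cp δ (X v) (σ v)) u := by
  obtain ⟨q, hq⟩ : ∃ q, q = prh hB 𝒜 cp δ (X u) := ⟨_, rfl⟩
  have hqs : prh hB 𝒜 cp δ (X u) ∈ (𝒜.ψ q).source := by rw [hq]; exact 𝒜.mem _
  have h4 : SmAt 𝒜 (fun v => prh hB 𝒜 cp δ (X v)) u := SmAt.comp (g := prh hB 𝒜 cp δ) (f := X) (smAt_prh hB cp hD hx) hX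
  have hev : ∀ᶠ v in 𝓝 u, X v ≠ 0 ∧ prh hB 𝒜 cp δ (X v) ∈ (𝒜.ψ q).source :=
    (hX.continuousAt.eventually_ne hx).and (h4.cont.eventually ((𝒜.ψ q).open_source.mem_nhds hqs))
  -- the derivative of `Ph`
  have hP : ContDiffAt ℝ ∞ (Ph hB 𝒜 cp δ q) (X u) := contDiffAt_Ph hB cp hD hx hqs
  have hP' : ContDiffAt ℝ ∞ (fun v => fderiv ℝ (Ph hB 𝒜 cp δ q) (X v)) u :=
    ContDiffAt.comp (g := fderiv ℝ (Ph hB 𝒜 cp δ q)) (f := X) u (hP.fderiv_right (by simp)) hX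
  have hdP : ContDiffAt ℝ ∞ (fun v => dPh hB 𝒜 cp δ q (X v)) u := by
    refine hP'.congr_of_eventuallyEq ?_
    filter_upwards [hev] with v hv
    exact (hasFDerivAt_Ph hB cp hD hv.1 hv.2).fderiv.symm
  obtain ⟨e, he⟩ := exists_dPh hB cp hD hx hqs
  have hinv : ContDiffAt ℝ ∞ (fun v => (dPh hB 𝒜 cp δ q (X v)).inverse) u := by
    have h5 : ContDiffAt ℝ ∞ (ContinuousLinearMap.inverse : (Eu (n + 1) →L[ℝ] Eu n × ℝ) → (Eu n × ℝ →L[ℝ] Eu (n + 1)))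
        (dPh hB 𝒜 cp δ q (X u)) := by
      rw [← he]
      exact contDiffAt_map_inverse e
    exact ContDiffAt.comp (g := ContinuousLinearMap.inverse) (f := fun v => dPh hB 𝒜 cp δ q (X v)) u h5 hdP
  have hvel : ContDiffAt ℝ ∞ (fun v => CC 𝒜 q (prh hB 𝒜 cp δ (X v)) (𝒜.vel (σ v).1 0)) u := by
    have h6 : SmV 𝒜 q (fun v => (σ v).1 0) (fun v => 𝒜.vel (σ v).1 0) u :=
      hσ.smV hB (by rw [h.self_of_nhds]; exact hqs)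
    refine ContDiffAt.congr_of_eventuallyEq h6 ?_
    filter_upwards [h] with v hv
    rw [hv]
  have hY : ContDiffAt ℝ ∞ (fun v => Yof hB 𝒜 cp δ q (X v) (𝒜.vel (σ v).1 0)) u :=
    hinv.clm_apply (hvel.prodMk contDiffAt_const)
  have hY' : ContDiffAt ℝ ∞ (fun v => Yof hB 𝒜 cp δ (prh hB 𝒜 cp δ (X v)) (X v) (𝒜.vel (σ v).1 0)) u := by
    refine hY.congr_of_eventuallyEq ?_
    filter_upwards [hev] with v hv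
    obtain ⟨h1, h2⟩ := Yof_spec hB cp hD hv.1 (𝒜.mem (prh hB 𝒜 cp δ (X v))) (𝒜.vel (σ v).1 0)
    exact Yof_unique hB cp hD hv.1 hv.2 h1 h2
  have hne : Yof hB 𝒜 cp δ (prh hB 𝒜 cp δ (X u)) (X u) (𝒜.vel (σ u).1 0) ≠ 0 :=
    Yof_ne hB cp hD hx (𝒜.mem _) (vel_ne 𝒜 _)
  exact ((hY'.norm ℝ hne).inv (norm_ne_zero_iff.2 hne)).smul hY'

end sm

/-- **lifts of smooth families of geodesics** -/
theorem exists_lift_G (hB : Bl M) (cp : Gs M) {δ : ℝ} (hD : Dl 𝒜 δ) {k : ℕ} {σ : (Fin k → ℝ) → Gs M} (hσ : SmG 𝒜 σ)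
    (u0 : Fin k → ℝ) {x0 y0 : Eu (n + 1)} (hx0 : ‖x0‖ = 1) (hy0 : ‖y0‖ = 1) (h0 : ⟪x0, y0⟫ = 0)
    (hP : pst hB 𝒜 cp δ x0 y0 = σ u0) :
    ∃ X Y : (Fin k → ℝ) → Eu (n + 1), ContDiff ℝ ∞ X ∧ ContDiff ℝ ∞ Y ∧ (∀ v, ‖X v‖ = 1) ∧ (∀ v, ‖Y v‖ = 1) ∧
      (∀ v, ⟪X v, Y v⟫ = 0) ∧ (∀ v, pst hB 𝒜 cp δ (X v) (Y v) = σ v) ∧ X u0 = x0 ∧ Y u0 = y0 := by
  obtain ⟨X, hX, hX1, hXp, hX0⟩ := exists_lift_M hB cp hD (f := fun v => (σ v).1 0) hσ.1 u0 hx0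
    (by rw [← hP, pst_zero])
  have hs : ∀ v, ‖Yn hB 𝒜 cp δ (X v) (σ v)‖ = 1 ∧ ⟪X v, Yn hB 𝒜 cp δ (X v) (σ v)⟫ = 0 ∧
      pst hB 𝒜 cp δ (X v) (Yn hB 𝒜 cp δ (X v) (σ v)) = σ v := fun v =>
    Yn_spec hB cp hD (norm_ne (hX1 v)) (hXp v).symm
  refine ⟨X, fun v => Yn hB 𝒜 cp δ (X v) (σ v), hX, ?_, hX1, fun v => (hs v).1, fun v => (hs v).2.1, fun v => (hs v).2.2,
    hX0, ?_⟩
  · rw [contDiff_iff_contDiffAt]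
    intro u
    exact contDiffAt_Yn hB cp hD hX.contDiffAt (hσ.at u) (norm_ne (hX1 u)) (Eventually.of_forall fun v => (hXp v).symm)
  · have h1 := hs u0
    rw [hX0] at h1
    show Yn hB 𝒜 cp δ (X u0) (σ u0) = y0
    rw [hX0]
    exact pst_inj_same hB cp hD hx0 h1.1 hy0 h1.2.1 h0 (by rw [h1.2.2, hP])

theorem exists_pst (hB : Bl M) (cp : Gs M) {δ : ℝ} (hD : Dl 𝒜 δ) (c : Gs M) : ∃ x y : Eu (n + 1), ‖x‖ = 1 ∧ ‖y‖ = 1 ∧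
    ⟪x, y⟫ = 0 ∧ pst hB 𝒜 cp δ x y = c := by
  obtain ⟨x, hx⟩ := prS_surj hB cp hD (c.1 0)
  obtain ⟨h1, h2, h3⟩ := Yn_spec hB cp hD (norm_ne x.2) (c := c) hx.symm
  exact ⟨x.1, _, x.2, h1, h2, h3⟩

end Pool.Agent.Lib.MP_ccbbf6_gt.L7
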