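import Pool.Agent.Lib.MP_ccbbf6_gt.L7.PR7

/-!
# Level 7, PR8 (helper78): explicit values of the covering, lifts of families at the base point
-/

set_option autoImplicit false
set_option maxSynthPendingDepth 3
set_option linter.unusedSectionVars false

open Set Filter Topology Metric Real Module
open scoped ContDiff RealInnerProductSpace

noncomputable section

namespace Pool.Agent.Lib.MP_ccbbf6_gt.L7

open Geo L4 L4.ORI L4.FR L5

variable {n k : ℕ} {M : Type} [MetricSpace M] [CompactSpace M] {𝒜 : SDist n M}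

theorem gw_unit (hB : Bl M) (cp : Gs M) {ξ : Eu n} (hξ : ‖ξ‖ = 1) : gw 𝒜 hB cp ξ = gvg 𝒜 hB (cp.1 0) ξ hξ := by
  have h0 : ξ ≠ 0 := by
    rintro rfl
    rw [norm_zero] at hξ
    exact zero_ne_one hξ
  refine eq_of_vel' 𝒜 ?_ ?_
  · rw [gw_zero, (gvg_vel 𝒜 hB _ _ _).1]
  · rw [gw_vel 𝒜 hB cp h0, nrm_of_norm hξ, (gvg_vel 𝒜 hB _ _ _).2]

/-- the covering in exponential coordinates at the pole -/
theorem prh_exp (hB : Bl M) (cp : Gs M) {δ : ℝ} (hD : Dl 𝒜 δ) (η : Eu n) :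
    prh hB 𝒜 cp δ (cos ‖η‖ • e0 n + sin ‖η‖ • em n (ORI.nrm η)) = 𝒜.Ex (cp.1 0) (δ • η) := by
  by_cases h : η = 0
  · have h1 : prh hB 𝒜 cp δ (e0 n) = cp.1 0 := by
      have h2 : tl n (e0 n) = 0 := tl_e0
      unfold prh
      rw [h2, gw_zero_vec, ang_of_tl_zero_pos h2 (by rw [hd_e0]; exact one_pos), mul_zero]
    rw [h, norm_zero, cos_zero, sin_zero, zero_smul, one_smul, add_zero, smul_zero, h1, Ex_zero 𝒜 hB]
  · have h1 : ‖ORI.nrm η‖ = 1 := ORI.norm_nrm h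
    have h2 : ORI.nrm η ≠ 0 := NEG.nc2_nrm_ne h
    rw [prh_circle hB cp hD h1, gw_eq 𝒜 hB cp h2, rad_unit _ h1, mul_smul, NEG.nc2_smul_nrm h]

/-- the value of the transfer on the directions at the pole -/
theorem cxi_tf (hB : Bl M) (cp : Gs M) {δ : ℕ} (hD : Dl 𝒜 (δ : ℝ)) (w : Om (spSt n)) :
    (cxi 𝒜 hB cp).pull (tf hB cp hD w) = (poS n).pull (dk δ n w) := by
  rw [← PP_poS 𝒜 hB cp hD, comp_tf]

/-- the flow of the directions at the pole, time `δ θ` -/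
def cfl (hB : Bl M) (𝒜 : SDist n M) (cp : Gs M) (δ : ℝ) : SMap (spS n).xR (spG 𝒜) :=
  ⟨fun z => shift (δ * z.2) ((cxi 𝒜 hB cp).1 z.1), fun _ p =>
    SmG.shift hB ((cxi 𝒜 hB cp).pl ⟨fun u => (p.1 u).1, p.2.1⟩).2 (contDiff_const.mul p.2.2)⟩

theorem PP_gcS' (hB : Bl M) (cp : Gs M) {δ : ℝ} (hD : Dl 𝒜 δ) : (PP hB cp hD).comp (gcS n) = cfl hB 𝒜 cp δ :=
  SMap_ext fun z => PP_gcS 𝒜 hB cp hD z.1 z.2

theorem cfl_tf (hB : Bl M) (cp : Gs M) {δ : ℕ} (hD : Dl 𝒜 (δ : ℝ)) (w : Om (spSt n)) :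
    (cfl hB 𝒜 cp δ).pull (tf hB cp hD w) = (gcS n).pull (dk δ n w) := by
  rw [← PP_gcS' hB cp hD, comp_tf]

/-- the antipodal great circle point: `(ξ, θ) ↦ (ξ, θ + π)` -/
theorem gcS_add_pi (ξ : (spS n).pt) (θ : ℝ) : (gcS n).1 (ξ, θ + π) = (stN n).1 ((gcS n).1 (ξ, θ)) := by
  refine Subtype.ext (Prod.ext ?_ ?_)
  · show cos (θ + π) • e0 n + sin (θ + π) • em n ξ.1 = -(cos θ • e0 n + sin θ • em n ξ.1)
    rw [cos_add_pi, sin_add_pi, neg_smul, neg_smul, neg_add]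
  · show -sin (θ + π) • e0 n + cos (θ + π) • em n ξ.1 = -(-sin θ • e0 n + cos θ • em n ξ.1)
    rw [cos_add_pi, sin_add_pi, neg_neg, neg_smul, neg_smul, neg_add, neg_neg]

/-- existence of a base geodesic of every foot -/
theorem exists_cp (𝒜 : SDist n M) (hB : Bl M) (cp : Gs M) (p : M) : ∃ c : Gs M, c.1 0 = p := ⟨bG hB 𝒜 cp p, bG_zero hB cp p⟩

end Pool.Agent.Lib.MP_ccbbf6_gt.L7
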