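import Pool.Agent.Lib.MP_ccbbf6_gt.L7.ST0

/-!
# Level 7, ST1: chains of small dimension avoid points; the homotopy `A` (helper33)
-/

set_option autoImplicit false
set_option maxSynthPendingDepth 3

open Set Filter Topology MeasureTheory Module
open scoped ContDiff RealInnerProductSpace

noncomputable section

namespace Pool.Agent.Lib.MP_ccbbf6_gt.L7

open Geo L4 L4.FR L5

variable {k l n N : ℕ}

/-! ### avoiding points -/

/-- countably many smooth images of small dimension do not cover the space -/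
theorem avoid {ι : Type*} {F : Type*} [NormedAddCommGroup F] [NormedSpace ℝ F] [FiniteDimensional ℝ F] {s : Set ι}
    (hs : s.Countable) {A : ι → Set F} {d : ℕ} (hA : ∀ i ∈ s, dimH (A i) ≤ d) (hd : d < finrank ℝ F) :
    ∃ b : F, ∀ i ∈ s, b ∉ A i := by
  have h1 : dimH (⋃ i ∈ s, A i) < finrank ℝ F := by
    rw [dimH_bUnion hs]
    refine lt_of_le_of_lt (iSup₂_le hA) ?_
    exact_mod_cast hd
  obtain ⟨b, hb⟩ := (dense_compl_of_dimH_lt_finrank h1).nonempty
  exact ⟨b, fun i hi h => hb (mem_biUnion hi h)⟩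

theorem dimH_range {E F : Type*} [NormedAddCommGroup E] [NormedSpace ℝ E] [FiniteDimensional ℝ E] [NormedAddCommGroup F]
    [NormedSpace ℝ F] {f : E → F} (h : ContDiff ℝ ∞ f) {d : ℕ} (hd : finrank ℝ E ≤ d) : dimH (range f) ≤ d := by
  refine ((h.of_le (by exact_mod_cast le_top) : ContDiff ℝ 1 f).dimH_range_le).trans ?_
  exact_mod_cast hd

/-- a direction which is not a first vector of the cubes -/
theorem exists_q {j : ℕ} (s : Finset ((spSt n).Plot j)) (hj : j < n) :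
    ∃ q : Eu (n + 1), ‖q‖ = 1 ∧ ∀ p ∈ s, ∀ z, (p.1 z).1.1 ≠ q := by
  obtain ⟨b, hb⟩ := avoid (F := Eu (n + 1)) (s := (s : Set ((spSt n).Plot j))) s.countable_toSet
    (A := fun p => range fun z : V j × ℝ => z.2 • (p.1 z.1).1.1) (d := j + 1) (fun p _ => by
      refine dimH_range (contDiff_snd.smul ((plot_smX p).comp contDiff_fst)) ?_
      rw [finrank_prod, finrank_fin_fun, finrank_self]) (by rw [finrank_euclideanSpace_fin]; omega)
  by_cases h0 : s.Nonempty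
  · obtain ⟨p0, hp0⟩ := h0
    have hb0 : b ≠ 0 := by
      rintro rfl
      exact hb p0 hp0 ⟨(0, 0), by simp⟩
    refine ⟨‖b‖⁻¹ • b, by rw [norm_smul, norm_inv, norm_norm, inv_mul_cancel₀ (norm_ne_zero_iff.2 hb0)], fun p hp z hz => ?_⟩
    refine hb p hp ⟨(z, ‖b‖), ?_⟩
    change ‖b‖ • (p.1 z).1.1 = b
    rw [hz, smul_smul, mul_inv_cancel₀ (norm_ne_zero_iff.2 hb0), one_smul]
  · rw [Finset.not_nonempty_iff_eq_empty] at h0
    subst h0
    exact ⟨EuclideanSpace.single 0 1, by simp, fun p hp => absurd hp (Finset.notMem_empty p)⟩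

/-- a direction orthogonal to `a` which is not a second vector of the cubes -/
theorem exists_v {j : ℕ} (s : Finset ((spSt n).Plot j)) (hj : j + 1 < n) {a : Eu (n + 1)} (ha : ‖a‖ = 1) :
    ∃ v : Eu (n + 1), ‖v‖ = 1 ∧ ⟪a, v⟫ = 0 ∧ ∀ p ∈ s, ∀ z, (p.1 z).1.2 ≠ v := by
  obtain ⟨b, hb⟩ := avoid (F := Eu (n + 1)) (s := (univ : Set (Option s))) (to_countable _)
    (A := fun o => match o with
      | none => range fun r : ℝ => r • a
      | some p => range fun z : V j × ℝ × ℝ => z.2.1 • (p.1.1 z.1).1.2 + z.2.2 • a) (d := j + 2) (fun o _ => by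
      rcases o with _ | p
      · refine dimH_range (contDiff_id.smul contDiff_const) ?_
        rw [finrank_self]
        omega
      · refine dimH_range (((contDiff_fst.comp contDiff_snd).smul ((plot_smY p.1).comp contDiff_fst)).add
          ((contDiff_snd.comp contDiff_snd).smul contDiff_const)) ?_
        rw [finrank_prod, finrank_prod, finrank_fin_fun, finrank_self]) (by rw [finrank_euclideanSpace_fin]; omega)
  set c : Eu (n + 1) := b - ⟪a, b⟫ • a with hc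
  have hc0 : c ≠ 0 := by
    intro h
    refine hb none (mem_univ _) ⟨⟪a, b⟫, ?_⟩
    change ⟪a, b⟫ • a = b
    rw [hc, sub_eq_zero] at h
    exact h.symm
  have hac : ⟪a, c⟫ = 0 := by
    rw [hc, inner_sub_right, real_inner_smul_right, real_inner_self_eq_norm_sq, ha]
    ring
  refine ⟨‖c‖⁻¹ • c, by rw [norm_smul, norm_inv, norm_norm, inv_mul_cancel₀ (norm_ne_zero_iff.2 hc0)], by
    rw [real_inner_smul_right, hac, mul_zero], fun p hp z hz => ?_⟩
  refine hb (some ⟨p, hp⟩) (mem_univ _) ⟨(z, ‖c‖, ⟪a, b⟫), ?_⟩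
  change ‖c‖ • (p.1 z).1.2 + ⟪a, b⟫ • a = b
  rw [hz, smul_smul, mul_inv_cancel₀ (norm_ne_zero_iff.2 hc0), one_smul, hc, sub_add_cancel]

/-- a point of `spSt n` which is not on the cubes -/
theorem exists_qv {j : ℕ} (s : Finset ((spSt n).Plot j)) (hj : j + 2 ≤ 2 * n) :
    ∃ o : (spSt n).pt, ∀ p ∈ s, ∀ z, p.1 z ≠ o := by
  have hn : 1 ≤ n := by omega
  obtain ⟨b, hb⟩ := avoid (F := Eu (n + 1) × Eu (n + 1)) (s := (univ : Set (Option (Option s)))) (to_countable _)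
    (A := fun o => match o with
      | none => range fun z : Eu (n + 1) × ℝ => (z.1, z.2 • z.1)
      | some none => range fun z : Eu (n + 1) => ((0 : Eu (n + 1)), z)
      | some (some p) => range fun z : V j × ℝ × ℝ × ℝ =>
          (z.2.1 • (p.1.1 z.1).1.1, z.2.2.1 • (p.1.1 z.1).1.1 + z.2.2.2 • (p.1.1 z.1).1.2)) (d := 2 * n + 1) (fun o _ => by
      rcases o with _ | _ | p
      · refine dimH_range (contDiff_fst.prodMk (contDiff_snd.smul contDiff_fst)) ?_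
        rw [finrank_prod, finrank_euclideanSpace_fin, finrank_self]
        omega
      · refine dimH_range (contDiff_const.prodMk contDiff_id) ?_
        rw [finrank_euclideanSpace_fin]
        omega
      · have hx := (plot_smX p.1).comp (contDiff_fst (E := V j) (F := ℝ × ℝ × ℝ))
        have hy := (plot_smY p.1).comp (contDiff_fst (E := V j) (F := ℝ × ℝ × ℝ))
        have h2 : ContDiff ℝ ∞ fun z : V j × ℝ × ℝ × ℝ => z.2.1 := contDiff_fst.comp contDiff_snd
        have h3 : ContDiff ℝ ∞ fun z : V j × ℝ × ℝ × ℝ => z.2.2.1 := contDiff_fst.comp (contDiff_snd.comp contDiff_snd)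
        have h4 : ContDiff ℝ ∞ fun z : V j × ℝ × ℝ × ℝ => z.2.2.2 := contDiff_snd.comp (contDiff_snd.comp contDiff_snd)
        refine dimH_range ((h2.smul hx).prodMk ((h3.smul hx).add (h4.smul hy))) ?_
        rw [finrank_prod, finrank_prod, finrank_prod, finrank_fin_fun, finrank_self]
        omega) (by rw [finrank_prod, finrank_euclideanSpace_fin]; omega)
  have hb1 : b.1 ≠ 0 := by
    intro h
    exact hb (some none) (mem_univ _) ⟨b.2, Prod.ext h.symm rfl⟩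
  have hb2 : b.2 - (⟪b.1, b.2⟫ / ⟪b.1, b.1⟫) • b.1 ≠ 0 := by
    intro h
    refine hb none (mem_univ _) ⟨(b.1, ⟪b.1, b.2⟫ / ⟪b.1, b.1⟫), ?_⟩
    rw [sub_eq_zero] at h
    exact Prod.ext rfl h.symm
  refine ⟨⟨gsm b, gsm_mem ⟨hb1, hb2⟩⟩, fun p hp z hz => ?_⟩
  have hz1 : (p.1 z).1 = gsm b := by rw [hz]
  have e1 : (p.1 z).1.1 = ‖b.1‖⁻¹ • b.1 := by rw [hz1]; rfl
  have e2 : (p.1 z).1.2 = ‖b.2 - (⟪b.1, b.2⟫ / ⟪b.1, b.1⟫) • b.1‖⁻¹ • (b.2 - (⟪b.1, b.2⟫ / ⟪b.1, b.1⟫) • b.1) := by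
    rw [hz1]; rfl
  refine hb (some (some ⟨p, hp⟩)) (mem_univ _)
    ⟨(z, ‖b.1‖, (⟪b.1, b.2⟫ / ⟪b.1, b.1⟫) * ‖b.1‖, ‖b.2 - (⟪b.1, b.2⟫ / ⟪b.1, b.1⟫) • b.1‖), ?_⟩
  refine Prod.ext ?_ ?_
  · change ‖b.1‖ • (p.1 z).1.1 = b.1
    rw [e1, smul_smul, mul_inv_cancel₀ (norm_ne_zero_iff.2 hb1), one_smul]
  · change (_ * ‖b.1‖) • (p.1 z).1.1 + ‖_‖ • (p.1 z).1.2 = b.2
    rw [e1, e2, smul_smul, smul_smul, mul_assoc, mul_inv_cancel₀ (norm_ne_zero_iff.2 hb1), mul_one,
      mul_inv_cancel₀ (norm_ne_zero_iff.2 hb2), one_smul, add_sub_cancel]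

/-! ### cut-off functions -/

/-- `1` for `c ≤ a`, `0` for `c ≥ b` -/
def dn (a b c : ℝ) : ℝ := Real.smoothTransition ((b - c) / (b - a))

theorem contDiff_dn (a b : ℝ) : ContDiff ℝ ∞ (dn a b) :=
  Real.smoothTransition.contDiff.comp ((contDiff_const.sub contDiff_id).div_const _)

theorem dn_nonneg (a b c : ℝ) : 0 ≤ dn a b c := Real.smoothTransition.nonneg _
theorem dn_le (a b c : ℝ) : dn a b c ≤ 1 := Real.smoothTransition.le_one _

theorem dn_one {a b c : ℝ} (hab : a < b) (h : c ≤ a) : dn a b c = 1 := by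
  refine Real.smoothTransition.one_of_one_le ?_
  rw [le_div_iff₀ (sub_pos.2 hab)]
  linarith

theorem dn_zero {a b c : ℝ} (hab : a < b) (h : b ≤ c) : dn a b c = 0 := by
  refine Real.smoothTransition.zero_of_nonpos ?_
  exact div_nonpos_of_nonpos_of_nonneg (by linarith) (sub_pos.2 hab).le

/-- the time -/
def st (t : ℝ) : ℝ := Real.smoothTransition t

theorem contDiff_st : ContDiff ℝ ∞ st := Real.smoothTransition.contDiff
theorem st_zero : st 0 = 0 := Real.smoothTransition.zero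
theorem st_one : st 1 = 1 := Real.smoothTransition.one
theorem st_nonneg (t : ℝ) : 0 ≤ st t := Real.smoothTransition.nonneg _
theorem st_le (t : ℝ) : st t ≤ 1 := Real.smoothTransition.le_one _

/-! ### segments on spheres -/

/-- if a convex combination of `x` and `-q` vanishes, then `x = q` -/
theorem eq_of_seg {E : Type*} [NormedAddCommGroup E] [NormedSpace ℝ E] {x q : E} (hx : ‖x‖ = 1) (hq : ‖q‖ = 1) {s : ℝ}
    (h0 : 0 ≤ s) (h1 : s ≤ 1) (h : (1 - s) • x - s • q = 0) : x = q ∧ s ≠ 0 := by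
  have h2 : (1 - s) • x = s • q := sub_eq_zero.1 h
  have h3 := congrArg norm h2
  rw [norm_smul, norm_smul, hx, hq, mul_one, mul_one, Real.norm_of_nonneg (by linarith), Real.norm_of_nonneg h0] at h3
  have h4 : s = 1 / 2 := by linarith
  have h5 : (1 : ℝ) - 1 / 2 = 1 / 2 := by norm_num
  rw [h4, h5] at h2
  exact ⟨smul_right_injective _ (by norm_num : (1 / 2 : ℝ) ≠ 0) h2, by rw [h4]; norm_num⟩

/-- normalisation -/
def nz {E : Type*} [NormedAddCommGroup E] [NormedSpace ℝ E] (u : E) : E := ‖u‖⁻¹ • u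

theorem norm_nz {E : Type*} [NormedAddCommGroup E] [NormedSpace ℝ E] {u : E} (h : u ≠ 0) : ‖nz u‖ = 1 := by
  unfold nz
  rw [norm_smul, norm_inv, norm_norm, inv_mul_cancel₀ (norm_ne_zero_iff.2 h)]

theorem nz_of_norm {E : Type*} [NormedAddCommGroup E] [NormedSpace ℝ E] {u : E} (h : ‖u‖ = 1) : nz u = u := by
  unfold nz
  rw [h, inv_one, one_smul]

theorem contDiffAt_nz {E : Type*} [NormedAddCommGroup E] [InnerProductSpace ℝ E] {G : Type*} [NormedAddCommGroup G]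
    [NormedSpace ℝ G] {u : G → E} {z : G} (hu : ContDiffAt ℝ ∞ u z) (h : u z ≠ 0) : ContDiffAt ℝ ∞ (fun z => nz (u z)) z :=
  ((hu.norm ℝ h).inv (norm_ne_zero_iff.2 h)).smul hu

/-! ### the homotopy `A` -/

section A

variable (q : Eu (n + 1)) (a b : ℝ)

/-- parameter of the homotopy `A` -/
def sA (x : Eu (n + 1)) (t : ℝ) : ℝ := st t * dn a b ⟪x, q⟫

/-- the moving first vector, not normalised -/
def uA (x : Eu (n + 1)) (t : ℝ) : Eu (n + 1) := (1 - sA q a b x t) • x - sA q a b x t • q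

/-- the moving first vector -/
def xA (x : Eu (n + 1)) (t : ℝ) : Eu (n + 1) := nz (uA q a b x t)

/-- the moving second vector -/
def yA (x y : Eu (n + 1)) (t : ℝ) : Eu (n + 1) :=
  y - (⟪xA q a b x t, y⟫ / (1 + ⟪x, xA q a b x t⟫)) • (x + xA q a b x t)

variable {q a b}

theorem sA_nonneg (x : Eu (n + 1)) (t : ℝ) : 0 ≤ sA q a b x t := mul_nonneg (st_nonneg t) (dn_nonneg _ _ _)

theorem sA_le (x : Eu (n + 1)) (t : ℝ) : sA q a b x t ≤ 1 :=
  mul_le_one₀ (st_le t) (dn_nonneg _ _ _) (dn_le _ _ _)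

theorem sA_self (hq : ‖q‖ = 1) (hab : a < b) (hb : b ≤ 1) (t : ℝ) : sA q a b q t = 0 := by
  unfold sA
  rw [real_inner_self_eq_norm_sq, hq, one_pow, dn_zero hab hb, mul_zero]

theorem uA_ne (hq : ‖q‖ = 1) (hab : a < b) (hb : b ≤ 1) {x : Eu (n + 1)} (hx : ‖x‖ = 1) (t : ℝ) : uA q a b x t ≠ 0 := by
  intro h
  obtain ⟨h1, h2⟩ := eq_of_seg hx hq (sA_nonneg x t) (sA_le x t) h
  subst h1
  exact h2 (sA_self hx hab hb t)

theorem norm_xA (hq : ‖q‖ = 1) (hab : a < b) (hb : b ≤ 1) {x : Eu (n + 1)} (hx : ‖x‖ = 1) (t : ℝ) : ‖xA q a b x t‖ = 1 :=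
  norm_nz (uA_ne hq hab hb hx t)

theorem den_ne (hq : ‖q‖ = 1) (hab : a < b) (hb : b ≤ 1) {x : Eu (n + 1)} (hx : ‖x‖ = 1) (t : ℝ) :
    1 + ⟪x, xA q a b x t⟫ ≠ 0 := by
  intro h
  have h1 : ⟪x, xA q a b x t⟫ = -1 := by linarith
  rw [inner_eq_neg_one_iff_of_norm_eq_one hx (norm_xA hq hab hb hx t)] at h1
  -- `uA = -‖uA‖ x`
  have h2 : uA q a b x t = -(‖uA q a b x t‖ • x) := by
    have h3 : xA q a b x t = -x := by
      have h4 := congrArg Neg.neg h1
      rw [neg_neg] at h4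
      exact h4.symm
    have h4 : ‖uA q a b x t‖ • xA q a b x t = uA q a b x t := by
      unfold xA nz
      rw [smul_smul, mul_inv_cancel₀ (norm_ne_zero_iff.2 (uA_ne hq hab hb hx t)), one_smul]
    rw [← h4, h3, smul_neg]
    rw [norm_neg, norm_smul, norm_norm, hx, mul_one]
  have hs0 := sA_nonneg (q := q) (a := a) (b := b) x t
  have hs1 := sA_le (q := q) (a := a) (b := b) x t
  have hu : 0 < ‖uA q a b x t‖ := norm_pos_iff.2 (uA_ne hq hab hb hx t)
  have h5 : (1 - sA q a b x t + ‖uA q a b x t‖) • x = sA q a b x t • q := by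
    have h6 : (1 - sA q a b x t) • x - sA q a b x t • q = -(‖uA q a b x t‖ • x) := h2
    rw [add_smul, ← sub_eq_zero]
    rw [← sub_eq_zero] at h6
    rw [← h6]
    abel
  have h7 := congrArg norm h5
  rw [norm_smul, norm_smul, hx, hq, mul_one, mul_one, Real.norm_of_nonneg (by linarith), Real.norm_of_nonneg hs0] at h7
  have hs : 0 < sA q a b x t := by linarith
  rw [h7] at h5
  have h8 : x = q := smul_right_injective _ hs.ne' h5
  rw [h8, sA_self hq hab hb] at hs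
  exact hs.false

theorem yA_spec (hq : ‖q‖ = 1) (hab : a < b) (hb : b ≤ 1) {x y : Eu (n + 1)} (hx : ‖x‖ = 1) (hy : ‖y‖ = 1)
    (hxy : ⟪x, y⟫ = 0) (t : ℝ) : ‖yA q a b x y t‖ = 1 ∧ ⟪xA q a b x t, yA q a b x y t⟫ = 0 := by
  obtain ⟨w, hw⟩ : ∃ w, xA q a b x t = w := ⟨_, rfl⟩
  have hw1 : ‖w‖ = 1 := by rw [← hw]; exact norm_xA hq hab hb hx t
  have hd : 1 + ⟪x, w⟫ ≠ 0 := by rw [← hw]; exact den_ne hq hab hb hx t
  have hxx : ⟪x, x⟫ = 1 := by rw [real_inner_self_eq_norm_sq, hx, one_pow]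
  have hww : ⟪w, w⟫ = 1 := by rw [real_inner_self_eq_norm_sq, hw1, one_pow]
  have hyy : ⟪y, y⟫ = 1 := by rw [real_inner_self_eq_norm_sq, hy, one_pow]
  unfold yA
  rw [hw]
  constructor
  · have h1 : ⟪y - (⟪w, y⟫ / (1 + ⟪x, w⟫)) • (x + w), y - (⟪w, y⟫ / (1 + ⟪x, w⟫)) • (x + w)⟫ = 1 := by
      simp only [inner_sub_left, inner_sub_right, real_inner_smul_left, real_inner_smul_right, inner_add_left,
        inner_add_right, hxx, hww, hyy, hxy, real_inner_comm x y, real_inner_comm x w, real_inner_comm w y]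
      rw [real_inner_comm y w] at *
      field_simp
      ring
    rw [real_inner_self_eq_norm_sq] at h1
    exact (pow_eq_one_iff_of_nonneg (norm_nonneg _) two_ne_zero).1 h1
  · rw [inner_sub_right, real_inner_smul_right, inner_add_right, hww, real_inner_comm x w, add_comm ⟪x, w⟫ 1,
      div_mul_cancel₀ _ hd, sub_self]

/-- the homotopy `A`: `x` moves towards `-q`, `y` is transported; everything with `⟪x, q⟫ ≤ a` arrives at `x = -q`,
nothing moves for `⟪x, q⟫ ≥ b` -/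
def HA (hq : ‖q‖ = 1) (hab : a < b) (hb : b ≤ 1) : SMap (spSt n).xR (spSt n) :=
  ⟨fun z => ⟨(xA q a b z.1.1.1 z.2, yA q a b z.1.1.1 z.1.1.2 z.2), norm_xA hq hab hb (stx _) _,
    (yA_spec hq hab hb (stx _) (sty _) (stxy _) _).1, (yA_spec hq hab hb (stx _) (sty _) (stxy _) _).2⟩, fun k p => by
    change ContDiff ℝ ∞ fun u => (xA q a b (p.1 u).1.1.1 (p.1 u).2, yA q a b (p.1 u).1.1.1 (p.1 u).1.1.2 (p.1 u).2)
    have hx : ContDiff ℝ ∞ fun u => (p.1 u).1.1.1 := contDiff_fst.comp (show ContDiff ℝ ∞ _ from p.2.1)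
    have hy : ContDiff ℝ ∞ fun u => (p.1 u).1.1.2 := contDiff_snd.comp (show ContDiff ℝ ∞ _ from p.2.1)
    have ht : ContDiff ℝ ∞ fun u => (p.1 u).2 := p.2.2
    have hs : ContDiff ℝ ∞ fun u => sA q a b (p.1 u).1.1.1 (p.1 u).2 :=
      (contDiff_st.comp ht).mul ((contDiff_dn a b).comp (hx.inner ℝ contDiff_const))
    have hu : ContDiff ℝ ∞ fun u => uA q a b (p.1 u).1.1.1 (p.1 u).2 :=
      ((contDiff_const.sub hs).smul hx).sub (hs.smul contDiff_const)
    have hxA : ContDiff ℝ ∞ fun u => xA q a b (p.1 u).1.1.1 (p.1 u).2 := by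
      rw [contDiff_iff_contDiffAt]
      exact fun u => contDiffAt_nz hu.contDiffAt (uA_ne hq hab hb (stx _) _)
    have hr : ContDiff ℝ ∞ fun u => ⟪xA q a b (p.1 u).1.1.1 (p.1 u).2, (p.1 u).1.1.2⟫ /
        (1 + ⟪(p.1 u).1.1.1, xA q a b (p.1 u).1.1.1 (p.1 u).2⟫) :=
      (hxA.inner ℝ hy).div (contDiff_const.add (hx.inner ℝ hxA)) fun u => den_ne hq hab hb (stx _) _
    exact hxA.prodMk (hy.sub (hr.smul (hx.add hxA)))⟩

theorem xA_zero {x : Eu (n + 1)} (hx : ‖x‖ = 1) {t : ℝ} (h : sA q a b x t = 0) : xA q a b x t = x := by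
  unfold xA uA
  rw [h, sub_zero, one_smul, zero_smul, sub_zero, nz_of_norm hx]

theorem yA_zero {x y : Eu (n + 1)} (hx : ‖x‖ = 1) (hxy : ⟪x, y⟫ = 0) {t : ℝ} (h : sA q a b x t = 0) :
    yA q a b x y t = y := by
  unfold yA
  rw [xA_zero hx h, hxy, zero_div, zero_smul, sub_zero]

theorem HA_zero (hq : ‖q‖ = 1) (hab : a < b) (hb : b ≤ 1) (z : (spSt n).pt) : (HA hq hab hb).1 (z, 0) = z := by
  have h : sA q a b z.1.1 0 = 0 := by unfold sA; rw [st_zero, zero_mul]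
  refine Subtype.ext (Prod.ext ?_ ?_)
  · exact xA_zero (stx z) h
  · exact yA_zero (stx z) (stxy z) h

/-- the end of the homotopy `A` -/
theorem HA_one (hq : ‖q‖ = 1) (hab : a < b) (hb : b ≤ 1) {z : (spSt n).pt} (h : ⟪z.1.1, q⟫ ≤ a) :
    ((HA hq hab hb).1 (z, 1)).1.1 = -q := by
  have h1 : sA q a b z.1.1 1 = 1 := by unfold sA; rw [st_one, dn_one hab h, mul_one]
  change nz (uA q a b z.1.1 1) = -q
  unfold uA
  rw [h1, sub_self, zero_smul, one_smul, zero_sub, nz_of_norm (by rw [norm_neg, hq])]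

end A

end Pool.Agent.Lib.MP_ccbbf6_gt.L7
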