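import Pool.Agent.Lib.MP_ccbbf6_gt.L5.PER02
import Pool.Agent.Lib.MP_ccbbf6_gt.L7.ST2

/-!
# Level 7, ST3: closed chains of dimension `j` in `spSt n` bound for `1 ≤ j ≤ n - 2` and `n + 1 ≤ j ≤ 2n - 2` (helper33)
-/

set_option autoImplicit false
set_option maxSynthPendingDepth 3

open Set Filter Topology MeasureTheory Module
open scoped ContDiff RealInnerProductSpace

noncomputable section

namespace Pool.Agent.Lib.MP_ccbbf6_gt.L7

open Geo L4 L4.FR L5 PE

variable {k l n N j : ℕ}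

/-! ### ranks -/

/-- a chain on whose open cubes the rank is small integrates to zero -/
theorem ch_rank_zero_int {y : Ch (spSt n) k}
    (h : ∀ p ∈ y.support, ∀ x : V k, (∀ i, x i ∈ Ioo (0 : ℝ) 1) → rkP p x < k) (w : Om (spSt n)) : ch y w = 0 := by
  refine ch_zero_of fun p hp => ?_
  have h1 : cI k (Om.on w p) = cI k (0 : Fm k) := cI_congr_int fun x hx => by
    rw [top_rank_zero w p (h p hp x hx), map_zero, map_zero]
  rw [h1, cI_zero]

/-- two chains given by maps of the cubes: agreement on the open cubes is enough -/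
theorem ev_eq_of_eq_cube {X : Space} (w : Om X) {p p' : X.Plot k} (h : ∀ z ∈ Icc (0 : V k) 1, p.1 z = p'.1 z) {x : V k}
    (hx : ∀ i, x i ∈ Ioo (0 : ℝ) 1) : ev x (Om.on w p) = ev x (Om.on w p') := by
  refine ev_on_congr w ?_
  filter_upwards [eventually_Ioo hx] with z hz
  exact h z (mem_cube_of_Ioo hz)

theorem cI_eq_of_eq_cube {X : Space} (w : Om X) {p p' : X.Plot k} (h : ∀ z ∈ Icc (0 : V k) 1, p.1 z = p'.1 z) :
    cI k (Om.on w p) = cI k (Om.on w p') :=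
  cI_congr_int fun x hx => by rw [ev_eq_of_eq_cube w h hx]

theorem hasFD (p : (spSt n).Plot N) (z : V N) :
    HasFDerivAt (fun u => (p.1 u).1) (fderiv ℝ (fun u => (p.1 u).1) z) z :=
  ((plot_sm p).differentiable (by simp) z).hasFDerivAt

/-- constant plots have rank zero -/
theorem rk_const (p : (spSt n).Plot N) {z : V N} {o : Eu (n + 1) × Eu (n + 1)} (h : ∀ᶠ u in 𝓝 z, (p.1 u).1 = o) :
    rkP p z = 0 := by
  unfold rkP
  have h1 : (fun u => (p.1 u).1) =ᶠ[𝓝 z] fun _ => o := h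
  rw [h1.fderiv_eq, fderiv_fun_const]
  simp

/-- orthogonal complement of two orthonormal vectors -/
theorem finrank_perp2 {a b : Eu (n + 1)} (ha : ‖a‖ = 1) (hb : ‖b‖ = 1) (hab : ⟪a, b⟫ = 0) :
    finrank ℝ ((Submodule.span ℝ {a, b})ᗮ : Submodule ℝ (Eu (n + 1))) + 2 = n + 1 := by
  have h1 := Submodule.finrank_add_finrank_orthogonal (Submodule.span ℝ ({a, b} : Set (Eu (n + 1))))
  have h2 : finrank ℝ (Submodule.span ℝ ({a, b} : Set (Eu (n + 1)))) = 2 := by
    have h3 : LinearIndependent ℝ ![a, b] := by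
      rw [LinearIndependent.pair_iff]
      intro s t hst
      constructor
      · have h4 := congrArg (fun x => ⟪a, x⟫) hst
        simp only [inner_add_right, real_inner_smul_right, hab, real_inner_self_eq_norm_sq, ha, inner_zero_right] at h4
        linarith
      · have h4 := congrArg (fun x => ⟪b, x⟫) hst
        simp only [inner_add_right, real_inner_smul_right, real_inner_comm a b, hab, real_inner_self_eq_norm_sq, hb,
          inner_zero_right] at h4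
        linarith
    have h4 := finrank_span_eq_card h3
    rw [Matrix.range_cons, Matrix.range_cons, Matrix.range_empty, Set.union_empty, Set.singleton_union, Fintype.card_fin] at h4
    exact h4
  rw [finrank_euclideanSpace_fin, h2] at h1
  omega

/-- plots with constant first vector -/
theorem rk_fib (p : (spSt n).Plot N) {z : V N} {a : Eu (n + 1)} (h : ∀ᶠ u in 𝓝 z, (p.1 u).1.1 = a) : rkP p z + 2 ≤ n + 1 := by
  have ha : (p.1 z).1.1 = a := h.self_of_nhds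
  have ha1 : ‖a‖ = 1 := by rw [← ha]; exact stx _
  have hy1 : ‖(p.1 z).1.2‖ = 1 := sty _
  have hay : ⟪a, (p.1 z).1.2⟫ = 0 := by rw [← ha]; exact stxy _
  rw [← finrank_perp2 ha1 hy1 hay]
  refine Nat.add_le_add_right ?_ 2
  have hD := hasFD p z
  have hx : HasFDerivAt (fun u => (p.1 u).1.1) ((ContinuousLinearMap.fst ℝ _ _).comp (fderiv ℝ (fun u => (p.1 u).1) z)) z :=
    (ContinuousLinearMap.fst ℝ (Eu (n + 1)) (Eu (n + 1))).hasFDerivAt.comp z hD
  have hy : HasFDerivAt (fun u => (p.1 u).1.2) ((ContinuousLinearMap.snd ℝ _ _).comp (fderiv ℝ (fun u => (p.1 u).1) z)) z :=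
    (ContinuousLinearMap.snd ℝ (Eu (n + 1)) (Eu (n + 1))).hasFDerivAt.comp z hD
  have hx0 : ((ContinuousLinearMap.fst ℝ (Eu (n + 1)) (Eu (n + 1))).comp (fderiv ℝ (fun u => (p.1 u).1) z)) = 0 := by
    have h2 : (fun u => (p.1 u).1.1) =ᶠ[𝓝 z] fun _ => a := h
    have h3 := hx.congr_of_eventuallyEq h2.symm
    exact h3.unique (hasFDerivAt_const _ _)
  have hrange : LinearMap.range (fderiv ℝ (fun u => (p.1 u).1) z : V N →ₗ[ℝ] Eu (n + 1) × Eu (n + 1)) ≤
      ((Submodule.span ℝ ({a, (p.1 z).1.2} : Set (Eu (n + 1))))ᗮ).map (LinearMap.inr ℝ (Eu (n + 1)) (Eu (n + 1))) := by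
    rintro _ ⟨v, rfl⟩
    have e1 : (fderiv ℝ (fun u => (p.1 u).1) z v).1 = 0 := congrArg (fun L : V N →L[ℝ] Eu (n + 1) => L v) hx0
    refine ⟨(fderiv ℝ (fun u => (p.1 u).1) z v).2, ?_, Prod.ext e1.symm rfl⟩
    rw [SetLike.mem_coe, Submodule.mem_orthogonal]
    intro w hw
    rw [Submodule.mem_span_pair] at hw
    obtain ⟨s, t, rfl⟩ := hw
    rw [inner_add_left, real_inner_smul_left, real_inner_smul_left]
    -- `⟪a, y⟫ = 0` near `z`, `⟪y, y⟫ = 1`
    have e2 : ⟪a, (fderiv ℝ (fun u => (p.1 u).1) z v).2⟫ = 0 := by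
      have h2 : (fun u => ⟪a, (p.1 u).1.2⟫) =ᶠ[𝓝 z] fun _ => (0 : ℝ) := by
        filter_upwards [h] with u hu
        rw [← hu]
        exact stxy _
      have h3 := ((hasFDerivAt_const a z).inner ℝ hy).congr_of_eventuallyEq h2.symm
      have h4 := congrArg (fun L : V N →L[ℝ] ℝ => L v) (h3.unique (hasFDerivAt_const _ _))
      simpa using h4
    have e3 : ⟪(p.1 z).1.2, (fderiv ℝ (fun u => (p.1 u).1) z v).2⟫ = 0 := by
      have h2 : (fun u => ⟪(p.1 u).1.2, (p.1 u).1.2⟫) = fun _ => (1 : ℝ) := funext fun u => styy _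
      have h3 := hy.inner ℝ hy
      rw [h2] at h3
      have h4 := congrArg (fun L : V N →L[ℝ] ℝ => L v) (h3.unique (hasFDerivAt_const _ _))
      simp at h4
      have h5 := real_inner_comm (p.1 z).1.2 (fderiv ℝ (fun u => (p.1 u).1) z v).2
      linarith
    rw [e2, e3, mul_zero, mul_zero, add_zero]
  refine (Submodule.finrank_mono hrange).trans ?_
  exact Submodule.finrank_map_le _ _

/-- rank of a map to the sphere -/
theorem rk_sph {E : Type*} [NormedAddCommGroup E] [NormedSpace ℝ E] {x : E → Eu (n + 1)} {z : E} (hx : DifferentiableAt ℝ x z)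
    (h1 : ∀ᶠ u in 𝓝 z, ‖x u‖ = 1) : finrank ℝ (LinearMap.range (fderiv ℝ x z : E →ₗ[ℝ] Eu (n + 1))) ≤ n := by
  have h0 : x z ≠ 0 := by
    rw [← norm_ne_zero_iff, h1.self_of_nhds]
    exact one_ne_zero
  have hrange : LinearMap.range (fderiv ℝ x z : E →ₗ[ℝ] Eu (n + 1)) ≤ (ℝ ∙ x z)ᗮ := by
    rintro _ ⟨v, rfl⟩
    rw [Submodule.mem_orthogonal_singleton_iff_inner_right]
    have h2 : (fun u => ⟪x u, x u⟫) =ᶠ[𝓝 z] fun _ => (1 : ℝ) := by
      filter_upwards [h1] with u hu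
      rw [real_inner_self_eq_norm_sq, hu, one_pow]
    have h3 := (hx.hasFDerivAt.inner ℝ hx.hasFDerivAt).congr_of_eventuallyEq h2.symm
    have h4 := congrArg (fun L : E →L[ℝ] ℝ => L v) (h3.unique (hasFDerivAt_const _ _))
    simp at h4
    have h5 := real_inner_comm (x z) (fderiv ℝ x z v)
    change ⟪x z, fderiv ℝ x z v⟫ = 0
    linarith
  have h6 := Submodule.finrank_mono hrange
  have h7 := Submodule.finrank_add_finrank_orthogonal (ℝ ∙ x z)
  rw [finrank_span_singleton h0, finrank_euclideanSpace_fin] at h7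
  omega

/-- plots which are functions of the first vector of another plot -/
theorem rk_fun (p p' : (spSt n).Plot N) {z : V N} {G : Eu (n + 1) → Eu (n + 1) × Eu (n + 1)}
    (hG : DifferentiableAt ℝ G (p'.1 z).1.1) (h : ∀ᶠ u in 𝓝 z, (p.1 u).1 = G (p'.1 u).1.1) : rkP p z ≤ n := by
  unfold rkP
  have h1 : (fun u => (p.1 u).1) =ᶠ[𝓝 z] fun u => G (p'.1 u).1.1 := h
  have hx : DifferentiableAt ℝ (fun u => (p'.1 u).1.1) z := (plot_smX p').differentiable (by simp) z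
  have h2 : HasFDerivAt (fun u => G (p'.1 u).1.1) ((fderiv ℝ G (p'.1 z).1.1).comp (fderiv ℝ (fun u => (p'.1 u).1.1) z)) z :=
    hG.hasFDerivAt.comp z hx.hasFDerivAt
  rw [h1.fderiv_eq, h2.fderiv]
  exact (finrank_comp_le _ _).trans (rk_sph hx (Eventually.of_forall fun u => stx _))

/-! ### bounds on the cubes -/

theorem exists_bd {X : Space} (s : Finset (X.Plot j)) (f : X.pt → ℝ) (hf : ∀ p : X.Plot j, Continuous fun z => f (p.1 z)) {b : ℝ}
    (h : ∀ p ∈ s, ∀ z ∈ Icc (0 : V j) 1, f (p.1 z) < b) : ∃ a < b, ∀ p ∈ s, ∀ z ∈ Icc (0 : V j) 1, f (p.1 z) ≤ a := by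
  classical
  induction s using Finset.induction_on with
  | empty => exact ⟨b - 1, by linarith, fun p hp => absurd hp (Finset.notMem_empty p)⟩
  | insert p s hp ih =>
    obtain ⟨a, ha, h1⟩ := ih fun p' hp' => h p' (Finset.mem_insert_of_mem hp')
    obtain ⟨z0, hz0, h2⟩ := (isCompact_Icc (a := (0 : V j)) (b := 1)).exists_isMaxOn ⟨0, ⟨le_rfl, zero_le_one⟩⟩
      (hf p).continuousOn
    refine ⟨max a (f (p.1 z0)), max_lt ha (h p (Finset.mem_insert_self _ _) z0 hz0), fun p' hp' z hz => ?_⟩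
    rcases Finset.mem_insert.1 hp' with rfl | h3
    · exact le_max_of_le_right (h2 hz)
    · exact le_max_of_le_left (h1 p' h3 z hz)

theorem inner_lt_one {a b : Eu (n + 1)} (ha : ‖a‖ = 1) (hb : ‖b‖ = 1) (h : a ≠ b) : ⟪a, b⟫ < 1 := by
  refine lt_of_le_of_ne ?_ fun h1 => h ((inner_eq_one_iff_of_norm_eq_one ha hb).1 h1)
  have := real_inner_le_norm a b
  rwa [ha, hb, mul_one] at this

theorem inner_le_one' {a b : Eu (n + 1)} (ha : ‖a‖ = 1) (hb : ‖b‖ = 1) : ⟪a, b⟫ ≤ 1 := by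
  have := real_inner_le_norm a b
  rwa [ha, hb, mul_one] at this

theorem cont_x (p : (spSt n).Plot j) : Continuous fun z => (p.1 z).1.1 := (plot_smX p).continuous
theorem cont_y (p : (spSt n).Plot j) : Continuous fun z => (p.1 z).1.2 := (plot_smY p).continuous

/-! ### small dimension -/

theorem ST_low (y : Ch (spSt n) j) (hy : Cl y) (h1 : 1 ≤ j) (h2 : j + 1 < n) : Bd 1 y := by
  -- first homotopy
  obtain ⟨q, hq, hq1⟩ := exists_q y.support (by omega : j < n)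
  obtain ⟨a, ha, ha1⟩ := exists_bd y.support (fun z => ⟪z.1.1, q⟫) (fun p => (cont_x p).inner continuous_const)
    (b := 1) fun p hp z _ => inner_lt_one (stx _) hq (hq1 p hp z)
  have hab : a < (a + 1) / 2 := by linarith
  have hb : (a + 1) / 2 ≤ 1 := by linarith
  refine Bd_of_homotopy hy (HA hq hab hb) (HA_zero hq hab hb) ?_
  set y1 := push ((HA hq hab hb).comp (jO (spSt n) 1)) y with hy1
  have hy1c : Cl y1 := hy.push _
  have hx1 : ∀ p ∈ y1.support, ∀ z ∈ Icc (0 : V j) 1, (p.1 z).1.1 = -q := by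
    intro p hp z hz
    obtain ⟨p', hp', rfl⟩ := mem_push hp
    exact HA_one hq hab hb (ha1 p' hp' z hz)
  clear_value y1
  -- second homotopy
  have hq' : ‖-q‖ = 1 := by rw [norm_neg, hq]
  obtain ⟨v, hv, hqv, hv1⟩ := exists_v y1.support h2 hq'
  obtain ⟨a2, ha2, ha3⟩ := exists_bd y1.support (fun z => ⟪z.1.2, v⟫) (fun p => (cont_y p).inner continuous_const)
    (b := 1) fun p hp z _ => inner_lt_one (sty _) hv (hv1 p hp z)
  have hU : Tan (-q) (1 / 4) (fld v) := Tan_fld hv hqv (by norm_num)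
  have hcd : (1 / 4 : ℝ) < 1 / 2 := by norm_num
  have hab2 : a2 < (a2 + 1) / 2 := by linarith
  have hb2 : (a2 + 1) / 2 ≤ 1 := by linarith
  refine Bd_of_homotopy hy1c (HB hU hcd hab2 hb2) (HB_zero hU hcd hab2 hb2) (Bd_of_zero fun w => ?_)
  refine ch_rank_zero_int (fun p hp z hz => ?_) w
  obtain ⟨p', hp', rfl⟩ := mem_push hp
  have h3 : ∀ᶠ u in 𝓝 z, ((((HB hU hcd hab2 hb2).comp (jO (spSt n) 1)).pl p').1 u).1 = (-q, -v) := by
    filter_upwards [eventually_Ioo hz] with u hu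
    have hu' := mem_cube_of_Ioo hu
    have e1 : (p'.1 u).1.1 = -q := hx1 p' hp' u hu'
    have e2 : fld v (p'.1 u).1.1 = v := by rw [e1]; exact fld_self hv hqv
    refine Prod.ext e1 ?_
    change ((HB hU hcd hab2 hb2).1 (p'.1 u, 1)).1.2 = -v
    rw [HB_one hU hcd hab2 hb2, e2]
    · rw [e1, real_inner_self_eq_norm_sq, hq']
      norm_num
    · rw [e2]
      exact ha3 p' hp' u hu'
  rw [rk_const _ h3]
  omega

/-! ### large dimension -/

theorem contDiffAt_xA {q : Eu (n + 1)} {a b : ℝ} (hq : ‖q‖ = 1) (hab : a < b) (hb : b ≤ 1) {x : Eu (n + 1)} (hx : ‖x‖ = 1)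
    (t : ℝ) : ContDiffAt ℝ ∞ (fun x => xA q a b x t) x := by
  have hs : ContDiffAt ℝ ∞ (fun x => sA q a b x t) x :=
    (contDiff_const.mul ((contDiff_dn a b).comp (contDiff_id.inner ℝ contDiff_const))).contDiffAt
  exact contDiffAt_nz (((contDiffAt_const.sub hs).smul contDiffAt_id).sub (hs.smul contDiffAt_const)) (uA_ne hq hab hb hx t)

theorem contDiffAt_yA {q : Eu (n + 1)} {a b : ℝ} (hq : ‖q‖ = 1) (hab : a < b) (hb : b ≤ 1) {x : Eu (n + 1)} (hx : ‖x‖ = 1)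
    {Y : Eu (n + 1) → Eu (n + 1)} (hY : ContDiffAt ℝ ∞ Y x) (t : ℝ) : ContDiffAt ℝ ∞ (fun x => yA q a b x (Y x) t) x := by
  have hxA := contDiffAt_xA hq hab hb hx t
  have hr : ContDiffAt ℝ ∞ (fun x => ⟪xA q a b x t, Y x⟫ / (1 + ⟪x, xA q a b x t⟫)) x :=
    (hxA.inner ℝ hY).div (contDiffAt_const.add (contDiffAt_id.inner ℝ hxA)) (den_ne hq hab hb hx t)
  exact hY.sub (hr.smul (contDiffAt_id.add hxA))

/-- parameters of the homotopies for chains which avoid the point `(q, v)` -/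
theorem exists_par (s : Finset ((spSt n).Plot j)) (o : (spSt n).pt) (ho : ∀ p ∈ s, ∀ z, p.1 z ≠ o) {U : Eu (n + 1) → Eu (n + 1)}
    (hU : ContinuousAt U o.1.1) (hU1 : U o.1.1 = o.1.2) : ∃ δ η : ℝ, 0 < δ ∧ δ < 1 / 2 ∧ 0 < η ∧
      ∀ p ∈ s, ∀ z ∈ Icc (0 : V j) 1, 1 - δ ≤ ⟪(p.1 z).1.1, o.1.1⟫ → ⟪(p.1 z).1.2, U (p.1 z).1.1⟫ ≤ 1 - η := by
  obtain ⟨a, ha, ha1⟩ := exists_bd s (fun z => ⟪z.1.1, o.1.1⟫ + ⟪z.1.2, o.1.2⟫)
    (fun p => ((cont_x p).inner continuous_const).add ((cont_y p).inner continuous_const)) (b := 2) (fun p hp z _ => by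
      by_contra h
      push Not at h
      have h1 := inner_le_one' (stx (p.1 z)) (stx o)
      have h2 := inner_le_one' (sty (p.1 z)) (sty o)
      have h3 : ⟪(p.1 z).1.1, o.1.1⟫ = 1 := by linarith
      have h4 : ⟪(p.1 z).1.2, o.1.2⟫ = 1 := by linarith
      exact ho p hp z (Subtype.ext (Prod.ext ((inner_eq_one_iff_of_norm_eq_one (stx _) (stx _)).1 h3)
        ((inner_eq_one_iff_of_norm_eq_one (sty _) (sty _)).1 h4))))
  set ε := 2 - a with hε
  have hε0 : 0 < ε := by linarith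
  obtain ⟨r, hr, hr1⟩ := Metric.continuousAt_iff.1 hU (ε / 4) (by linarith)
  refine ⟨min (min (1 / 4) (ε / 4)) (r ^ 2 / 4), ε / 2, by positivity, ?_, by linarith, fun p hp z hz h => ?_⟩
  · exact lt_of_le_of_lt ((min_le_left _ _).trans (min_le_left _ _)) (by norm_num)
  set δ := min (min (1 / 4 : ℝ) (ε / 4)) (r ^ 2 / 4) with hδ
  have hδ1 : δ ≤ ε / 4 := (min_le_left _ _).trans (min_le_right _ _)
  have hδ2 : δ ≤ r ^ 2 / 4 := min_le_right _ _
  have h1 : dist (p.1 z).1.1 o.1.1 < r := by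
    rw [dist_eq_norm]
    have h2 : ‖(p.1 z).1.1 - o.1.1‖ ^ 2 = 2 - 2 * ⟪(p.1 z).1.1, o.1.1⟫ := by
      rw [norm_sub_sq_real, stx, stx]
      ring
    have h3 : ‖(p.1 z).1.1 - o.1.1‖ ^ 2 < r ^ 2 := by
      rw [h2]
      nlinarith
    exact lt_of_pow_lt_pow_left₀ 2 hr.le h3
  have h2 := hr1 h1
  rw [hU1, dist_eq_norm] at h2
  have h3 : ⟪(p.1 z).1.2, U (p.1 z).1.1⟫ = ⟪(p.1 z).1.2, o.1.2⟫ + ⟪(p.1 z).1.2, U (p.1 z).1.1 - o.1.2⟫ := by
    rw [← inner_add_right, add_sub_cancel]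
  have h4 := real_inner_le_norm (p.1 z).1.2 (U (p.1 z).1.1 - o.1.2)
  rw [sty, one_mul] at h4
  have h5 := ha1 p hp z hz
  rw [h3]
  linarith

/-- the two homotopies for chains which avoid the point `(q, v)`: at the end the first vector is constant or everything is a
function of the first vector -/
theorem ST_ends (y : Ch (spSt n) j) (o : (spSt n).pt) (ho : ∀ p ∈ y.support, ∀ z, p.1 z ≠ o) {U : Eu (n + 1) → Eu (n + 1)}
    (hU : Tan o.1.1 (1 / 2) U) (hU1 : U o.1.1 = o.1.2) : ∃ (H1 : SMap (spSt n).xR (spSt n)) (a b : ℝ) (hab : a < b) (hb : b ≤ 1),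
      (∀ z, H1.1 (z, 0) = z) ∧ (∀ z t, (H1.1 (z, t)).1.1 = z.1.1) ∧
      ∀ p ∈ y.support, ∀ z : V j, (∀ i, z i ∈ Ioo (0 : ℝ) 1) →
          (∀ᶠ u in 𝓝 z, xA o.1.1 a b (p.1 u).1.1 1 = -o.1.1) ∨
          (1 / 2 < ⟪(p.1 z).1.1, o.1.1⟫ ∧ ∀ᶠ u in 𝓝 z, (((HA (stx o) hab hb).comp (jO (spSt n) 1)).pl
            ((H1.comp (jO (spSt n) 1)).pl p)).1 u = (HA (stx o) hab hb).1 ((H1.1 (p.1 u, 1)), 1) ∧
            (H1.1 (p.1 u, 1)).1.2 = -U (p.1 u).1.1) := by
  have ho1 : (1 / 2 : ℝ) ≤ ⟪o.1.1, o.1.1⟫ := by rw [stxx]; norm_num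
  obtain ⟨δ, η, hδ, hδ1, hη, hpar⟩ := exists_par y.support o ho (hU.smooth _ (stx o) ho1).continuousAt hU1
  have hU' : Tan o.1.1 (1 - δ) U := ⟨fun x hx h => hU.smooth x hx (by linarith), fun x hx h => hU.norm x hx (by linarith),
    fun x hx h => hU.orth x hx (by linarith)⟩
  have hcd : 1 - δ < 1 - δ / 2 := by linarith
  have hab : 1 - η < 1 - η / 2 := by linarith
  have hb : 1 - η / 2 ≤ 1 := by linarith
  have hab' : 1 - δ / 4 < 1 - δ / 8 := by linarith
  have hb' : 1 - δ / 8 ≤ 1 := by linarith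
  refine ⟨HB hU' hcd hab hb, 1 - δ / 4, 1 - δ / 8, hab', hb', HB_zero hU' hcd hab hb, fun _ _ => rfl,
    fun p hp z hz => ?_⟩
  have hcx : ContinuousAt (fun u => ⟪(p.1 u).1.1, o.1.1⟫) z := ((cont_x p).inner continuous_const).continuousAt
  rcases lt_or_ge ⟪(p.1 z).1.1, o.1.1⟫ (1 - δ / 4) with h | h
  · left
    filter_upwards [hcx.eventually_lt continuousAt_const h] with u hu
    exact HA_one (stx o) hab' hb' (z := p.1 u) hu.le
  · right
    refine ⟨by linarith, ?_⟩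
    filter_upwards [continuousAt_const.eventually_lt hcx (by linarith : 1 - δ / 2 < ⟪(p.1 z).1.1, o.1.1⟫),
      eventually_Ioo hz] with u hu hu'
    exact ⟨rfl, HB_one hU' hcd hab hb hu.le (hpar p hp u (mem_cube_of_Ioo hu') (by linarith))⟩

theorem ST_high (y : Ch (spSt n) j) (hy : Cl y) (h1 : n < j) (h2 : j + 2 ≤ 2 * n) : Bd 1 y := by
  obtain ⟨o, ho⟩ := exists_qv y.support h2
  have hU : Tan o.1.1 (1 / 2) (fld o.1.2) := Tan_fld (sty o) (stxy o) (by norm_num)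
  obtain ⟨H1, a, b, hab, hb, h10, h11, hE⟩ := ST_ends y o ho hU (fld_self (sty o) (stxy o))
  refine Bd_of_homotopy hy H1 h10 (Bd_of_homotopy (hy.push _) (HA (stx o) hab hb) (HA_zero (stx o) hab hb)
    (Bd_of_zero fun w => ?_))
  rw [ch_push, ch_push]
  refine ch_zero_of fun p hp => ?_
  set P := ((HA (stx o) hab hb).comp (jO (spSt n) 1)).pl ((H1.comp (jO (spSt n) 1)).pl p) with hP
  have e1 : cI j (Om.on w P) = cI j (0 : Fm j) := cI_congr_int fun z hz => by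
    rw [map_zero, map_zero]
    refine top_rank_zero w P ?_
    rcases hE p hp z hz with h4 | ⟨h4, h5⟩
    · have h6 : ∀ᶠ u in 𝓝 z, (P.1 u).1.1 = -o.1.1 := by
        filter_upwards [h4] with u hu
        change xA o.1.1 a b (H1.1 (p.1 u, 1)).1.1 1 = _
        rw [h11, hu]
      have := rk_fib P h6
      omega
    · have hxz : ‖(p.1 z).1.1‖ = 1 := stx _
      have hUz := hU.smooth _ hxz h4.le
      have hG : DifferentiableAt ℝ (fun x => (xA o.1.1 a b x 1, yA o.1.1 a b x (-fld o.1.2 x) 1)) (p.1 z).1.1 :=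
        ((contDiffAt_xA (stx o) hab hb hxz 1).prodMk (contDiffAt_yA (stx o) hab hb hxz hUz.neg 1)).differentiableAt (by simp)
      refine lt_of_le_of_lt (rk_fun P p hG ?_) h1
      filter_upwards [h5] with u hu
      rw [hu.1]
      change (xA o.1.1 a b (H1.1 (p.1 u, 1)).1.1 1, yA o.1.1 a b (H1.1 (p.1 u, 1)).1.1 (H1.1 (p.1 u, 1)).1.2 1) = _
      rw [h11, hu.2]
  rw [cI_zero] at e1
  exact e1

/-- **closed chains of dimension `j` bound, `1 ≤ j ≤ n - 2` or `n + 1 ≤ j ≤ 2n - 2`** -/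
theorem ST_gen (y : Ch (spSt n) j) (hy : Cl y) (h1 : 1 ≤ j) (h2 : j + 1 < n ∨ (n < j ∧ j + 2 ≤ 2 * n)) : Bd 1 y := by
  rcases h2 with h2 | ⟨h2, h3⟩
  · exact ST_low y hy h1 h2
  · exact ST_high y hy h2 h3

end Pool.Agent.Lib.MP_ccbbf6_gt.L7
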