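import Pool.Agent.Lib.MP_ccbbf6_gt.L7.ST3

/-!
# Level 7, ST4: closed chains of dimension `n` in `spSt n`, `n` odd, of degree zero over the sphere bound (helper33)

* `exists_J` : an orthogonal complex structure on `R^(n+1)`, `n` odd, with `J a = b`;
* `ST_odd`.
-/

set_option autoImplicit false
set_option maxSynthPendingDepth 3

open Set Filter Topology MeasureTheory Module
open scoped ContDiff RealInnerProductSpace

noncomputable section

namespace Pool.Agent.Lib.MP_ccbbf6_gt.L7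

open Geo L4 L4.FR L5 PE

variable {k l n N j : ℕ}

/-- the standard complex structure -/
def J0 (k : ℕ) : EuclideanSpace ℝ (Fin k ⊕ Fin k) →ₗ[ℝ] EuclideanSpace ℝ (Fin k ⊕ Fin k) where
  toFun f := WithLp.toLp 2 (Sum.elim (fun i => -f (Sum.inr i)) fun i => f (Sum.inl i))
  map_add' f g := by
    refine PiLp.ext fun i => ?_
    rcases i with i | i
    · change -(f + g) (Sum.inr i) = -f (Sum.inr i) + -g (Sum.inr i)
      rw [PiLp.add_apply]
      ring
    · rfl
  map_smul' r f := by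
    refine PiLp.ext fun i => ?_
    rcases i with i | i
    · change -(r • f) (Sum.inr i) = r * -f (Sum.inr i)
      rw [PiLp.smul_apply, smul_eq_mul]
      ring
    · rfl

theorem J0_inl (k : ℕ) (f : EuclideanSpace ℝ (Fin k ⊕ Fin k)) (i : Fin k) : J0 k f (Sum.inl i) = -f (Sum.inr i) := rfl
theorem J0_inr (k : ℕ) (f : EuclideanSpace ℝ (Fin k ⊕ Fin k)) (i : Fin k) : J0 k f (Sum.inr i) = f (Sum.inl i) := rfl

theorem norm_J0 (k : ℕ) (f : EuclideanSpace ℝ (Fin k ⊕ Fin k)) : ‖J0 k f‖ = ‖f‖ := by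
  rw [EuclideanSpace.norm_eq, EuclideanSpace.norm_eq, Fintype.sum_sum_type, Fintype.sum_sum_type, add_comm]
  simp only [J0_inl, J0_inr, norm_neg]

theorem inner_J0 (k : ℕ) (f : EuclideanSpace ℝ (Fin k ⊕ Fin k)) : ⟪f, J0 k f⟫ = 0 := by
  rw [PiLp.inner_apply, Fintype.sum_sum_type, ← Finset.sum_add_distrib]
  refine Finset.sum_eq_zero fun i _ => ?_
  rw [J0_inl, J0_inr]
  simp
  ring

theorem J0_single (k : ℕ) (i : Fin k) : J0 k (EuclideanSpace.single (Sum.inl i) 1) = EuclideanSpace.single (Sum.inr i) 1 := by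
  refine PiLp.ext fun i' => ?_
  rcases i' with i' | i'
  · rw [J0_inl]
    simp
  · rw [J0_inr]
    simp [Pi.single_apply]

/-- an orthogonal complex structure with `J a = b` -/
theorem exists_J (hn : Odd n) {a b : Eu (n + 1)} (ha : ‖a‖ = 1) (hb : ‖b‖ = 1) (hab : ⟪a, b⟫ = 0) :
    ∃ J : Eu (n + 1) →L[ℝ] Eu (n + 1), (∀ x, ‖J x‖ = ‖x‖) ∧ (∀ x, ⟪x, J x⟫ = 0) ∧ J a = b := by
  obtain ⟨m, hm⟩ := hn
  set k := m + 1 with hk
  have hcard : finrank ℝ (Eu (n + 1)) = Fintype.card (Fin k ⊕ Fin k) := by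
    rw [finrank_euclideanSpace_fin, Fintype.card_sum, Fintype.card_fin]
    omega
  let i0 : Fin k := ⟨0, by omega⟩
  let v : Fin k ⊕ Fin k → Eu (n + 1) := Sum.elim (fun _ => a) fun _ => b
  have hv : Orthonormal ℝ (({Sum.inl i0, Sum.inr i0} : Set (Fin k ⊕ Fin k)).restrict v) := by
    constructor
    · rintro ⟨i, hi⟩
      rcases hi with rfl | hi
      · exact ha
      · rw [Set.mem_singleton_iff] at hi
        subst hi
        exact hb
    · rintro ⟨i, hi⟩ ⟨i', hi'⟩ hne
      have hba : ⟪b, a⟫ = 0 := by rw [real_inner_comm]; exact hab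
      rcases hi with rfl | hi <;> rcases hi' with rfl | hi'
      · exact absurd rfl hne
      · rw [Set.mem_singleton_iff] at hi'
        subst hi'
        exact hab
      · rw [Set.mem_singleton_iff] at hi
        subst hi
        exact hba
      · rw [Set.mem_singleton_iff] at hi hi'
        subst hi
        subst hi'
        exact absurd rfl hne
  obtain ⟨e, he⟩ := hv.exists_orthonormalBasis_extension_of_card_eq hcard
  have ea : e (Sum.inl i0) = a := he _ (Or.inl rfl)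
  have eb : e (Sum.inr i0) = b := he _ (Or.inr rfl)
  have ra : e.repr a = EuclideanSpace.single (Sum.inl i0) 1 := by rw [← ea, OrthonormalBasis.repr_self]
  have rb : e.repr b = EuclideanSpace.single (Sum.inr i0) 1 := by rw [← eb, OrthonormalBasis.repr_self]
  refine ⟨LinearMap.toContinuousLinearMap ((e.repr.symm.toLinearEquiv : _ →ₗ[ℝ] Eu (n + 1)).comp
    ((J0 k).comp (e.repr.toLinearEquiv : Eu (n + 1) →ₗ[ℝ] _))), fun x => ?_, fun x => ?_, ?_⟩
  · change ‖e.repr.symm (J0 k (e.repr x))‖ = ‖x‖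
    rw [LinearIsometryEquiv.norm_map, norm_J0, LinearIsometryEquiv.norm_map]
  · change ⟪x, e.repr.symm (J0 k (e.repr x))⟫ = 0
    rw [← LinearIsometryEquiv.inner_map_eq_flip, inner_J0]
  · change e.repr.symm (J0 k (e.repr a)) = b
    rw [ra, J0_single, ← rb, LinearIsometryEquiv.symm_apply_apply]

/-- the section `x ↦ (x, -J x)` -/
def secJ (J : Eu (n + 1) →L[ℝ] Eu (n + 1)) (h1 : ∀ x, ‖J x‖ = ‖x‖) (h2 : ∀ x, ⟪x, J x⟫ = 0) : SMap (spS (n + 1)) (spSt n) :=
  ⟨fun z => ⟨(z.1, -J z.1), z.2, by rw [norm_neg, h1]; exact z.2, by rw [inner_neg_right, h2, neg_zero]⟩, fun _ p =>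
    (show ContDiff ℝ ∞ _ from p.2).prodMk (J.contDiff.comp (show ContDiff ℝ ∞ _ from p.2)).neg⟩

/-- **closed chains of dimension `n`, `n` odd, whose image in the sphere has degree zero, bound** -/
theorem ST_odd (hn : Odd n) (h2 : 2 ≤ n) (y : Ch (spSt n) n) (hy : Cl y)
    (h0 : ∀ t : Om (spS (n + 1)), ch y ((stX n).pull t) = 0) : Bd 1 y := by
  obtain ⟨o, ho⟩ := exists_qv y.support (by omega : n + 2 ≤ 2 * n)
  obtain ⟨J, hJ1, hJ2, hJ3⟩ := exists_J hn (stx o) (sty o) (stxy o)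
  have hU : Tan o.1.1 (1 / 2) J := ⟨fun x _ _ => J.contDiff.contDiffAt, fun x hx _ => by rw [hJ1, hx], fun x _ _ => hJ2 x⟩
  obtain ⟨H1, a, b, hab, hb, h10, h11, hE⟩ := ST_ends y o ho hU hJ3
  refine Bd_of_homotopy hy H1 h10 (Bd_of_homotopy (hy.push _) (HA (stx o) hab hb) (HA_zero (stx o) hab hb)
    (Bd_of_zero fun w => ?_))
  set GS : SMap (spS (n + 1)) (spSt n) := ((HA (stx o) hab hb).comp (jO (spSt n) 1)).comp (secJ J hJ1 hJ2) with hGS
  have key : ch y ((H1.comp (jO (spSt n) 1)).pull (((HA (stx o) hab hb).comp (jO (spSt n) 1)).pull w)) =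
      ch y ((stX n).pull (GS.pull w)) := by
    refine ch_congr fun p hp => ?_
    set P := ((HA (stx o) hab hb).comp (jO (spSt n) 1)).pl ((H1.comp (jO (spSt n) 1)).pl p) with hP
    change cI n (Om.on w P) = cI n (Om.on w (GS.pl ((stX n).pl p)))
    refine cI_congr_int fun z hz => ?_
    rcases hE p hp z hz with h4 | ⟨h4, h5⟩
    · have h6 : ∀ᶠ u in 𝓝 z, (P.1 u).1.1 = -o.1.1 := by
        filter_upwards [h4] with u hu
        change xA o.1.1 a b (H1.1 (p.1 u, 1)).1.1 1 = _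
        rw [h11, hu]
      have h7 : ∀ᶠ u in 𝓝 z, ((GS.pl ((stX n).pl p)).1 u).1.1 = -o.1.1 := by
        filter_upwards [h4] with u hu
        exact hu
      have h8 := rk_fib P h6
      have h9 := rk_fib (GS.pl ((stX n).pl p)) h7
      rw [top_rank_zero w P (by omega), top_rank_zero w (GS.pl ((stX n).pl p)) (by omega)]
    · have h6 : P.1 =ᶠ[𝓝 z] (GS.pl ((stX n).pl p)).1 := by
        filter_upwards [h5] with u hu
        rw [hu.1]
        refine congrArg (fun t => (HA (stx o) hab hb).1 (t, 1)) ?_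
        exact Subtype.ext (Prod.ext (h11 _ _) hu.2)
      rw [ev_on_congr w h6]
  rw [ch_push, ch_push, key, h0]

end Pool.Agent.Lib.MP_ccbbf6_gt.L7
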