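import Pool.Agent.Lib.MP_ccbbf6_gt.CL.A2
import Pool.Agent.Lib.MP_ccbbf6_gt.Geo.CZ
import Pool.Agent.Lib.MP_ccbbf6_gt.Geo.CZ2
import Pool.Agent.Lib.MP_ccbbf6_gt.Geo.CZd
import Pool.Agent.Lib.MP_ccbbf6_gt.Geo.DA1
import Pool.Agent.Lib.MP_ccbbf6_gt.Geo.EQa
import Pool.Agent.Lib.MP_ccbbf6_gt.Geo.EX
import Pool.Agent.Lib.MP_ccbbf6_gt.Geo.HH
import Pool.Agent.Lib.MP_ccbbf6_gt.Geo.KAa
import Pool.Agent.Lib.MP_ccbbf6_gt.Geo.KC1
import Pool.Agent.Lib.MP_ccbbf6_gt.Geo.MEf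
import Pool.Agent.Lib.MP_ccbbf6_gt.Geo.SM
import Pool.Agent.Lib.MP_ccbbf6_gt.L4.Cmp2
import Pool.Agent.Lib.MP_ccbbf6_gt.L4.FI0
import Pool.Agent.Lib.MP_ccbbf6_gt.L4.FI1
import Pool.Agent.Lib.MP_ccbbf6_gt.L5.EPS04
import Pool.Agent.Lib.MP_ccbbf6_gt.L5.EPS07
import Pool.Agent.Lib.MP_ccbbf6_gt.L5.PER02
import Pool.Agent.Lib.MP_ccbbf6_gt.L7.CH1
import Pool.Agent.Lib.MP_ccbbf6_gt.L7.ST0
import Pool.Agent.Lib.MP_ccbbf6_gt.Meas.Polar
import Pool.Agent.Lib.MP_ccbbf6_gt.S.KG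

/-!
# Level 7, ST5: the geometry for `ST_even` (helper33)

* `exists_fib` : coordinates of the orthogonal complement; `inc`, `toFib`;
* `flow` (great circle flow), `rotH` (rotation in a plane).
-/

set_option autoImplicit false
set_option maxSynthPendingDepth 3

open Set Filter Topology MeasureTheory Module
open scoped ContDiff RealInnerProductSpace

noncomputable section

namespace Pool.Agent.Lib.MP_ccbbf6_gt.L7

open Geo L4 L4.FR L5 PE

variable {k l n N j : ℕ}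

/-- coordinates of the orthogonal complement of a unit vector -/
theorem exists_fib {p : Eu (n + 1)} (hp : ‖p‖ = 1) : ∃ (i : Eu n →ₗᵢ[ℝ] Eu (n + 1)) (r : Eu (n + 1) →L[ℝ] Eu n),
    (∀ v, ⟪p, i v⟫ = 0) ∧ ∀ w, ⟪p, w⟫ = 0 → i (r w) = w := by
  have hp0 : p ≠ 0 := by
    rw [← norm_ne_zero_iff, hp]
    exact one_ne_zero
  have : Fact (finrank ℝ (Eu (n + 1)) = n + 1) := ⟨finrank_euclideanSpace_fin⟩
  let e : OrthonormalBasis (Fin n) ℝ (ℝ ∙ p)ᗮ := OrthonormalBasis.fromOrthogonalSpanSingleton n hp0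
  refine ⟨(ℝ ∙ p)ᗮ.subtypeₗᵢ.comp e.repr.symm.toLinearIsometry,
    (e.repr.toContinuousLinearEquiv : (ℝ ∙ p)ᗮ →L[ℝ] Eu n).comp (ℝ ∙ p)ᗮ.orthogonalProjectionOnto, fun v => ?_, fun w hw => ?_⟩
  · exact (Submodule.mem_orthogonal_singleton_iff_inner_right).1 (e.repr.symm v).2
  · have h1 : w ∈ (ℝ ∙ p)ᗮ := (Submodule.mem_orthogonal_singleton_iff_inner_right).2 hw
    change ((e.repr.symm (e.repr ((ℝ ∙ p)ᗮ.orthogonalProjectionOnto w)) : (ℝ ∙ p)ᗮ) : Eu (n + 1)) = w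
    rw [LinearIsometryEquiv.symm_apply_apply]
    exact (Submodule.starProjection_eq_self_iff).2 h1

/-- rotation taking `x` to `w` -/
def rotA (w x y : Eu (n + 1)) : Eu (n + 1) := y - (⟪w, y⟫ / (1 + ⟪x, w⟫)) • (x + w)

theorem rotA_spec {w x y : Eu (n + 1)} (hw : ‖w‖ = 1) (hx : ‖x‖ = 1) (hy : ‖y‖ = 1) (hxy : ⟪x, y⟫ = 0)
    (hd : 1 + ⟪x, w⟫ ≠ 0) : ‖rotA w x y‖ = 1 ∧ ⟪w, rotA w x y⟫ = 0 := by
  have hxx : ⟪x, x⟫ = 1 := by rw [real_inner_self_eq_norm_sq, hx, one_pow]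
  have hww : ⟪w, w⟫ = 1 := by rw [real_inner_self_eq_norm_sq, hw, one_pow]
  have hyy : ⟪y, y⟫ = 1 := by rw [real_inner_self_eq_norm_sq, hy, one_pow]
  unfold rotA
  constructor
  · have h1 : ⟪y - (⟪w, y⟫ / (1 + ⟪x, w⟫)) • (x + w), y - (⟪w, y⟫ / (1 + ⟪x, w⟫)) • (x + w)⟫ = 1 := by
      simp only [inner_sub_left, inner_sub_right, real_inner_smul_left, real_inner_smul_right, inner_add_left,
        inner_add_right, hxx, hww, hyy, hxy, real_inner_comm x y, real_inner_comm x w, real_inner_comm w y]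
      rw [real_inner_comm y w] at *
      field_simp
      ring
    rw [real_inner_self_eq_norm_sq] at h1
    exact (pow_eq_one_iff_of_nonneg (norm_nonneg _) two_ne_zero).1 h1
  · rw [inner_sub_right, real_inner_smul_right, inner_add_right, hww, real_inner_comm x w, add_comm ⟪x, w⟫ 1,
      div_mul_cancel₀ _ hd, sub_self]

section fib

variable (p : Eu (n + 1)) (i : Eu n →ₗᵢ[ℝ] Eu (n + 1)) (r : Eu (n + 1) →L[ℝ] Eu n)

/-- the fibre over `p` -/
def inc (hp : ‖p‖ = 1) (hi : ∀ v, ⟪p, i v⟫ = 0) : SMap (spS n) (spSt n) :=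
  ⟨fun z => ⟨(p, i z.1), hp, by rw [i.norm_map]; exact z.2, hi _⟩, fun _ P =>
    contDiff_const.prodMk (i.contDiff.comp (show ContDiff ℝ ∞ _ from P.2))⟩

variable {p i r}

theorem norm_r (hir : ∀ w, ⟪p, w⟫ = 0 → i (r w) = w) {w : Eu (n + 1)} (h : ⟪p, w⟫ = 0) : ‖r w‖ = ‖w‖ := by
  rw [← i.norm_map (r w), hir w h]

theorem den_pos {q x : Eu (n + 1)} (h : ⟪x, q⟫ < 1) : 1 + ⟪x, -q⟫ ≠ 0 := by
  rw [inner_neg_right]
  intro h1
  linarith

/-- the pairs whose first vector is not `q` -/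
def UF (q : Eu (n + 1)) : Set (spSt n).pt := {z | ⟪z.1.1, q⟫ < 1}

theorem OpenU_UF (q : Eu (n + 1)) : OpenU (spSt n) (UF q) :=
  OpenU_lt (f := fun z : (spSt n).pt => ⟪z.1.1, q⟫) (g := fun _ => 1)
    (fun _ p => ((plot_smX p).continuous).inner continuous_const) fun _ _ => continuous_const

/-- transport to the fibre over `-q` -/
def toFib (q : Eu (n + 1)) (hq : ‖q‖ = 1) (hir : ∀ w, ⟪-q, w⟫ = 0 → i (r w) = w) :
    SMap (sub (spSt n) (UF q)) (spS n) :=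
  ⟨fun z => ⟨r (rotA (-q) z.1.1.1 z.1.1.2), by
    have h := rotA_spec (w := -q) (by rw [norm_neg, hq]) (stx z.1) (sty z.1) (stxy z.1) (den_pos z.2)
    rw [norm_r hir h.2, h.1]⟩, fun k P => by
    change ContDiff ℝ ∞ fun u => r (rotA (-q) (P.1 u).1.1.1 (P.1 u).1.1.2)
    have h : ContDiff ℝ ∞ fun u => (P.1 u).1.1 := P.2
    have hx : ContDiff ℝ ∞ fun u => (P.1 u).1.1.1 := contDiff_fst.comp h
    have hy : ContDiff ℝ ∞ fun u => (P.1 u).1.1.2 := contDiff_snd.comp h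
    refine r.contDiff.comp ?_
    unfold rotA
    exact hy.sub (((contDiff_const.inner ℝ hy).div (contDiff_const.add (hx.inner ℝ contDiff_const))
      fun u => den_pos (P.1 u).2).smul (hx.add contDiff_const))⟩

end fib

/-! ### the great circle flow -/

theorem cs_sq (t : ℝ) : Real.cos t ^ 2 + Real.sin t ^ 2 = 1 := Real.cos_sq_add_sin_sq t

theorem norm_one_of_inner {x : Eu (n + 1)} (h : ⟪x, x⟫ = 1) : ‖x‖ = 1 := by
  rw [real_inner_self_eq_norm_sq] at h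
  exact (pow_eq_one_iff_of_nonneg (norm_nonneg _) two_ne_zero).1 h

theorem flow_mem (z : (spSt n).pt) (t : ℝ) : ‖Real.cos t • z.1.1 + Real.sin t • z.1.2‖ = 1 ∧
    ‖-(Real.sin t • z.1.1) + Real.cos t • z.1.2‖ = 1 ∧
    ⟪Real.cos t • z.1.1 + Real.sin t • z.1.2, -(Real.sin t • z.1.1) + Real.cos t • z.1.2⟫ = 0 := by
  have h := cs_sq t
  refine ⟨norm_one_of_inner ?_, norm_one_of_inner ?_, ?_⟩ <;>
  · simp only [inner_add_left, inner_add_right, inner_neg_left, inner_neg_right, real_inner_smul_left,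
      real_inner_smul_right, stxx, styy, stxy, styx]
    linarith

/-- the great circle flow, time `π s` -/
def flow (n : ℕ) : SMap (spSt n).xR (spSt n) :=
  ⟨fun z => ⟨(Real.cos (Real.pi * z.2) • z.1.1.1 + Real.sin (Real.pi * z.2) • z.1.1.2,
      -(Real.sin (Real.pi * z.2) • z.1.1.1) + Real.cos (Real.pi * z.2) • z.1.1.2), flow_mem _ _⟩, fun k P => by
    change ContDiff ℝ ∞ fun u => (Real.cos (Real.pi * (P.1 u).2) • (P.1 u).1.1.1 + Real.sin (Real.pi * (P.1 u).2) • (P.1 u).1.1.2,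
      -(Real.sin (Real.pi * (P.1 u).2) • (P.1 u).1.1.1) + Real.cos (Real.pi * (P.1 u).2) • (P.1 u).1.1.2)
    have hx : ContDiff ℝ ∞ fun u => (P.1 u).1.1.1 := contDiff_fst.comp (show ContDiff ℝ ∞ _ from P.2.1)
    have hy : ContDiff ℝ ∞ fun u => (P.1 u).1.1.2 := contDiff_snd.comp (show ContDiff ℝ ∞ _ from P.2.1)
    have ht : ContDiff ℝ ∞ fun u => Real.pi * (P.1 u).2 := contDiff_const.mul P.2.2
    exact ((ht.cos.smul hx).add (ht.sin.smul hy)).prodMk ((ht.sin.smul hx).neg.add (ht.cos.smul hy))⟩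

theorem flow_zero (z : (spSt n).pt) : (flow n).1 (z, 0) = z := by
  refine Subtype.ext (Prod.ext ?_ ?_)
  · change Real.cos (Real.pi * 0) • z.1.1 + Real.sin (Real.pi * 0) • z.1.2 = z.1.1
    rw [mul_zero, Real.cos_zero, Real.sin_zero, one_smul, zero_smul, add_zero]
  · change -(Real.sin (Real.pi * 0) • z.1.1) + Real.cos (Real.pi * 0) • z.1.2 = z.1.2
    rw [mul_zero, Real.cos_zero, Real.sin_zero, one_smul, zero_smul, neg_zero, zero_add]

theorem flow_one (z : (spSt n).pt) : ((flow n).1 (z, 1)).1 = (-z.1.1, -z.1.2) := by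
  refine Prod.ext ?_ ?_
  · change Real.cos (Real.pi * 1) • z.1.1 + Real.sin (Real.pi * 1) • z.1.2 = -z.1.1
    rw [mul_one, Real.cos_pi, Real.sin_pi, neg_smul, one_smul, zero_smul, add_zero]
  · change -(Real.sin (Real.pi * 1) • z.1.1) + Real.cos (Real.pi * 1) • z.1.2 = -z.1.2
    rw [mul_one, Real.cos_pi, Real.sin_pi, neg_smul, one_smul, zero_smul, neg_zero, zero_add]

/-! ### rotation in a plane -/

/-- rotation by the angle `t` in the plane `(p, w)` -/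
def rotv (p w : Eu (n + 1)) (t : ℝ) (x : Eu (n + 1)) : Eu (n + 1) :=
  x + ((Real.cos t - 1) * ⟪p, x⟫ - Real.sin t * ⟪w, x⟫) • p + ((Real.cos t - 1) * ⟪w, x⟫ + Real.sin t * ⟪p, x⟫) • w

theorem inner_rotv {p w : Eu (n + 1)} (hp : ‖p‖ = 1) (hw : ‖w‖ = 1) (hpw : ⟪p, w⟫ = 0) (t : ℝ) (x x' : Eu (n + 1)) :
    ⟪rotv p w t x, rotv p w t x'⟫ = ⟪x, x'⟫ := by
  have hpp : ⟪p, p⟫ = 1 := by rw [real_inner_self_eq_norm_sq, hp, one_pow]
  have hww : ⟪w, w⟫ = 1 := by rw [real_inner_self_eq_norm_sq, hw, one_pow]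
  have hwp : ⟪w, p⟫ = 0 := by rw [real_inner_comm]; exact hpw
  unfold rotv
  simp only [inner_add_left, inner_add_right, real_inner_smul_left, real_inner_smul_right, hpp, hww, hpw, hwp]
  rw [real_inner_comm p x, real_inner_comm w x]
  linear_combination (⟪p, x⟫ * ⟪p, x'⟫ + ⟪w, x⟫ * ⟪w, x'⟫) * cs_sq t

/-- the rotation as a homotopy, time `π s` -/
def rotH (p w : Eu (n + 1)) (hp : ‖p‖ = 1) (hw : ‖w‖ = 1) (hpw : ⟪p, w⟫ = 0) : SMap (spSt n).xR (spSt n) :=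
  ⟨fun z => ⟨(rotv p w (Real.pi * z.2) z.1.1.1, rotv p w (Real.pi * z.2) z.1.1.2),
      norm_one_of_inner (by rw [inner_rotv hp hw hpw]; exact stxx _),
      norm_one_of_inner (by rw [inner_rotv hp hw hpw]; exact styy _), by rw [inner_rotv hp hw hpw]; exact stxy _⟩, fun k P => by
    change ContDiff ℝ ∞ fun u => (rotv p w (Real.pi * (P.1 u).2) (P.1 u).1.1.1, rotv p w (Real.pi * (P.1 u).2) (P.1 u).1.1.2)
    have hx : ContDiff ℝ ∞ fun u => (P.1 u).1.1.1 := contDiff_fst.comp (show ContDiff ℝ ∞ _ from P.2.1)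
    have hy : ContDiff ℝ ∞ fun u => (P.1 u).1.1.2 := contDiff_snd.comp (show ContDiff ℝ ∞ _ from P.2.1)
    have ht : ContDiff ℝ ∞ fun u => Real.pi * (P.1 u).2 := contDiff_const.mul P.2.2
    have key : ∀ {x : V k → Eu (n + 1)}, ContDiff ℝ ∞ x → ContDiff ℝ ∞ fun u => rotv p w (Real.pi * (P.1 u).2) (x u) := by
      intro x hx
      exact (hx.add ((((ht.cos.sub contDiff_const).mul (contDiff_const.inner ℝ hx)).sub
        (ht.sin.mul (contDiff_const.inner ℝ hx))).smul contDiff_const)).add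
        ((((ht.cos.sub contDiff_const).mul (contDiff_const.inner ℝ hx)).add
        (ht.sin.mul (contDiff_const.inner ℝ hx))).smul contDiff_const)
    exact (key hx).prodMk (key hy)⟩

theorem rotv_zero (p w x : Eu (n + 1)) : rotv p w (Real.pi * 0) x = x := by
  unfold rotv
  rw [mul_zero, Real.cos_zero, Real.sin_zero]
  simp

theorem rotv_one (p w x : Eu (n + 1)) : rotv p w (Real.pi * 1) x = x - (2 * ⟪p, x⟫) • p - (2 * ⟪w, x⟫) • w := by
  unfold rotv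
  rw [mul_one, Real.cos_pi, Real.sin_pi]
  module

end Pool.Agent.Lib.MP_ccbbf6_gt.L7
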