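import Pool.Agent.Lib.MP_ccbbf6_gt.L7.ST3
import Pool.Agent.Lib.MP_ccbbf6_gt.L7.ST5

/-!
# Level 7, ST6: for `n` even, twice a closed chain of dimension `n - 1` in `spSt n` bounds (helper33)

`ST_even_of` : from the action of linear isometries on closed chains of top dimension in spheres.
-/

set_option autoImplicit false
set_option maxSynthPendingDepth 3

open Set Filter Topology MeasureTheory Module
open scoped ContDiff RealInnerProductSpace

noncomputable section

namespace Pool.Agent.Lib.MP_ccbbf6_gt.L7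

open Geo L4 L4.FR L5 PE

variable {k l n N j : ℕ}

/-- the antipode as a linear isometry -/
def negI (m : ℕ) : Eu m →ₗᵢ[ℝ] Eu m := (LinearIsometryEquiv.neg ℝ).toLinearIsometry

theorem negI_apply (m : ℕ) (v : Eu m) : negI m v = -v := rfl

theorem det_negI (m : ℕ) : LinearMap.det (negI m).toLinearMap = (-1) ^ m := by
  have h : (negI m).toLinearMap = (-1 : ℝ) • LinearMap.id := by
    refine LinearMap.ext fun v => ?_
    rw [LinearMap.smul_apply, LinearMap.id_apply, neg_one_smul]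
    rfl
  rw [h, LinearMap.det_smul, LinearMap.det_id, mul_one, finrank_euclideanSpace_fin]

/-- the reflection in the direction `v` as a linear isometry -/
def refI {m : ℕ} (v : Eu m) : Eu m →ₗᵢ[ℝ] Eu m := ((ℝ ∙ v)ᗮ.reflection).toLinearIsometry

theorem refI_apply {m : ℕ} {v : Eu m} (hv : ‖v‖ = 1) (x : Eu m) : refI v x = x - (2 * ⟪v, x⟫) • v := by
  change (ℝ ∙ v)ᗮ.reflection x = _
  rw [Submodule.reflection_orthogonal_apply, Submodule.reflection_singleton_apply]
  simp only [RCLike.ofReal_real_eq_id, id_eq]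
  rw [hv, one_pow, div_one]
  module

theorem det_refI {m : ℕ} {v : Eu m} (hv : ‖v‖ = 1) : LinearMap.det (refI v).toLinearMap = -1 := by
  have h0 : v ≠ 0 := by
    rw [← norm_ne_zero_iff, hv]
    exact one_ne_zero
  have h : LinearMap.det ((ℝ ∙ v)ᗮ.reflection).toLinearMap = (-1) ^ finrank ℝ (ℝ ∙ v)ᗮᗮ := Submodule.det_reflection _
  rw [Submodule.orthogonal_orthogonal, finrank_span_singleton h0, pow_one] at h
  exact h

/-- the restriction to `UF q` of a closed chain is closed -/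
theorem Cl_UF {q : Eu (n + 1)} {a : ℝ} (ha : a < 1) {y' : Ch (sub (spSt n) (UF q)) j} (hy : Cl (push (inU _ (UF q)) y'))
    (h : ∀ p ∈ y'.support, ∀ z ∈ Icc (0 : V j) 1, ⟪(p.1 z).1.1.1, q⟫ ≤ a) : Cl y' := by
  refine Cl_res (OpenU_UF q) hy (χ := fun z => dn ((a + 1) / 2) ((a + 3) / 4) ⟪z.1.1, q⟫) (fun k p => ?_)
    (fun k p x hx => ?_) fun p hp z hz => ?_
  · exact (contDiff_dn _ _).comp ((plot_smX p).inner ℝ contDiff_const)
  · have hx1 : 1 ≤ ⟪(p.1 x).1.1, q⟫ := not_lt.1 hx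
    have h1 : ∀ᶠ u in 𝓝 x, (a + 3) / 4 < ⟪(p.1 u).1.1, q⟫ :=
      continuousAt_const.eventually_lt ((cont_x p).inner continuous_const).continuousAt (by linarith)
    filter_upwards [h1] with u hu
    exact dn_zero (by linarith) hu.le
  · have hz1 := h p hp z hz
    have h1 : ∀ᶠ u in 𝓝 z, ⟪(((inU (spSt n) (UF q)).pl p).1 u).1.1, q⟫ < (a + 1) / 2 :=
      ((cont_x ((inU (spSt n) (UF q)).pl p)).inner continuous_const).continuousAt.eventually_lt continuousAt_const
        (lt_of_le_of_lt hz1 (by linarith))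
    filter_upwards [h1] with u hu
    exact dn_one (by linarith) hu.le

/-- closed chains of dimension smaller than `n` can be moved to a fibre -/
theorem to_fibre (hj : j < n) (y : Ch (spSt n) j) (hy : Cl y) :
    ∃ (p : Eu (n + 1)) (i : Eu n →ₗᵢ[ℝ] Eu (n + 1)) (hp : ‖p‖ = 1) (hi : ∀ v, ⟪p, i v⟫ = 0) (u : Ch (spS n) j), Cl u ∧
      ∀ N : ℤ, Bd N (push (inc p i hp hi) u) → Bd N y := by
  obtain ⟨q, hq, hq1⟩ := exists_q y.support hj
  obtain ⟨a, ha, ha1⟩ := exists_bd y.support (fun z => ⟪z.1.1, q⟫) (fun p => (cont_x p).inner continuous_const)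
    (b := 1) fun p hp z _ => inner_lt_one (stx _) hq (hq1 p hp z)
  have hab : a < (a + 1) / 2 := by linarith
  have hb : (a + 1) / 2 ≤ 1 := by linarith
  have hp : ‖-q‖ = 1 := by rw [norm_neg, hq]
  obtain ⟨i, r, hi, hir⟩ := exists_fib hp
  obtain ⟨y', hy', hys⟩ := exists_res (U := UF q) y fun p hp z => inner_lt_one (stx _) hq (hq1 p hp z)
  have hcl : Cl y' := Cl_UF ha (by rw [hy']; exact hy) fun p hp z hz => ha1 _ (hys p hp) z hz
  refine ⟨-q, i, hp, hi, push (toFib q hq hir) y', hcl.push _, fun N h => ?_⟩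
  refine Bd_of_homotopy hy (HA hq hab hb) (HA_zero hq hab hb) (h.congr fun w => ?_)
  congr 1
  rw [← hy', ch_push, ch_push, ch_push, ch_push]
  refine ch_congr fun p hps => ?_
  change cI j (Om.on w ((inc (-q) i hp hi).pl ((toFib q hq hir).pl p))) =
    cI j (Om.on w (((HA hq hab hb).comp (jO (spSt n) 1)).pl ((inU _ (UF q)).pl p)))
  refine cI_eq_of_eq_cube w fun z hz => ?_
  have hz1 : ⟪(p.1 z).1.1.1, q⟫ ≤ a := ha1 _ (hys p hps) z hz
  have h2 : ((HA hq hab hb).1 ((p.1 z).1, 1)).1.1 = -q := HA_one hq hab hb hz1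
  have h3 : xA q a ((a + 1) / 2) (p.1 z).1.1.1 1 = -q := h2
  refine Subtype.ext (Prod.ext h2.symm ?_)
  change i (r (rotA (-q) (p.1 z).1.1.1 (p.1 z).1.1.2)) = yA q a ((a + 1) / 2) (p.1 z).1.1.1 (p.1 z).1.1.2 1
  rw [hir _ (rotA_spec hp (stx (p.1 z).1) (sty _) (stxy _) (den_pos (p.1 z).2)).2]
  unfold yA rotA
  rw [h3]

section fibre

variable {p : Eu (n + 1)} {i : Eu n →ₗᵢ[ℝ] Eu (n + 1)} (hp : ‖p‖ = 1) (hi : ∀ v, ⟪p, i v⟫ = 0)

include hp in
theorem norm_neg_p : ‖-p‖ = 1 := by rw [norm_neg, hp]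

include hi in
theorem inner_neg_p : ∀ v, ⟪-p, i v⟫ = 0 := fun v => by rw [inner_neg_left, hi, neg_zero]

theorem flow_inc : ((flow n).comp (jO (spSt n) 1)).comp (inc p i hp hi) =
    (inc (-p) i (norm_neg_p hp) (inner_neg_p hi)).comp (sphL (negI n)) := SMap_ext fun z => by
  refine Subtype.ext ((flow_one _).trans (Prod.ext rfl ?_))
  change -(i z.1) = i (negI n z.1)
  rw [negI_apply, map_neg]

theorem rotH_inc {v : Eu n} (hv : ‖v‖ = 1) (hw : ‖i v‖ = 1) :
    ((rotH p (i v) hp hw (hi v)).comp (jO (spSt n) 1)).comp (inc p i hp hi) =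
      (inc (-p) i (norm_neg_p hp) (inner_neg_p hi)).comp (sphL (refI v)) := SMap_ext fun z => by
  refine Subtype.ext (Prod.ext ((rotv_one _ _ _).trans ?_) ((rotv_one _ _ _).trans ?_))
  · change p - (2 * ⟪p, p⟫) • p - (2 * ⟪i v, p⟫) • i v = -p
    rw [real_inner_self_eq_norm_sq, hp, real_inner_comm, hi, one_pow, mul_zero, zero_smul, sub_zero, mul_one]
    module
  · change i z.1 - (2 * ⟪p, i z.1⟫) • p - (2 * ⟪i v, i z.1⟫) • i v = i (refI v z.1)
    rw [hi, refI_apply hv, mul_zero, zero_smul, sub_zero, i.inner_map_map, map_sub, map_smul]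

theorem flow_j0 : (flow n).comp (jO (spSt n) 0) = SMap.id _ := SMap_ext flow_zero

theorem rotH_j0 {w : Eu (n + 1)} (hw : ‖w‖ = 1) (hpw : ⟪p, w⟫ = 0) : (rotH p w hp hw hpw).comp (jO (spSt n) 0) = SMap.id _ :=
  SMap_ext fun _ => Subtype.ext (Prod.ext (rotv_zero _ _ _) (rotv_zero _ _ _))

/-- chains in a fibre -/
theorem Bd_fibre (hn : Even n) (h0 : 0 < n) (u : Ch (spS n) j) (hu : Cl u)
    (hr : ∀ (L : Eu n →ₗᵢ[ℝ] Eu n) (w : Om (spS n)), ch u ((sphL L).pull w) = LinearMap.det L.toLinearMap * ch u w) :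
    Bd 2 (push (inc p i hp hi) u) := by
  obtain ⟨v, hv⟩ : ∃ v : Eu n, ‖v‖ = 1 := ⟨EuclideanSpace.single ⟨0, h0⟩ 1, by simp⟩
  have hw : ‖i v‖ = 1 := by rw [i.norm_map, hv]
  have hF := Bd_homotopy (hu.push (inc p i hp hi)) (flow n)
  have hT := Bd_homotopy (hu.push (inc p i hp hi)) (rotH p (i v) hp hw (hi v))
  rw [flow_j0] at hF
  rw [rotH_j0] at hT
  refine ((hF.add hT).smul (-1)).congr fun w => ?_
  have g1 : ch (push ((flow n).comp (jO (spSt n) 1)) (push (inc p i hp hi) u)) w =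
      ch u ((inc (-p) i (norm_neg_p hp) (inner_neg_p hi)).pull w) := by
    rw [ch_push, ch_push, ← pull_comp, flow_inc, pull_comp, hr, det_negI, hn.neg_one_pow, one_mul]
  have g2 : ch (push ((rotH p (i v) hp hw (hi v)).comp (jO (spSt n) 1)) (push (inc p i hp hi) u)) w =
      -ch u ((inc (-p) i (norm_neg_p hp) (inner_neg_p hi)).pull w) := by
    rw [ch_push, ch_push, ← pull_comp, rotH_inc hp hi hv hw, pull_comp, hr, det_refI hv, neg_one_mul]
  rw [ch_add, ch_sub, ch_sub, LinearMap.add_apply, LinearMap.sub_apply, LinearMap.sub_apply, g1, g2, ch_push (SMap.id _),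
    pull_id]
  push_cast
  ring

end fibre

/-- **for `n` even, twice a closed chain of dimension `n - 1` bounds** -/
theorem ST_even_of (hn : Even n) (hj : j + 1 = n) (y : Ch (spSt n) j) (hy : Cl y)
    (hr : ∀ u : Ch (spS n) j, Cl u → ∀ (L : Eu n →ₗᵢ[ℝ] Eu n) (w : Om (spS n)),
      ch u ((sphL L).pull w) = LinearMap.det L.toLinearMap * ch u w) : Bd 2 y := by
  obtain ⟨p, i, hp, hi, u, hu, h⟩ := to_fibre (by omega : j < n) y hy
  exact h 2 (Bd_fibre hp hi hn (by omega) u hu (hr u hu))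

end Pool.Agent.Lib.MP_ccbbf6_gt.L7
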