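import Pool.Agent.Lib.MP_ccbbf6_gt.L4.FU2

/-!
# Level 7, TO: concentration at `p` in all dimensions (helper79; the even case is L4/FU2 by helper55)
-/

set_option autoImplicit false
set_option maxSynthPendingDepth 3
set_option linter.unusedSectionVars false

open MeasureTheory Measure Set Filter Topology Metric Real
open scoped ContDiff RealInnerProductSpace

noncomputable section

namespace Pool.Agent.Lib.MP_ccbbf6_gt.L7

open Geo L4 FR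

variable {n : ℕ} {M : Type} [MetricSpace M] [CompactSpace M] (𝒜 : SDist n M)

/-- the one form `dχ(d)` anticommutes -/
theorem dchi_mul (hB : Bl M) (Θ : Om (spW 𝒜)) : dchi 𝒜 hB * Θ = sO _ Θ * dchi 𝒜 hB := by
  refine Om_ext fun k P => ev_ext fun x => ?_
  rw [on_mul, on_mul, _root_.map_mul, _root_.map_mul, dchi, on_d, chiW, on_fO, ev_dd_fc, ι_swap, on_s, ev_sg]

theorem Deg_sO {X : Space} {j : ℕ} {θ : Om X} (h : Deg j θ) : sO X θ = (-1 : ℝ) ^ j • θ := Deg_s h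

/-- the sign and the density -/
theorem sgW_theta (hB : Bl M) (p : M) {ξ : Eu n} (h : ‖ξ‖ < π) :
    (𝒜.theta p (𝒜.Ex p ξ))⁻¹ * sgW 𝒜 (p, 𝒜.Ex p ξ) = (-1) ^ n * (DX 𝒜 p ξ).det := by
  have hd : dist p (𝒜.Ex p ξ) < π := by rw [dist_Ex 𝒜 hB p h.le]; exact h
  have hF : ContDiffAt ℝ 2 (𝒜.F p (𝒜.Ex p ξ)) (0, 0) := (contDiffAt_F 𝒜 hB hd).of_le two_le_infty
  have h1 : Mx (𝒜.F p (𝒜.Ex p ξ)) (0, 0) * mt (DX 𝒜 p ξ) = -1 := by
    ext i j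
    have h2 := BF_Ex 𝒜 hB p h (EuclideanSpace.single i 1) (EuclideanSpace.single j 1)
    have h3 : fderiv ℝ (fun η => 𝒜.ψ (𝒜.Ex p ξ) (𝒜.Ex p η)) ξ (EuclideanSpace.single j 1) =
        ∑ k, (mt (DX 𝒜 p ξ)) k j • EuclideanSpace.single k (1 : ℝ) := by
      exact sm0_expand _
    rw [h3, _root_.map_sum] at h2
    have h4 : ∀ k, 𝒜.BF p (𝒜.Ex p ξ) (EuclideanSpace.single i 1) (EuclideanSpace.single k 1) =
        Mx (𝒜.F p (𝒜.Ex p ξ)) (0, 0) i k := by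
      intro k
      rw [sme_BF 𝒜 hF]
      rfl
    rw [Matrix.mul_apply]
    have h5 : ∑ k, Mx (𝒜.F p (𝒜.Ex p ξ)) (0, 0) i k * mt (DX 𝒜 p ξ) k j =
        ∑ k, 𝒜.BF p (𝒜.Ex p ξ) (EuclideanSpace.single i 1) (mt (DX 𝒜 p ξ) k j • EuclideanSpace.single k (1 : ℝ)) := by
      refine Finset.sum_congr rfl fun k _ => ?_
      rw [map_smul, smul_eq_mul, h4]
      ring
    rw [h5, h2, EuclideanSpace.inner_single_left, Matrix.neg_apply, Matrix.one_apply]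
    simp only [map_one, one_mul, PiLp.single_apply]
  have h2 := congrArg Matrix.det h1
  rw [Matrix.det_mul, det_mt, Matrix.det_neg, Matrix.det_one, Fintype.card_fin, mul_one] at h2
  rw [sme_theta_eq 𝒜 hF]
  change _ * sgn (Mx (𝒜.F p (𝒜.Ex p ξ)) (0, 0)).det = _
  have hs : ((-1 : ℝ) ^ n) * (-1) ^ n = 1 := by rw [← mul_pow]; norm_num
  have h3 : (Mx (𝒜.F p (𝒜.Ex p ξ)) (0, 0)).det ≠ 0 := by
    intro h4
    rw [h4, zero_mul] at h2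
    exact pow_ne_zero n (by norm_num : (-1 : ℝ) ≠ 0) h2.symm
  have h5 : (-1) ^ n * (DX 𝒜 p ξ).det = ((Mx (𝒜.F p (𝒜.Ex p ξ)) (0, 0)).det)⁻¹ := by
    refine eq_inv_of_mul_eq_one_right ?_
    rw [mul_left_comm, h2, hs]
  rw [h5]
  unfold sgn
  set a := (Mx (𝒜.F p (𝒜.Ex p ξ)) (0, 0)).det with ha
  have h6 : |a| ≠ 0 := abs_ne_zero.2 h3
  have h7 : |a| * |a| = a * a := abs_mul_abs_self a
  field_simp
  nlinarith [h7]

/-- **the density at `(p, Ex ξ)`** -/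
theorem dens_Ex (hB : Bl M) {p : M} {ν : Om (spM 𝒜)} {N : Fm n} (hν : OnBall 𝒜 p ν N)
    (hN : ev 0 N = tE n) (Ξ : Om (spW 𝒜)) {x : V n} (h0 : toE x ≠ 0) (h1 : ‖toE x‖ < π) :
    (𝒜.theta p (𝒜.Ex p (toE x)))⁻¹ * FW 𝒜 ((pW 𝒜).pull ν * Ξ) (p, 𝒜.Ex p (toE x)) =
      (-1) ^ n * topE n (vAt (jW 𝒜) Ξ (Pex 𝒜 p) x) := by
  set y := 𝒜.Ex p (toE x) with hy
  have hd : dist p y = ‖toE x‖ := dist_Ex 𝒜 hB p h1.le
  have hd0 : 0 < dist p y := by rw [hd]; exact norm_pos_iff.2 h0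
  have hd1 : dist p y < π := by rw [hd]; exact h1
  unfold FW
  rw [← mul_assoc, sgW_theta 𝒜 hB p h1, dens_at 𝒜 hB hν hN Ξ hd0 hd1, mul_assoc]
  congr 1
  -- the other side
  set g : V n → V (n + n) := fun x' => (spl n).symm (0, 𝒜.ψ y (𝒜.Ex p (toE x'))) with hg
  have hc : Continuous fun x' : V n => 𝒜.Ex p (toE x') := (continuous_Ex 𝒜 hB p).comp contDiff_toE.continuous
  have e1 : ∀ᶠ x' in 𝓝 x, 𝒜.Ex p (toE x') ∈ (𝒜.ψ y).source :=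
    hc.continuousAt.eventually ((𝒜.ψ y).open_source.mem_nhds (𝒜.mem y))
  have hgs : ∀ᶠ x' in 𝓝 x, ContDiffAt ℝ ∞ g x' := by
    filter_upwards [e1] with x' hx'
    have t1 : ContDiffAt ℝ ∞ (fun x' : V n => 𝒜.ψ y (𝒜.Ex p (toE x'))) x' :=
      ContDiffAt.comp (g := fun η => 𝒜.ψ y (𝒜.Ex p η)) (f := (toE : V n → Eu n)) x'
        (contDiffAt_Ex 𝒜 hB p (toE x') hx') contDiff_toE.contDiffAt
    exact (spl n).symm.contDiff.contDiffAt.comp x' (contDiffAt_const.prodMk t1)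
  have hgx : g x = 0 := by
    simp only [hg]
    rw [← hy, 𝒜.zero]
    exact (spl n).symm.map_zero
  have hL : LocPl (jW 𝒜) (Pab 𝒜 p y) (g x) := by rw [hgx]; exact locPl_Pab 𝒜 (zero_mem_Dab 𝒜 hd0 hd1)
  have hPg : Pex 𝒜 p =ᶠ[𝓝 x] fun x' => Pab 𝒜 p y (g x') := by
    filter_upwards [e1] with x' hx'
    unfold Pab Pex
    simp only [hg, ContinuousLinearEquiv.apply_symm_apply]
    rw [(𝒜.ψ y).left_inv hx', symm_zero' 𝒜 p]
  set B : V n →L[ℝ] V n := ((toEL n).symm : Eu n →L[ℝ] V n).comp ((DX 𝒜 p (toE x)).comp (toEL n : V n →L[ℝ] Eu n)) with hBdef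
  have hder : HasFDerivAt g (((spl n).symm : Eu n × Eu n →L[ℝ] V (n + n)).comp
      ((ContinuousLinearMap.inr ℝ (Eu n) (Eu n)).comp ((toEL n : V n →L[ℝ] Eu n).comp B))) x := by
    have t1 : HasFDerivAt (fun x' : V n => 𝒜.ψ y (𝒜.Ex p (toE x'))) ((DX 𝒜 p (toE x)).comp (toEL n : V n →L[ℝ] Eu n)) x :=
      (hasFDerivAt_DX 𝒜 hB p (toE x)).comp x (toEL n).hasFDerivAt
    have t2 : HasFDerivAt (fun x' : V n => ((0 : Eu n), 𝒜.ψ y (𝒜.Ex p (toE x'))))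
        ((0 : V n →L[ℝ] Eu n).prod ((DX 𝒜 p (toE x)).comp (toEL n : V n →L[ℝ] Eu n))) x :=
      (hasFDerivAt_const (0 : Eu n) x).prodMk t1
    have t3 := ((spl n).symm.hasFDerivAt (x := ((0 : Eu n), 𝒜.ψ y (𝒜.Ex p (toE x))))).comp x t2
    have t4 : ((spl n).symm : Eu n × Eu n →L[ℝ] V (n + n)).comp
      ((ContinuousLinearMap.inr ℝ (Eu n) (Eu n)).comp ((toEL n : V n →L[ℝ] Eu n).comp B)) =
        ((spl n).symm : Eu n × Eu n →L[ℝ] V (n + n)).comp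
          ((0 : V n →L[ℝ] Eu n).prod ((DX 𝒜 p (toE x)).comp (toEL n : V n →L[ℝ] Eu n))) := rfl
    rw [t4]
    exact t3
  have hdet : B.det = (DX 𝒜 p (toE x)).det := by
    exact LinearMap.det_conj (DX 𝒜 p (toE x) : Eu n →ₗ[ℝ] Eu n) (toEL n).symm.toLinearEquiv
  rw [vAt_congr (jW_inj 𝒜) Ξ hPg, (vAt_comp (jW_inj 𝒜) Ξ hgs hL).2, hder.fderiv, hgx, trL_snd]
  have h5 := ExteriorAlgebra.map_comp_map (R := ℝ) (A2 n) (trL B)
  have h6 := congrArg (fun F => F (vAt (jW 𝒜) Ξ (Pab 𝒜 p y) 0)) h5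
  simp only [AlgHom.comp_apply] at h6
  rw [← h6, topE_map, det_trL, hdet]

variable [MeasurableSpace M] [BorelSpace M]

/-- `TG` of a product -/
theorem TG_eq (hB : Bl M) {τ : Om (spM 𝒜)} (hτ : Deg n τ) (Th : Om (spG 𝒜)) :
    TG hB ((foot hB 0).pull τ * Th) = (-1) ^ n * IW 𝒜 ((pW 𝒜).pull τ * X0 𝒜 hB Th) := by
  have h2 : sO _ ((pW 𝒜).pull τ) = (-1 : ℝ) ^ n • (pW 𝒜).pull τ := by rw [pull_s, Deg_s hτ, _root_.map_smul]
  have h3 : (GW hB).pull ((foot hB 0).pull τ) = (pW 𝒜).pull τ := by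
    rw [← pull_comp]
    have h4 : (foot hB 0).comp (GW hB) = pW 𝒜 := SMap_ext fun z => (gdG_spec hB z).1
    rw [h4]
  rw [TG_apply, _root_.map_mul, h3, X0, ← mul_assoc, dchi_mul, h2, smul_mul_assoc, smul_mul_assoc, IW_smul, mul_assoc]

/-- **F3**: the integral over the fibre at `p`. -/
theorem HX_at (hB : Bl M) {p : M} {ν : Om (spM 𝒜)} {N : Fm n} (hν : OnBall 𝒜 p ν N)
    (hN : ev 0 N = tE n) (Th : Om (spG 𝒜)) :
    HX 𝒜 ((pW 𝒜).pull ν * X0 𝒜 hB Th) p = (-1) ^ n * JR n ((ER hB p).pull Th) := by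
  have hc : Continuous fun y => FW 𝒜 ((pW 𝒜).pull ν * X0 𝒜 hB Th) (p, y) :=
    (continuous_FW 𝒜 hB isClosed_C12 inW_C12 (supp_pX0 𝒜 hB ν Th)).comp (Continuous.prodMk_right p)
  unfold HX
  rw [area_int 𝒜 hB p hc.aestronglyMeasurable, JR_eq, ← integral_const_mul]
  refine setIntegral_congr_fun measurableSet_ball fun ξ hξ => ?_
  rw [mem_ball_zero_iff] at hξ
  have h2 : (toE (WithLp.ofLp ξ) : Eu n) = ξ := rfl
  by_cases h0 : ξ = 0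
  · rw [vAt_of_not _ (not_locPl_zero (by rw [h2]; exact h0)), _root_.map_zero, mul_zero]
    unfold FW
    rw [dens_eq_zero 𝒜 _ (z := (p, 𝒜.Ex p ξ)) (by
      rw [h0, Ex_zero 𝒜 hB]
      simp), mul_zero, mul_zero]
  · have h3 := dens_Ex 𝒜 hB hν hN (X0 𝒜 hB Th) (x := WithLp.ofLp ξ) h0 hξ
    rw [vAt_X0 𝒜 hB p Th (x := WithLp.ofLp ξ) h0 hξ] at h3
    exact h3

variable {𝒜}

/-- **F2 + F3**: Fubini and concentration at `p` -/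
theorem tendsto_TG (hB : Bl M) (p : M) (T : Fm n)
    (hT : ∀ x : V n, 2 < ‖toE x‖ → ev x T = 0) (τ : ℝ → Om (spM 𝒜)) (hτ0 : ∀ δ, 0 < δ → δ ≤ 1 → Deg n (τ δ))
    (hτ : ∀ δ, 0 < δ → δ ≤ 1 → ∀ (k : ℕ) (P : (spM 𝒜).Plot k) (q : FR.Sm k n),
      (∀ u, ‖toE (q u)‖ < π ∧ P.1 u = 𝒜.Ex p (toE (q u))) → Om.on (τ δ) P = pb q (pb (scl n δ⁻¹) T))
    (Th : Om (spG 𝒜)) :
    Tendsto (fun δ => TG hB ((foot hB 0).pull (τ δ) * Th)) (𝓝[>] 0)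
      (𝓝 ((∫ x, (tp n T : V n → ℝ) x) * JR n ((ER hB p).pull Th))) := by
  have hs : ((-1 : ℝ) ^ n) * (-1) ^ n = 1 := by rw [← mul_pow]; norm_num
  obtain ⟨ν, hν⟩ := exists_nu (𝒜 := 𝒜) hB p
  set Ξ := (pW 𝒜).pull ν * X0 𝒜 hB Th with hΞ
  have hH : Continuous (HX 𝒜 Ξ) := continuous_HX 𝒜 hB (supp_pX0 𝒜 hB ν Th)
  set K : Eu n → ℝ := fun ξ => (𝒜.theta p (𝒜.Ex p ξ))⁻¹ * HX 𝒜 Ξ (𝒜.Ex p ξ) with hK
  set t : Eu n → ℝ := fun ξ => (tp n T : V n → ℝ) (WithLp.ofLp ξ) with ht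
  have hKc : ContinuousOn K (ball 0 π) :=
    (continuousOn_theta_inv 𝒜 hB p).mul (hH.comp (continuous_Ex 𝒜 hB p)).continuousOn
  have htc : Continuous t := (Cs_smooth (tp n T)).continuous.comp (toEL n).symm.continuous
  have ht0 : ∀ ξ, 2 < ‖ξ‖ → t ξ = 0 := by
    intro ξ hξ
    simp only [ht]
    rw [tp_apply, hT _ hξ, _root_.map_zero]
  have hlim := conc (by linarith [Real.pi_gt_three]) hKc htc ht0
  have hK0 : K 0 = (-1) ^ n * JR n ((ER hB p).pull Th) := by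
    simp only [hK]
    rw [Ex_zero 𝒜 hB, theta_self p hB, inv_one, one_mul, hΞ]
    refine HX_at 𝒜 hB hν ?_ Th
    refine ev_nuN_one ?_
    have : toE (0 : V n) = 0 := rfl
    rw [this, norm_zero]
    norm_num
  have hint : ∫ ξ, t ξ = ∫ x, (tp n T : V n → ℝ) x :=
    (PiLp.volume_preserving_ofLp (Fin n)).integral_comp
      (toEL n).symm.toHomeomorph.measurableEmbedding (fun x : V n => (tp n T : V n → ℝ) x)
  have hlim2 := hlim.const_mul ((-1 : ℝ) ^ n)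
  rw [hK0, hint, mul_assoc, ← mul_assoc, hs, one_mul, mul_comm (JR n _)] at hlim2
  refine hlim2.congr' ?_
  filter_upwards [Ioc_mem_nhdsGT (one_pos (α := ℝ))] with δ hδ
  have hb : OnBall 𝒜 p (τ δ) (pb (scl n δ⁻¹) T) := hτ δ hδ.1 hδ.2
  rw [TG_eq 𝒜 hB (hτ0 δ hδ.1 hδ.2), IW_area 𝒜 hB p]
  congr 1
  refine (setIntegral_congr_fun measurableSet_ball fun ξ hξ => ?_).symm
  rw [mem_ball_zero_iff] at hξ
  simp only [hK, ht]
  rw [mul_assoc]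
  congr 1
  have hd : dist p (𝒜.Ex p ξ) < π := by rw [dist_Ex 𝒜 hB p hξ.le]; exact hξ
  have hlg : lgV 𝒜 p (𝒜.Ex p ξ) = WithLp.ofLp ξ := by
    unfold lgV
    rw [EXT.lg_Ex 𝒜 hB p hξ]
  set x : V n := WithLp.ofLp ξ with hx
  have htx : toE x = ξ := rfl
  have key : ev (lgV 𝒜 p (𝒜.Ex p ξ)) (pb (scl n δ⁻¹) T) =
      (δ⁻¹ ^ n * (tp n T : V n → ℝ) (δ⁻¹ • x)) • ev (lgV 𝒜 p (𝒜.Ex p ξ)) (nuN n) := by
    rw [hlg, ev_T hB (hτ0 δ hδ.1 hδ.2) hb (x := x) (by rw [htx]; exact hξ), tp_scl]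
    by_cases h : ‖toE x‖ ≤ 11 / 5
    · rw [ev_nuN_one h]
    · push Not at h
      have h1 : 2 < ‖toE (δ⁻¹ • x)‖ := by
        have h2 : toE (δ⁻¹ • x) = δ⁻¹ • toE x := rfl
        rw [h2, norm_smul, norm_inv, Real.norm_of_nonneg hδ.1.le]
        have h3 : 1 ≤ δ⁻¹ := (one_le_inv₀ hδ.1).2 hδ.2
        nlinarith [norm_nonneg (toE x)]
      rw [tp_apply, hT _ h1, _root_.map_zero, mul_zero, zero_smul, zero_smul]
  have h1 : ∀ y, FW 𝒜 ((pW 𝒜).pull (τ δ) * X0 𝒜 hB Th) (𝒜.Ex p ξ, y) =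
      (δ⁻¹ ^ n * (tp n T : V n → ℝ) (δ⁻¹ • x)) * FW 𝒜 Ξ (𝒜.Ex p ξ, y) := by
    intro y
    unfold FW
    rw [dens_scale 𝒜 hB hb hν (X0 𝒜 hB Th) (z := (𝒜.Ex p ξ, y)) hd key]
    ring
  simp only [h1]
  rw [integral_const_mul]
  unfold HX
  have h2 : WithLp.ofLp (δ⁻¹ • ξ) = δ⁻¹ • x := rfl
  rw [h2]
  ring

end Pool.Agent.Lib.MP_ccbbf6_gt.L7
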