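import Pool.Agent.Lib.MP_ccbbf6_gt.L5.EPS01
import Pool.Agent.Lib.MP_ccbbf6_gt.L7.TO

/-!
# Level 7, TP1: `TG (foot^* τ * Θ) = (∫ T) * JR (ER^* Θ)` for `τ` supported in the unit ball at `p` (helper79)
-/

set_option autoImplicit false
set_option maxSynthPendingDepth 3
set_option linter.unusedSectionVars false

open MeasureTheory Measure Set Filter Topology Metric Real
open scoped ContDiff RealInnerProductSpace

noncomputable section

namespace Pool.Agent.Lib.MP_ccbbf6_gt.L7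

open Geo L4 FR EXT

variable {n k : ℕ}

/-- `(x, r) ↦ (1 + r c) x` -/
def Hsc (n : ℕ) (c : ℝ) : FR.Sm (n + 1) n := ⟨fun z => (1 + z (Fin.last n) * c) • FR.pr n z,
  (contDiff_const.add ((contDiff_apply ℝ ℝ (Fin.last n)).mul contDiff_const)).smul (FR.pr n).smooth⟩

theorem Hsc_apply (c : ℝ) (z : V (n + 1)) : Hsc n c z = (1 + z (Fin.last n) * c) • FR.pr n z := rfl

theorem Hsc_sl (c r : ℝ) : (Hsc n c).comp (sl n r) = scl n (1 + r * c) := by
  refine Sm.ext fun x => ?_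
  change (1 + (Fin.snoc x r : V (n + 1)) (Fin.last n) * c) • FR.pr n (Fin.snoc x r) = (1 + r * c) • x
  rw [pr_snoc, Fin.snoc_last]

/-- the primitive of the difference of two scalings -/
def bsc (c : ℝ) (T : Fm n) : Fm n := KK n (pb (Hsc n c) T)

theorem dd_bsc (c : ℝ) {T : Fm n} (hT : dd n T = 0) : dd n (bsc c T) = pb (scl n (1 + c)) T - T := by
  have h1 := dd_KK (pb (Hsc n c) T)
  rw [pb_dd, hT, map_zero, map_zero, add_zero, ← pb_comp, ← pb_comp, Hsc_sl, Hsc_sl, one_mul, zero_mul, add_zero] at h1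
  have h2 : scl n 1 = Sm.id n := Sm.ext fun x => one_smul ℝ x
  rw [h2, pb_id] at h1
  exact h1

theorem ev_KK_zero {θ : Fm (k + 1)} {p : V k} (h : ∀ s ∈ Set.Icc (0 : ℝ) 1, ev (Fin.snoc p s) θ = 0) :
    ev p (KK k θ) = 0 := by
  refine (Module.forall_dual_apply_eq_zero_iff ℝ _).1 fun φ => ?_
  rw [KK_apply, ev_Q0]
  rw [intervalIntegral.integral_of_le zero_le_one]
  refine setIntegral_eq_zero_of_forall_eq_zero fun s hs => ?_
  have h1 : ev p (pb (sl k s) (cs k θ)) = 0 := by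
    rw [L5.ev_slE, L5.ev_cs, h s ⟨hs.1.le, hs.2⟩, map_zero, map_zero]
  rw [h1, map_zero]

theorem supp_bsc {c : ℝ} (hc : 0 ≤ c) {T : Fm n} {ρ : ℝ} (hT : SuppLt ρ T) : SuppLt ρ (bsc c T) := by
  intro x hx
  refine ev_KK_zero fun s hs => ?_
  rw [ev_pb]
  have h1 : ev (Hsc n c (Fin.snoc x s)) T = 0 := by
    refine hT _ ?_
    rw [Hsc_apply, pr_snoc, Fin.snoc_last]
    have h2 : (WithLp.toLp 2 ((1 + s * c) • x) : Eu n) = (1 + s * c) • (WithLp.toLp 2 x : Eu n) := rfl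
    have h3 : 0 ≤ s * c := mul_nonneg hs.1 hc
    rw [h2, norm_smul, Real.norm_of_nonneg (by linarith)]
    have h4 := norm_nonneg (WithLp.toLp 2 x : Eu n)
    nlinarith
  rw [h1, map_zero]

theorem supp_scl {c : ℝ} (hc : 1 ≤ c) {T : Fm n} {ρ : ℝ} (hT : SuppLt ρ T) : SuppLt ρ (pb (scl n c) T) := by
  intro x hx
  rw [ev_pb]
  have h1 : ev (scl n c x) T = 0 := by
    refine hT _ ?_
    have h2 : (WithLp.toLp 2 (scl n c x) : Eu n) = c • (WithLp.toLp 2 x : Eu n) := rfl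
    rw [h2, norm_smul, Real.norm_of_nonneg (by linarith)]
    have h4 := norm_nonneg (WithLp.toLp 2 x : Eu n)
    nlinarith
  rw [h1, map_zero]

variable {M : Type} [MetricSpace M] [CompactSpace M] {𝒜 : SDist n M}

theorem pi_gt_one : (1 : ℝ) < π := by linarith [Real.pi_gt_three]

/-- extension of a form supported in the unit ball at `p` -/
def ext1 (hB : Bl M) (𝒜 : SDist n M) (p : M) (a : Fm n) : Om (spM 𝒜) := extO hB p 1 zero_le_one pi_gt_one a

variable [MeasurableSpace M] [BorelSpace M]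

/-- **the integral of `foot^* τ * Θ`** -/
theorem TG_loc (hB : Bl M) (p : M) {T : Fm n} (hTd : Dg n T) (hT : SuppLt 1 T) {Θ : Om (spG 𝒜)}
    (hΘ : ∀ (k : ℕ) (c : (spG 𝒜).Plot k) (u : V k), dist p ((c.1 u).1 0) < 1 → ev u (Om.on (dO _ Θ) c) = 0) :
    TG hB ((foot hB 0).pull (ext1 hB 𝒜 p T) * Θ) = (∫ x, (tp n T : V n → ℝ) x) * JR n ((ER hB p).pull Θ) := by
  have hTd0 : dd n T = 0 := Dg_big (Nat.lt_succ_self n) (Dg_dd hTd)
  -- the form at scale `s`
  have hconst : ∀ s : ℝ, 0 < s → s ≤ 1 → TG hB ((foot hB 0).pull (ext1 hB 𝒜 p (pb (scl n s⁻¹) T)) * Θ) =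
      TG hB ((foot hB 0).pull (ext1 hB 𝒜 p T) * Θ) := by
    intro s h0 h1
    have hs1 : 1 ≤ s⁻¹ := (one_le_inv₀ h0).2 h1
    set β := bsc (s⁻¹ - 1) T with hβ
    have hβs : SuppLt 1 β := supp_bsc (by linarith) hT
    have hdβ : dd n β = pb (scl n s⁻¹) T - T := by
      have h2 : 1 + (s⁻¹ - 1) = s⁻¹ := by ring
      rw [hβ, dd_bsc _ hTd0, h2]
    set B := ext1 hB 𝒜 p β with hBdef
    have hdB : dO _ B = ext1 hB 𝒜 p (pb (scl n s⁻¹) T) - ext1 hB 𝒜 p T := by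
      rw [hBdef, ext1, d_ext hB _ _ hβs, hdβ, sub_eq_add_neg, ext_add, ← neg_one_smul ℝ T, ext_smul, neg_one_smul,
        ← sub_eq_add_neg]
      rfl
    have h2 : sO _ ((foot hB 0).pull B) * dO _ Θ = 0 := by
      refine Om_ext fun k c => ev_ext fun u => ?_
      rw [on_mul, map_mul, on_s, ev_sg, on_pull]
      rcases lt_or_ge (dist p ((c.1 u).1 0)) 1 with h3 | h3
      · rw [hΘ k c u h3, mul_zero, on_zero, map_zero]
      · have h4 : ev u (Om.on B ((foot hB 0).pl c)) = 0 := ev_ext_zero hB _ _ hβs _ h3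
        rw [h4, map_zero, zero_mul, on_zero, map_zero]
    have h3 : (foot hB 0).pull (dO _ B) * Θ = dO _ ((foot hB 0).pull B * Θ) := by
      rw [d_mul, h2, add_zero, pull_d]
    have h4 := TG_d hB ((foot hB 0).pull B * Θ)
    rw [← h3, hdB, map_sub, sub_mul, map_sub, sub_eq_zero] at h4
    exact h4
  have hlim := L7.tendsto_TG hB p T (fun x hx => hT x (by
      change 1 ≤ ‖toE x‖
      linarith)) (fun s => ext1 hB 𝒜 p (pb (scl n s⁻¹) T))
    (fun s h0 h1 => deg_ext hB _ _ (Dg_pb _ hTd))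
    (fun s h0 h1 k P q hq => ext_ball hB _ _ (supp_scl ((one_le_inv₀ h0).2 h1) hT) P q hq) Θ
  refine tendsto_nhds_unique (tendsto_const_nhds.congr' ?_) hlim
  filter_upwards [Ioc_mem_nhdsGT (zero_lt_one' ℝ)] with s hs
  exact (hconst s hs.1 hs.2).symm

end Pool.Agent.Lib.MP_ccbbf6_gt.L7
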