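import Pool.Agent.Lib.MP_ccbbf6_gt.L7.PR1
import Pool.Agent.Lib.MP_ccbbf6_gt.L7.TP0

/-!
# Level 7, TP2: `|JS v| = |∫ T|` for the form `v = (WW δ)^* T` on the upper hemisphere (helper79)
-/

set_option autoImplicit false
set_option maxSynthPendingDepth 3

open Set Filter Topology MeasureTheory Metric Real
open scoped ContDiff RealInnerProductSpace

noncomputable section

namespace Pool.Agent.Lib.MP_ccbbf6_gt.L7

open Geo L4 L4.FR L5

variable {n : ℕ}

/-- the open half space -/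
def HU (n : ℕ) : Set (V (n + 1)) := {y | 0 < y 0}

theorem isOpen_HU : IsOpen (HU n) := isOpen_lt continuous_const (continuous_apply 0)

theorem convex_HU : Convex ℝ (HU n) := by
  intro x hx y hy a b ha hb hab
  change 0 < a * x 0 + b * y 0
  have hx' : 0 < x 0 := hx
  have hy' : 0 < y 0 := hy
  rcases ha.lt_or_eq with h | h
  · have := mul_pos h hx'
    have := mul_nonneg hb hy'.le
    linarith
  · rw [← h] at hab ⊢
    rw [zero_add] at hab
    rw [hab, zero_mul, zero_add, one_mul]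
    exact hy'

theorem hd_toE (y : V (n + 1)) : hd n (toE y) = y 0 := rfl

theorem WW_smul (δ : ℝ) {r : ℝ} (hr : 0 < r) (x : Eu (n + 1)) : WW δ (r • x) = WW δ x := by
  by_cases h0 : tl n x = 0
  · rw [WW_of_tl_zero δ h0, WW_of_tl_zero δ (by rw [map_smul, h0, smul_zero])]
  · unfold WW
    rw [ang_smul hr, map_smul, norm_smul, Real.norm_of_nonneg hr.le, smul_smul]
    congr 1
    have : ‖tl n x‖ ≠ 0 := norm_ne_zero_iff.2 h0
    field_simp

/-- the polar map -/
def HW (δ : ℝ) (y : V (n + 1)) : V (n + 1) := Fin.snoc (toV (WW δ (toE y))) ‖toE y‖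

/-- the linear map `(a, b) ↦ snoc a b` -/
def snL (n : ℕ) : (V n × ℝ) →L[ℝ] V (n + 1) := LinearMap.toContinuousLinearMap
  { toFun := fun z => (Fin.snoc z.1 z.2 : V (n + 1))
    map_add' := fun x y => by
      funext i
      refine Fin.lastCases ?_ (fun j => ?_) i
      · simp
      · simp
    map_smul' := fun r x => by
      funext i
      refine Fin.lastCases ?_ (fun j => ?_) i
      · simp
      · simp }

theorem snL_apply (z : V n × ℝ) : snL n z = (Fin.snoc z.1 z.2 : V (n + 1)) := rfl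

theorem snL_inj {z : V n × ℝ} (h : snL n z = 0) : z = 0 := by
  rw [snL_apply] at h
  have h1 : z.2 = 0 := by
    have := congrFun h (Fin.last n)
    rwa [Fin.snoc_last] at this
  have h2 : z.1 = 0 := by
    funext i
    have := congrFun h i.castSucc
    rwa [Fin.snoc_castSucc] at this
  exact Prod.ext h2 h1

theorem toE_ne_of_HU {y : V (n + 1)} (hy : y ∈ HU n) : toE y ≠ 0 := ne_zero_of_hd (ne_of_gt (show 0 < hd n (toE y) from hy))

/-- the derivative of the polar map -/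
def DHW (δ : ℝ) (y : V (n + 1)) : V (n + 1) →L[ℝ] V (n + 1) :=
  (snL n).comp ((((toEL n).symm : Eu n →L[ℝ] V n).comp ((fderiv ℝ (WW δ) (toE y)).comp (toEL (n + 1) : V (n + 1) →L[ℝ] Eu (n + 1)))).prod
    ((fderiv ℝ (fun x : Eu (n + 1) => ‖x‖) (toE y)).comp (toEL (n + 1) : V (n + 1) →L[ℝ] Eu (n + 1))))

theorem hasFDerivAt_HW (δ : ℝ) {y : V (n + 1)} (hy : y ∈ HU n) : HasFDerivAt (HW δ) (DHW δ y) y := by
  have h1 : HasFDerivAt (WW δ) (fderiv ℝ (WW δ) (toE y)) (toE y) :=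
    ((contDiffAt_WW δ (Or.inl hy)).differentiableAt (by simp)).hasFDerivAt
  have h2 : HasFDerivAt (fun x : Eu (n + 1) => ‖x‖) (fderiv ℝ (fun x : Eu (n + 1) => ‖x‖) (toE y)) (toE y) :=
    ((contDiffAt_norm ℝ (toE_ne_of_HU hy)).differentiableAt (n := ∞) (by simp)).hasFDerivAt
  have h3 : HasFDerivAt (toE : V (n + 1) → Eu (n + 1)) (toEL (n + 1) : V (n + 1) →L[ℝ] Eu (n + 1)) y :=
    (toEL (n + 1)).hasFDerivAt
  have h4 := ((toEL n).symm.hasFDerivAt (x := WW δ (toE y))).comp y (h1.comp y h3)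
  have h5 := h2.comp y h3
  exact ((snL n).hasFDerivAt).comp y (h4.prodMk h5)

theorem contDiffAt_HW (δ : ℝ) {y : V (n + 1)} (hy : y ∈ HU n) : ContDiffAt ℝ ∞ (HW δ) y := by
  have h1 : ContDiffAt ℝ ∞ (fun y : V (n + 1) => WW δ (toE y)) y :=
    (contDiffAt_WW δ (Or.inl hy)).comp y contDiff_toE.contDiffAt
  have h2 : ContDiffAt ℝ ∞ (fun y : V (n + 1) => ‖toE y‖) y :=
    (contDiffAt_norm ℝ (toE_ne_of_HU hy)).comp y contDiff_toE.contDiffAt
  exact contDiff_snoc.contDiffAt.comp y ((contDiff_toV.contDiffAt.comp y h1).prodMk h2)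

theorem det_DHW {δ : ℝ} (hδ : 0 < δ) {y : V (n + 1)} (hy : y ∈ HU n) : (DHW δ y).det ≠ 0 := by
  intro h0
  have h1 := LinearMap.bot_lt_ker_of_det_eq_zero (f := (DHW δ y : V (n + 1) →ₗ[ℝ] V (n + 1))) h0
  obtain ⟨z, hz, hz0⟩ := (Submodule.ne_bot_iff _).1 h1.ne'
  rw [LinearMap.mem_ker] at hz
  have h2 := snL_inj (n := n) (z := (toV (fderiv ℝ (WW δ) (toE y) (toE z)),
    fderiv ℝ (fun x : Eu (n + 1) => ‖x‖) (toE y) (toE z))) hz
  have h3 : fderiv ℝ (WW δ) (toE y) (toE z) = 0 := congrArg (fun w : V n × ℝ => toE w.1) h2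
  have h4 : fderiv ℝ (fun x : Eu (n + 1) => ‖x‖) (toE y) (toE z) = 0 := congrArg Prod.snd h2
  obtain ⟨r, hr⟩ := ker_WW hδ (Or.inl hy) h3
  have hd : DifferentiableAt ℝ (fun x : Eu (n + 1) => ‖x‖) (toE y) :=
    (contDiffAt_norm ℝ (toE_ne_of_HU hy)).differentiableAt (n := ∞) (by simp)
  have h6 : fderiv ℝ (fun x : Eu (n + 1) => ‖x‖) (toE y) (toE y) = ‖toE y‖ := hd.fderiv_norm_self
  have h7 : fderiv ℝ (fun x : Eu (n + 1) => ‖x‖) (toE y) (toE z) = r * ‖toE y‖ := by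
    rw [hr]
    have h8 : r • (WithLp.toLp 2 y : Eu (n + 1)) = r • toE y := rfl
    rw [h8, map_smul, h6, smul_eq_mul]
  rw [h7, mul_eq_zero] at h4
  have h5 : r = 0 := h4.resolve_right (norm_ne_zero_iff.2 (toE_ne_of_HU hy))
  rw [h5, zero_smul] at hr
  exact hz0 (congrArg WithLp.ofLp hr)

theorem injOn_HW {δ : ℝ} (hδ : 0 < δ) : InjOn (HW δ) (HU n) := by
  intro x hx y hy h
  have h1 : ‖toE x‖ = ‖toE y‖ := by
    have := congrFun h (Fin.last n)
    unfold HW at this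
    rwa [Fin.snoc_last, Fin.snoc_last] at this
  have h2 : WW δ (toE x) = WW δ (toE y) := by
    refine congrArg toE (funext fun i => ?_ : toV (WW δ (toE x)) = toV (WW δ (toE y)))
    have := congrFun h i.castSucc
    unfold HW at this
    rwa [Fin.snoc_castSucc, Fin.snoc_castSucc] at this
  have h3 := ZZ_WW hδ (x := toE x) (Or.inl hx)
  have h4 := ZZ_WW hδ (x := toE y) (Or.inl hy)
  rw [h2, h4, h1] at h3
  have hn : ‖toE y‖⁻¹ ≠ 0 := inv_ne_zero (norm_ne_zero_iff.2 (toE_ne_of_HU hy))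
  exact (congrArg WithLp.ofLp (smul_right_injective _ hn h3)).symm

/-- the sign of the Jacobian is constant -/
theorem sign_DHW {δ : ℝ} (hδ : 0 < δ) : ∃ s : ℝ, |s| = 1 ∧ ∀ y ∈ HU n, |(DHW δ y).det| = s * (DHW δ y).det := by
  have hc : ContinuousOn (fun y => (DHW δ y).det) (HU n) := by
    have h1 : ContDiffOn ℝ ∞ (HW δ) (HU n) := fun y hy => (contDiffAt_HW δ hy).contDiffWithinAt
    have h2 : ContinuousOn (fderiv ℝ (HW (n := n) δ)) (HU n) := h1.continuousOn_fderiv_of_isOpen isOpen_HU (by simp)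
    have h3 : ContinuousOn (fun y => (fderiv ℝ (HW (n := n) δ) y).det) (HU n) :=
      ContinuousLinearMap.continuous_det.comp_continuousOn h2
    exact h3.congr fun y hy => by simp only; rw [(hasFDerivAt_HW δ hy).fderiv]
  have hp : IsPreconnected (HU n) := convex_HU.isPreconnected
  by_cases hs : ∀ y ∈ HU n, 0 < (DHW δ y).det
  · exact ⟨1, abs_one, fun y hy => by rw [abs_of_pos (hs y hy), one_mul]⟩
  · push Not at hs
    obtain ⟨y0, hy0, h0⟩ := hs
    refine ⟨-1, by rw [abs_neg, abs_one], fun y hy => ?_⟩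
    have h1 : (DHW δ y).det ≤ 0 := by
      by_contra h
      push Not at h
      obtain ⟨z, hz, hz0⟩ := hp.intermediate_value hy0 hy hc ⟨h0, h.le⟩
      exact det_DHW hδ hz hz0
    rw [abs_of_nonpos h1, neg_one_mul]

theorem HW_surj {δ : ℝ} (hδ : 1 ≤ δ) {z : V (n + 1)} (h1 : 0 < z (Fin.last n)) (h2 : ‖toE (FR.pr n z)‖ < 1) :
    z ∈ HW δ '' HU n := by
  obtain ⟨t, ht⟩ : ∃ t, t = z (Fin.last n) := ⟨_, rfl⟩
  obtain ⟨ξ, hξ⟩ : ∃ ξ, ξ = toE (FR.pr n z) := ⟨_, rfl⟩
  rw [← ht] at h1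
  rw [← hξ] at h2
  have hδ0 : 0 < δ := by linarith
  obtain ⟨a, ha⟩ : ∃ a, a = ‖ξ‖ / δ := ⟨_, rfl⟩
  have ha0 : 0 ≤ a := by rw [ha]; positivity
  have ha1 : a < 1 := by
    rw [ha, div_lt_one hδ0]
    linarith
  have hpi := Real.pi_gt_three
  have hcos : 0 < cos a := cos_pos_of_mem_Ioo ⟨by linarith, by linarith⟩
  obtain ⟨x, hx⟩ : ∃ x, x = t • ZZ δ ξ := ⟨_, rfl⟩
  have e1 : hd n x = t * cos a := by
    rw [hx, ZZ, map_smul, map_add, map_smul, hd_e0, hd_em, add_zero, ha, smul_eq_mul, smul_eq_mul, mul_one]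
  have e2 : tl n x = (t * (sin a / ‖ξ‖)) • ξ := by
    rw [hx, ZZ, map_smul, map_add, map_smul, tl_e0, tl_em, smul_zero, zero_add, ha, smul_smul]
  have e3 : ‖x‖ = t := by
    have h3 := norm_sq_decomp x
    rw [e1, e2, norm_smul] at h3
    have h4 : ‖t * (sin a / ‖ξ‖)‖ * ‖ξ‖ = |t * sin a| := by
      by_cases h5 : ‖ξ‖ = 0
      · have h6 : a = 0 := by rw [ha, h5, zero_div]
        rw [h5, h6, sin_zero, mul_zero, mul_zero, abs_zero]
      · rw [Real.norm_eq_abs, ← abs_of_nonneg (norm_nonneg ξ), ← abs_mul, abs_of_nonneg (norm_nonneg ξ), mul_assoc,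
          div_mul_cancel₀ _ h5]
    rw [h4, sq_abs, mul_pow, mul_pow, ← mul_add, cos_sq_add_sin_sq, mul_one] at h3
    exact (sq_eq_sq₀ (norm_nonneg _) h1.le).1 h3
  have hxU : (toV x : V (n + 1)) ∈ HU n := by
    change 0 < hd n x
    rw [e1]
    positivity
  have e4 : WW δ x = ξ := by
    by_cases h5 : ξ = 0
    · rw [WW_of_tl_zero δ (by rw [e2, h5, smul_zero]), h5]
    · have h6 : 0 < ‖ξ‖ := norm_pos_iff.2 h5
      have ha2 : 0 < a := by rw [ha]; positivity
      have hsin : 0 < sin a := sin_pos_of_pos_of_lt_pi ha2 (by linarith)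
      have h7 : ang x = a := by
        unfold ang
        rw [e1, e3, mul_div_cancel_left₀ _ h1.ne']
        exact arccos_cos ha0 (by linarith)
      have h8 : 0 < t * (sin a / ‖ξ‖) := by positivity
      unfold WW
      rw [h7, e2, norm_smul, Real.norm_of_nonneg h8.le, smul_smul]
      have h9 : δ * a / (t * (sin a / ‖ξ‖) * ‖ξ‖) * (t * (sin a / ‖ξ‖)) = 1 := by
        have : δ * a = ‖ξ‖ := by rw [ha]; field_simp
        rw [this]
        field_simp
      rw [h9, one_smul]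
  refine ⟨toV x, hxU, ?_⟩
  unfold HW
  rw [toE_toV, e4, e3]
  have h5 : (toV ξ : V n) = FR.pr n z := by rw [hξ]; rfl
  rw [h5, ht, snoc_pr]

/-- the weight function -/
def gw2 (T : Fm n) (z : V (n + 1)) : ℝ := deriv chi (z (Fin.last n)) * topE n (ev (FR.pr n z) T)

theorem integral_deriv_chi' : ∫ s : ℝ, deriv chi s = 1 := by
  rw [← integral_deriv_chi, intervalIntegral.integral_of_le (by norm_num)]
  refine (setIntegral_eq_integral_of_forall_compl_eq_zero fun s hs => ?_).symm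
  rw [mem_Ioc, not_and_or, not_lt, not_le] at hs
  rcases hs with h | h
  · exact deriv_chi_zero (by linarith)
  · exact deriv_chi_zero' (by linarith)

theorem integral_gw2 (T : Fm n) : ∫ z, gw2 T z = ∫ x, topE n (ev x T) := by
  have h1 := (MeasureTheory.volume_preserving_piFinSuccAbove (fun _ : Fin (n + 1) => ℝ) (Fin.last n)).symm
  have h2 := h1.integral_comp (MeasurableEquiv.measurableEmbedding _) (gw2 T)
  rw [← h2]
  have h3 : ∀ z : ℝ × V n, gw2 T ((MeasurableEquiv.piFinSuccAbove (fun _ : Fin (n + 1) => ℝ) (Fin.last n)).symm z) =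
      deriv chi z.1 * topE n (ev z.2 T) := by
    intro z
    have h4 : ((MeasurableEquiv.piFinSuccAbove (fun _ : Fin (n + 1) => ℝ) (Fin.last n)).symm z : V (n + 1)) =
        Fin.snoc z.2 z.1 := by
      exact Fin.insertNth_last' z.1 z.2
    rw [h4]
    unfold gw2
    rw [Fin.snoc_last, pr_snoc]
  simp only [h3]
  have h5 := integral_prod_mul (μ := (volume : Measure ℝ)) (ν := (volume : Measure (V n))) (deriv chi)
    (fun x : V n => topE n (ev x T))
  rw [integral_deriv_chi', one_mul] at h5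
  exact h5

/-- `v` is `(WW δ)^* T` on the upper hemisphere -/
def IsW (δ : ℝ) (T : Fm n) (v : Om (spS (n + 1))) : Prop := ∀ (k : ℕ) (p : (spS (n + 1)).Plot k) (q : FR.Sm k n),
  (∀ u, 0 < (p.1 u).1 0 ∧ toE (q u) = WW δ (p.1 u).1) → Om.on v p = pb q T

theorem top_ThV {δ : ℝ} {T : Fm n} {v : Om (spS (n + 1))} (hv : IsW δ T v) {y : V (n + 1)} (hy : y ∈ HU n) :
    topE (n + 1) (ThV v y) = (-1) ^ n * ((DHW δ y).det * gw2 T (HW δ y)) := by
  obtain ⟨s, hs1, hs2⟩ := exists_sq y (isOpen_HU.mem_nhds hy)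
  have hne : ∀ w, toE (s w) ≠ 0 := fun w => toE_ne_of_HU (hs2 w)
  have hsE : ContDiff ℝ ∞ fun w => toE (s w) := contDiff_toE.comp s.smooth
  have hsn : ContDiff ℝ ∞ fun w => ‖toE (s w)‖ := hsE.norm ℝ hne
  let P : (spS (n + 1)).Plot (n + 1) := ⟨fun w => ⟨nrm (s w), norm_nrm (hne w)⟩, by
    change ContDiff ℝ ∞ fun w => ‖toE (s w)‖⁻¹ • toE (s w)
    exact (hsn.inv fun w => norm_ne_zero_iff.2 (hne w)).smul hsE⟩
  have hq : ContDiff ℝ ∞ fun w => toV (WW δ (toE (s w))) := contDiff_iff_contDiffAt.2 fun w =>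
    contDiff_toV.contDiffAt.comp w ((contDiffAt_WW δ (Or.inl (hs2 w))).comp w hsE.contDiffAt)
  let q : FR.Sm (n + 1) n := ⟨fun w => toV (WW δ (toE (s w))), hq⟩
  let G : FR.Sm (n + 1) (n + 1) := ⟨fun w => HW δ (s w), contDiff_snoc.comp (hq.prodMk hsn)⟩
  have e1 : Om.on v P = pb q T := by
    refine hv _ P q fun w => ⟨?_, ?_⟩
    · change 0 < hd n (‖toE (s w)‖⁻¹ • toE (s w))
      rw [map_smul, smul_eq_mul]
      exact mul_pos (inv_pos.2 (norm_pos_iff.2 (hne w))) (hs2 w)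
    · change WW δ (toE (s w)) = WW δ (‖toE (s w)‖⁻¹ • toE (s w))
      rw [WW_smul δ (inv_pos.2 (norm_pos_iff.2 (hne w)))]
  have hP : (fun w => (P.1 w).1) =ᶠ[𝓝 y] nrm := by
    filter_upwards [hs1] with w hw
    change nrm (s w) = nrm w
    rw [hw]
  have e2 : ThV v y = ev y (pb G (dd (n + 1) (fc (n + 1) (chl n)) * pb (FR.pr n) T)) := by
    have h1 : pb G (pb (FR.pr n) T) = pb q T := by
      have h0 : (FR.pr n).comp G = q := by
        refine Sm.ext fun w => ?_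
        change FR.pr n (Fin.snoc (toV (WW δ (toE (s w)))) ‖toE (s w)‖) = _
        rw [pr_snoc]
      rw [← pb_comp, h0]
    unfold ThV
    rw [vAt_eq Subtype.val_injective v P hP, e1, map_mul (pb G), h1, map_mul, ← pb_dd]
    congr 1
    rw [pb_fc]
    refine ev_dd_congr ?_
    filter_upwards [hs1] with w hw
    rw [ev_fc, ev_fc]
    congr 1
    change chi ‖toE w‖ = chi ((HW δ (s w)) (Fin.last n))
    unfold HW
    rw [Fin.snoc_last, hw]
  have e3 : fderiv ℝ (G : V (n + 1) → V (n + 1)) y = DHW δ y := by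
    have h1 : (G : V (n + 1) → V (n + 1)) =ᶠ[𝓝 y] HW δ := by
      filter_upwards [hs1] with w hw
      change HW δ (s w) = HW δ w
      rw [hw]
    rw [h1.fderiv_eq, (hasFDerivAt_HW δ hy).fderiv]
  have e4 : G y = HW δ y := by
    change HW δ (s y) = HW δ y
    rw [hs1.self_of_nhds]
  rw [e2, ev_pb, topE_map, det_tr, e3, e4, topE_dchl]
  unfold gw2
  ring

/-- **the integral of `v` over the sphere** -/
theorem abs_JS_v {δ : ℝ} (hδ : 1 ≤ δ) {T : Fm n} (hT : EXT.SuppLt 1 T) {v : Om (spS (n + 1))} (hv : IsW δ T v)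
    (hU : Upp v) : |JS v| = |∫ x, topE n (ev x T)| := by
  have hδ0 : 0 < δ := by linarith
  obtain ⟨σ, hσ, hs⟩ := sign_DHW (n := n) hδ0
  have hσ2 : σ * σ = 1 := by
    rw [← abs_mul_abs_self, hσ, one_mul]
  have h1 : JS v = ∫ y in HU n, topE (n + 1) (ThV v y) := by
    unfold JS
    simp only [ev_Th]
    refine (setIntegral_eq_integral_of_forall_compl_eq_zero fun y hy => ?_).symm
    have hy' : y 0 ≤ 0 := not_lt.1 hy
    by_cases h0 : toE y = 0
    · unfold ThV
      rw [ev_dcn_zero (by rw [h0, norm_zero]; exact one_pos), zero_mul, map_zero]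
    · obtain ⟨P, hP⟩ := locPl_nrm h0
      unfold ThV
      rw [vAt_eq Subtype.val_injective v P hP]
      have h2 : (P.1 y).1 = nrm y := hP.self_of_nhds
      have h3 : (P.1 y).1 0 ≤ 0 := by
        rw [h2]
        change ‖toE y‖⁻¹ * y 0 ≤ 0
        exact mul_nonpos_of_nonneg_of_nonpos (inv_nonneg.2 (norm_nonneg _)) hy'
      rw [hU _ P y h3, mul_zero, map_zero]
  have h2 : JS v = (-1) ^ n * σ * ∫ y in HU n, |(DHW δ y).det| • gw2 T (HW δ y) := by
    rw [h1, ← integral_const_mul]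
    refine setIntegral_congr_fun isOpen_HU.measurableSet fun y hy => ?_
    rw [top_ThV hv hy, hs y hy, smul_eq_mul]
    calc (-1 : ℝ) ^ n * ((DHW δ y).det * gw2 T (HW δ y)) = (-1) ^ n * (σ * σ) * ((DHW δ y).det * gw2 T (HW δ y)) := by
          rw [hσ2, mul_one]
      _ = _ := by ring
  have h3 : ∫ y in HU n, |(DHW δ y).det| • gw2 T (HW δ y) = ∫ z, gw2 T z := by
    rw [← integral_image_eq_integral_abs_det_fderiv_smul volume isOpen_HU.measurableSet
      (fun y hy => (hasFDerivAt_HW δ hy).hasFDerivWithinAt) (injOn_HW hδ0) (gw2 T)]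
    refine setIntegral_eq_integral_of_forall_compl_eq_zero fun z hz => ?_
    unfold gw2
    by_cases h4 : 0 < z (Fin.last n)
    · by_cases h5 : ‖toE (FR.pr n z)‖ < 1
      · exact absurd (HW_surj hδ h4 h5) hz
      · rw [hT _ (not_lt.1 h5), map_zero, mul_zero]
    · rw [deriv_chi_zero (by linarith [not_lt.1 h4]), zero_mul]
  rw [h2, h3, integral_gw2, abs_mul, abs_mul, hσ, abs_pow, abs_neg, abs_one, one_pow, one_mul, one_mul]

end Pool.Agent.Lib.MP_ccbbf6_gt.L7
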