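import Pool.Agent.Lib.MP_ccbbf6_gt.L7.RC
import Pool.Agent.Lib.MP_ccbbf6_gt.L7.TP1
import Pool.Agent.Lib.MP_ccbbf6_gt.L7.TP2

/-!
# Level 7, TP3: the value of `TG ∘ tr` on the bump form (helper79)

`CovP` : the cover near the pole; `TG_wV` : `TG (tr (wV v ν)) = (∫ T) * JS ν` with `v = χ(4 x_0) pr^* τ_T`.
-/

set_option autoImplicit false
set_option maxSynthPendingDepth 3
set_option linter.unusedSectionVars false

open Set Filter Topology MeasureTheory Metric Real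
open scoped ContDiff RealInnerProductSpace

noncomputable section

namespace Pool.Agent.Lib.MP_ccbbf6_gt.L7

open Geo L4 L4.FR L5 EXT

variable {n k : ℕ}

/-! ### the fibre over the pole -/

theorem norm_e0 : ‖e0 n‖ = 1 := by
  unfold e0
  simp

theorem norm_em (v : Eu n) : ‖em n v‖ = ‖v‖ := by
  have h := norm_sq_decomp (em n v)
  rw [hd_em, tl_em] at h
  have h1 : ‖em n v‖ ^ 2 = ‖v‖ ^ 2 := by rw [h]; ring
  exact (sq_eq_sq₀ (norm_nonneg _) (norm_nonneg _)).1 h1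

theorem inner_e0_em (v : Eu n) : ⟪e0 n, em n v⟫ = 0 := by
  unfold e0
  rw [EuclideanSpace.inner_single_left, em_zero', mul_zero]

/-- the fibre over the pole, `ξ ↦ (e0, ξ / |ξ|)` -/
def iF (n : ℕ) : SMap (spR n) (spSt n) := ⟨fun x => ⟨(e0 n, em n (‖x.1‖⁻¹ • x.1)), norm_e0, by
    rw [norm_em, normv x.2], inner_e0_em _⟩, fun k p => by
  have h1 : ContDiff ℝ ∞ fun u => ‖(p.1 u).1‖⁻¹ • (p.1 u).1 :=
    ((show ContDiff ℝ ∞ fun u => (p.1 u).1 from p.2).norm ℝ fun u => (p.1 u).2).inv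
      (fun u => norm_ne_zero_iff.2 (p.1 u).2) |>.smul p.2
  exact contDiff_const.prodMk ((em n).contDiff.comp h1)⟩

theorem mT_iF (x : (spR n).pt) (i : Fin n) : (mT n).f ((iF n).1 x) i = 4 * (‖x.1‖⁻¹ • x.1) i := by
  change 2 * ((1 + e0 n 0) * em n (‖x.1‖⁻¹ • x.1) i.succ - em n (‖x.1‖⁻¹ • x.1) 0 * e0 n i.succ) = _
  rw [em_zero', em_succ, ← hd_apply, hd_e0]
  ring

/-- the form on the fibre over the pole -/
theorem iF_Nu (ν : Om (spS n)) : (iF n).pull ((mT n).pull (Nu ν)) = (nrS n).pull ν := by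
  refine Om_ext fun k s => ev_ext fun u => ?_
  obtain ⟨g, hg⟩ : ∃ g, g = (mT n).pl ((iF n).pl s) := ⟨_, rfl⟩
  have hgz : ∀ z, toE (g z) = (4 : ℝ) • (‖(s.1 z).1‖⁻¹ • (s.1 z).1) := by
    intro z
    rw [hg]
    ext i
    exact mT_iF (s.1 z) i
  have hgn : ∀ z, ‖toE (g z)‖ = 4 := by
    intro z
    rw [hgz, norm_smul, normv (s.1 z).2, mul_one]
    norm_num
  have hg0 : ∀ z, toE (g z) ≠ 0 := by
    intro z
    rw [← norm_ne_zero_iff, hgn]
    norm_num
  let Q : (spR n).Plot k := ⟨fun z => ⟨toE (g z), hg0 z⟩, contDiff_toE.comp g.smooth⟩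
  have e1 : ev u (Om.on ((iF n).pull ((mT n).pull (Nu ν))) s) = ev u (pb g (Nu ν)) := by
    rw [hg]
    rfl
  have e2 : (nrS n).pl Q = (nrS n).pl s := by
    refine Plot_ext fun z => Subtype.ext ?_
    change ‖toE (g z)‖⁻¹ • toE (g z) = ‖(s.1 z).1‖⁻¹ • (s.1 z).1
    rw [hgn, hgz, smul_smul]
    norm_num
  have e3 : ev u (Om.on ((nrS n).pull ν) Q) = vAt (jR n) ((nrS n).pull ν) (fun z => toE (g z)) u := by
    exact (vAt_eq (p := fun z => toE (g z)) (z := u) jR_inj ((nrS n).pull ν) Q (Eventually.of_forall fun z => rfl)).symm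
  rw [e1, ev_pb, ev_Nu, NuV_far ν (by rw [hgn]; norm_num), tr_eq,
    ← (vAt_comp jR_inj ((nrS n).pull ν) (Eventually.of_forall fun z => g.smooth.contDiffAt) (locPl_toE (hg0 u))).2, ← e3,
    FR.on_pull, FR.on_pull, e2]

/-! ### vanishing -/

theorem ev_Nu_zero (ν : Om (spS n)) {y : V n} (h : ‖toE y‖ ≤ 1) : ev y (Nu ν) = 0 := by rw [ev_Nu, NuV_of_lt ν h]

theorem ev_dNu_zero (ν : Om (spS n)) {y : V n} (h : ‖toE y‖ < 1) : ev y (dd n (Nu ν)) = 0 := by
  have c : Continuous fun w : V n => ‖toE w‖ := contDiff_toE.continuous.norm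
  have h1 : ev y (dd n (Nu ν)) = ev y (dd n 0) := by
    refine ev_dd_congr ?_
    filter_upwards [c.continuousAt.eventually (gt_mem_nhds h)] with z hz
    rw [ev_Nu_zero ν (le_of_lt hz), map_zero]
  rw [h1, map_zero, map_zero]

/-! ### the cut-off function -/

/-- `χ(4 x_0)` -/
def cut4 (n : ℕ) : Om (spS (n + 1)) := fO (fun x : (spS (n + 1)).pt => chi (4 * x.1 0)) fun _ p =>
  contDiff_chi.comp (contDiff_const.mul ((contDiff_piLp_apply (𝕜 := ℝ) (p := 2) (i := 0)).comp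
    (show ContDiff ℝ ∞ fun u => (p.1 u).1 from p.2)))

theorem ev_cut4 (p : (spS (n + 1)).Plot k) (u : V k) : ev u (Om.on (cut4 n) p) = algebraMap ℝ _ (chi (4 * (p.1 u).1 0)) := by
  rw [cut4, on_fO, ev_fc]
  rfl

variable {M : Type} [MetricSpace M] [CompactSpace M] {𝒜 : SDist n M} {hB : Bl M}

/-- the cover near the pole -/
structure CovP (hB : Bl M) (𝒜 : SDist n M) (p : M) (δ : ℝ) {d : ℕ} (D : Cov (spSt n) (spG 𝒜) d) where
  /-- the projection of the sphere -/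
  prS : SMap (spS (n + 1)) (spM 𝒜)
  foot_P : (foot hB 0).comp D.P = prS.comp (stX n)
  tr_mul : ∀ (a : Om (spG 𝒜)) (w : Om (spSt n)), D.tr (D.P.pull a * w) = a * D.tr w
  pr_up : ∀ x : (spS (n + 1)).pt, 0 < x.1 0 → prS.1 x = 𝒜.Ex p (WW δ x.1)
  near : ∀ x : (spS (n + 1)).pt, dist p (prS.1 x) < 1 → 1 / 2 < x.1 0 ∨ x.1 0 < -1 / 2
  zero_of : ∀ (w : Om (spSt n)) {k : ℕ} (c : (spG 𝒜).Plot k) (u : V k),
    (∀ q : (spSt n).Plot k, D.P.pl q = c → ev u (Om.on w q) = 0) → ev u (Om.on (D.tr w) c) = 0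
  fib : ∀ w : Om (spSt n), (∀ (k : ℕ) (q : (spSt n).Plot k) (u : V k), (q.1 u).1.1 0 < -1 / 2 → ev u (Om.on w q) = 0) →
    (ER hB p).pull (D.tr w) = (iF n).pull w

namespace CovP

variable {p : M} {δ : ℝ} {d : ℕ} {D : Cov (spSt n) (spG 𝒜) d} (E : CovP hB 𝒜 p δ D)

/-- the form on the sphere -/
def vT (T : Fm n) : Om (spS (n + 1)) := cut4 n * E.prS.pull (ext1 hB 𝒜 p T)

theorem Deg_vT {T : Fm n} (h : Dg n T) : Deg n (E.vT T) := by
  have h1 : Deg (0 + n) (E.vT T) := Deg_mul (fun _ _ => Dg_fc _) (Deg_pull _ (deg_ext hB _ _ h))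
  rwa [zero_add] at h1

theorem Upp_vT (T : Fm n) : Upp (E.vT T) := by
  intro k q u hu
  rw [vT, on_mul, map_mul, ev_cut4, chi_zero (by linarith), map_zero, zero_mul]

theorem IsW_vT (h1 : 1 ≤ δ) (h2 : δ ≤ 2) {T : Fm n} (hT : SuppLt 1 T) : IsW δ T (E.vT T) := by
  intro k P q hq
  have hpi := Real.pi_gt_three
  have hδ : 0 < δ := by linarith
  have hne : ∀ u, (P.1 u).1 ≠ 0 := fun u h => by
    have h3 := (P.1 u).2
    rw [h, norm_zero] at h3
    exact zero_ne_one h3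
  have hn : ∀ u, ‖toE (q u)‖ = δ * ang (P.1 u).1 := fun u => by
    rw [(hq u).2, norm_WW hδ (Or.inl (hq u).1)]
  have e1 : Om.on (ext1 hB 𝒜 p T) (E.prS.pl P) = pb q T := by
    refine ext_ball hB _ _ hT _ q fun u => ⟨?_, ?_⟩
    · change ‖toE (q u)‖ < π
      rw [hn]
      have h3 := ang_lt_half (n := n) (x := (P.1 u).1) (hq u).1
      have h4 := ang_nonneg (P.1 u).1
      nlinarith
    · change E.prS.1 (P.1 u) = 𝒜.Ex p (toE (q u))
      rw [E.pr_up _ (hq u).1, (hq u).2]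
  refine ev_ext fun u => ?_
  rw [vT, on_mul, map_mul, ev_cut4, FR.on_pull, e1]
  by_cases h3 : ‖toE (q u)‖ < 1
  · have h4 : ang (P.1 u).1 < 1 := by
      rw [hn] at h3
      have h5 := ang_nonneg (P.1 u).1
      nlinarith
    have h5 : (P.1 u).1 0 = cos (ang (P.1 u).1) := by
      have h6 := cos_ang (n := n) (hne u)
      rw [(P.1 u).2, one_mul] at h6
      exact h6.symm
    have h6 : cos (π / 3) < cos (ang (P.1 u).1) :=
      cos_lt_cos_of_nonneg_of_le_pi (ang_nonneg _) (by linarith) (by linarith)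
    rw [cos_pi_div_three, ← h5] at h6
    rw [chi_one (by linarith), map_one, one_mul]
  · have h4 : ev u (pb q T) = 0 := by
      rw [ev_pb, hT _ (not_lt.1 h3), map_zero]
    rw [h4, mul_zero]

theorem x_near {c : (spG 𝒜).Plot k} {q : (spSt n).Plot k} (hq : D.P.pl q = c) (u : V k) :
    E.prS.1 ((stX n).1 (q.1 u)) = (c.1 u).1 0 := by
  have h1 := congrArg (fun f : SMap (spSt n) (spM 𝒜) => f.1 (q.1 u)) E.foot_P
  have h2 : D.P.1 (q.1 u) = c.1 u := congrArg (fun c : (spG 𝒜).Plot k => c.1 u) hq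
  have h3 : (foot hB 0).1 (D.P.1 (q.1 u)) = E.prS.1 ((stX n).1 (q.1 u)) := h1
  rw [← h3, h2]
  rfl

theorem wV_eq {T : Fm n} (hT : SuppLt 1 T) (ν : Om (spS n)) :
    wV (E.vT T) ν = D.P.pull ((foot hB 0).pull (ext1 hB 𝒜 p T)) * (mT n).pull (Nu ν) := by
  have h0 : D.P.pull ((foot hB 0).pull (ext1 hB 𝒜 p T)) = (stX n).pull (E.prS.pull (ext1 hB 𝒜 p T)) := by
    rw [← pull_comp, E.foot_P, pull_comp]
  rw [h0]
  refine Om_ext fun k q => ev_ext fun u => ?_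
  rw [wV, vT, map_mul, on_mul, on_mul, on_mul, map_mul, map_mul, map_mul, FR.on_pull (stX n) (cut4 n), ev_cut4]
  by_cases h1 : dist p (E.prS.1 ((stX n).1 (q.1 u))) < 1
  · rcases E.near _ h1 with h2 | h2
    · have h3 : chi (4 * (((stX n).pl q).1 u).1 0) = 1 := chi_one (by
        have h4 : 1 / 2 < (((stX n).pl q).1 u).1 0 := h2
        linarith)
      rw [h3, map_one, one_mul]
    · have h3 : ev u (Om.on ((mT n).pull (Nu ν)) q) = 0 := by
        refine RMap.ev_pull_zero _ (ev_Nu_zero ν ?_)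
        rw [norm_mT]
        have h4 : (q.1 u).1.1 0 < -1 / 2 := h2
        linarith
      rw [h3, mul_zero, mul_zero]
  · have h3 : ev u (Om.on ((stX n).pull (E.prS.pull (ext1 hB 𝒜 p T))) q) = 0 := by
      rw [FR.on_pull, FR.on_pull]
      exact ev_ext_zero hB _ _ hT _ (not_lt.1 h1)
    rw [h3, mul_zero, zero_mul]

variable [MeasurableSpace M] [BorelSpace M]

/-- **the value on the bump form** -/
theorem TG_wV (hn : 1 ≤ n) {T : Fm n} (hTd : Dg n T) (hT : SuppLt 1 T) {ν : Om (spS n)} (hν : Deg (n - 1) ν) :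
    TG hB (D.tr (wV (E.vT T) ν)) = (∫ x, topE n (ev x T)) * JS ν := by
  have hw : ∀ (k : ℕ) (q : (spSt n).Plot k) (u : V k), (q.1 u).1.1 0 < -1 / 2 →
      ev u (Om.on ((mT n).pull (Nu ν)) q) = 0 := by
    intro k q u h
    refine RMap.ev_pull_zero _ (ev_Nu_zero ν ?_)
    rw [norm_mT]
    linarith
  have hΘ : ∀ (k : ℕ) (c : (spG 𝒜).Plot k) (u : V k), dist p ((c.1 u).1 0) < 1 →
      ev u (Om.on (dO _ (D.tr ((mT n).pull (Nu ν)))) c) = 0 := by
    intro k c u hc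
    rw [← D.tr_d, RMap.pull_d]
    refine E.zero_of _ c u fun q hq => ?_
    have h1 := E.x_near hq u
    rw [← h1] at hc
    refine RMap.ev_pull_zero _ ?_
    rcases E.near _ hc with h2 | h2
    · have h3 : 1 / 2 < (q.1 u).1.1 0 := h2
      refine ev_dNu hn hν ?_
      rw [norm_mT]
      linarith
    · have h3 : (q.1 u).1.1 0 < -1 / 2 := h2
      refine ev_dNu_zero ν ?_
      rw [norm_mT]
      linarith
  rw [E.wV_eq hT, E.tr_mul, TG_loc hB p hTd hT hΘ, E.fib _ hw, iF_Nu, JR_nrS]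
  simp only [tp_apply]

end CovP

end Pool.Agent.Lib.MP_ccbbf6_gt.L7
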