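import Pool.Agent.Lib.MP_ccbbf6_gt.L7.PR8
import Pool.Agent.Lib.MP_ccbbf6_gt.L7.TP3

/-!
# Level 7, TP5: the cover near the pole (helper79)

* `covP : CovP hB 𝒜 (cp.1 0) δ (cov hB cp hD)`.
-/

set_option autoImplicit false
set_option maxSynthPendingDepth 3
set_option linter.unusedSectionVars false

open Set Filter Topology MeasureTheory Metric Real
open scoped ContDiff RealInnerProductSpace

noncomputable section

namespace Pool.Agent.Lib.MP_ccbbf6_gt.L7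

open Geo L4 L4.FR L5

variable {n k : ℕ} {M : Type} [MetricSpace M] [CompactSpace M] {𝒜 : SDist n M}

theorem cos_ang1 {x : Eu (n + 1)} (hx : ‖x‖ = 1) : cos (ang x) = x 0 := by
  have h := cos_ang (n := n) (norm_ne hx)
  rw [hx, one_mul] at h
  exact h

theorem half_lt_cos {t : ℝ} (h0 : 0 ≤ t) (h1 : t < 1) : 1 / 2 < cos t := by
  have hpi := Real.pi_gt_three
  have h := cos_lt_cos_of_nonneg_of_le_pi (x := t) (y := π / 3) h0 (by linarith) (by linarith)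
  rwa [cos_pi_div_three] at h

theorem near_aux (hB : Bl M) (cp : Gs M) {δ : ℝ} (h1 : 1 ≤ δ) {x : Eu (n + 1)} (hx : ‖x‖ = 1) (h : δ * ang x ≤ π)
    (hd : dist (cp.1 0) (prh hB 𝒜 cp δ x) < 1) : 1 / 2 < x 0 := by
  rw [dist_prh hB cp (by linarith) h] at hd
  have h2 := ang_nonneg x
  have h3 : ang x < 1 := by nlinarith
  rw [← cos_ang1 hx]
  exact half_lt_cos h2 h3

theorem near_pole (hB : Bl M) (cp : Gs M) {δ : ℝ} (hD : Dl 𝒜 δ) {x : Eu (n + 1)} (hx : ‖x‖ = 1)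
    (h : dist (cp.1 0) (prh hB 𝒜 cp δ x) < 1) : 1 / 2 < x 0 ∨ x 0 < -1 / 2 := by
  rcases hD with ⟨rfl, -⟩ | ⟨rfl, -⟩
  · refine Or.inl (near_aux hB cp le_rfl hx ?_ h)
    rw [one_mul]
    exact ang_le x
  · by_cases h1 : 2 * ang x ≤ π
    · exact Or.inl (near_aux hB cp one_le_two hx h1 h)
    · refine Or.inr ?_
      have h2 : 1 / 2 < (-x) 0 := by
        refine near_aux hB cp one_le_two (by rw [norm_neg]; exact hx) ?_ (by rw [prh_neg2 hB cp (norm_ne hx)]; exact h)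
        rw [ang_neg]
        linarith
      have h3 : (-x) 0 = -x 0 := rfl
      rw [h3] at h2
      linarith

theorem ER_eq (hB : Bl M) (cp : Gs M) {δ : ℝ} (hD : Dl 𝒜 δ) : ER hB (cp.1 0) = (PP hB cp hD).comp (iF n) :=
  SMap_ext fun x => by
    change gvg 𝒜 hB (cp.1 0) (‖x.1‖⁻¹ • x.1) (normv x.2) = pst hB 𝒜 cp δ (e0 n) (em n (‖x.1‖⁻¹ • x.1))
    rw [pst_pole hB cp hD (normv x.2), gw_unit hB cp (normv x.2)]

/-- **the cover near the pole** -/
def covP (hB : Bl M) (cp : Gs M) {δ : ℕ} (hD : Dl 𝒜 (δ : ℝ)) : CovP hB 𝒜 (cp.1 0) (δ : ℝ) (cov hB cp hD) where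
  prS := PM hB cp hD
  foot_P := foot_PP hB cp hD
  tr_mul := tf_mul hB cp hD
  pr_up x hx := prh_eq_Ex hB cp δ (Or.inl (by rw [hd_apply]; exact hx))
  near x hx := near_pole hB cp hD x.2 hx
  zero_of w k c u h := by
    obtain ⟨q, rfl⟩ := exists_lift hB cp hD c
    change ev u (Om.on (tf hB cp hD w) ((PP hB cp hD).pl q)) = 0
    rw [on_tf]
    rcases Dl_cases hD with ⟨rfl, h1⟩ | ⟨rfl, h1⟩
    · rw [dk_one]
      exact h q rfl
    · have hD' : Dl 𝒜 2 := Or.inr ⟨rfl, h1⟩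
      rw [dk_two, on_add, map_add, FR.on_pull, h q rfl, zero_add]
      refine h ((stN n).pl q) (Plot_ext fun z => ?_)
      have := PP_neg2 hB cp hD' (q.1 z)
      change pst hB 𝒜 cp ((2 : ℕ) : ℝ) _ _ = pst hB 𝒜 cp ((2 : ℕ) : ℝ) _ _
      rw [Nat.cast_ofNat]
      exact this
  fib w h := by
    change (ER hB (cp.1 0)).pull (tf hB cp hD w) = _
    rw [ER_eq hB cp hD, comp_tf]
    rcases Dl_cases hD with ⟨rfl, h1⟩ | ⟨rfl, h1⟩
    · rw [dk_one]
    · rw [dk_two, map_add, add_eq_left]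
      refine Om_ext fun k s => ev_ext fun u => ?_
      rw [FR.on_pull, FR.on_pull, on_zero, map_zero]
      refine h k _ u ?_
      change (-(e0 n)) 0 < -1 / 2
      have h3 : (-(e0 n)) 0 = -(e0 n 0) := rfl
      rw [h3, ← hd_apply, hd_e0]
      norm_num

end Pool.Agent.Lib.MP_ccbbf6_gt.L7
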