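import Pool.Agent.Lib.MP_ccbbf6_gt.L7.DG2
import Pool.Agent.Lib.MP_ccbbf6_gt.L7.RC
import Pool.Agent.Lib.MP_ccbbf6_gt.L7.SP1
import Pool.Agent.Lib.MP_ccbbf6_gt.L7.ST4
import Pool.Agent.Lib.MP_ccbbf6_gt.L7.ST6

/-!
# Level 7, TP6: the filling data (helper79)

* `fillD : FillD n` for `2 ≤ n`.
-/

set_option autoImplicit false
set_option maxSynthPendingDepth 3

noncomputable section

namespace Pool.Agent.Lib.MP_ccbbf6_gt.L7

open Geo L4 L4.FR L5

/-- **the filling theorems and the degree on the sphere** -/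
theorem fillD {n : ℕ} (hn : 2 ≤ n) : FillD n where
  gen y hy h1 h2 := ST_gen y hy h1 h2
  even he {j} y hj hy := by
    subst hj
    refine ST_even_of he rfl y hy fun u hu L w => ?_
    obtain ⟨g, hg⟩ := DG_sphere (by omega : 1 ≤ j) u hu
    rw [hg, hg, JS_L]
    ring
  odd ho {j} y hj hy h0 := by
    subst hj
    exact ST_odd ho hn y hy h0
  deg {j} y hj hy := by
    subst hj
    exact DG_sphere (by omega) y hy

end Pool.Agent.Lib.MP_ccbbf6_gt.L7
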