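import Pool.Agent.Lib.MP_ccbbf6_gt.L4.AL
import Pool.Agent.Lib.MP_ccbbf6_gt.L7.TP4
import Pool.Agent.Lib.MP_ccbbf6_gt.L7.TP5
import Pool.Agent.Lib.MP_ccbbf6_gt.L7.TP6

/-!
# Level 7, TP7: the bound for the contact form (helper79)

* `TG_AL_le` : `|TG (η (dη)^(n-1))| ≤ 2 δ^(n-1)`.
-/

set_option autoImplicit false
set_option maxSynthPendingDepth 3
set_option linter.unusedSectionVars false

open scoped ContDiff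

noncomputable section

namespace Pool.Agent.Lib.MP_ccbbf6_gt.L7

open Geo L4 L4.FR L5

variable {n : ℕ} {M : Type} [MetricSpace M] [CompactSpace M] {𝒜 : SDist n M} (hB : Bl M) (cp : Gs M)

theorem Bas_dAL : Bas (circPhi hB 𝒜) (dO _ (AL hB 𝒜)) :=
  Bas_of _ (AL_id hB) (by rw [d_d, map_zero])

theorem Deg_ALn : Deg (2 * (n - 1) + 1) (AL hB 𝒜 * dO _ (AL hB 𝒜) ^ (n - 1)) := by
  have h := Deg_mul (AL_deg hB (𝒜 := 𝒜)) (Deg_pow (Deg_d (AL_deg hB (𝒜 := 𝒜))) (n - 1))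
  have e : 1 + (1 + 1) * (n - 1) = 2 * (n - 1) + 1 := by ring
  rwa [e] at h

/-- **the bound for the contact form** -/
theorem TG_AL_le [MeasurableSpace M] [BorelSpace M] (hn : 2 ≤ n) {δ : ℕ} (hD : Dl 𝒜 (δ : ℝ)) (hV : DegV n)
    (hL : Odd n → ∃ (h : ℕ) (_ : n = 2 * h + 1) (Λ : Ch (spG 𝒜) (2 * h)),
      LamD n (cov hB cp hD) (circPhi hB 𝒜) (AL hB 𝒜) h Λ) :
    |TG hB (AL hB 𝒜 * dO _ (AL hB 𝒜) ^ (n - 1))| ≤ 2 * (δ : ℝ) ^ (n - 1) := by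
  have hd : 1 ≤ δ ∧ (1 : ℝ) ≤ δ ∧ (δ : ℝ) ≤ 2 := by
    rcases Dl_cases hD with ⟨rfl, _⟩ | ⟨rfl, _⟩ <;> norm_num
  obtain ⟨z0, -⟩ := surj_PP hB cp hD cp
  obtain ⟨Z, hZ, hZe⟩ := exists_Z (circPhi hB 𝒜) (AL_i hB) (Bas_dAL hB) (AL_deg hB) (cov hB cp hD) hn
    ((PP hB cp hD).pl ⟨fun _ => z0, show ContDiff ℝ ∞ fun _ : V 0 => z0.1 from contDiff_const⟩) (fillD hn) hL
  exact TG_le hn hd.1 (covP hB cp hD) hd.2.1 hd.2.2 hV hZ (Deg_ALn hB) hZe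

end Pool.Agent.Lib.MP_ccbbf6_gt.L7
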