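import Pool.Agent.Lib.MP_ccbbf6_gt.L7.ST1

/-!
# Level 7, TT1: compactly supported Poincaré lemma in top degree, in `ℝ^N` (helper33)

`Bx R f` : `f` vanishes outside the box of radius `R`; `ExR N R` : span of the `∂_i g`, `g` in the box;
`PL` : modulo `ExR` every function supported in the box is a multiple of one fixed function.
-/

set_option autoImplicit false
set_option maxSynthPendingDepth 3

open Set Filter Topology MeasureTheory
open scoped ContDiff

noncomputable section

namespace Pool.Agent.Lib.MP_ccbbf6_gt.L7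

open L4 L4.FR L5

variable {k l n N : ℕ}

/-- vanishes outside the box -/
def Bx (R : ℝ) (f : Cs N) : Prop := ∀ x : V N, R < ‖x‖ → (f : V N → ℝ) x = 0

/-- divergences of vector fields supported in the box -/
def ExR (N : ℕ) (R : ℝ) : Submodule ℝ (Cs N) := Submodule.span ℝ {f | ∃ (i : Fin N) (g : Cs N), Bx R g ∧ pd i g = f}

theorem contDiff_upd (i : Fin N) : ContDiff ℝ ∞ fun z : V N × ℝ => Function.update z.1 i z.2 := by
  rw [contDiff_pi]
  intro j
  by_cases h : j = i
  · subst h
    simp only [Function.update_self]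
    exact contDiff_snd
  · simp only [Function.update_of_ne h]
    exact (contDiff_apply ℝ ℝ j).comp contDiff_fst

theorem exists_coord {R : ℝ} (hR : 0 ≤ R) {x : V N} (h : R < ‖x‖) : ∃ j, R < |x j| := by
  by_contra h1
  push Not at h1
  exact absurd ((pi_norm_le_iff_of_nonneg hR).2 h1) (not_le.2 h)

/-- a one-dimensional bump -/
theorem exists_rho {R : ℝ} (hR : 0 < R) : ∃ ρ : ℝ → ℝ, ContDiff ℝ ∞ ρ ∧ (∀ t, R < |t| → ρ t = 0) ∧ ∫ t in (-R)..R, ρ t = 1 := by
  set F : ℝ → ℝ := fun t => st ((t + R) / (2 * R)) with hF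
  have hc : ContDiff ℝ ∞ F := contDiff_st.comp ((contDiff_id.add contDiff_const).div_const _)
  have h0 : ∀ t, t ≤ -R → F t = 0 := fun t ht =>
    Real.smoothTransition.zero_of_nonpos (div_nonpos_of_nonpos_of_nonneg (by linarith) (by linarith))
  have h1 : ∀ t, R ≤ t → F t = 1 := fun t ht => Real.smoothTransition.one_of_one_le (by
    rw [le_div_iff₀ (by linarith)]
    linarith)
  refine ⟨deriv F, ?_, fun t ht => ?_, ?_⟩
  · exact (contDiff_infty_iff_deriv.1 hc).2
  · rcases lt_abs.1 ht with h | h
    · have : F =ᶠ[𝓝 t] fun _ => 1 := by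
        filter_upwards [lt_mem_nhds h] with s hs
        exact h1 s hs.le
      rw [this.deriv_eq, deriv_const]
    · have : F =ᶠ[𝓝 t] fun _ => 0 := by
        filter_upwards [gt_mem_nhds (by linarith : t < -R)] with s hs
        exact h0 s hs.le
      rw [this.deriv_eq, deriv_const]
  · rw [intervalIntegral.integral_deriv_eq_sub (fun t _ => (hc.differentiable (by simp)) t)
      ((contDiff_infty_iff_deriv.1 hc).2.continuous.intervalIntegrable _ _), h1 R le_rfl, h0 _ le_rfl, sub_zero]

/-- smoothness of integrals -/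
theorem contDiff_prim {F : V N × ℝ → ℝ} (hF : ContDiff ℝ ∞ F) (a : ℝ) {b : V N → ℝ} (hb : ContDiff ℝ ∞ b) :
    ContDiff ℝ ∞ fun x => ∫ t in a..b x, F (x, t) := by
  have h1 : (fun x => ∫ t in a..b x, F (x, t)) = fun x => (b x - a) * ∫ s in (0 : ℝ)..1, F (x, a + s * (b x - a)) := by
    funext x
    have h2 := intervalIntegral.smul_integral_comp_add_mul (fun t => F (x, t)) (b x - a) a (a := 0) (b := 1)
    rw [mul_zero, add_zero, mul_one, add_sub_cancel] at h2
    rw [← h2, smul_eq_mul]
    congr 1
    refine intervalIntegral.integral_congr fun s _ => ?_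
    rw [mul_comm s]
  rw [h1]
  refine (hb.sub contDiff_const).mul (contDiff_param (f := fun x s => F (x, a + s * (b x - a))) ?_)
  exact hF.comp (contDiff_fst.prodMk (contDiff_const.add (contDiff_snd.mul ((hb.comp contDiff_fst).sub contDiff_const))))

section step

variable {R : ℝ} {ρ : ℝ → ℝ}

/-- one step -/
theorem PL_step (hR : 0 < R) (hρ : ContDiff ℝ ∞ ρ) (hρ0 : ∀ t, R < |t| → ρ t = 0) (hρ1 : ∫ t in (-R)..R, ρ t = 1)
    (i : Fin N) (S : Finset (Fin N)) (hi : i ∉ S) (h : Cs N)
    (h1 : ∀ x y : V N, (∀ j ∉ S, x j = y j) → (h : V N → ℝ) x = (h : V N → ℝ) y)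
    (h2 : ∀ x : V N, (∃ j ∉ S, R < |x j|) → (h : V N → ℝ) x = 0) :
    ∃ h' : Cs N, (∀ x y : V N, (∀ j ∉ insert i S, x j = y j) → (h' : V N → ℝ) x = (h' : V N → ℝ) y) ∧
      (∀ x : V N, (∃ j ∉ insert i S, R < |x j|) → (h' : V N → ℝ) x = 0) ∧
      ∃ g : Cs N, Bx R g ∧ ∀ x : V N, (pd i g : V N → ℝ) x = (∏ j ∈ S, ρ (x j)) * (h : V N → ℝ) x -
        (∏ j ∈ insert i S, ρ (x j)) * (h' : V N → ℝ) x := by
  have hsm : ContDiff ℝ ∞ fun z : V N × ℝ => (h : V N → ℝ) (Function.update z.1 i z.2) := (Cs_smooth h).comp (contDiff_upd i)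
  set h' : Cs N := mkC (fun x => ∫ t in (-R)..R, (h : V N → ℝ) (Function.update x i t)) (contDiff_prim hsm _ contDiff_const)
    with hh'
  have hh'a : ∀ x : V N, (h' : V N → ℝ) x = ∫ t in (-R)..R, (h : V N → ℝ) (Function.update x i t) := fun x => rfl
  have hind : ∀ x y : V N, (∀ j ∉ insert i S, x j = y j) → (h' : V N → ℝ) x = (h' : V N → ℝ) y := by
    intro x y hxy
    rw [hh'a, hh'a]
    refine intervalIntegral.integral_congr fun t _ => h1 _ _ fun j hj => ?_
    by_cases hji : j = i
    · subst hji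
      rw [Function.update_self, Function.update_self]
    · rw [Function.update_of_ne hji, Function.update_of_ne hji]
      exact hxy j (by rw [Finset.mem_insert]; tauto)
  have hvan : ∀ x : V N, (∃ j ∉ insert i S, R < |x j|) → (h' : V N → ℝ) x = 0 := by
    rintro x ⟨j, hj, hxj⟩
    rw [Finset.mem_insert, not_or] at hj
    rw [hh'a]
    have : ∀ t, (h : V N → ℝ) (Function.update x i t) = 0 := fun t => h2 _ ⟨j, hj.2, by rwa [Function.update_of_ne hj.1]⟩
    simp only [this, intervalIntegral.integral_zero]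
  have hout : ∀ (x : V N) (t : ℝ), R < |t| → (h : V N → ℝ) (Function.update x i t) = 0 := fun x t ht =>
    h2 _ ⟨i, hi, by rwa [Function.update_self]⟩
  refine ⟨h', hind, hvan, ?_⟩
  set F : V N × ℝ → ℝ := fun z => (h : V N → ℝ) (Function.update z.1 i z.2) - ρ z.2 * (h' : V N → ℝ) z.1 with hF
  have hFs : ContDiff ℝ ∞ F := hsm.sub ((hρ.comp contDiff_snd).mul ((Cs_smooth h').comp contDiff_fst))
  have hFc : ∀ x, Continuous fun t => F (x, t) := fun x => hFs.continuous.comp (by fun_prop)
  have hF0 : ∀ x t, R < |t| → F (x, t) = 0 := fun x t ht => by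
    change (h : V N → ℝ) (Function.update x i t) - ρ t * (h' : V N → ℝ) x = 0
    rw [hout x t ht, hρ0 t ht, zero_mul, sub_zero]
  have hFtot : ∀ x, ∫ t in (-R)..R, F (x, t) = 0 := fun x => by
    change ∫ t in (-R)..R, ((h : V N → ℝ) (Function.update x i t) - ρ t * (h' : V N → ℝ) x) = 0
    rw [intervalIntegral.integral_sub, intervalIntegral.integral_mul_const, hρ1, one_mul, ← hh'a, sub_self]
    · exact (hsm.continuous.comp (by fun_prop : Continuous fun t : ℝ => (x, t))).intervalIntegrable _ _
    · exact (hρ.continuous.mul continuous_const).intervalIntegrable _ _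
  -- the primitive
  set G : V N → ℝ := fun x => ∫ t in (-R)..x i, F (x, t) with hG
  have hGs : ContDiff ℝ ∞ G := contDiff_prim hFs _ (contDiff_apply ℝ ℝ i)
  have hGout : ∀ x : V N, R < |x i| → G x = 0 := by
    intro x hx
    rcases lt_abs.1 hx with h3 | h3
    · change ∫ t in (-R)..x i, F (x, t) = 0
      rw [← intervalIntegral.integral_add_adjacent_intervals ((hFc x).intervalIntegrable (-R) R)
        ((hFc x).intervalIntegrable R (x i)), hFtot, zero_add]
      refine intervalIntegral.integral_zero_ae (Eventually.of_forall fun t ht => hF0 x t ?_)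
      rw [uIoc_of_le h3.le] at ht
      exact lt_of_lt_of_le ht.1 (le_abs_self t)
    · change ∫ t in (-R)..x i, F (x, t) = 0
      rw [intervalIntegral.integral_symm, neg_eq_zero]
      have h5 : ∀ t ∈ Set.uIcc (x i) (-R), F (x, t) = 0 := by
        intro t ht
        rw [uIcc_of_le (by linarith)] at ht
        rcases eq_or_lt_of_le ht.2 with h6 | h6
        · -- by continuity at the end point
          subst h6
          have hcl : IsClosed {t : ℝ | F (x, t) = 0} := isClosed_eq (hFc x) continuous_const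
          have hmem : (-R) ∈ closure {t : ℝ | t < -R} := by
            rw [show {t : ℝ | t < -R} = Iio (-R) from rfl, closure_Iio]
            exact mem_Iic.2 le_rfl
          exact (closure_minimal (fun s (hs : s < -R) => hF0 x s (by rw [lt_abs]; right; linarith)) hcl) hmem
        · exact hF0 x t (by rw [lt_abs]; right; linarith)
      rw [intervalIntegral.integral_congr (g := fun _ => 0) h5, intervalIntegral.integral_zero]
  have hGvan : ∀ x : V N, (∃ j ∉ insert i S, R < |x j|) → G x = 0 := by
    rintro x ⟨j, hj, hxj⟩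
    have h4 := hvan x ⟨j, hj, hxj⟩
    rw [Finset.mem_insert, not_or] at hj
    have h5 : ∀ t, F (x, t) = 0 := fun t => by
      change (h : V N → ℝ) (Function.update x i t) - ρ t * (h' : V N → ℝ) x = 0
      rw [h4, mul_zero, sub_zero]
      exact h2 _ ⟨j, hj.2, by rwa [Function.update_of_ne hj.1]⟩
    change ∫ t in (-R)..x i, F (x, t) = 0
    simp only [h5, intervalIntegral.integral_zero]
  have hps : ContDiff ℝ ∞ fun x : V N => ∏ j ∈ S, ρ (x j) :=
    contDiff_prod fun j _ => hρ.comp (contDiff_apply ℝ ℝ j)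
  set g : Cs N := mkC (fun x => (∏ j ∈ S, ρ (x j)) * G x) (hps.mul hGs) with hg
  have hga : ∀ x : V N, (g : V N → ℝ) x = (∏ j ∈ S, ρ (x j)) * G x := fun x => rfl
  refine ⟨g, fun x hx => ?_, fun x => ?_⟩
  · obtain ⟨j, hj⟩ := exists_coord hR.le hx
    rw [hga]
    by_cases hjS : j ∈ S
    · rw [Finset.prod_eq_zero hjS (hρ0 _ hj), zero_mul]
    · by_cases hji : j = i
      · subst hji
        rw [hGout x hj, mul_zero]
      · rw [hGvan x ⟨j, by rw [Finset.mem_insert]; tauto, hj⟩, mul_zero]
  · -- the derivative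
    rw [pd_apply]
    have hd1 : HasDerivAt (fun s => (g : V N → ℝ) (Function.update x i s))
        (fderiv ℝ (g : V N → ℝ) x (Pi.single i 1)) (x i) := by
      have h3 : HasFDerivAt (g : V N → ℝ) (fderiv ℝ (g : V N → ℝ) x) (Function.update x i (x i)) := by
        rw [Function.update_eq_self]
        exact (Cs_diff g x).hasFDerivAt
      exact h3.comp_hasDerivAt (x i) (hasDerivAt_update x i (x i))
    have hFupd : ∀ s t, F (Function.update x i s, t) = F (x, t) := fun s t => by
      change (h : V N → ℝ) (Function.update (Function.update x i s) i t) - ρ t * (h' : V N → ℝ) (Function.update x i s) = _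
      rw [Function.update_idem, hind (Function.update x i s) x fun j hj => by
        rw [Finset.mem_insert, not_or] at hj
        rw [Function.update_of_ne hj.1]]
    have hgupd : (fun s => (g : V N → ℝ) (Function.update x i s)) = fun s => (∏ j ∈ S, ρ (x j)) * ∫ t in (-R)..s, F (x, t) := by
      funext s
      rw [hga]
      congr 1
      · refine Finset.prod_congr rfl fun j hj => ?_
        rw [Function.update_of_ne]
        rintro rfl
        exact hi hj
      · change ∫ t in (-R)..Function.update x i s i, F (Function.update x i s, t) = _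
        rw [Function.update_self]
        exact intervalIntegral.integral_congr fun t _ => hFupd s t
    have hd2 : HasDerivAt (fun s => (g : V N → ℝ) (Function.update x i s)) ((∏ j ∈ S, ρ (x j)) * F (x, x i)) (x i) := by
      rw [hgupd]
      exact (intervalIntegral.integral_hasDerivAt_right ((hFc x).intervalIntegrable _ _)
        (hFc x).aestronglyMeasurable.stronglyMeasurableAtFilter (hFc x).continuousAt).const_mul _
    rw [hd1.unique hd2, Finset.prod_insert hi]
    change _ * ((h : V N → ℝ) (Function.update x i (x i)) - ρ (x i) * (h' : V N → ℝ) x) = _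
    rw [Function.update_eq_self]
    ring

/-- **compactly supported Poincaré lemma in top degree** -/
theorem PL (hR : 0 < R) : ∃ r : Cs N, Bx R r ∧ ∀ f : Cs N, Bx R f → ∃ s : ℝ, f - s • r ∈ ExR N R := by
  classical
  obtain ⟨ρ, hρ, hρ0, hρ1⟩ := exists_rho hR
  refine ⟨mkC (fun x => ∏ j, ρ (x j)) (contDiff_prod fun j _ => hρ.comp (contDiff_apply ℝ ℝ j)), fun x hx => ?_, fun f hf => ?_⟩
  · obtain ⟨j, hj⟩ := exists_coord hR.le hx
    exact Finset.prod_eq_zero (Finset.mem_univ j) (hρ0 _ hj)
  have key : ∀ S : Finset (Fin N), ∃ h : Cs N,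
      (∀ x y : V N, (∀ j ∉ S, x j = y j) → (h : V N → ℝ) x = (h : V N → ℝ) y) ∧
      (∀ x : V N, (∃ j ∉ S, R < |x j|) → (h : V N → ℝ) x = 0) ∧
      ∃ e ∈ ExR N R, ∀ x : V N, (f : V N → ℝ) x = (∏ j ∈ S, ρ (x j)) * (h : V N → ℝ) x + (e : V N → ℝ) x := by
    intro S
    induction S using Finset.induction_on with
    | empty =>
      refine ⟨f, fun x y hxy => ?_, fun x hx => ?_, 0, Submodule.zero_mem _, fun x => ?_⟩
      · rw [show x = y from funext fun j => hxy j (Finset.notMem_empty j)]
      · obtain ⟨j, _, hj⟩ := hx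
        exact hf x (lt_of_lt_of_le hj (norm_le_pi_norm x j))
      · rw [Finset.prod_empty, one_mul]
        exact (add_zero _).symm
    | insert i S hi ih =>
      obtain ⟨h, h1, h2, e, he, h3⟩ := ih
      obtain ⟨h', h1', h2', g, hg, hg'⟩ := PL_step hR hρ hρ0 hρ1 i S hi h h1 h2
      refine ⟨h', h1', h2', e + pd i g, Submodule.add_mem _ he (Submodule.subset_span ⟨i, g, hg, rfl⟩), fun x => ?_⟩
      change _ = _ + ((e : V N → ℝ) x + (pd i g : V N → ℝ) x)
      rw [hg', h3]
      ring
  obtain ⟨h, h1, -, e, he, h3⟩ := key Finset.univ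
  refine ⟨(h : V N → ℝ) 0, ?_⟩
  have : f - ((h : V N → ℝ) 0) • mkC (fun x => ∏ j, ρ (x j)) (contDiff_prod fun j _ => hρ.comp (contDiff_apply ℝ ℝ j)) = e := by
    refine Cs_ext fun x => ?_
    change (f : V N → ℝ) x - (h : V N → ℝ) 0 * ∏ j, ρ (x j) = (e : V N → ℝ) x
    rw [h3, h1 x 0 fun j hj => absurd (Finset.mem_univ j) hj]
    ring
  rw [this]
  exact he

end step

end Pool.Agent.Lib.MP_ccbbf6_gt.L7
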