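import Pool.Agent.Lib.MP_ccbbf6_gt.L5.EPS04
import Pool.Agent.Lib.MP_ccbbf6_gt.L7.ST3

/-!
# Level 7, TT2: ranks of plots of the Stiefel manifold; forms of degree `> 2n - 1` vanish (helper33)

* `top_eq`, `Dg_top` : elements of top degree;
* `deg_rank_zero`, `rk_dim`, `d_top`.
-/

set_option autoImplicit false
set_option maxSynthPendingDepth 3

open Set Filter Topology MeasureTheory Module
open scoped ContDiff RealInnerProductSpace

noncomputable section

namespace Pool.Agent.Lib.MP_ccbbf6_gt.L7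

open Geo L4 L4.FR L5 PE

variable {k l n N j : ℕ}

theorem iMulti_top (v : Fin k → V k) : ExteriorAlgebra.ιMulti ℝ k v = topE k (ExteriorAlgebra.ιMulti ℝ k v) • vlE k := by
  rw [topE_ιMulti]
  have h : ExteriorAlgebra.ιMulti ℝ k (M := V k) =
      (LinearMap.toSpanSingleton ℝ (Ex k) (vlE k)).compAlternatingMap
        (Matrix.detRowAlternating : (V k) [⋀^Fin k]→ₗ[ℝ] ℝ) := by
    refine Module.Basis.ext_alternating (Pi.basisFun ℝ (Fin k)) fun σ hσ => ?_
    obtain ⟨τ, hτ⟩ : ∃ τ : Equiv.Perm (Fin k), ⇑τ = σ :=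
      ⟨Equiv.ofBijective σ ⟨hσ, Finite.surjective_of_injective hσ⟩, rfl⟩
    subst hτ
    have h1 : (fun i => (Pi.basisFun ℝ (Fin k)) (τ i)) = (fun i : Fin k => (Pi.single i 1 : V k)) ∘ τ := by
      funext i
      simp
    rw [h1, AlternatingMap.map_perm, LinearMap.compAlternatingMap_apply, AlternatingMap.map_perm]
    have h2 : (Matrix.detRowAlternating : (V k) [⋀^Fin k]→ₗ[ℝ] ℝ) (fun i : Fin k => (Pi.single i 1 : V k)) = 1 := by
      have h3 : (fun i : Fin k => (Pi.single i 1 : V k)) = (1 : Matrix (Fin k) (Fin k) ℝ) := by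
        funext i j
        simp [Matrix.one_apply, Pi.single_apply, eq_comm]
      change Matrix.det (fun i : Fin k => (Pi.single i 1 : V k)) = 1
      rw [h3, Matrix.det_one]
    rw [h2, LinearMap.toSpanSingleton_apply, smul_assoc, one_smul]
    rfl
  exact congrArg (fun f : (V k) [⋀^Fin k]→ₗ[ℝ] Ex k => f v) h

theorem top_eq {a : Ex k} (ha : a ∈ ⋀[ℝ]^k (V k)) : a = topE k a • vlE k := by
  rw [← ExteriorAlgebra.ιMulti_span_fixedDegree] at ha
  induction ha using Submodule.span_induction with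
  | mem x hx =>
    obtain ⟨v, rfl⟩ := hx
    exact iMulti_top v
  | zero => rw [map_zero, zero_smul]
  | add x y _ _ hx hy => rw [map_add, add_smul, ← hx, ← hy]
  | smul r x _ hx => rw [map_smul, smul_assoc, ← hx]

theorem Dg_top {θ : Fm k} (h : Dg k θ) : θ = tm (tp k θ) (vlE k) := by
  refine ev_ext fun p => ?_
  rw [ev_tm, tp_apply]
  exact top_eq (Dg_ev h p)

/-- forms of degree `j` vanish along plots at points of rank smaller than `j` -/
theorem deg_rank_zero {w : Om (spSt n)} (hw : Deg j w) (p : (spSt n).Plot N) {x : V N} (h : rkP p x < j) :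
    ev x (Om.on w p) = 0 := by
  obtain ⟨R, hR⟩ := plot_facSt p x
  rw [ev_on_congr w hR, on_cmp, ev_pb]
  refine extMap_zero ?_ (Dg_ev (hw _ R) _)
  rw [rank_tr]
  refine lt_of_le_of_lt ?_ h
  obtain ⟨A, hA⟩ : ∃ A : Eu (n + 1) × Eu (n + 1) →L[ℝ] V (n + 1 + (n + 1)), ∀ z, A z = (spl (n + 1)).symm z :=
    ⟨((spl (n + 1)).symm : Eu (n + 1) × Eu (n + 1) →L[ℝ] V (n + 1 + (n + 1))), fun _ => rfl⟩
  have h1 : fderiv ℝ (stC p : V N → _) x = A.comp (fderiv ℝ (fun u => (p.1 u).1) x) := by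
    have h2 : HasFDerivAt (fun u => (p.1 u).1) (fderiv ℝ (fun u => (p.1 u).1) x) x :=
      ((plot_sm p).differentiable (by simp) x).hasFDerivAt
    have h3 : (stC p : V N → _) = fun u => A (p.1 u).1 := funext fun u => (hA _).symm
    rw [h3]
    exact (A.hasFDerivAt.comp x h2).fderiv
  rw [h1]
  exact finrank_comp_le A (fderiv ℝ (fun u => (p.1 u).1) x)

/-- the three equations of the tangent space -/
def tgt (x y : Eu (n + 1)) : Eu (n + 1) × Eu (n + 1) →ₗ[ℝ] ℝ × ℝ × ℝ where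
  toFun z := (⟪x, z.1⟫, ⟪y, z.2⟫, ⟪x, z.2⟫ + ⟪y, z.1⟫)
  map_add' z z' := by
    simp only [Prod.fst_add, Prod.snd_add, inner_add_right, Prod.mk_add_mk, Prod.mk.injEq]
    exact ⟨trivial, trivial, by ring⟩
  map_smul' r z := by
    simp only [Prod.smul_fst, Prod.smul_snd, real_inner_smul_right, RingHom.id_apply, Prod.smul_mk, smul_eq_mul,
      Prod.mk.injEq]
    exact ⟨trivial, trivial, by ring⟩

theorem finrank_ker_tgt (z : (spSt n).pt) : finrank ℝ (LinearMap.ker (tgt z.1.1 z.1.2)) + 3 = 2 * (n + 1) := by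
  have h1 := (tgt z.1.1 z.1.2).finrank_range_add_finrank_ker
  have h2 : LinearMap.range (tgt z.1.1 z.1.2) = ⊤ := by
    rw [LinearMap.range_eq_top]
    rintro ⟨s, t, u⟩
    refine ⟨(s • z.1.1, t • z.1.2 + u • z.1.1), ?_⟩
    change (⟪z.1.1, s • z.1.1⟫, ⟪z.1.2, t • z.1.2 + u • z.1.1⟫, ⟪z.1.1, t • z.1.2 + u • z.1.1⟫ + ⟪z.1.2, s • z.1.1⟫) = _
    simp only [inner_add_right, real_inner_smul_right, stxx, styy, stxy, styx]
    simp
  rw [h2, finrank_top, finrank_prod, finrank_prod, finrank_self, finrank_prod, finrank_euclideanSpace_fin] at h1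
  omega

/-- the rank of a plot is at most `2n - 1` -/
theorem rk_dim (p : (spSt n).Plot N) (x : V N) : rkP p x + 1 ≤ 2 * n := by
  have h0 := finrank_ker_tgt (p.1 x)
  have hD := hasFD p x
  have hx : HasFDerivAt (fun u => (p.1 u).1.1) ((ContinuousLinearMap.fst ℝ _ _).comp (fderiv ℝ (fun u => (p.1 u).1) x)) x :=
    (ContinuousLinearMap.fst ℝ (Eu (n + 1)) (Eu (n + 1))).hasFDerivAt.comp x hD
  have hy : HasFDerivAt (fun u => (p.1 u).1.2) ((ContinuousLinearMap.snd ℝ _ _).comp (fderiv ℝ (fun u => (p.1 u).1) x)) x :=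
    (ContinuousLinearMap.snd ℝ (Eu (n + 1)) (Eu (n + 1))).hasFDerivAt.comp x hD
  have hrange : LinearMap.range (fderiv ℝ (fun u => (p.1 u).1) x : V N →ₗ[ℝ] Eu (n + 1) × Eu (n + 1)) ≤
      LinearMap.ker (tgt (p.1 x).1.1 (p.1 x).1.2) := by
    rintro _ ⟨v, rfl⟩
    rw [LinearMap.mem_ker]
    have e1 : ⟪(p.1 x).1.1, (fderiv ℝ (fun u => (p.1 u).1) x v).1⟫ = 0 := by
      have h2 : (fun u => ⟪(p.1 u).1.1, (p.1 u).1.1⟫) = fun _ => (1 : ℝ) := funext fun u => stxx _
      have h3 := hx.inner ℝ hx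
      rw [h2] at h3
      have h4 := congrArg (fun L : V N →L[ℝ] ℝ => L v) (h3.unique (hasFDerivAt_const _ _))
      simp at h4
      have h5 := real_inner_comm (p.1 x).1.1 (fderiv ℝ (fun u => (p.1 u).1) x v).1
      linarith
    have e2 : ⟪(p.1 x).1.2, (fderiv ℝ (fun u => (p.1 u).1) x v).2⟫ = 0 := by
      have h2 : (fun u => ⟪(p.1 u).1.2, (p.1 u).1.2⟫) = fun _ => (1 : ℝ) := funext fun u => styy _
      have h3 := hy.inner ℝ hy
      rw [h2] at h3
      have h4 := congrArg (fun L : V N →L[ℝ] ℝ => L v) (h3.unique (hasFDerivAt_const _ _))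
      simp at h4
      have h5 := real_inner_comm (p.1 x).1.2 (fderiv ℝ (fun u => (p.1 u).1) x v).2
      linarith
    have e3 : ⟪(p.1 x).1.1, (fderiv ℝ (fun u => (p.1 u).1) x v).2⟫ + ⟪(p.1 x).1.2, (fderiv ℝ (fun u => (p.1 u).1) x v).1⟫ = 0 := by
      have h2 : (fun u => ⟪(p.1 u).1.1, (p.1 u).1.2⟫) = fun _ => (0 : ℝ) := funext fun u => stxy _
      have h3 := hx.inner ℝ hy
      rw [h2] at h3
      have h4 := congrArg (fun L : V N →L[ℝ] ℝ => L v) (h3.unique (hasFDerivAt_const _ _))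
      simp at h4
      have h5 := real_inner_comm (p.1 x).1.2 (fderiv ℝ (fun u => (p.1 u).1) x v).1
      linarith
    change (⟪(p.1 x).1.1, (fderiv ℝ (fun u => (p.1 u).1) x v).1⟫, ⟪(p.1 x).1.2, (fderiv ℝ (fun u => (p.1 u).1) x v).2⟫,
      ⟪(p.1 x).1.1, (fderiv ℝ (fun u => (p.1 u).1) x v).2⟫ + ⟪(p.1 x).1.2, (fderiv ℝ (fun u => (p.1 u).1) x v).1⟫) = 0
    rw [e1, e2, e3]
    rfl
  have h1 := Submodule.finrank_mono hrange
  unfold rkP
  omega

/-- forms of degree at least `2n` vanish -/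
theorem deg_zero_of_dim {w : Om (spSt n)} (hw : Deg j w) (h : 2 * n ≤ j) : w = 0 :=
  Om_ext fun k p => ev_ext fun x => by
    rw [on_zero, map_zero]
    exact deg_rank_zero hw p (by have := rk_dim p x; omega)

theorem d_top {w : Om (spSt n)} (hw : Deg j w) (h : 2 * n ≤ j + 1) : dO _ w = 0 := deg_zero_of_dim (Deg_d hw) h

end Pool.Agent.Lib.MP_ccbbf6_gt.L7
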